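import Pool.Agent.Lib.MP_10e784_agQ.QH

/-! The theorem: both parts together. -/

set_option autoImplicit false

open Classical

namespace HNQ

open Finset Polynomial FGO FQQ HNF

theorem QFin_LL (δ : ℝ) (hδ : 0 < δ) : ∃ N2 : ℕ, 16 ≤ N2 ∧ ∀ N : ℕ, N2 ≤ N →
    0 < Real.log (Real.log N) ∧ 1 / Real.log (Real.log N) ≤ δ := by
  refine ⟨max 16 ⌈Real.exp (Real.exp (1 / δ))⌉₊, le_max_left _ _, fun N hN => ?_⟩
  have h1 : Real.exp (Real.exp (1 / δ)) ≤ N :=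
    (Nat.le_ceil _).trans (by exact_mod_cast (le_max_right _ _).trans hN)
  have h2 : Real.exp (1 / δ) ≤ Real.log N := by
    rw [Real.le_log_iff_exp_le (lt_of_lt_of_le (Real.exp_pos _) h1)]
    exact h1
  have h3 : 1 / δ ≤ Real.log (Real.log N) := by
    rw [Real.le_log_iff_exp_le (lt_of_lt_of_le (Real.exp_pos _) h2)]
    exact h2
  have h4 : 0 < 1 / δ := by positivity
  have h5 : 0 < Real.log (Real.log N) := lt_of_lt_of_le h4 h3
  refine ⟨h5, ?_⟩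
  rw [div_le_iff₀ h5]
  rw [div_le_iff₀ hδ] at h3
  linarith

/-- fewer conditions, more data -/
theorem QFin_mono (H N : ℕ) (P Q : Dt → Prop) (h : ∀ q, P q → Q q) :
    Nat.card {q : Dt // InBox H N q ∧ P q} ≤ Nat.card {q : Dt // InBox H N q ∧ Q q} := by
  rw [card_Dt, card_Dt]
  refine card_le_card fun s hs => ?_
  rw [mem_filter] at hs ⊢
  exact ⟨hs.1, h _ hs.2⟩

theorem QFin_union (H N : ℕ) (P Q R : Dt → Prop) (h : ∀ q, P q → Q q ∨ R q) :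
    Nat.card {q : Dt // InBox H N q ∧ P q} ≤
      Nat.card {q : Dt // InBox H N q ∧ Q q} + Nat.card {q : Dt // InBox H N q ∧ R q} := by
  rw [card_Dt, card_Dt, card_Dt]
  refine le_trans (card_le_card (t := (Bx 5 H N).filter (fun s => Q (s.2, s.1)) ∪ (Bx 5 H N).filter (fun s => R (s.2, s.1)))
    fun s hs => ?_) (card_union_le _ _)
  rw [mem_filter] at hs
  rw [mem_union, mem_filter, mem_filter]
  rcases h _ hs.2 with h1 | h1
  · exact Or.inl ⟨hs.1, h1⟩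
  · exact Or.inr ⟨hs.1, h1⟩

theorem thm_Q (K : ℕ) (hK : 5 ≤ K) : ∃ c C : ℝ, 0 < c ∧ ∃ N₀ : ℕ, ∀ N : ℕ, N₀ ≤ N →
    (Nat.card {q : Dt // InBox (N ^ K) N q ∧ HasOddPoint q} : ℝ) ≤
      C * (N : ℝ) ^ (6 * K + 6) / Real.log (Real.log N) ∧
    c * (N : ℝ) ^ (6 * K + 6) ≤
      (Nat.card {q : Dt // InBox (N ^ K) N q ∧ Smooth q ∧ HasPoint ℝ q ∧
        (∀ (p : ℕ) [Fact p.Prime], HasPoint ℚ_[p] q) ∧ ¬ HasOddPoint q} : ℝ) := by
  obtain ⟨C, hC, h1⟩ := part1_Q K hK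
  obtain ⟨c, hc, N₁, h2⟩ := part2_Q K hK
  obtain ⟨N₂, hN₂, hLL⟩ := QFin_LL (c / (2 * C)) (by positivity)
  refine ⟨c / 2, C, by positivity, max N₁ N₂, fun N hN => ?_⟩
  have hN1 : N₁ ≤ N := (le_max_left _ _).trans hN
  have hN2 : N₂ ≤ N := (le_max_right _ _).trans hN
  obtain ⟨hL0, hL1⟩ := hLL N hN2
  have a1 := h1 N (hN₂.trans hN2)
  have a2 := h2 N hN1
  have b1 : (Nat.card {q : Dt // InBox (N ^ K) N q ∧ HasOddPoint q} : ℝ) ≤
      C * (N : ℝ) ^ (6 * K + 6) / Real.log (Real.log N) := by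
    refine le_trans ?_ a1
    exact_mod_cast QFin_mono (N ^ K) N HasOddPoint (fun q => Adelic q ∨ HasOddPoint q) fun q hq => Or.inr hq
  refine ⟨b1, ?_⟩
  have b2 := QFin_union (N ^ K) N
    (fun q => Smooth q ∧ HasPoint ℝ q ∧ ∀ (p : ℕ) [Fact p.Prime], HasPoint ℚ_[p] q) HasOddPoint
    (fun q => Smooth q ∧ HasPoint ℝ q ∧ (∀ (p : ℕ) [Fact p.Prime], HasPoint ℚ_[p] q) ∧ ¬ HasOddPoint q) (by
      intro q hq
      by_cases h : HasOddPoint q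
      · exact Or.inl h
      · exact Or.inr ⟨hq.1, hq.2.1, hq.2.2, h⟩)
  have b3 : (Nat.card {q : Dt // InBox (N ^ K) N q ∧ Smooth q ∧ HasPoint ℝ q ∧ ∀ (p : ℕ) [Fact p.Prime], HasPoint ℚ_[p] q} : ℝ) ≤
      (Nat.card {q : Dt // InBox (N ^ K) N q ∧ HasOddPoint q} : ℝ) +
      (Nat.card {q : Dt // InBox (N ^ K) N q ∧ Smooth q ∧ HasPoint ℝ q ∧
        (∀ (p : ℕ) [Fact p.Prime], HasPoint ℚ_[p] q) ∧ ¬ HasOddPoint q} : ℝ) := by
    exact_mod_cast b2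
  have hX : (0 : ℝ) ≤ (N : ℝ) ^ (6 * K + 6) := by positivity
  have b4 : C * (N : ℝ) ^ (6 * K + 6) / Real.log (Real.log N) ≤ c / 2 * (N : ℝ) ^ (6 * K + 6) := by
    calc C * (N : ℝ) ^ (6 * K + 6) / Real.log (Real.log N)
        = C * (N : ℝ) ^ (6 * K + 6) * (1 / Real.log (Real.log N)) := by ring
      _ ≤ C * (N : ℝ) ^ (6 * K + 6) * (c / (2 * C)) := mul_le_mul_of_nonneg_left hL1 (by positivity)
      _ = c / 2 * (N : ℝ) ^ (6 * K + 6) := by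
        field_simp
  linarith

end HNQ
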