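import Pool.Agent.Lib.MP_10e784_agQ.QSDefs

/-! Total degrees, the derivation. -/

set_option autoImplicit false

open Classical

namespace HNQ

open Finset Polynomial

section

variable {K : Type} [Field K]

/-- Proof. `Polynomial.sum_def`, `finset_sum_coeff`, `coeff_monomial`. -/
theorem coeff_dX (g : K[X][X]) (b : ℕ) : (dX g).coeff b = derivative (g.coeff b) := by
  unfold dX
  rw [Polynomial.sum_def, finsetSum_coeff]
  simp only [coeff_monomial]
  rw [Finset.sum_ite_eq']
  split_ifs with h
  · rfl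
  · rw [notMem_support_iff.mp h, derivative_zero]

theorem TD.add {n : ℕ} {g h : K[X][X]} (hg : TD n g) (hh : TD n h) : TD n (g + h) := by
  intro b hb
  rw [coeff_add] at hb ⊢
  by_cases h1 : g.coeff b = 0
  · rw [h1, zero_add] at hb ⊢
    exact hh b hb
  · by_cases h2 : h.coeff b = 0
    · rw [h2, add_zero] at hb ⊢
      exact hg b hb
    · have e1 := hg b h1
      have e2 := hh b h2
      have e3 := natDegree_add_le (g.coeff b) (h.coeff b)
      omega

theorem TD.neg {n : ℕ} {g : K[X][X]} (hg : TD n g) : TD n (-g) := by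
  intro b hb
  rw [coeff_neg] at hb ⊢
  rw [natDegree_neg]
  exact hg b (neg_ne_zero.mp hb)

theorem TD.sub {n : ℕ} {g h : K[X][X]} (hg : TD n g) (hh : TD n h) : TD n (g - h) := by
  rw [sub_eq_add_neg]
  exact hg.add hh.neg

theorem TD.mono {n m : ℕ} {g : K[X][X]} (hg : TD n g) (hnm : n ≤ m) : TD m g := by
  intro b hb
  exact (hg b hb).trans hnm

/-- Proof. `coeff_mul`, `natDegree_sum_le_of_forall_le`; a product of two coefficients which is not zero has both factors not zero. -/
theorem TD.mul {n m : ℕ} {g h : K[X][X]} (hg : TD n g) (hh : TD m h) : TD (n + m) (g * h) := by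
  intro b hb
  rw [coeff_mul] at hb ⊢
  obtain ⟨x, hx, hne⟩ := Finset.exists_ne_zero_of_sum_ne_zero hb
  have key : ∀ y ∈ antidiagonal b, g.coeff y.1 * h.coeff y.2 ≠ 0 →
      (g.coeff y.1 * h.coeff y.2).natDegree + b ≤ n + m := by
    intro y hy hy0
    have e1 := hg y.1 (left_ne_zero_of_mul hy0)
    have e2 := hh y.2 (right_ne_zero_of_mul hy0)
    have e3 := natDegree_mul_le (p := g.coeff y.1) (q := h.coeff y.2)
    have e4 := mem_antidiagonal.mp hy
    omega
  have e5 := key x hx hne
  have e6 : (∑ y ∈ antidiagonal b, g.coeff y.1 * h.coeff y.2).natDegree ≤ n + m - b := by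
    refine natDegree_sum_le_of_forall_le _ _ fun y hy => ?_
    by_cases hy0 : g.coeff y.1 * h.coeff y.2 = 0
    · rw [hy0, natDegree_zero]
      exact Nat.zero_le _
    · have := key y hy hy0
      omega
  omega

theorem QS1_TD_zero (n : ℕ) : TD n (0 : K[X][X]) := by
  intro b hb
  rw [coeff_zero] at hb
  exact absurd rfl hb

theorem TD.sum {ι : Type} {n : ℕ} (s : Finset ι) (g : ι → K[X][X]) (h : ∀ i ∈ s, TD n (g i)) : TD n (∑ i ∈ s, g i) := by
  induction s using Finset.induction_on with
  | empty =>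
    rw [Finset.sum_empty]
    exact QS1_TD_zero n
  | insert i s hi ih =>
    rw [Finset.sum_insert hi]
    exact (h i (Finset.mem_insert_self i s)).add (ih fun j hj => h j (Finset.mem_insert_of_mem hj))

theorem TD_mon (a b : ℕ) (c : K) : TD (a + b) (monomial b (monomial a c) : K[X][X]) := by
  intro b' hb
  rw [coeff_monomial] at hb ⊢
  split_ifs at hb ⊢ with h
  · have := natDegree_monomial_le c (m := a)
    omega
  · exact absurd rfl hb

theorem TD_C (c : K[X]) {n : ℕ} (h : c.natDegree ≤ n) : TD n (C c : K[X][X]) := by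
  intro b hb
  rw [coeff_C] at hb ⊢
  split_ifs at hb ⊢ with h0
  · omega
  · exact absurd rfl hb

theorem TD_X_pow (b : ℕ) : TD b ((X : K[X][X]) ^ b) := by
  intro b' hb
  rw [coeff_X_pow] at hb ⊢
  split_ifs at hb ⊢ with h0
  · rw [natDegree_one]
    omega
  · exact absurd rfl hb

theorem TD.pow {n : ℕ} {g : K[X][X]} (hg : TD n g) (k : ℕ) : TD (n * k) (g ^ k) := by
  induction k with
  | zero =>
    rw [pow_zero, Nat.mul_zero, ← C_1]
    exact TD_C 1 (le_of_eq natDegree_one)
  | succ k ih =>
    rw [pow_succ, Nat.mul_succ]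
    exact ih.mul hg

theorem QS1_TD_dX {n : ℕ} {g : K[X][X]} (hg : TD (n + 1) g) : TD n (dX g) := by
  intro b hb
  rw [coeff_dX] at hb ⊢
  have h0 : g.coeff b ≠ 0 := by
    intro h
    rw [h, derivative_zero] at hb
    exact hb rfl
  have h1 : (g.coeff b).natDegree ≠ 0 := fun h => hb (derivative_of_natDegree_zero h)
  have h2 := natDegree_derivative_lt h1
  have h3 := hg b h0
  omega

theorem QS1_TD_der {n : ℕ} {g : K[X][X]} (hg : TD (n + 1) g) : TD n (derivative g) := by
  intro b hb
  rw [coeff_derivative] at hb ⊢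
  have h0 := hg (b + 1) (left_ne_zero_of_mul hb)
  have h1 := natDegree_mul_le (p := g.coeff (b + 1)) (q := ((b : K[X]) + 1))
  have h2 : ((b : K[X]) + 1).natDegree = 0 := by
    have e : ((b : K[X]) + 1) = ((b + 1 : ℕ) : K[X]) := by push_cast; rfl
    rw [e, natDegree_natCast]
  omega

theorem QS1_dX_zero_of {g : K[X][X]} (hg : TD 0 g) : dX g = 0 := by
  refine Polynomial.ext fun b => ?_
  rw [coeff_dX, coeff_zero]
  by_cases h : g.coeff b = 0
  · rw [h, derivative_zero]
  · have := hg b h
    exact derivative_of_natDegree_zero (by omega)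

theorem QS1_der_zero_of {g : K[X][X]} (hg : TD 0 g) : derivative g = 0 := by
  refine Polynomial.ext fun b => ?_
  rw [coeff_derivative, coeff_zero]
  by_cases h : g.coeff (b + 1) = 0
  · rw [h, zero_mul]
  · have := hg (b + 1) h
    omega

/-- Proof. `(derivative f)` has total degree `≤ 3`, `dX f` too; a coefficient of `dX g` which is not zero has degree at least one less than the coefficient of `g` (`natDegree_derivative_lt` ..; if the derivative is not zero then the coefficient is not constant), the coefficient `b` of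
`derivative g` is `(b + 1) * g.coeff (b + 1)`. If `n = 0` then `dX g = 0` and `derivative g = 0`; if `n = n' + 1` then both have total degree `≤ n'` and `TD.mul`, `TD.sub`: `3 + n' = n + 2`. -/
theorem TD.Dd {f g : K[X][X]} {n : ℕ} (hf : TD 4 f) (hg : TD n g) : TD (n + 2) (Dd f g) := by
  have h1 : TD 3 (derivative f) := QS1_TD_der hf
  have h2 : TD 3 (dX f) := QS1_TD_dX hf
  unfold HNQ.Dd
  rcases n with _ | n
  · rw [QS1_dX_zero_of hg, QS1_der_zero_of hg, mul_zero, mul_zero, sub_zero]
    exact QS1_TD_zero _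
  · have h3 : TD n (derivative g) := QS1_TD_der hg
    have h4 : TD n (dX g) := QS1_TD_dX hg
    have e : n + 1 + 2 = 3 + n := by omega
    rw [e]
    exact (h1.mul h4).sub (h2.mul h3)

theorem TD.Dd_iter {f g : K[X][X]} {n : ℕ} (hf : TD 4 f) (hg : TD n g) (k : ℕ) : TD (n + 2 * k) ((HNQ.Dd f)^[k] g) := by
  induction k with
  | zero => simpa using hg
  | succ k ih =>
    rw [Function.iterate_succ_apply']
    have e : n + 2 * (k + 1) = n + 2 * k + 2 := by ring
    rw [e]
    exact TD.Dd hf ih

theorem QS1_dX_add (g h : K[X][X]) : dX (g + h) = dX g + dX h := by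
  refine Polynomial.ext fun b => ?_
  rw [coeff_add, coeff_dX, coeff_dX, coeff_dX, coeff_add, derivative_add]

theorem QS1_dX_sub (g h : K[X][X]) : dX (g - h) = dX g - dX h := by
  refine Polynomial.ext fun b => ?_
  rw [coeff_sub, coeff_dX, coeff_dX, coeff_dX, coeff_sub, derivative_sub]

theorem QS1_dX_mul (g h : K[X][X]) : dX (g * h) = dX g * h + g * dX h := by
  refine Polynomial.ext fun b => ?_
  rw [coeff_dX, coeff_add, coeff_mul, coeff_mul, coeff_mul, derivative_sum, ← Finset.sum_add_distrib]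
  refine Finset.sum_congr rfl fun x _ => ?_
  rw [derivative_mul, coeff_dX, coeff_dX]

theorem QS1_dX_C (L : K[X]) : dX (C L) = C (derivative L) := by
  refine Polynomial.ext fun b => ?_
  rw [coeff_dX, coeff_C, coeff_C]
  split_ifs with h
  · rfl
  · exact derivative_zero

theorem Dd_add (f g h : K[X][X]) : Dd f (g + h) = Dd f g + Dd f h := by
  unfold Dd
  rw [QS1_dX_add, derivative_add]
  ring

theorem Dd_sub (f g h : K[X][X]) : Dd f (g - h) = Dd f g - Dd f h := by
  unfold Dd
  rw [QS1_dX_sub, derivative_sub]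
  ring

/-- Proof. `coeff_dX`, `coeff_mul`, `derivative_mul` give the rule for `dX`; `derivative_mul`; `ring`. -/
theorem Dd_mul (f g h : K[X][X]) : Dd f (g * h) = Dd f g * h + g * Dd f h := by
  unfold Dd
  rw [QS1_dX_mul, derivative_mul]
  ring

theorem Dd_self (f : K[X][X]) : Dd f f = 0 := by
  unfold Dd
  ring

theorem Dd_CC (f : K[X][X]) (c : K) : Dd f (C (C c)) = 0 := by
  unfold Dd
  rw [QS1_dX_C, derivative_C, derivative_C, C_0, mul_zero, mul_zero, sub_zero]

theorem Dd_C (f : K[X][X]) (L : K[X]) : Dd f (C L) = derivative f * C (derivative L) := by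
  unfold Dd
  rw [QS1_dX_C, derivative_C, mul_zero, sub_zero]

theorem Dd_smul (f g : K[X][X]) (c : K) : Dd f (C (C c) * g) = C (C c) * Dd f g := by
  rw [Dd_mul, Dd_CC, zero_mul, zero_add]

theorem QS1_Dd_pow (f g : K[X][X]) (n : ℕ) : Dd f (g ^ n) = n * g ^ (n - 1) * Dd f g := by
  induction n with
  | zero =>
    rw [pow_zero, ← C_1, ← C_1, Dd_CC]
    simp
  | succ n ih =>
    rw [pow_succ, Dd_mul, ih]
    rcases n with _ | n
    · simp
    · have e1 : n + 1 - 1 = n := rfl
      have e2 : n + 1 + 1 - 1 = n + 1 := rfl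
      rw [e1, e2]
      push_cast
      ring

/-- Proof. Induction on `n` from `Dd_mul`: `Dd f (g ^ n) = n * g ^ (n - 1) * Dd f g`; `(p : K[X][X]) = 0`. -/
theorem Dd_pow_p (p : ℕ) [Fact p.Prime] [CharP K p] (f g : K[X][X]) : Dd f (g ^ p) = 0 := by
  rw [QS1_Dd_pow, CharP.cast_eq_zero (K[X][X]) p, zero_mul, zero_mul]

/-- `p`-th powers are constants for all the iterates. Proof. Induction on `k`, `Dd_mul`, `Dd_pow_p`. -/
theorem Dd_iter_mul_pow_p (p : ℕ) [Fact p.Prime] [CharP K p] (f g a : K[X][X]) (k : ℕ) :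
    (Dd f)^[k] (a * g ^ p) = (Dd f)^[k] a * g ^ p := by
  induction k with
  | zero => rfl
  | succ k ih =>
    rw [Function.iterate_succ_apply', Function.iterate_succ_apply', ih, Dd_mul, Dd_pow_p, mul_zero, add_zero]

theorem QS1_Dd_sum {ι : Type} (s : Finset ι) (f : K[X][X]) (g : ι → K[X][X]) :
    Dd f (∑ i ∈ s, g i) = ∑ i ∈ s, Dd f (g i) := by
  induction s using Finset.induction_on with
  | empty =>
    rw [Finset.sum_empty, Finset.sum_empty]
    have h := Dd_CC f (0 : K)
    rwa [C_0, C_0] at h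
  | insert i s hi ih => rw [Finset.sum_insert hi, Finset.sum_insert hi, Dd_add, ih]

theorem Dd_iter_sum {ι : Type} (s : Finset ι) (f : K[X][X]) (g : ι → K[X][X]) (k : ℕ) :
    (Dd f)^[k] (∑ i ∈ s, g i) = ∑ i ∈ s, (Dd f)^[k] (g i) := by
  induction k with
  | zero => rfl
  | succ k ih =>
    rw [Function.iterate_succ_apply', ih, QS1_Dd_sum]
    refine Finset.sum_congr rfl fun i _ => ?_
    rw [Function.iterate_succ_apply']

theorem Dd_iter_smul (f g : K[X][X]) (c : K) (k : ℕ) : (Dd f)^[k] (C (C c) * g) = C (C c) * (Dd f)^[k] g := by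
  induction k with
  | zero => rfl
  | succ k ih =>
    rw [Function.iterate_succ_apply', Function.iterate_succ_apply', ih, Dd_smul]

/-- Proof. Induction on `k` (`Dd_mul`, `Dd_self`). -/
theorem Dd_iter_self_mul (f g : K[X][X]) (k : ℕ) : (Dd f)^[k] (f * g) = f * (Dd f)^[k] g := by
  induction k with
  | zero => rfl
  | succ k ih =>
    rw [Function.iterate_succ_apply', Function.iterate_succ_apply', ih, Dd_mul, Dd_self, zero_mul, zero_add]

end

end HNQ
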