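import Pool.Agent.Lib.MP_10e784_agQ.QBase
import Pool.Agent.Lib.MP_1ad228_ntH.HB1

/-! The form `Bq` (the resultant with respect to `y`), its factorisations, the resultant `RQ`. -/

set_option autoImplicit false

open Classical

namespace HNQ

open Finset Polynomial FGO FQQ HNF

/-- Proof. `unfold hv Bq`, `Fin.sum_univ_five`, `simp`, `ring`. -/
theorem hv_Bq {F : Type} [CommRing F] (c : Fin 6 → F) (w : F × F × F) (x z : F) :
    hv (Bq c w) x z =
      (c 5 * (w.2.2 * z ^ 2) - (c 4 * x ^ 2 + c 1 * x * z + c 0 * z ^ 2) * w.1) ^ 2 -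
      (c 5 * (w.2.1 * z) - (c 3 * x + c 2 * z) * w.1) *
        ((c 3 * x + c 2 * z) * (w.2.2 * z ^ 2) - (c 4 * x ^ 2 + c 1 * x * z + c 0 * z ^ 2) * (w.2.1 * z)) := by
  unfold hv Bq
  rw [Fin.sum_univ_five]
  simp only [Matrix.cons_val_zero, Matrix.cons_val_one, Matrix.cons_val, Fin.val_zero, Fin.val_one,
    Fin.val_two]
  norm_num
  ring

/-- the resultant is a combination of the two forms. Proof. `hv_Bq`, `unfold hA qv`, `ring`. -/
theorem Bq_comb {F : Type} [CommRing F] (c : Fin 6 → F) (w : F × F × F) (x y z : F) :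
    hv (Bq c w) x z =
      ((c 5 * (w.2.2 * z ^ 2) - (c 4 * x ^ 2 + c 1 * x * z + c 0 * z ^ 2) * w.1) * c 5 -
        (c 5 * (w.2.1 * z) - (c 3 * x + c 2 * z) * w.1) * (c 5 * y + (c 3 * x + c 2 * z))) * qv w y z +
      (-(c 5 * (w.2.2 * z ^ 2) - (c 4 * x ^ 2 + c 1 * x * z + c 0 * z ^ 2) * w.1) * w.1 +
        (c 5 * (w.2.1 * z) - (c 3 * x + c 2 * z) * w.1) * (w.1 * y + w.2.1 * z)) * hA c x y z := by
  rw [hv_Bq]
  unfold hA qv
  ring

theorem map_Bq {F F' : Type} [CommRing F] [CommRing F'] (φ : F →+* F') (c : Fin 6 → F) (w : F × F × F) (i : Fin 5) :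
    φ (Bq c w i) = Bq (fun j => φ (c j)) (φ w.1, φ w.2.1, φ w.2.2) i := by
  have h2 : φ 2 = 2 := map_ofNat φ 2
  fin_cases i <;> simp [Bq, h2]

theorem RQ_map {F F' : Type} [CommRing F] [CommRing F'] (φ : F →+* F') (c : Fin 6 → F) (v w : F × F × F) :
    φ (RQ c v w) = RQ (fun j => φ (c j)) (φ v.1, φ v.2.1, φ v.2.2) (φ w.1, φ w.2.1, φ w.2.2) := by
  unfold RQ
  rw [HNF.Rs_map]
  congr 1
  funext i
  exact map_Bq φ c w i

theorem RQ_cast (n : ℕ) (c : Vn 5) (v w : V) : ((RQ c v w : ℤ) : ZMod n) = RQ (cN n c) (cV n v) (cV n w) := by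
  exact RQ_map (Int.castRingHom (ZMod n)) c v w

/-- Proof. `hv_Bq`, `ring`. -/
theorem hv_Bq_split {F : Type} [CommRing F] (c : Fin 6 → F) (b q q' x z : F) :
    hv (Bq c (b, -(b * (q + q')), b * q * q')) x z = b ^ 2 * (hA c x (q * z) z * hA c x (q' * z) z) := by
  rw [hv_Bq]
  unfold hA
  ring

/-- Proof. `Rs_split` (file RC of FQQ, `m = 4`). -/
theorem RQ_vsplit {F : Type} [CommRing F] (c : Fin 6 → F) (w : F × F × F) (a r s : F) :
    RQ c (a, -(a * (r + s)), a * r * s) w = a ^ 4 * hv (Bq c w) r 1 * hv (Bq c w) s 1 := by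
  unfold RQ
  rw [Rs_split]

theorem QB1_Pf_Aq {F : Type} [CommRing F] (c : Fin 6 → F) (q : F) :
    Pf (Aq c q) = hA (fun j => C (c j)) X (C q) 1 := by
  unfold Pf Aq hA
  rw [Fin.sum_univ_three]
  simp only [Matrix.cons_val_zero, Matrix.cons_val_one, Matrix.cons_val, Fin.val_zero, Fin.val_one,
    Fin.val_two, map_add, map_mul, map_pow]
  ring

/-- Proof. `Pf (Bq c w) = C (b ^ 2) * (Pf (Aq c q) * Pf (Aq c q'))` (both sides explicitly, `ring`), `Polynomial.resultant_C_mul_left` (as in `Rg_split` of HB1), `HNF.res_mul` with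
`m1 = m2 = 2`: `RQ = (b ^ 2) ^ 2 * (Rs (Aq c q) v * Rs (Aq c q') v)`. -/
theorem RQ_wsplit {F : Type} [CommRing F] (c : Fin 6 → F) (v : F × F × F) (b q q' : F) :
    RQ c v (b, -(b * (q + q')), b * q * q') = b ^ 4 * (Rs (Aq c q) v * Rs (Aq c q') v) := by
  have h0 : Pf (Bq c (b, -(b * (q + q')), b * q * q')) =
      C (b ^ 2) * (Pf (Aq c q) * Pf (Aq c q')) := by
    have h1 : (fun i => C (Bq c (b, -(b * (q + q')), b * q * q') i)) =
        Bq (fun j => C (c j)) (C b, -(C b * (C q + C q')), C b * C q * C q') := by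
      funext i
      rw [map_Bq C c]
      simp only [map_neg, map_mul, map_add]
    rw [HNF.HA1_Pf, h1, hv_Bq_split, QB1_Pf_Aq, QB1_Pf_Aq, map_pow]
    simp only [mul_one]
  have h3 : (Pq v).natDegree ≤ 2 := by
    unfold Pq
    compute_degree
  have h4 := HNF.res_mul (Pf (Aq c q)) (Pf (Aq c q')) (Pq v) 2 2 2 (natDegree_Pf _) (natDegree_Pf _) h3
  unfold RQ Rs
  rw [h0, resultant_C_mul_left]
  have h5 : (Pf (Aq c q) * Pf (Aq c q')).resultant (Pq v) 4 2 =
      (Pf (Aq c q)).resultant (Pq v) 2 2 * (Pf (Aq c q')).resultant (Pq v) 2 2 := h4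
  rw [h5]
  ring

theorem Mon_eQ : Mon 5 eQ := by
  refine ⟨by omega, by decide, by decide, by decide, by decide⟩

theorem hl_eQ {F : Type} [CommRing F] (c : Fin 6 → F) (r q : F) : hl eQ c r q = hA c r q 1 := by
  unfold hl hA
  rw [Fin.sum_univ_six]
  have e0 : eQ 0 = (0, 0) := by decide
  have e1 : eQ 1 = (1, 0) := by decide
  have e2 : eQ 2 = (0, 1) := by decide
  have e3 : eQ 3 = (1, 1) := by decide
  have e4 : eQ 4 = (2, 0) := by decide
  have e5 : eQ 5 = (0, 2) := by decide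
  have v0 : ((0 : Fin 6) : ℕ) = 0 := rfl
  have v1 : ((1 : Fin 6) : ℕ) = 1 := rfl
  have v2 : ((2 : Fin 6) : ℕ) = 2 := rfl
  have v3 : ((3 : Fin 6) : ℕ) = 3 := rfl
  have v4 : ((4 : Fin 6) : ℕ) = 4 := rfl
  have v5 : ((5 : Fin 6) : ℕ) = 5 := rfl
  rw [v0, v1, v2, v3, v4, v5, e0, e1, e2, e3, e4, e5]
  ring

theorem vV_eq {F : Type} [CommRing F] (v : V) (x z : F) : vV v x z = qv ((v.1 : F), (v.2.1 : F), (v.2.2 : F)) x z := rfl

theorem vA_eq {F : Type} [CommRing F] (c : Fin 6 → ℤ) (x y z : F) : vA c x y z = hA (fun i => (c i : F)) x y z := rfl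

end HNQ
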