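import Pool.Agent.Lib.MP_10e784_agQ.QB1
import Pool.Agent.Lib.MP_1ad228_ntH.HB2

/-! Common zeros modulo `p`; the resultant is a square modulo the primes dividing a discriminant. -/

set_option autoImplicit false

open Classical

namespace HNQ

open Finset Polynomial FGO FQQ HNF

/-- Proof. (Model: `HNF.Ez_of_Rg`.) `split_of_sq` for `v` and `w`; `RQ_vsplit`, `hv_Bq_split`: one of the four numbers `hA c r (q * 1) 1` vanishes; `hl_eQ`. -/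
theorem Ez_of_RQ {F : Type} [Field F] (h2 : (2 : F) ≠ 0) (c : Fin 6 → F) (v w : F × F × F)
    (hv : v.1 ≠ 0) (hw1 : w.1 ≠ 0) (hdv : IsSquare (ds v)) (hdw : IsSquare (ds w)) (h : RQ c v w = 0) :
    Ez (m := 5) eQ c v w := by
  obtain ⟨r, s, hrs⟩ := split_of_sq h2 v hv hdv
  obtain ⟨q, q', hqq⟩ := split_of_sq h2 w hw1 hdw
  have key : ∀ x : F, FQQ.hv (Bq c w) x 1 = 0 → qv v x 1 = 0 → Ez (m := 5) eQ c v w := by
    intro x hx hvx
    have hw : ∀ y : F, (y = q ∨ y = q') → qv w y 1 = 0 := by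
      intro y hy
      rw [hqq]
      unfold qv
      rcases hy with rfl | rfl <;> ring
    rw [hqq, hv_Bq_split, mul_one, mul_one] at hx
    rcases mul_eq_zero.mp hx with h' | h'
    · exact absurd ((pow_eq_zero_iff (by omega)).mp h') hw1
    · rcases mul_eq_zero.mp h' with h'' | h''
      · exact ⟨x, q, hvx, hw q (Or.inl rfl), by rw [hl_eQ]; exact h''⟩
      · exact ⟨x, q', hvx, hw q' (Or.inr rfl), by rw [hl_eQ]; exact h''⟩
  have hv1 : ∀ y : F, (y = r ∨ y = s) → qv v y 1 = 0 := by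
    intro y hy
    rw [hrs]
    unfold qv
    rcases hy with rfl | rfl <;> ring
  rw [hrs, RQ_vsplit] at h
  rcases mul_eq_zero.mp h with h' | h'
  · rcases mul_eq_zero.mp h' with h'' | h''
    · exact absurd ((pow_eq_zero_iff (by omega)).mp h'') hv
    · exact key r h'' (hv1 r (Or.inl rfl))
  · exact key s h' (hv1 s (Or.inr rfl))

/-- Proof. (Model: `HNF.Sq_Rg_v`.) `v = v.1 (x - r z)²`: `RQ = (v.1 ^ 2 * hv (Bq c w) r 1) ^ 2`. -/
theorem Sq_RQ_v {F : Type} [Field F] (h2 : (2 : F) ≠ 0) (c : Fin 6 → F) (v w : F × F × F)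
    (hv : v.1 ≠ 0) (hd : ds v = 0) (h : RQ c v w ≠ 0) : Sq (RQ c v w) := by
  obtain ⟨r, s, hrs⟩ := split_of_sq h2 v hv ⟨0, by rw [hd, mul_zero]⟩
  have hd2 : v.1 ^ 2 * (r - s) ^ 2 = 0 := by
    rw [← hd]
    have e : ds v = ds (v.1, -(v.1 * (r + s)), v.1 * r * s) := by rw [← hrs]
    rw [e]
    unfold ds
    ring
  have hrs' : r = s := by
    rcases mul_eq_zero.mp hd2 with h' | h'
    · exact absurd (pow_eq_zero_iff (two_ne_zero) |>.mp h') hv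
    · exact sub_eq_zero.mp (pow_eq_zero_iff (two_ne_zero) |>.mp h')
  refine ⟨h, ?_⟩
  rw [hrs, RQ_vsplit, hrs']
  exact ⟨v.1 ^ 2 * FQQ.hv (Bq c w) s 1, by ring⟩

/-- Proof. (Model: `HNF.Sq_Rg_w`.) `q = q'`: `RQ = (w.1 ^ 2 * Rs (Aq c q) v) ^ 2` (`RQ_wsplit`). -/
theorem Sq_RQ_w {F : Type} [Field F] (h2 : (2 : F) ≠ 0) (c : Fin 6 → F) (v w : F × F × F)
    (hw1 : w.1 ≠ 0) (hd : ds w = 0) (h : RQ c v w ≠ 0) : Sq (RQ c v w) := by
  obtain ⟨q, q', hqq⟩ := split_of_sq h2 w hw1 ⟨0, by rw [hd, mul_zero]⟩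
  have hd2 : w.1 ^ 2 * (q - q') ^ 2 = 0 := by
    rw [← hd]
    have e : ds w = ds (w.1, -(w.1 * (q + q')), w.1 * q * q') := by rw [← hqq]
    rw [e]
    unfold ds
    ring
  have hqq' : q = q' := by
    rcases mul_eq_zero.mp hd2 with h' | h'
    · exact absurd (pow_eq_zero_iff (two_ne_zero) |>.mp h') hw1
    · exact sub_eq_zero.mp (pow_eq_zero_iff (two_ne_zero) |>.mp h')
  refine ⟨h, ?_⟩
  rw [hqq, RQ_wsplit, hqq']
  exact ⟨w.1 ^ 2 * Rs (Aq c q') v, by ring⟩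

/-- Proof. Model `HNF.jac_Rg_v` (HB2.lean). -/
theorem jac_RQ_v (c : Vn 5) (v w : V) (p : ℕ) (hp : p.Prime) (h2 : p ≠ 2) (hR : ¬ (p : ℤ) ∣ RQ c v w)
    (hd : (p : ℤ) ∣ ds v) (hv : ¬ (p : ℤ) ∣ v.1) : jacobiSym (RQ c v w) p = 1 := by
  have := Fact.mk hp
  refine HB2_jac _ p hp ?_
  have hR' : ((RQ c v w : ℤ) : ZMod p) ≠ 0 := fun h => hR ((ZMod.intCast_zmod_eq_zero_iff_dvd _ _).1 h)
  rw [RQ_cast] at hR' ⊢
  refine Sq_RQ_v (HB2_two p hp h2) _ (cV p v) (cV p w) ?_ ?_ hR'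
  · exact fun h => hv ((ZMod.intCast_zmod_eq_zero_iff_dvd _ _).1 h)
  · rw [← ds_cast]
    exact (ZMod.intCast_zmod_eq_zero_iff_dvd _ _).2 hd

theorem jac_RQ_w (c : Vn 5) (v w : V) (p : ℕ) (hp : p.Prime) (h2 : p ≠ 2) (hR : ¬ (p : ℤ) ∣ RQ c v w)
    (hd : (p : ℤ) ∣ ds w) (hw1 : ¬ (p : ℤ) ∣ w.1) : jacobiSym (RQ c v w) p = 1 := by
  have := Fact.mk hp
  refine HB2_jac _ p hp ?_
  have hR' : ((RQ c v w : ℤ) : ZMod p) ≠ 0 := fun h => hR ((ZMod.intCast_zmod_eq_zero_iff_dvd _ _).1 h)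
  rw [RQ_cast] at hR' ⊢
  refine Sq_RQ_w (HB2_two p hp h2) _ (cV p v) (cV p w) ?_ ?_ hR'
  · exact fun h => hw1 ((ZMod.intCast_zmod_eq_zero_iff_dvd _ _).1 h)
  · rw [← ds_cast]
    exact (ZMod.intCast_zmod_eq_zero_iff_dvd _ _).2 hd

end HNQ
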