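import Pool.Agent.Lib.MP_10e784_agQ.QB1
import Pool.Agent.Lib.MP_1ad228_ntH.HB2
import Pool.Agent.Lib.MP_1ad228_ntH.LD1
import Pool.Agent.Lib.MP_1ad228_ntH.LD2

/-! The resultant is a norm from both quadratic fields. -/

set_option autoImplicit false

open Classical

namespace HNQ

open Finset Polynomial FGO FQQ HNF

/-- Proof. Copy `HNF.rat_Rg_v` (HB2.lean): `HB2_quad`, `HB2_roots`, `RQ_map`, `RQ_vsplit`; `t = hv (Bq c w) r 1` over `Q`, `σ t = hv (Bq c w) s 1` (`HB2_map_hv`, `map_Bq`); `RQ = v.1 ^ 4 * t * σ t`. -/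
theorem rat_RQ_v (c : Vn 5) (v w : V) (hv : v.1 ≠ 0) :
    ∃ x y : ℚ, ((RQ c v w : ℤ) : ℚ) = x ^ 2 - ((ds v : ℤ) : ℚ) * y ^ 2 := by
  obtain ⟨Q, _, φ, σ, ω, hinj, hω, hσω, hσ, hnorm⟩ := HB2_quad ((ds v : ℤ) : ℚ)
  obtain ⟨r, s, hr, hs, hvs⟩ := HB2_roots φ σ ω v hv hω hσω hσ
  have h1 := RQ_map (φ.comp (Int.castRingHom ℚ)) c v w
  have h2 : ((φ.comp (Int.castRingHom ℚ) v.1, φ.comp (Int.castRingHom ℚ) v.2.1,
      φ.comp (Int.castRingHom ℚ) v.2.2) : Q × Q × Q) = (φ v.1, φ v.2.1, φ v.2.2) := rfl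
  rw [h2, hvs, RQ_vsplit] at h1
  obtain ⟨t, ht⟩ : ∃ t : Q, t = FQQ.hv (Bq (fun j => φ.comp (Int.castRingHom ℚ) (c j))
      (φ.comp (Int.castRingHom ℚ) w.1, φ.comp (Int.castRingHom ℚ) w.2.1,
      φ.comp (Int.castRingHom ℚ) w.2.2)) r 1 := ⟨_, rfl⟩
  have hσt : σ t = FQQ.hv (Bq (fun j => φ.comp (Int.castRingHom ℚ) (c j))
      (φ.comp (Int.castRingHom ℚ) w.1, φ.comp (Int.castRingHom ℚ) w.2.1,
      φ.comp (Int.castRingHom ℚ) w.2.2)) s 1 := by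
    rw [ht, HB2_map_hv, hr, map_one]
    have h3 : ∀ i, σ (Bq (fun j => φ.comp (Int.castRingHom ℚ) (c j))
        (φ.comp (Int.castRingHom ℚ) w.1, φ.comp (Int.castRingHom ℚ) w.2.1,
        φ.comp (Int.castRingHom ℚ) w.2.2) i) = Bq (fun j => φ.comp (Int.castRingHom ℚ) (c j))
        (φ.comp (Int.castRingHom ℚ) w.1, φ.comp (Int.castRingHom ℚ) w.2.1,
        φ.comp (Int.castRingHom ℚ) w.2.2) i := by
      intro i
      rw [map_Bq]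
      simp only [RingHom.coe_comp, Function.comp_apply, hσ]
    simp only [h3]
  rw [← ht, ← hσt, mul_assoc] at h1
  obtain ⟨x, y, hxy⟩ := hnorm t
  rw [hxy] at h1
  refine ⟨v.1 ^ 2 * x, v.1 ^ 2 * y, ?_⟩
  apply hinj
  have h3 : φ ((RQ c v w : ℤ) : ℚ) = (φ.comp (Int.castRingHom ℚ)) (RQ c v w) := rfl
  rw [h3, h1, ← map_pow, ← map_mul]
  congr 1
  ring

/-- Proof. Copy `HNF.rat_Rg_w` (HB2.lean) with `RQ_wsplit`: `t = Rs (Aq c r) v`, `σ t = Rs (Aq c s) v` (`HB2_map_Rs`; the coefficients of `Aq` by cases), `RQ = w.1 ^ 4 * t * σ t`. -/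
theorem rat_RQ_w (c : Vn 5) (v w : V) (hw1 : w.1 ≠ 0) :
    ∃ x y : ℚ, ((RQ c v w : ℤ) : ℚ) = x ^ 2 - ((ds w : ℤ) : ℚ) * y ^ 2 := by
  obtain ⟨Q, _, φ, σ, ω, hinj, hω, hσω, hσ, hnorm⟩ := HB2_quad ((ds w : ℤ) : ℚ)
  obtain ⟨r, s, hr, hs, hvs⟩ := HB2_roots φ σ ω w hw1 hω hσω hσ
  have h1 := RQ_map (φ.comp (Int.castRingHom ℚ)) c v w
  have h2 : ((φ.comp (Int.castRingHom ℚ) w.1, φ.comp (Int.castRingHom ℚ) w.2.1,
      φ.comp (Int.castRingHom ℚ) w.2.2) : Q × Q × Q) = (φ w.1, φ w.2.1, φ w.2.2) := rfl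
  rw [h2, hvs, RQ_wsplit] at h1
  obtain ⟨t, ht⟩ : ∃ t : Q, t = Rs (Aq (fun j => φ.comp (Int.castRingHom ℚ) (c j)) r)
      (φ.comp (Int.castRingHom ℚ) v.1, φ.comp (Int.castRingHom ℚ) v.2.1,
      φ.comp (Int.castRingHom ℚ) v.2.2) := ⟨_, rfl⟩
  have hσt : σ t = Rs (Aq (fun j => φ.comp (Int.castRingHom ℚ) (c j)) s)
      (φ.comp (Int.castRingHom ℚ) v.1, φ.comp (Int.castRingHom ℚ) v.2.1,
      φ.comp (Int.castRingHom ℚ) v.2.2) := by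
    rw [ht, HB2_map_Rs]
    have h3 : (fun i => σ (Aq (fun j => φ.comp (Int.castRingHom ℚ) (c j)) r i)) =
        Aq (fun j => φ.comp (Int.castRingHom ℚ) (c j)) s := by
      funext i
      unfold Aq
      fin_cases i <;>
        simp [hσ, hr]
    rw [h3]
    simp only [RingHom.coe_comp, Function.comp_apply, hσ]
  rw [← ht, ← hσt] at h1
  obtain ⟨x, y, hxy⟩ := hnorm t
  rw [hxy] at h1
  refine ⟨w.1 ^ 2 * x, w.1 ^ 2 * y, ?_⟩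
  apply hinj
  have h3 : φ ((RQ c v w : ℤ) : ℚ) = (φ.comp (Int.castRingHom ℚ)) (RQ c v w) := rfl
  rw [h3, h1, ← map_pow, ← map_mul]
  congr 1
  ring

end HNQ
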