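import Pool.Agent.Lib.MP_10e784_agQ.QB1
import Pool.Agent.Lib.MP_1ad228_ntH.HL0
import Pool.Agent.Lib.MP_10e784_agF.RE

/-! The size of the resultant; the resultant is not zero. -/

set_option autoImplicit false

open Classical

namespace HNQ

open Finset Polynomial FGO FQQ HNF

theorem QB4_mon {a b x y H N : ℤ} (ha : |a| ≤ H) (hb : |b| ≤ H) (hx : |x| ≤ N) (hy : |y| ≤ N) :
    |a * b * x * y| ≤ H ^ 2 * N ^ 2 := by
  have hH : 0 ≤ H := (abs_nonneg a).trans ha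
  have hN : 0 ≤ N := (abs_nonneg x).trans hx
  have h1 : |a| * |b| ≤ H * H := mul_le_mul ha hb (abs_nonneg b) hH
  have h2 : |x| * |y| ≤ N * N := mul_le_mul hx hy (abs_nonneg y) hN
  have h3 : |a| * |b| * (|x| * |y|) ≤ H * H * (N * N) :=
    mul_le_mul h1 h2 (mul_nonneg (abs_nonneg x) (abs_nonneg y)) (mul_nonneg hH hH)
  calc |a * b * x * y| = |a| * |b| * (|x| * |y|) := by
        rw [abs_mul, abs_mul, abs_mul]
        ring
    _ ≤ H * H * (N * N) := h3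
    _ = H ^ 2 * N ^ 2 := by ring

theorem QB4_coeff (c : Vn 5) (w : V) (H N : ℤ) (hc : ∀ i, |c i| ≤ H) (h1 : |w.1| ≤ N)
    (h2 : |w.2.1| ≤ N) (h3 : |w.2.2| ≤ N) (i : Fin 5) : |Bq c w i| ≤ 12 * H ^ 2 * N ^ 2 := by
  have hH : 0 ≤ H := (abs_nonneg (c 0)).trans (hc 0)
  have hN : 0 ≤ N := (abs_nonneg w.1).trans h1
  have hP : 0 ≤ H ^ 2 * N ^ 2 := by positivity
  have m11 : ∀ i j, |c i * c j * w.1 * w.1| ≤ H ^ 2 * N ^ 2 := fun i j => QB4_mon (hc i) (hc j) h1 h1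
  have m12 : ∀ i j, |c i * c j * w.1 * w.2.1| ≤ H ^ 2 * N ^ 2 := fun i j => QB4_mon (hc i) (hc j) h1 h2
  have m13 : ∀ i j, |c i * c j * w.1 * w.2.2| ≤ H ^ 2 * N ^ 2 := fun i j => QB4_mon (hc i) (hc j) h1 h3
  have m22 : ∀ i j, |c i * c j * w.2.1 * w.2.1| ≤ H ^ 2 * N ^ 2 := fun i j => QB4_mon (hc i) (hc j) h2 h2
  have m23 : ∀ i j, |c i * c j * w.2.1 * w.2.2| ≤ H ^ 2 * N ^ 2 := fun i j => QB4_mon (hc i) (hc j) h2 h3
  have m33 : ∀ i j, |c i * c j * w.2.2 * w.2.2| ≤ H ^ 2 * N ^ 2 := fun i j => QB4_mon (hc i) (hc j) h3 h3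
  fin_cases i
  · change |(c 5 * w.2.2 - c 0 * w.1) ^ 2 - (c 5 * w.2.1 - c 2 * w.1) * (c 2 * w.2.2 - c 0 * w.2.1)| ≤ _
    have e : (c 5 * w.2.2 - c 0 * w.1) ^ 2 - (c 5 * w.2.1 - c 2 * w.1) * (c 2 * w.2.2 - c 0 * w.2.1) =
        c 5 * c 5 * w.2.2 * w.2.2 - 2 * (c 5 * c 0 * w.1 * w.2.2) + c 0 * c 0 * w.1 * w.1 -
        c 5 * c 2 * w.2.1 * w.2.2 + c 5 * c 0 * w.2.1 * w.2.1 + c 2 * c 2 * w.1 * w.2.2 -
        c 2 * c 0 * w.1 * w.2.1 := by ring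
    rw [e]
    have a1 := abs_le.1 (m33 5 5)
    have a2 := abs_le.1 (m13 5 0)
    have a3 := abs_le.1 (m11 0 0)
    have a4 := abs_le.1 (m23 5 2)
    have a5 := abs_le.1 (m22 5 0)
    have a6 := abs_le.1 (m13 2 2)
    have a7 := abs_le.1 (m12 2 0)
    rw [abs_le]
    constructor <;> linarith [a1.1, a1.2, a2.1, a2.2, a3.1, a3.2, a4.1, a4.2, a5.1, a5.2, a6.1, a6.2, a7.1, a7.2]
  · change |-2 * (c 1 * w.1) * (c 5 * w.2.2 - c 0 * w.1) + (c 3 * w.1) * (c 2 * w.2.2 - c 0 * w.2.1) -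
      (c 5 * w.2.1 - c 2 * w.1) * (c 3 * w.2.2 - c 1 * w.2.1)| ≤ _
    have e : -2 * (c 1 * w.1) * (c 5 * w.2.2 - c 0 * w.1) + (c 3 * w.1) * (c 2 * w.2.2 - c 0 * w.2.1) -
        (c 5 * w.2.1 - c 2 * w.1) * (c 3 * w.2.2 - c 1 * w.2.1) =
        -2 * (c 1 * c 5 * w.1 * w.2.2) + 2 * (c 1 * c 0 * w.1 * w.1) + c 3 * c 2 * w.1 * w.2.2 -
        c 3 * c 0 * w.1 * w.2.1 - c 5 * c 3 * w.2.1 * w.2.2 + c 5 * c 1 * w.2.1 * w.2.1 +
        c 2 * c 3 * w.1 * w.2.2 - c 2 * c 1 * w.1 * w.2.1 := by ring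
    rw [e]
    have a1 := abs_le.1 (m13 1 5)
    have a2 := abs_le.1 (m11 1 0)
    have a3 := abs_le.1 (m13 3 2)
    have a4 := abs_le.1 (m12 3 0)
    have a5 := abs_le.1 (m23 5 3)
    have a6 := abs_le.1 (m22 5 1)
    have a7 := abs_le.1 (m13 2 3)
    have a8 := abs_le.1 (m12 2 1)
    rw [abs_le]
    constructor <;> linarith [a1.1, a1.2, a2.1, a2.2, a3.1, a3.2, a4.1, a4.2, a5.1, a5.2, a6.1, a6.2, a7.1, a7.2,
      a8.1, a8.2]
  · change |(c 1 * w.1) ^ 2 - 2 * (c 4 * w.1) * (c 5 * w.2.2 - c 0 * w.1) +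
      (c 3 * w.1) * (c 3 * w.2.2 - c 1 * w.2.1) + (c 5 * w.2.1 - c 2 * w.1) * (c 4 * w.2.1)| ≤ _
    have e : (c 1 * w.1) ^ 2 - 2 * (c 4 * w.1) * (c 5 * w.2.2 - c 0 * w.1) +
        (c 3 * w.1) * (c 3 * w.2.2 - c 1 * w.2.1) + (c 5 * w.2.1 - c 2 * w.1) * (c 4 * w.2.1) =
        c 1 * c 1 * w.1 * w.1 - 2 * (c 4 * c 5 * w.1 * w.2.2) + 2 * (c 4 * c 0 * w.1 * w.1) +
        c 3 * c 3 * w.1 * w.2.2 - c 3 * c 1 * w.1 * w.2.1 + c 5 * c 4 * w.2.1 * w.2.1 -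
        c 2 * c 4 * w.1 * w.2.1 := by ring
    rw [e]
    have a1 := abs_le.1 (m11 1 1)
    have a2 := abs_le.1 (m13 4 5)
    have a3 := abs_le.1 (m11 4 0)
    have a4 := abs_le.1 (m13 3 3)
    have a5 := abs_le.1 (m12 3 1)
    have a6 := abs_le.1 (m22 5 4)
    have a7 := abs_le.1 (m12 2 4)
    rw [abs_le]
    constructor <;> linarith [a1.1, a1.2, a2.1, a2.2, a3.1, a3.2, a4.1, a4.2, a5.1, a5.2, a6.1, a6.2, a7.1, a7.2]
  · change |2 * (c 4 * w.1) * (c 1 * w.1) - (c 3 * w.1) * (c 4 * w.2.1)| ≤ _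
    have e : 2 * (c 4 * w.1) * (c 1 * w.1) - (c 3 * w.1) * (c 4 * w.2.1) =
        2 * (c 4 * c 1 * w.1 * w.1) - c 3 * c 4 * w.1 * w.2.1 := by ring
    rw [e]
    have a1 := abs_le.1 (m11 4 1)
    have a2 := abs_le.1 (m12 3 4)
    rw [abs_le]
    constructor <;> linarith [a1.1, a1.2, a2.1, a2.2]
  · change |(c 4 * w.1) ^ 2| ≤ _
    have e : (c 4 * w.1) ^ 2 = c 4 * c 4 * w.1 * w.1 := by ring
    rw [e]
    have a1 := abs_le.1 (m11 4 4)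
    rw [abs_le]
    constructor <;> linarith [a1.1, a1.2]

/-- Proof. Each coefficient of `Bq` is at most `12 H² N²` in absolute value (at most 12 monomials of the form `± c c' w w'`); `FQQ.abs_Rs_le` (file RE) with `m = 4` and `H' = 12 H² N²`: `|RQ| ≤ 6! H'² N⁴ = 720 · 144 H⁴ N⁸`. -/
theorem abs_RQ_le (c : Vn 5) (v w : V) (H N : ℕ) (hc : ∀ i, |c i| ≤ (H : ℤ)) (hv : v ∈ box N) (hw1 : w ∈ box N) :
    |RQ c v w| ≤ 103680 * (H : ℤ) ^ 4 * (N : ℤ) ^ 8 := by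
  obtain ⟨h1, h2, h3⟩ := mem_box.1 hv
  obtain ⟨g1, g2, g3⟩ := mem_box.1 hw1
  have h4 := abs_Rs_le (m := 4) (Bq c w) v (12 * H ^ 2 * N ^ 2) N
    (fun i => by
      have := QB4_coeff c w (H : ℤ) (N : ℤ) hc g1 g2 g3 i
      push_cast
      exact this) h1 h2 h3
  unfold RQ
  refine h4.trans (le_of_eq ?_)
  have h6 : ((4 + 2).factorial : ℤ) = 720 := by decide
  rw [h6]
  push_cast
  ring

/-- Proof. (Model: `HNF.Rg_ne` in HL0.lean; `HL0_field`.) `K = ℚ(√ds v)`, `r`, `s` the roots of `v` in `K`, `v.1, w.1 ≠ 0`. If `RQ = 0` then (`RQ_map`, `RQ_vsplit`) `hv (Bq c w) x 1 = 0` for `x = r` or `x = s` in `K`. Put `a₂ = c 5`, `a₁ = c 3 x + c 2`, `a₀ = c 4 x² + c 1 x + c 0`,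
`X' = a₂ w.2.2 - a₀ w.1`, `Y' = a₂ w.2.1 - a₁ w.1`. By `hv_Bq` and `ring`: `w.1 * hv (Bq c w) x 1 = w.1 X'² - w.2.1 X' Y' + w.2.2 Y'²`. So `(2 w.1 X' - w.2.1 Y')² = ds w Y'²` and, as `ds w` is not a square in `K` (`hsq` of `HL0_field`), `Y' = 0`:
`c 3 w.1 x = c 5 w.2.1 - c 2 w.1` is rational, `c 3 w.1 ≠ 0`, so `x` is rational and `ds v = (2 v.1 x + v.2.1)²` is the square of a rational number: contradiction (`hv`). (A rational `x` in `K`: from `x = (-b ± t)/(2a)` one gets that `t` is rational, `t = (ρ : K)`, `ρ² = ds v`.) -/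
theorem RQ_ne (c : Vn 5) (v w : V) (hc : c 3 ≠ 0) (hv : ¬ IsSquare (ds v)) (hw1 : ¬ IsSquare (ds w))
    (hvw : ¬ IsSquare (ds v * ds w)) : RQ c v w ≠ 0 := by
  intro h0
  obtain ⟨K, iF, iC, t, ht, hsq⟩ := HL0_field (ds v) hv
  have hv1 : v.1 ≠ 0 := by
    intro h
    refine hv ⟨v.2.1, ?_⟩
    unfold ds
    rw [h]
    ring
  have hw1' : w.1 ≠ 0 := by
    intro h
    refine hw1 ⟨w.2.1, ?_⟩
    unfold ds
    rw [h]
    ring
  have hv1K : (v.1 : K) ≠ 0 := Int.cast_ne_zero.2 hv1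
  have hw1K : (w.1 : K) ≠ 0 := Int.cast_ne_zero.2 hw1'
  have hcK : (c 3 : K) ≠ 0 := Int.cast_ne_zero.2 hc
  have h2K : (2 : K) ≠ 0 := two_ne_zero
  have hds : (v.2.1 : K) ^ 2 - 4 * (v.1 : K) * (v.2.2 : K) = t ^ 2 := by
    rw [ht]
    unfold ds
    push_cast
    ring
  set r : K := (-(v.2.1 : K) + t) / (2 * (v.1 : K)) with hr
  set s : K := (-(v.2.1 : K) - t) / (2 * (v.1 : K)) with hs
  have e1 : (v.2.1 : K) = -((v.1 : K) * (r + s)) := by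
    rw [hr, hs]
    field_simp
    ring
  have e2 : (v.2.2 : K) = (v.1 : K) * r * s := by
    rw [hr, hs]
    field_simp
    linear_combination (-1 : K) * hds
  have hmap := RQ_map (Int.castRingHom K) c v w
  have hvK : (((Int.castRingHom K) v.1, (Int.castRingHom K) v.2.1, (Int.castRingHom K) v.2.2) : K × K × K) =
      ((v.1 : K), -((v.1 : K) * (r + s)), (v.1 : K) * r * s) := by
    refine Prod.ext rfl (Prod.ext ?_ ?_)
    · exact e1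
    · exact e2
  rw [hvK, RQ_vsplit, h0, map_zero] at hmap
  have key : ∀ x : K, (2 * (v.1 : K) * x + (v.2.1 : K)) ^ 2 = ((ds v : ℤ) : K) →
      FQQ.hv (Bq (fun j => (Int.castRingHom K) (c j)) ((Int.castRingHom K) w.1, (Int.castRingHom K) w.2.1,
        (Int.castRingHom K) w.2.2)) x 1 = 0 → False := by
    intro x hxr hx
    rw [hv_Bq] at hx
    simp only [eq_intCast] at hx
    set X' : K := (c 5 : K) * (w.2.2 : K) - ((c 4 : K) * x ^ 2 + (c 1 : K) * x + (c 0 : K)) * (w.1 : K) with hX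
    set Y' : K := (c 5 : K) * (w.2.1 : K) - ((c 3 : K) * x + (c 2 : K)) * (w.1 : K) with hY
    have hid : (2 * (w.1 : K) * X' - (w.2.1 : K) * Y') ^ 2 = ((ds w : ℤ) : K) * Y' ^ 2 := by
      have e3 : (w.1 : K) * ((((c 5 : K) * ((w.2.2 : K) * 1 ^ 2) -
          ((c 4 : K) * x ^ 2 + (c 1 : K) * x * 1 + (c 0 : K) * 1 ^ 2) * (w.1 : K)) ^ 2 -
          ((c 5 : K) * ((w.2.1 : K) * 1) - ((c 3 : K) * x + (c 2 : K) * 1) * (w.1 : K)) *
          (((c 3 : K) * x + (c 2 : K) * 1) * ((w.2.2 : K) * 1 ^ 2) -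
          ((c 4 : K) * x ^ 2 + (c 1 : K) * x * 1 + (c 0 : K) * 1 ^ 2) * ((w.2.1 : K) * 1)))) =
          (w.1 : K) * X' ^ 2 - (w.2.1 : K) * X' * Y' + (w.2.2 : K) * Y' ^ 2 := by
        rw [hX, hY]
        ring
      rw [hx, mul_zero] at e3
      unfold ds
      push_cast
      linear_combination (-4 : K) * (w.1 : K) * e3
    have hY0 : Y' = 0 := by
      by_contra hY0
      have hsqw : IsSquare ((ds w : ℤ) : K) := by
        refine ⟨(2 * (w.1 : K) * X' - (w.2.1 : K) * Y') / Y', ?_⟩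
        rw [← sq, div_pow, hid, mul_div_cancel_right₀ _ (pow_ne_zero 2 hY0)]
      rcases hsq _ hsqw with h | h
      · exact hw1 h
      · exact hvw h
    -- `x` is rational
    have hxq : (c 3 : K) * (w.1 : K) * x = (c 5 : K) * (w.2.1 : K) - (c 2 : K) * (w.1 : K) := by
      rw [hY] at hY0
      linear_combination -hY0
    apply hv
    have h5 : (((2 * v.1 * (c 5 * w.2.1 - c 2 * w.1) + v.2.1 * (c 3 * w.1)) ^ 2 : ℤ) : K) =
        ((ds v * (c 3 * w.1) ^ 2 : ℤ) : K) := by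
      push_cast
      rw [← hxr]
      linear_combination (-(2 * (v.1 : K)) * (2 * (v.1 : K) * ((c 5 : K) * (w.2.1 : K) - (c 2 : K) * (w.1 : K)) +
        2 * (v.1 : K) * ((c 3 : K) * (w.1 : K) * x) + 2 * (v.2.1 : K) * ((c 3 : K) * (w.1 : K)))) * hxq
    have h6 : (2 * v.1 * (c 5 * w.2.1 - c 2 * w.1) + v.2.1 * (c 3 * w.1)) ^ 2 =
        ds v * (c 3 * w.1) ^ 2 := by exact_mod_cast h5
    have h7 : c 3 * w.1 ≠ 0 := mul_ne_zero hc hw1'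
    rw [← Rat.isSquare_intCast_iff]
    refine ⟨((2 * v.1 * (c 5 * w.2.1 - c 2 * w.1) + v.2.1 * (c 3 * w.1) : ℤ) : ℚ) / ((c 3 * w.1 : ℤ) : ℚ), ?_⟩
    have h8 : ((c 3 * w.1 : ℤ) : ℚ) ≠ 0 := Int.cast_ne_zero.2 h7
    rw [← sq, div_pow, eq_div_iff (pow_ne_zero 2 h8)]
    exact_mod_cast h6.symm
  have hrr : (2 * (v.1 : K) * r + (v.2.1 : K)) ^ 2 = ((ds v : ℤ) : K) := by
    rw [← ht, hr]
    field_simp
    ring
  have hss : (2 * (v.1 : K) * s + (v.2.1 : K)) ^ 2 = ((ds v : ℤ) : K) := by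
    rw [← ht, hs]
    field_simp
    ring
  rcases mul_eq_zero.1 hmap.symm with h | h
  · rcases mul_eq_zero.1 h with h' | h'
    · exact absurd h' (pow_ne_zero _ hv1K)
    · exact key r hrr h'
  · exact key s hss h

end HNQ
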