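import Pool.Agent.Lib.MP_10e784_agQ.QB2
import Pool.Agent.Lib.MP_10e784_agQ.QB3

/-! The switch. -/

set_option autoImplicit false

open Classical

namespace HNQ

open Finset Polynomial FGO FQQ HNF

theorem switch_Q (c : Vn 5) (v w : V) (hR : RQ c v w ≠ 0) (hv : v.1 ≠ 0) (hw1 : w.1 ≠ 0) (β : ℤ)
    (hβ : Squarefree β) (h : Cn (RQ c v w) v w β) :
    ∃ δ : ℤ, Squarefree δ ∧ δ ^ 2 ≤ |RQ c v w| ∧ Cn (RQ c v w) v w δ := by
  refine switch1 hR v w (fun p hp h2 hpR hd h1 => jac_RQ_v c v w p hp h2 hpR hd h1)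
    (fun p hp h2 hpR hd h1 => jac_RQ_w c v w p hp h2 hpR hd h1) ?_ ?_ β hβ h
  · intro p hp h2 _ hj
    obtain ⟨x, y, hxy⟩ := rat_RQ_v c v w hv
    exact even_of_rat hp h2 hR hj hxy
  · intro p hp h2 _ hj
    obtain ⟨x, y, hxy⟩ := rat_RQ_w c v w hw1
    exact even_of_rat hp h2 hR hj hxy

end HNQ
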