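import Pool.Agent.Lib.MP_10e784_agQ.QPDefs
import Pool.Agent.Lib.MP_1ad228_ntH.LC1
import Pool.Agent.Lib.MP_1ad228_ntH.Defs

/-!
# MP_10e784_ag, plane quartics: the resultant
-/

set_option autoImplicit false

open Classical

namespace HNQ

open Finset Polynomial FGO FQQ HNF

section ring

variable {F : Type} [CommRing F]

/-- the value of the ternary quadratic form with coefficients `c` in `F` -/
def hA (c : Fin 6 → F) (x y z : F) : F :=
  c 0 * z ^ 2 + c 1 * x * z + c 2 * y * z + c 3 * x * y + c 4 * x ^ 2 + c 5 * y ^ 2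

/-- the resultant, with respect to `y`, of `A(x, y, z)` and `w(y, z)`: a binary form of degree 4 in `(x, z)` -/
def Bq (c : Fin 6 → F) (w : F × F × F) : Fin 5 → F :=
  ![(c 5 * w.2.2 - c 0 * w.1) ^ 2 - (c 5 * w.2.1 - c 2 * w.1) * (c 2 * w.2.2 - c 0 * w.2.1),
    -2 * (c 1 * w.1) * (c 5 * w.2.2 - c 0 * w.1) + (c 3 * w.1) * (c 2 * w.2.2 - c 0 * w.2.1) -
      (c 5 * w.2.1 - c 2 * w.1) * (c 3 * w.2.2 - c 1 * w.2.1),
    (c 1 * w.1) ^ 2 - 2 * (c 4 * w.1) * (c 5 * w.2.2 - c 0 * w.1) + (c 3 * w.1) * (c 3 * w.2.2 - c 1 * w.2.1) +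
      (c 5 * w.2.1 - c 2 * w.1) * (c 4 * w.2.1),
    2 * (c 4 * w.1) * (c 1 * w.1) - (c 3 * w.1) * (c 4 * w.2.1),
    (c 4 * w.1) ^ 2]

/-- the resultant of the three forms `A, v, w` -/
noncomputable def RQ (c : Fin 6 → F) (v w : F × F × F) : F := Rs (Bq c w) v

/-- the restriction of `A` to the line `y = q z` -/
def Aq (c : Fin 6 → F) (q : F) : Fin 3 → F := ![c 0 + c 2 * q + c 5 * q ^ 2, c 1 + c 3 * q, c 4]

end ring

/-- the monomials `1, r, q, r q, r², q²` -/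
def eQ (j : ℕ) : ℕ × ℕ :=
  if j = 0 then (0, 0) else if j = 1 then (1, 0) else if j = 2 then (0, 1) else if j = 3 then (1, 1) else
    if j = 4 then (2, 0) else (0, 2)

end HNQ
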