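import Pool.Agent.Lib.MP_10e784_agQ.QCDefs

/-! Local points. -/

set_option autoImplicit false

open Classical

namespace HNQ

open Finset Polynomial FGO FQQ HNF

/-- the affine equation of an integral quartic -/
def Ga (q : Dt) (x y : ℤ) : ℤ := Gq q.2 q.1.1 q.1.2 x y

/-- Hensel's lemma for integral polynomials -/
theorem QC1_hens (p : ℕ) [Fact p.Prime] (F : ℤ[X]) (a : ℤ) (j k : ℕ) (hjk : 2 * j < k)
    (h1 : (p : ℤ) ^ k ∣ F.eval a) (h2 : ¬ (p : ℤ) ^ (j + 1) ∣ (derivative F).eval a) :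
    ∃ z : ℤ_[p], aeval z F = 0 := by
  have hae : ∀ G : ℤ[X], aeval ((a : ℤ) : ℤ_[p]) G = ((G.eval a : ℤ) : ℤ_[p]) := by
    intro G
    have h := Polynomial.aeval_algebraMap_apply ℤ_[p] a G
    rw [coe_aeval_eq_eval] at h
    exact_mod_cast h
  have hp1 : (1 : ℝ) < (p : ℝ) := by exact_mod_cast (Fact.out : p.Prime).one_lt
  have hp0 : (0 : ℝ) < (p : ℝ) := by linarith
  have h3 : ‖aeval ((a : ℤ) : ℤ_[p]) F‖ < ‖aeval ((a : ℤ) : ℤ_[p]) (derivative F)‖ ^ 2 := by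
    rw [hae, hae]
    have h4 : ‖((F.eval a : ℤ) : ℤ_[p])‖ ≤ (p : ℝ) ^ (-(k : ℤ)) := by
      rw [PadicInt.norm_int_le_pow_iff_dvd]
      exact_mod_cast h1
    have h5 : ¬ ‖(((derivative F).eval a : ℤ) : ℤ_[p])‖ ≤ (p : ℝ) ^ (-((j + 1 : ℕ) : ℤ)) := by
      rw [PadicInt.norm_int_le_pow_iff_dvd]
      exact_mod_cast h2
    rw [PadicInt.norm_le_pow_iff_norm_lt_pow_add_one, not_lt] at h5
    have h6 : -((j + 1 : ℕ) : ℤ) + 1 = -(j : ℤ) := by push_cast; ring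
    rw [h6] at h5
    have h7 : (p : ℝ) ^ (-(k : ℤ)) < ((p : ℝ) ^ (-(j : ℤ))) ^ 2 := by
      rw [← zpow_natCast, ← zpow_mul]
      refine zpow_lt_zpow_right₀ hp1 ?_
      push_cast
      omega
    have h8 : (0 : ℝ) ≤ (p : ℝ) ^ (-(j : ℤ)) := (zpow_pos hp0 _).le
    exact lt_of_le_of_lt h4 (lt_of_lt_of_le h7 (pow_le_pow_left₀ h8 h5 2))
  obtain ⟨z, hz, -⟩ := hensels_lemma h3
  exact ⟨z, hz⟩

/-- **Proof.** (Hensel's lemma in `x`.) `F(T) = (A(T, y, 1))² - v(T, 1) w(y, 1)` as a polynomial over `ℤ_[p]` (`y` an integer). `‖F(x)‖ ≤ p^(-k)`, `‖F'(x)‖ ≥ p^(-j)` from the hypotheses (`padicInt.norm_int_le_pow_iff_dvd`), `2 j < k`, so `‖F(x)‖ < ‖F'(x)‖²`: `hensels_lemma` gives a root `T ∈ ℤ_[p]`, and `(T, y, 1)` is a point (`hasPoint_of`). (`Gx` is the derivative.) -/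
theorem hensel_x (p : ℕ) [Fact p.Prime] (q : Dt) (x y : ℤ) (j k : ℕ) (hjk : 2 * j < k)
    (h1 : (p : ℤ) ^ k ∣ Gq q.2 q.1.1 q.1.2 x y) (h2 : ¬ (p : ℤ) ^ (j + 1) ∣ Gx q.2 q.1.1 q.1.2 x y) : HasPoint ℚ_[p] q := by
  obtain ⟨⟨v, w⟩, c⟩ := q
  obtain ⟨F, hF⟩ : ∃ F : ℤ[X], F = (C (c 0 + c 2 * y + c 5 * y ^ 2) + C (c 1 + c 3 * y) * X + C (c 4) * X ^ 2) ^ 2 -
      (C v.1 * X ^ 2 + C v.2.1 * X + C v.2.2) * C (qv w y 1) := ⟨_, rfl⟩
  have e1 : F.eval x = Gq c v w x y := by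
    rw [hF]
    simp only [eval_sub, eval_pow, eval_add, eval_mul, eval_C, eval_X]
    unfold Gq hA qv
    ring
  have e2 : (derivative F).eval x = Gx c v w x y := by
    rw [hF]
    simp only [derivative_sub, derivative_pow, derivative_add, derivative_mul, derivative_C, derivative_X, eval_sub, eval_pow,
      eval_add, eval_mul, eval_C, eval_X, eval_zero, eval_one]
    unfold Gx hA qv
    push_cast
    ring
  obtain ⟨z, hz⟩ := QC1_hens p F x j k hjk (by rw [e1]; exact h1) (by rw [e2]; exact h2)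
  rw [hF] at hz
  simp only [map_sub, map_pow, map_add, map_mul, aeval_C, aeval_X] at hz
  have hz2 := congrArg (fun t : ℤ_[p] => (t : ℚ_[p])) hz
  refine hasPoint_of (x := (z : ℚ_[p])) (y := (y : ℚ_[p])) (z := 1) (fun h => one_ne_zero h.2.2) ?_
  show vA c (z : ℚ_[p]) (y : ℚ_[p]) 1 ^ 2 = vV v (z : ℚ_[p]) 1 * vV w (y : ℚ_[p]) 1
  unfold vA vV
  unfold qv at hz2
  simp only [eq_intCast] at hz2
  push_cast at hz2
  linear_combination hz2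

/-- Proof. The same in `y`. -/
theorem hensel_y (p : ℕ) [Fact p.Prime] (q : Dt) (x y : ℤ) (j k : ℕ) (hjk : 2 * j < k)
    (h1 : (p : ℤ) ^ k ∣ Gq q.2 q.1.1 q.1.2 x y) (h2 : ¬ (p : ℤ) ^ (j + 1) ∣ Gy q.2 q.1.1 q.1.2 x y) : HasPoint ℚ_[p] q := by
  obtain ⟨⟨v, w⟩, c⟩ := q
  obtain ⟨F, hF⟩ : ∃ F : ℤ[X], F = (C (c 0 + c 1 * x + c 4 * x ^ 2) + C (c 2 + c 3 * x) * X + C (c 5) * X ^ 2) ^ 2 -
      C (qv v x 1) * (C w.1 * X ^ 2 + C w.2.1 * X + C w.2.2) := ⟨_, rfl⟩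
  have e1 : F.eval y = Gq c v w x y := by
    rw [hF]
    simp only [eval_sub, eval_pow, eval_add, eval_mul, eval_C, eval_X]
    unfold Gq hA qv
    ring
  have e2 : (derivative F).eval y = Gy c v w x y := by
    rw [hF]
    simp only [derivative_sub, derivative_pow, derivative_add, derivative_mul, derivative_C, derivative_X, eval_sub, eval_pow,
      eval_add, eval_mul, eval_C, eval_X, eval_zero, eval_one]
    unfold Gy hA qv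
    push_cast
    ring
  obtain ⟨z, hz⟩ := QC1_hens p F y j k hjk (by rw [e1]; exact h1) (by rw [e2]; exact h2)
  rw [hF] at hz
  simp only [map_sub, map_pow, map_add, map_mul, aeval_C, aeval_X] at hz
  have hz2 := congrArg (fun t : ℤ_[p] => (t : ℚ_[p])) hz
  refine hasPoint_of (x := (x : ℚ_[p])) (y := (z : ℚ_[p])) (z := 1) (fun h => one_ne_zero h.2.2) ?_
  show vA c (x : ℚ_[p]) (z : ℚ_[p]) 1 ^ 2 = vV v (x : ℚ_[p]) 1 * vV w (z : ℚ_[p]) 1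
  unfold vA vV
  unfold qv at hz2
  simp only [eq_intCast] at hz2
  push_cast at hz2
  linear_combination hz2

/-- Proof. `¬ BdF` gives `x, y : ZMod p` with `Gq = 0` and `Gx ≠ 0` or `Gy ≠ 0`; lift to integers (`ZMod.intCast_surjective`), casts (`Int.cast` commutes with `Gq`, `Gx`, `Gy`: `push_cast`), `hensel_x` or `hensel_y` with `j = 0`, `k = 1`. -/
theorem loc_Q (p : ℕ) [Fact p.Prime] (c : Vn 5) (u : V × V) (h : ¬ BdP p c u) : HasPoint ℚ_[p] (u, c) := by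
  unfold BdP BdF at h
  push Not at h
  obtain ⟨x', y', h0, h1⟩ := h
  obtain ⟨x, rfl⟩ := ZMod.intCast_surjective x'
  obtain ⟨y, rfl⟩ := ZMod.intCast_surjective y'
  have e0 : Gq (cN p c) (cV p u.1) (cV p u.2) (x : ZMod p) (y : ZMod p) = ((Gq c u.1 u.2 x y : ℤ) : ZMod p) := by
    unfold Gq hA qv cN cV
    push_cast
    ring
  have e1 : Gx (cN p c) (cV p u.1) (cV p u.2) (x : ZMod p) (y : ZMod p) = ((Gx c u.1 u.2 x y : ℤ) : ZMod p) := by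
    unfold Gx hA qv cN cV
    push_cast
    ring
  have e2 : Gy (cN p c) (cV p u.1) (cV p u.2) (x : ZMod p) (y : ZMod p) = ((Gy c u.1 u.2 x y : ℤ) : ZMod p) := by
    unfold Gy hA qv cN cV
    push_cast
    ring
  rw [e0, ZMod.intCast_zmod_eq_zero_iff_dvd] at h0
  rw [e1, e2, ne_eq, ZMod.intCast_zmod_eq_zero_iff_dvd, ZMod.intCast_zmod_eq_zero_iff_dvd] at h1
  by_cases hx : (p : ℤ) ∣ Gx c u.1 u.2 x y
  · exact hensel_y p (u, c) x y 0 1 (by norm_num) (by rw [pow_one]; exact h0) (by rw [zero_add, pow_one]; exact h1 hx)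
  · exact hensel_x p (u, c) x y 0 1 (by norm_num) (by rw [pow_one]; exact h0) (by rw [zero_add, pow_one]; exact hx)

/-- Proof. At `(x, y) = (1, 0)` (the point `(1 : 0 : 1)`): `Gq = (c 0 + c 1 + c 4)² - (v.1 + v.2.1 + v.2.2) w.2.2 ≡ 2² - 2 · 2 = 0` and `Gx = 2 (c 0 + c 1 + c 4)(c 1 + 2 c 4) - (2 v.1 + v.2.1) w.2.2 ≡ 2 · 2 · 2 - 2 · 2 = 4` modulo `M`. For `p = 2`, `M = 32 m`: `2⁵ ∣ Gq`, `8 ∤ Gx`: `hensel_x` with `j = 2`, `k = 5`. For `p` odd, `p ∣ M`: `p ∣ Gq`, `p ∤ Gx`: `j = 0`, `k = 1`. -/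
theorem loc_small (w2 : ℕ) (hw : 3 ≤ w2) (p : ℕ) [Fact p.Prime] (hp : p ≤ w2) (c : Vn 5) (u : V × V)
    (h : ClQ (32 * primorial w2) c u) : HasPoint ℚ_[p] (u, c) := by
  obtain ⟨h1, ⟨h2, h3, h4⟩, ⟨h5, h6, h7⟩⟩ := h
  have hpp : p.Prime := Fact.out
  have hc0 := h1 0
  have hc1 := h1 1
  have hc4 := h1 4
  have s0 : cs 0 = 1 := rfl
  have s1 : cs 1 = 0 := rfl
  have s4 : cs 4 = 1 := rfl
  rw [s0] at hc0
  rw [s1] at hc1
  rw [s4] at hc4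
  generalize hM : ((32 * primorial w2 : ℕ) : ℤ) = M at *
  obtain ⟨a0, ha0⟩ := hc0
  obtain ⟨a1, ha1⟩ := hc1
  obtain ⟨a4, ha4⟩ := hc4
  obtain ⟨b1, hb1⟩ := h2
  obtain ⟨b2, hb2⟩ := h3
  obtain ⟨b3, hb3⟩ := h4
  obtain ⟨d3, hd3⟩ := h7
  have f0 : c 0 = 1 + M * a0 := by linarith
  have f1 : c 1 = M * a1 := by linarith
  have f4 : c 4 = 1 + M * a4 := by linarith
  have g1 : u.1.1 = 1 + M * b1 := by
    have : u.1.1 - 1 = M * b1 := hb1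
    linarith
  have g2 : u.1.2.1 = M * b2 := by
    have : u.1.2.1 - 0 = M * b2 := hb2
    linarith
  have g3 : u.1.2.2 = 1 + M * b3 := by
    have : u.1.2.2 - 1 = M * b3 := hb3
    linarith
  have k3 : u.2.2.2 = 2 + M * d3 := by
    have : u.2.2.2 - 2 = M * d3 := hd3
    linarith
  obtain ⟨A, hA1⟩ : ∃ A : ℤ, Gq c u.1 u.2 1 0 = M * A := by
    refine ⟨4 * (a0 + a1 + a4) + M * (a0 + a1 + a4) ^ 2 - 2 * d3 - 2 * (b1 + b2 + b3) - M * (b1 + b2 + b3) * d3, ?_⟩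
    unfold Gq hA qv
    rw [f0, f1, f4, g1, g2, g3, k3]
    ring
  obtain ⟨B, hB1⟩ : ∃ B : ℤ, Gx c u.1 u.2 1 0 = 4 + M * B := by
    refine ⟨4 * (a1 + 2 * a4) + 4 * (a0 + a1 + a4) + 2 * M * (a0 + a1 + a4) * (a1 + 2 * a4) - 2 * d3 -
      2 * (2 * b1 + b2) - M * (2 * b1 + b2) * d3, ?_⟩
    unfold Gx hA qv
    rw [f0, f1, f4, g1, g2, k3]
    ring
  by_cases hp2 : p = 2
  · subst hp2
    refine hensel_x 2 (u, c) 1 0 2 5 (by norm_num) ?_ ?_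
    · show ((2 : ℕ) : ℤ) ^ 5 ∣ Gq c u.1 u.2 1 0
      rw [hA1, ← hM]
      push_cast
      exact ⟨primorial w2 * A, by ring⟩
    · show ¬ ((2 : ℕ) : ℤ) ^ (2 + 1) ∣ Gx c u.1 u.2 1 0
      rw [hB1, ← hM]
      push_cast
      intro hd
      have h8 : (2 : ℤ) ^ (2 + 1) ∣ 32 * (primorial w2 : ℤ) * B := ⟨4 * (primorial w2 : ℤ) * B, by ring⟩
      have h9 := (dvd_add_left h8).mp hd
      norm_num at h9
  · have hdM : (p : ℤ) ∣ M := by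
      rw [← hM]
      have : p ∣ 32 * primorial w2 := Dvd.dvd.mul_left ((hpp.dvd_primorial_iff).mpr hp) 32
      exact_mod_cast this
    refine hensel_x p (u, c) 1 0 0 1 (by norm_num) ?_ ?_
    · show (p : ℤ) ^ 1 ∣ Gq c u.1 u.2 1 0
      rw [hA1, pow_one]
      exact Dvd.dvd.mul_right hdM A
    · show ¬ (p : ℤ) ^ (0 + 1) ∣ Gx c u.1 u.2 1 0
      rw [hB1, zero_add, pow_one]
      intro hd
      have h9 := (dvd_add_left (Dvd.dvd.mul_right hdM B)).mp hd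
      have h10 : p ∣ 2 ^ 2 := by exact_mod_cast h9
      exact hp2 ((Nat.prime_dvd_prime_iff_eq hpp Nat.prime_two).mp (hpp.dvd_of_dvd_pow h10))

/-- Proof. A point with `z = 0`, `y = 1`: `A(x, 1, 0) = c 4 x² + c 3 x + c 5`, `v(x, 0) w(1, 0) = v.1 w.1 x²`: it is enough that `c 4 x² + (c 3 - √(v.1 w.1)) x + c 5 = 0`, whose discriminant `(..)² - 4 c 4 c 5 > 0`. -/
theorem real_Q (c : Vn 5) (u : V × V) (h : PosQ c u) : HasPoint ℝ (u, c) := by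
  obtain ⟨⟨h4, h5⟩, h1, h2⟩ := h
  have h4' : (0 : ℝ) < (c 4 : ℝ) := by exact_mod_cast h4
  have h5' : (c 5 : ℝ) < 0 := by exact_mod_cast h5
  have h1' : (0 : ℝ) < (u.1.1 : ℝ) := by exact_mod_cast h1
  have h2' : (0 : ℝ) < (u.2.1 : ℝ) := by exact_mod_cast h2
  obtain ⟨s, hs⟩ : ∃ s : ℝ, s ^ 2 = (u.1.1 : ℝ) * (u.2.1 : ℝ) := ⟨√((u.1.1 : ℝ) * (u.2.1 : ℝ)), Real.sq_sqrt (by positivity)⟩
  obtain ⟨d, hd⟩ : ∃ d : ℝ, d ^ 2 = ((c 3 : ℝ) - s) ^ 2 - 4 * (c 4 : ℝ) * (c 5 : ℝ) := by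
    refine ⟨√(((c 3 : ℝ) - s) ^ 2 - 4 * (c 4 : ℝ) * (c 5 : ℝ)), Real.sq_sqrt ?_⟩
    nlinarith [sq_nonneg ((c 3 : ℝ) - s), mul_pos h4' (neg_pos.mpr h5')]
  obtain ⟨x, hx⟩ : ∃ x : ℝ, (c 4 : ℝ) * x ^ 2 + ((c 3 : ℝ) - s) * x + (c 5 : ℝ) = 0 := by
    refine ⟨(-((c 3 : ℝ) - s) + d) / (2 * (c 4 : ℝ)), ?_⟩
    have h40 : (c 4 : ℝ) ≠ 0 := h4'.ne'
    field_simp
    linear_combination hd
  refine hasPoint_of (x := x) (y := 1) (z := 0) (fun h => one_ne_zero h.2.1) ?_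
  show vA c x 1 0 ^ 2 = vV u.1 x 0 * vV u.2 1 0
  have e1 : vA c x 1 0 = s * x := by
    unfold vA
    linear_combination hx
  rw [e1]
  unfold vV
  linear_combination x ^ 2 * hs

theorem els_Q (w2 : ℕ) (hw : 3 ≤ w2) (c : Vn 5) (u : V × V) (hC : ClQ (32 * primorial w2) c u) (hP : PosQ c u)
    (hB : ∀ p : ℕ, p.Prime → w2 < p → ¬ BdP p c u) :
    HasPoint ℝ (u, c) ∧ ∀ (p : ℕ) [Fact p.Prime], HasPoint ℚ_[p] (u, c) := by
  refine ⟨real_Q c u hP, fun p hp => ?_⟩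
  by_cases h : p ≤ w2
  · exact loc_small w2 hw p h c u hC
  · exact loc_Q p c u (hB p hp.out (by omega))

end HNQ
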