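import Pool.Agent.Lib.MP_10e784_agQ.QCDefs

/-! Smoothness from the reduction modulo 3. -/

set_option autoImplicit false

open Classical

namespace HNQ

open Finset Polynomial FGO FQQ HNF

/-- the three partial derivatives of the quartic form, explicitly -/
def QC2_D {F : Type} [CommRing F] (q : Dt) (x y z : F) : Fin 3 → F :=
  ![2 * vA q.2 x y z * ((q.2 1 : F) * z + (q.2 3 : F) * y + 2 * (q.2 4 : F) * x) -
      (2 * (q.1.1.1 : F) * x + (q.1.1.2.1 : F) * z) * vV q.1.2 y z,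
    2 * vA q.2 x y z * ((q.2 2 : F) * z + (q.2 3 : F) * x + 2 * (q.2 5 : F) * y) -
      vV q.1.1 x z * (2 * (q.1.2.1 : F) * y + (q.1.2.2.1 : F) * z),
    2 * vA q.2 x y z * (2 * (q.2 0 : F) * z + (q.2 1 : F) * x + (q.2 2 : F) * y) -
      (((q.1.1.2.1 : F) * x + 2 * (q.1.1.2.2 : F) * z) * vV q.1.2 y z +
        vV q.1.1 x z * ((q.1.2.2.1 : F) * y + 2 * (q.1.2.2.2 : F) * z))]

theorem QC2_D0 {F : Type} [CommRing F] (q : Dt) (x y z : F) : QC2_D q x y z 0 =
    2 * vA q.2 x y z * ((q.2 1 : F) * z + (q.2 3 : F) * y + 2 * (q.2 4 : F) * x) -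
      (2 * (q.1.1.1 : F) * x + (q.1.1.2.1 : F) * z) * vV q.1.2 y z := rfl

theorem QC2_D1 {F : Type} [CommRing F] (q : Dt) (x y z : F) : QC2_D q x y z 1 =
    2 * vA q.2 x y z * ((q.2 2 : F) * z + (q.2 3 : F) * x + 2 * (q.2 5 : F) * y) -
      vV q.1.1 x z * (2 * (q.1.2.1 : F) * y + (q.1.2.2.1 : F) * z) := rfl

theorem QC2_D2 {F : Type} [CommRing F] (q : Dt) (x y z : F) : QC2_D q x y z 2 =
    2 * vA q.2 x y z * (2 * (q.2 0 : F) * z + (q.2 1 : F) * x + (q.2 2 : F) * y) -
      (((q.1.1.2.1 : F) * x + 2 * (q.1.1.2.2 : F) * z) * vV q.1.2 y z +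
        vV q.1.1 x z * ((q.1.2.2.1 : F) * y + 2 * (q.1.2.2.2 : F) * z)) := rfl

theorem QC2_intCast (n : ℤ) (i : Fin 3) :
    MvPolynomial.pderiv i ((n : ℤ) : MvPolynomial (Fin 3) ℤ) = 0 :=
  Derivation.map_intCast _ n

theorem QC2_pderiv {K : Type} [Field K] (q : Dt) (P : Fin 3 → K) (i : Fin 3) :
    MvPolynomial.aeval P (MvPolynomial.pderiv i (quartic q)) = QC2_D q (P 0) (P 1) (P 2) i := by
  have h01 : (1 : Fin 3) ≠ 0 := by decide
  have h02 : (2 : Fin 3) ≠ 0 := by decide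
  have h12 : (2 : Fin 3) ≠ 1 := by decide
  fin_cases i
  · show MvPolynomial.aeval P (MvPolynomial.pderiv 0 (quartic q)) = QC2_D q (P 0) (P 1) (P 2) 0
    rw [QC2_D0]
    unfold quartic vA vV
    simp only [map_sub, map_add, Derivation.leibniz, Derivation.leibniz_pow, MvPolynomial.pderiv_X_self,
      MvPolynomial.pderiv_X_of_ne h01, MvPolynomial.pderiv_X_of_ne h02, QC2_intCast, smul_eq_mul, nsmul_eq_mul,
      map_mul, map_pow, MvPolynomial.aeval_X, map_intCast, map_natCast, map_zero, map_one]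
    push_cast
    ring
  · show MvPolynomial.aeval P (MvPolynomial.pderiv 1 (quartic q)) = QC2_D q (P 0) (P 1) (P 2) 1
    rw [QC2_D1]
    unfold quartic vA vV
    simp only [map_sub, map_add, Derivation.leibniz, Derivation.leibniz_pow, MvPolynomial.pderiv_X_self,
      MvPolynomial.pderiv_X_of_ne h01.symm, MvPolynomial.pderiv_X_of_ne h12, QC2_intCast, smul_eq_mul, nsmul_eq_mul,
      map_mul, map_pow, MvPolynomial.aeval_X, map_intCast, map_natCast, map_zero, map_one]
    push_cast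
    ring
  · show MvPolynomial.aeval P (MvPolynomial.pderiv 2 (quartic q)) = QC2_D q (P 0) (P 1) (P 2) 2
    rw [QC2_D2]
    unfold quartic vA vV
    simp only [map_sub, map_add, Derivation.leibniz, Derivation.leibniz_pow, MvPolynomial.pderiv_X_self,
      MvPolynomial.pderiv_X_of_ne h02.symm, MvPolynomial.pderiv_X_of_ne h12.symm, QC2_intCast, smul_eq_mul,
      nsmul_eq_mul,
      map_mul, map_pow, MvPolynomial.aeval_X, map_intCast, map_natCast, map_zero, map_one]
    push_cast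
    ring

theorem QC2_map {R S : Type} [CommRing R] [CommRing S] (φ : R →+* S) (q : Dt) (x y z : R) (i : Fin 3) :
    φ (QC2_D q x y z i) = QC2_D q (φ x) (φ y) (φ z) i := by
  fin_cases i
  · show φ (QC2_D q x y z 0) = QC2_D q (φ x) (φ y) (φ z) 0
    simp only [QC2_D0, vA, vV, map_sub, map_add, map_mul, map_pow, map_intCast, map_ofNat]
  · show φ (QC2_D q x y z 1) = QC2_D q (φ x) (φ y) (φ z) 1
    simp only [QC2_D1, vA, vV, map_sub, map_add, map_mul, map_pow, map_intCast, map_ofNat]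
  · show φ (QC2_D q x y z 2) = QC2_D q (φ x) (φ y) (φ z) 2
    simp only [QC2_D2, vA, vV, map_sub, map_add, map_mul, map_pow, map_intCast, map_ofNat]

theorem QC2_hom {F : Type} [CommRing F] (q : Dt) (t x y z : F) (i : Fin 3) :
    QC2_D q (t * x) (t * y) (t * z) i = t ^ 3 * QC2_D q x y z i := by
  fin_cases i
  · show QC2_D q (t * x) (t * y) (t * z) 0 = t ^ 3 * QC2_D q x y z 0
    simp only [QC2_D0, vA, vV]
    ring
  · show QC2_D q (t * x) (t * y) (t * z) 1 = t ^ 3 * QC2_D q x y z 1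
    simp only [QC2_D1, vA, vV]
    ring
  · show QC2_D q (t * x) (t * y) (t * z) 2 = t ^ 3 * QC2_D q x y z 2
    simp only [QC2_D2, vA, vV]
    ring

/-- there is a valuation ring of the complex numbers in which `3` is not invertible -/
theorem QC2_val : ∃ B : ValuationSubring ℂ, (3 : B) ∈ IsLocalRing.maximalIdeal B := by
  let A : Subring ℂ := (Int.castRingHom ℂ).range
  have hI : (Ideal.span {(3 : A)} : Ideal A) ≠ ⊤ := by
    rw [Ne, Ideal.eq_top_iff_one, Ideal.mem_span_singleton]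
    rintro ⟨⟨a, n, hn⟩, ha⟩
    have h1 : (1 : ℂ) = 3 * a := congrArg (fun t : A => (t : ℂ)) ha
    have h2 : (n : ℂ) = a := hn
    rw [← h2] at h1
    have h3 : (1 : ℤ) = 3 * n := by exact_mod_cast h1
    omega
  obtain ⟨B, -, hB⟩ := Ideal.image_subset_nonunits_valuationSubring (Ideal.span {(3 : A)}) hI
  refine ⟨B, ?_⟩
  have h3 : (3 : ℂ) ∈ B.nonunits := hB ⟨3, Ideal.subset_span rfl, rfl⟩
  rw [← ValuationSubring.coe_mem_nonunits_iff]
  exact h3

/-- an integer which is `≡ e` modulo `3` -/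
theorem QC2_cast {k : Type} [CommRing k] (h3 : (3 : k) = 0) {n e : ℤ} (h : (3 : ℤ) ∣ n - e) : (n : k) = (e : k) := by
  obtain ⟨m, hm⟩ := h
  have h1 : n = e + 3 * m := by omega
  rw [h1]
  push_cast
  rw [h3]
  ring

/-- in characteristic `3` a singular point is trivial -/
theorem QC2_three {k : Type} [Field k] (h3 : (3 : k) = 0) (c : Vn 5) (u : V × V) (h : ClQ 3 c u) (x y z : k)
    (hD : ∀ i, QC2_D (u, c) x y z i = 0) : x = 0 ∧ y = 0 ∧ z = 0 := by
  obtain ⟨hc, hv, hw⟩ := h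
  have c0 : ((c 0 : ℤ) : k) = 1 := by rw [QC2_cast h3 (hc 0)]; exact Int.cast_one
  have c1 : ((c 1 : ℤ) : k) = 0 := by rw [QC2_cast h3 (hc 1)]; exact Int.cast_zero
  have c2 : ((c 2 : ℤ) : k) = 0 := by rw [QC2_cast h3 (hc 2)]; exact Int.cast_zero
  have c3 : ((c 3 : ℤ) : k) = 0 := by rw [QC2_cast h3 (hc 3)]; exact Int.cast_zero
  have c4 : ((c 4 : ℤ) : k) = 1 := by rw [QC2_cast h3 (hc 4)]; exact Int.cast_one
  have c5 : ((c 5 : ℤ) : k) = 1 := by rw [QC2_cast h3 (hc 5)]; exact Int.cast_one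
  have v0 : ((u.1.1 : ℤ) : k) = 1 := by rw [QC2_cast h3 hv.1]; exact Int.cast_one
  have v1 : ((u.1.2.1 : ℤ) : k) = 0 := by rw [QC2_cast h3 hv.2.1]; exact Int.cast_zero
  have v2 : ((u.1.2.2 : ℤ) : k) = 1 := by rw [QC2_cast h3 hv.2.2]; exact Int.cast_one
  have w0 : ((u.2.1 : ℤ) : k) = 2 := by rw [QC2_cast h3 hw.1]; exact Int.cast_ofNat 2
  have w1 : ((u.2.2.1 : ℤ) : k) = 0 := by rw [QC2_cast h3 hw.2.1]; exact Int.cast_zero
  have w2 : ((u.2.2.2 : ℤ) : k) = 2 := by rw [QC2_cast h3 hw.2.2]; exact Int.cast_ofNat 2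
  have e0 := hD 0
  have e1 := hD 1
  have e2 := hD 2
  rw [QC2_D0] at e0
  rw [QC2_D1] at e1
  rw [QC2_D2] at e2
  simp only [vA, vV, c0, c1, c2, c3, c4, c5, v0, v1, v2, w0, w1, w2] at e0 e1 e2
  refine ⟨?_, ?_, ?_⟩
  · have : x ^ 3 = 0 := by linear_combination e0 - x ^ 3 * h3
    exact pow_eq_zero_iff (by norm_num) |>.1 this
  · have : y ^ 3 = 0 := by linear_combination e1 - y ^ 3 * h3
    exact pow_eq_zero_iff (by norm_num) |>.1 this
  · have : z ^ 3 = 0 := by linear_combination -e2 - z ^ 3 * h3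
    exact pow_eq_zero_iff (by norm_num) |>.1 this

/-- **Proof.** Let `B` be a valuation ring of `ℂ` in which `3` is not invertible. Divide a point with all partial derivatives zero by its
coordinate with the largest valuation: then the coordinates are in `B`, one of them is `1`, and the partial derivatives are zero. In the
residue field, of characteristic `3`, the partial derivatives are `x³`, `y³`, `-z³`: contradiction. -/
theorem smooth_Q (c : Vn 5) (u : V × V) (h : ClQ 3 c u) : Smooth (u, c) := by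
  intro P hP
  by_contra hcon
  push Not at hcon
  obtain ⟨B, hB⟩ := QC2_val
  obtain ⟨i0, hi0⟩ := Finite.exists_max (fun i => B.valuation (P i))
  have hP0 : P i0 ≠ 0 := by
    intro h0
    apply hP
    funext i
    have h1 := hi0 i
    simp only [h0, map_zero] at h1
    exact (B.valuation.zero_iff).1 (le_antisymm h1 zero_le)
  have hQ : ∀ i, P i / P i0 ∈ B := by
    intro i
    rw [← ValuationSubring.valuation_le_one_iff, map_div₀]
    exact div_le_one_of_le₀ (hi0 i) zero_le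
  let Q : Fin 3 → B := fun i => ⟨P i / P i0, hQ i⟩
  have hQP : ∀ i, P i = P i0 * (B.subtype (Q i)) := by
    intro i
    show P i = P i0 * (P i / P i0)
    field_simp
  let ρ : B →+* IsLocalRing.ResidueField B := IsLocalRing.residue B
  have h3 : (3 : IsLocalRing.ResidueField B) = 0 := by
    have h1 : ρ (3 : B) = 0 := (IsLocalRing.residue_eq_zero_iff _).2 hB
    rw [map_ofNat] at h1
    exact h1
  have hz : ∀ i, QC2_D (u, c) (ρ (Q 0)) (ρ (Q 1)) (ρ (Q 2)) i = 0 := by
    intro i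
    rw [← QC2_map ρ]
    have h1 : QC2_D (u, c) (Q 0) (Q 1) (Q 2) i = 0 := by
      apply Subtype.coe_injective
      show B.subtype (QC2_D (u, c) (Q 0) (Q 1) (Q 2) i) = 0
      rw [QC2_map B.subtype]
      have h2 := hcon i
      rw [QC2_pderiv, hQP 0, hQP 1, hQP 2, QC2_hom] at h2
      exact (mul_eq_zero.1 h2).resolve_left (pow_ne_zero 3 hP0)
    rw [h1, map_zero]
  obtain ⟨hx, hy, hzz⟩ := QC2_three h3 c u h _ _ _ hz
  have h1 : ρ (Q i0) = 1 := by
    have : Q i0 = 1 := by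
      apply Subtype.coe_injective
      show P i0 / P i0 = 1
      exact div_self hP0
    rw [this, map_one]
  have h0 : ρ (Q i0) = 0 := by
    fin_cases i0
    · exact hx
    · exact hy
    · exact hzz
  rw [h0] at h1
  exact zero_ne_one h1

end HNQ
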