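import Pool.Agent.Lib.MP_10e784_agQ.QBase
import Pool.Agent.Lib.MP_1ad228_ntH.FDefs

/-!
# MP_10e784_ag, plane quartics: part (2), definitions: points modulo `p`, the bad event, the residue class
-/

set_option autoImplicit false

open Classical

namespace HNQ

open Finset Polynomial FGO FQQ HNF

section

variable {F : Type} [CommRing F]

/-- the affine equation -/
def Gq (c : Fin 6 → F) (v w : F × F × F) (x y : F) : F := hA c x y 1 ^ 2 - qv v x 1 * qv w y 1

/-- its partial derivative with respect to `x` -/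
def Gx (c : Fin 6 → F) (v w : F × F × F) (x y : F) : F :=
  2 * hA c x y 1 * (c 1 + c 3 * y + 2 * c 4 * x) - (2 * v.1 * x + v.2.1) * qv w y 1

/-- its partial derivative with respect to `y` -/
def Gy (c : Fin 6 → F) (v w : F × F × F) (x y : F) : F :=
  2 * hA c x y 1 * (c 2 + c 3 * x + 2 * c 5 * y) - qv v x 1 * (2 * w.1 * y + w.2.1)

/-- the bad event: every affine point is singular -/
def BdF (c : Fin 6 → F) (v w : F × F × F) : Prop := ∀ x y : F, Gq c v w x y = 0 → Gx c v w x y = 0 ∧ Gy c v w x y = 0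

/-- the derivative of `A` with respect to `x` at the common centre of `v` and `w`, times `2 v.1 w.1` -/
def Uq (c : Fin 6 → F) (v w : F × F × F) : F := 2 * v.1 * w.1 * c 1 - 2 * w.1 * v.2.1 * c 4 - v.1 * w.2.1 * c 3

/-- the derivative of `A` with respect to `y` at the common centre of `v` and `w`, times `2 v.1 w.1` -/
def Wq (c : Fin 6 → F) (v w : F × F × F) : F := 2 * v.1 * w.1 * c 2 - 2 * v.1 * w.2.1 * c 5 - w.1 * v.2.1 * c 3

/-- the exchange of `x` and `y` in `A` -/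
def sw (c : Fin 6 → F) : Fin 6 → F := ![c 0, c 2, c 1, c 3, c 5, c 4]

end

section

variable {K : Type} [Field K]

/-- `A` vanishes at two of the points `(r, q)`, `v(r, 1) = 0 = w(q, 1)` -/
def Two (c : Fin 6 → K) (v w : K × K × K) : Prop :=
  ∃ r q r' q' : K, ¬ (r = r' ∧ q = q') ∧ qv v r 1 = 0 ∧ qv w q 1 = 0 ∧ qv v r' 1 = 0 ∧ qv w q' 1 = 0 ∧
    hA c r q 1 = 0 ∧ hA c r' q' 1 = 0

/-- the polynomial `A(x, y, 1) / c 5` -/
noncomputable def aP (c : Fin 6 → K) : K[X][X] :=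
  X ^ 2 + C (C (c 3 / c 5) * X + C (c 2 / c 5)) * X + C (C (c 4 / c 5) * X ^ 2 + C (c 1 / c 5) * X + C (c 0 / c 5))

/-- the polynomial `(A(x, y, 1)² - v(x, 1) w(y, 1)) / c 5 ²` -/
noncomputable def fP (c : Fin 6 → K) (v w : K × K × K) : K[X][X] :=
  aP c ^ 2 - C (C ((c 5)⁻¹ ^ 2) * (C v.1 * X ^ 2 + C v.2.1 * X + C v.2.2)) *
    (C (C w.1) * X ^ 2 + C (C w.2.1) * X + C (C w.2.2))

end

/-- the algebraic closure of `ZMod p` -/
abbrev Kp (p : ℕ) [Fact p.Prime] : Type := AlgebraicClosure (ZMod p)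

/-- the embedding of `ZMod p` into its algebraic closure -/
noncomputable abbrev iK (p : ℕ) [Fact p.Prime] : ZMod p →+* Kp p := algebraMap (ZMod p) (Kp p)

/-- the image of a quadratic form -/
def mV {F F' : Type} [CommRing F] [CommRing F'] (φ : F →+* F') (v : F × F × F) : F' × F' × F' := (φ v.1, φ v.2.1, φ v.2.2)

/-- the algebraic form of the bad event for nondegenerate `v`, `w` -/
def Bd1 (p : ℕ) [Fact p.Prime] (c : Fin 6 → ZMod p) (v w : ZMod p × ZMod p × ZMod p) : Prop :=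
  (c 4 = 0 ∧ c 5 = 0) ∨ (Uq c v w = 0 ∧ Wq c v w = 0) ∨ Two (fun i => iK p (c i)) (mV (iK p) v) (mV (iK p) w)

/-- the bad event at `p` -/
def BdP (p : ℕ) (c : Vn 5) (u : V × V) : Prop := BdF (cN p c) (cV p u.1) (cV p u.2)

/-- signs -/
def PosQ (c : Vn 5) (u : V × V) : Prop := (0 < c 4 ∧ c 5 < 0) ∧ 0 < u.1.1 ∧ 0 < u.2.1

/-- the vector of `x² + y² + z²` -/
def cs : Vn 5 := ![1, 0, 0, 0, 1, 1]

/-- the residue class modulo `M` of `A = x² + y² + z²`, `v = x² + z²`, `w = 2 (y² + z²)`: the quartic `x⁴ + y⁴ - z⁴` -/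
def ClQ (M : ℕ) (c : Vn 5) (u : V × V) : Prop := CgN M c cs ∧ Cg M u.1 (1, 0, 1) ∧ Cg M u.2 (2, 0, 2)

/-- the integer whose large prime divisors contain the primes with `Two` -/
def P1 (c : Vn 5) (v w : V) : ℤ :=
  (ds v * w.1 ^ 2 * Uq c v w ^ 2 - ds w * v.1 ^ 2 * Wq c v w ^ 2) *
    qv v (w.1 * c 2 - w.2.1 * c 5) (-(w.1 * c 3)) * qv w (v.1 * c 1 - v.2.1 * c 4) (-(v.1 * c 3))

/-- the value of the quartic form -/
theorem aeval_quartic {K : Type} [CommRing K] (q : Dt) (P : Fin 3 → K) :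
    MvPolynomial.aeval P (quartic q) = vA q.2 (P 0) (P 1) (P 2) ^ 2 - vV q.1.1 (P 0) (P 2) * vV q.1.2 (P 1) (P 2) := by
  unfold quartic vA vV
  simp only [map_sub, map_mul, map_pow, map_add, MvPolynomial.aeval_X, map_intCast]

/-- a point with given coordinates -/
theorem hasPoint_of {K : Type} [Field K] {q : Dt} {x y z : K} (h0 : ¬ (x = 0 ∧ y = 0 ∧ z = 0))
    (h : vA q.2 x y z ^ 2 = vV q.1.1 x z * vV q.1.2 y z) : HasPoint K q := by
  refine ⟨![x, y, z], ?_, ?_⟩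
  · intro h1
    apply h0
    have a0 := congrFun h1 0
    have a1 := congrFun h1 1
    have a2 := congrFun h1 2
    exact ⟨a0, a1, a2⟩
  · rw [aeval_quartic]
    show vA q.2 x y z ^ 2 - vV q.1.1 x z * vV q.1.2 y z = 0
    rw [h, sub_self]

end HNQ
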