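import Mathlib

/-!
# MP_10e784_ag: the plane quartics `A(x, y, z)² = v(x, z) w(y, z)`: the definitions of the statement

`v`, `w` are binary quadratic forms, `A` is a ternary quadratic form, all over `ℤ`.
-/

set_option autoImplicit false

namespace HNQ

open MvPolynomial

/-- the data of a quartic: `((v, w), c)`, `v = (a, b, c)` is the form `a x² + b x z + c z²`, and `c` is the vector of the coefficients of
`z², x z, y z, x y, x², y²` in `A` -/
abbrev Dt : Type := ((ℤ × ℤ × ℤ) × (ℤ × ℤ × ℤ)) × (Fin 6 → ℤ)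

section ring

variable {F : Type} [CommRing F]

/-- the value of the quadratic form `v` at `(x, z)` -/
def vV (v : ℤ × ℤ × ℤ) (x z : F) : F := (v.1 : F) * x ^ 2 + (v.2.1 : F) * x * z + (v.2.2 : F) * z ^ 2

/-- the value of the ternary quadratic form `A` with the coefficients `c` at `(x, y, z)` -/
def vA (c : Fin 6 → ℤ) (x y z : F) : F :=
  (c 0 : F) * z ^ 2 + (c 1 : F) * x * z + (c 2 : F) * y * z + (c 3 : F) * x * y + (c 4 : F) * x ^ 2 + (c 5 : F) * y ^ 2

end ring

/-- the quartic form `A(x, y, z)² - v(x, z) w(y, z)` -/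
noncomputable def quartic (q : Dt) : MvPolynomial (Fin 3) ℤ :=
  vA q.2 (X 0) (X 1) (X 2) ^ 2 - vV q.1.1 (X 0) (X 2) * vV q.1.2 (X 1) (X 2)

/-- the plane curve has a point with coordinates in the field `K` -/
def HasPoint (K : Type) [Field K] (q : Dt) : Prop :=
  ∃ P : Fin 3 → K, P ≠ 0 ∧ aeval P (quartic q) = 0

/-- the plane curve has a point over a number field of odd degree -/
def HasOddPoint (q : Dt) : Prop :=
  ∃ (K : Type) (_ : Field K) (_ : NumberField K), Odd (Module.finrank ℚ K) ∧ HasPoint K q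

/-- the plane curve is smooth: at each point of the complex projective plane a partial derivative of the quartic form is not zero
(by Euler's formula it is not necessary to demand that the form itself vanishes) -/
def Smooth (q : Dt) : Prop :=
  ∀ P : Fin 3 → ℂ, P ≠ 0 → ∃ i : Fin 3, aeval P (pderiv i (quartic q)) ≠ 0

/-- The coefficients of `v`, `w` are at most `N`, those of `A` at most `H` in absolute value. -/
def InBox (H N : ℕ) (q : Dt) : Prop :=
  (|q.1.1.1| ≤ N ∧ |q.1.1.2.1| ≤ N ∧ |q.1.1.2.2| ≤ N) ∧ (|q.1.2.1| ≤ N ∧ |q.1.2.2.1| ≤ N ∧ |q.1.2.2.2| ≤ N) ∧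
    ∀ i, |q.2 i| ≤ H

end HNQ
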