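import Pool.Agent.Lib.MP_10e784_agQ.QFin

/-! The theorem for zero-cycles. -/

set_option autoImplicit false

open Classical

namespace HNQ

open Finset Polynomial FGO FQQ HNF

theorem QGlob_odd {l : List (ℤ × ℤ)} (h : Odd (l.map fun r => r.1 * r.2).sum) : ∃ r ∈ l, Odd r.2 := by
  by_contra hn
  push Not at hn
  have h1 : Even (l.map fun r => r.1 * r.2).sum := by
    clear h
    induction l with
    | nil => simp
    | cons a l ih =>
      rw [List.map_cons, List.sum_cons]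
      refine Even.add ?_ (ih fun r hr => hn r (List.mem_cons_of_mem _ hr))
      have h2 := hn a List.mem_cons_self
      rw [Int.not_odd_iff_even] at h2
      exact h2.mul_left _
  exact (Int.not_odd_iff_even.2 h1) h

theorem odd_of_global {q : Dt} (h : Global q) : HasOddPoint q := by
  obtain ⟨z, hz⟩ := h
  obtain ⟨s, hs, hodd⟩ : ∃ s ∈ z, Odd (Module.finrank ℚ s.2.K : ℤ) := by
    have h1 := QGlob_odd (l := z.map fun r => (r.1, (Module.finrank ℚ r.2.K : ℤ))) (by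
      rw [List.map_map]
      exact hz)
    obtain ⟨r, hr, hr2⟩ := h1
    obtain ⟨s, hs, rfl⟩ := List.mem_map.1 hr
    exact ⟨s, hs, hr2⟩
  have : CharZero s.2.K := charZero_of_injective_algebraMap (algebraMap ℚ s.2.K).injective
  have halg : (DivisionRing.toRatAlgebra : Algebra ℚ s.2.K) = s.2.alg := Subsingleton.elim _ _
  have hnf : NumberField s.2.K := @NumberField.mk s.2.K _ this (by
    rw [halg]
    exact s.2.fin)
  refine ⟨s.2.K, s.2.field, hnf, ?_, hasPoint_of s.2.ne s.2.eq⟩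
  have h2 : Odd (@Module.finrank ℚ s.2.K _ _ s.2.alg.toModule) := by
    rw [← Int.odd_coe_nat]
    exact hodd
  rw [← halg] at h2
  exact h2

theorem cyc_Q (K : ℕ) (hK : 5 ≤ K) :
    (∃ C : ℝ, ∀ N : ℕ, 16 ≤ N →
      (Nat.card {q : Dt // InBox (N ^ K) N q ∧ (Adelic q ∨ Global q)} : ℝ) ≤
        C * (N : ℝ) ^ (6 * K + 6) / Real.log (Real.log N)) ∧
    (∃ c : ℝ, 0 < c ∧ ∃ N₀ : ℕ, ∀ N : ℕ, N₀ ≤ N → c * (N : ℝ) ^ (6 * K + 6) ≤
      (Nat.card {q : Dt // InBox (N ^ K) N q ∧ Smooth q ∧ HasPoint ℝ q ∧ ∀ (p : ℕ) [Fact p.Prime], HasPoint ℚ_[p] q} : ℝ)) := by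
  refine ⟨?_, part2_Q K hK⟩
  obtain ⟨C, -, h⟩ := part1_Q K hK
  refine ⟨C, fun N hN => le_trans ?_ (h N hN)⟩
  exact_mod_cast QFin_mono (N ^ K) N (fun q => Adelic q ∨ Global q) (fun q => Adelic q ∨ HasOddPoint q)
    fun q hq => hq.imp id odd_of_global

end HNQ
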