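import Pool.Agent.Lib.MP_10e784_agQ.QL
import Pool.Agent.Lib.MP_1ad228_ntH.AN

/-! Part (1): the number of quartics with a point over a number field of odd degree. -/

set_option autoImplicit false

open Classical

namespace HNQ

open Finset Polynomial FGO FQQ HNF

theorem QM_log {N : ℕ} (hN : 16 ≤ N) : 1 < Real.log N ∧ 0 < Real.log (Real.log N) := by
  have h2 : (16 : ℝ) ≤ N := by exact_mod_cast hN
  have h3 : Real.log 16 ≤ Real.log N := Real.log_le_log (by norm_num) h2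
  have h4 : Real.log 16 = 4 * Real.log 2 := by
    rw [show (16 : ℝ) = 2 ^ 4 by norm_num, Real.log_pow]
    norm_num
  have h5 := Real.log_two_gt_d9
  have h6 : 1 < Real.log N := by
    rw [h4] at h3
    linarith
  exact ⟨h6, Real.log_pos h6⟩

theorem QM_card (m K N : ℕ) (hN : 1 ≤ N) :
    ((Bx m (N ^ K) N).card : ℝ) ≤ 3 ^ (m + 7) * (((N : ℝ) ^ K) ^ (m + 1) * (N : ℝ) ^ 6) := by
  have h0 : ∀ H : ℕ, (Icc (-(H : ℤ)) (H : ℤ)).card = 2 * H + 1 := by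
    intro H
    rw [Int.card_Icc]
    omega
  have h1 : (Bx m (N ^ K) N).card = (2 * N ^ K + 1) ^ (m + 1) * (2 * N + 1) ^ 6 := by
    unfold Bx boxN box2 FGO.box
    rw [Finset.card_product, Fintype.card_piFinset]
    simp only [Finset.card_product, h0, Finset.prod_const, Finset.card_univ, Fintype.card_fin]
    ring
  have h2 : 1 ≤ N ^ K := Nat.one_le_pow _ _ hN
  have h3 : (Bx m (N ^ K) N).card ≤ (3 * N ^ K) ^ (m + 1) * (3 * N) ^ 6 := by
    rw [h1]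
    exact Nat.mul_le_mul (Nat.pow_le_pow_left (by omega) _) (Nat.pow_le_pow_left (by omega) _)
  have h4 : ((Bx m (N ^ K) N).card : ℝ) ≤ (((3 * N ^ K) ^ (m + 1) * (3 * N) ^ 6 : ℕ) : ℝ) := by exact_mod_cast h3
  refine h4.trans (le_of_eq ?_)
  push_cast
  rw [mul_pow, mul_pow]
  ring

/-- the bound for `B0 (N^K)² N⁴` -/
theorem QM_P (K B0 N : ℕ) (hN : 2 * B0 + 2 ≤ N) (hK : 5 ≤ K) :
    B0 * (N ^ K) ^ 2 * N ^ 4 ≤ N ^ (2 * K + 4 + B0) ∧
      288 * N ^ 5 * (B0 * (N ^ K) ^ 2 * N ^ 4) ≤ 256 * (N ^ K) ^ 4 := by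
  have h0 : B0 * (N ^ K) ^ 2 * N ^ 4 = B0 * N ^ (2 * K + 4) := by
    rw [← pow_mul, mul_assoc, ← pow_add]
    congr 2
    ring
  constructor
  · rw [h0]
    have h1 : B0 ≤ N ^ B0 := (Nat.lt_two_pow_self).le.trans (Nat.pow_le_pow_left (by omega) _)
    calc B0 * N ^ (2 * K + 4) ≤ N ^ B0 * N ^ (2 * K + 4) := Nat.mul_le_mul_right _ h1
      _ = N ^ (2 * K + 4 + B0) := by rw [← pow_add, add_comm]
  · rw [h0]
    calc 288 * N ^ 5 * (B0 * N ^ (2 * K + 4)) = (288 * B0) * N ^ (2 * K + 9) := by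
          rw [show 2 * K + 9 = 5 + (2 * K + 4) by ring, pow_add]
          ring
      _ ≤ (256 * N) * N ^ (2 * K + 9) := Nat.mul_le_mul_right _ (by omega)
      _ = 256 * N ^ (2 * K + 10) := by ring
      _ ≤ 256 * N ^ (4 * K) := Nat.mul_le_mul_left _ (Nat.pow_le_pow_right (by omega) (by omega))
      _ = 256 * (N ^ K) ^ 4 := by rw [← pow_mul, mul_comm K 4]

/-- the data with a zero coordinate -/
theorem QM_nz {K N : ℕ} (hK : 1 ≤ K) (hN : 16 ≤ N) :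
    (((Bx 5 (N ^ K) N).filter fun s => ¬ (s.1 3 ≠ 0 ∧ s.1 4 ≠ 0 ∧ s.1 5 ≠ 0)).card : ℝ) ≤
      3 * 3 ^ 11 * (((N : ℝ) ^ K) ^ 6 * (N : ℝ) ^ 6) / Real.log (Real.log N) := by
  obtain ⟨hlog, hLL⟩ := QM_log hN
  have hN0 : (0 : ℝ) < N := by
    have : 0 < N := by omega
    exact_mod_cast this
  have h1 : (((3 * (2 * N ^ K + 1) ^ 5 * (2 * N + 1) ^ 6 : ℕ)) : ℝ) ≤
      3 * 3 ^ 11 * (((N : ℝ) ^ K) ^ 5 * (N : ℝ) ^ 6) := by
    have h2 : 1 ≤ N ^ K := Nat.one_le_pow _ _ (by omega)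
    have h3 : 3 * (2 * N ^ K + 1) ^ 5 * (2 * N + 1) ^ 6 ≤ 3 * (3 * N ^ K) ^ 5 * (3 * N) ^ 6 :=
      Nat.mul_le_mul (Nat.mul_le_mul_left _ (Nat.pow_le_pow_left (by omega) _)) (Nat.pow_le_pow_left (by omega) _)
    have h4 : (((3 * (2 * N ^ K + 1) ^ 5 * (2 * N + 1) ^ 6 : ℕ)) : ℝ) ≤
        ((3 * (3 * N ^ K) ^ 5 * (3 * N) ^ 6 : ℕ) : ℝ) := by exact_mod_cast h3
    refine h4.trans (le_of_eq ?_)
    push_cast
    rw [mul_pow, mul_pow]
    ring
  have h2 : (((Bx 5 (N ^ K) N).filter fun s => ¬ (s.1 3 ≠ 0 ∧ s.1 4 ≠ 0 ∧ s.1 5 ≠ 0)).card : ℝ) ≤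
      (((3 * (2 * N ^ K + 1) ^ 5 * (2 * N + 1) ^ 6 : ℕ)) : ℝ) := by
    exact_mod_cast nz_card (N ^ K) N
  refine (h2.trans h1).trans ?_
  rw [le_div_iff₀ hLL]
  have h3 : Real.log (Real.log N) ≤ (N : ℝ) ^ K := by
    have e1 : Real.log (Real.log N) ≤ Real.log N := by
      have := Real.log_le_sub_one_of_pos (lt_trans one_pos hlog)
      linarith
    have e2 : Real.log N ≤ N := by
      have := Real.log_le_sub_one_of_pos hN0
      linarith
    have e3 : (N : ℝ) ≤ (N : ℝ) ^ K := by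
      have e4 : (1 : ℝ) ≤ N := by
        have : 1 ≤ N := by omega
        exact_mod_cast this
      exact le_self_pow₀ e4 (by omega)
    linarith
  calc 3 * 3 ^ 11 * (((N : ℝ) ^ K) ^ 5 * (N : ℝ) ^ 6) * Real.log (Real.log N)
      ≤ 3 * 3 ^ 11 * (((N : ℝ) ^ K) ^ 5 * (N : ℝ) ^ 6) * (N : ℝ) ^ K :=
        mul_le_mul_of_nonneg_left h3 (by positivity)
    _ = 3 * 3 ^ 11 * (((N : ℝ) ^ K) ^ 6 * (N : ℝ) ^ 6) := by
        rw [pow_succ ((N : ℝ) ^ K) 5]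
        ring

/-- (part 1) Proof. Copy `HNF.part1_H` (HM.lean). `m = 5`, `e = eQ` (`Mon_eQ`), `P N = 103680 (N^K)² N⁴`, `A = 2 K + 4 + 103680` (`103680 ≤ 2^103680 ≤ N^103680`: never compute the power; `Nat.lt_two_pow_self`), `N1 = 2 * 103680 + 2`: `288 N⁵ P N = 288 · 103680 N^(2K+9) ≤ 256 N · N^(2K+9) ≤ 256 (N^K)⁴` as `2 K + 10 ≤ 4 K`.
`core_card` gives `C`, `N0` and for `N ≥ N0` the numbers `P0, z0`. A pair `s` of the box with `Adelic ∨ HasOddPoint` is not `Ty`, or has `XeP` for some `p ∈ PQ P0 N` (`Xe_card`: `41/P0 ≤ 8200/LL`), or has a zero coordinate (`nz_card`), or `Sel1` (`sel_of`). -/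
theorem part1_Q (K : ℕ) (hK : 5 ≤ K) : ∃ C : ℝ, 0 < C ∧ ∀ N : ℕ, 16 ≤ N →
    (Nat.card {q : Dt // InBox (N ^ K) N q ∧ (Adelic q ∨ HasOddPoint q)} : ℝ) ≤
      C * (N : ℝ) ^ (6 * K + 6) / Real.log (Real.log N) := by
  obtain ⟨B0, hB0⟩ : ∃ B0 : ℕ, B0 = 103680 := ⟨_, rfl⟩
  obtain ⟨C, hC, N0, hN0, HP⟩ := core_card Mon_eQ K (2 * K + 4 + B0) (by omega)
    (fun N => B0 * (N ^ K) ^ 2 * N ^ 4) (2 * B0 + 2) (fun N hN => (QM_P K B0 N hN hK).1)
    (fun N hN => (QM_P K B0 N hN hK).2)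
  have hLL0 := (QM_log hN0).2
  have hpos : 0 < 3 ^ (5 + 7) * Real.log (Real.log N0) + (8 ^ 12 * 8200 + 3 * 3 ^ 11 + 2 * C) := by
    positivity
  refine ⟨_, hpos, fun N hN => ?_⟩
  obtain ⟨hlog, hLL⟩ := QM_log hN
  have hN1 : 0 < N := by omega
  obtain ⟨W, hW⟩ : ∃ W : ℝ, W = ((N : ℝ) ^ K) ^ (5 + 1) * (N : ℝ) ^ 6 := ⟨_, rfl⟩
  have hW0 : 0 < W := by
    have : (0 : ℝ) < N := by exact_mod_cast hN1
    rw [hW]
    positivity
  have hW1 : (N : ℝ) ^ (6 * K + 6) = W := by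
    rw [hW, pow_add, ← pow_mul]
    congr 2
    ring
  obtain ⟨Pr, hPr⟩ : ∃ Pr : Dt → Prop, Pr = fun q => Adelic q ∨ HasOddPoint q := ⟨_, rfl⟩
  have hcount : Nat.card {q : Dt // InBox (N ^ K) N q ∧ (Adelic q ∨ HasOddPoint q)} = Nat.card {q : Dt // InBox (N ^ K) N q ∧ Pr q} := by
    rw [hPr]
  rw [hW1, hcount, card_Dt]
  rcases lt_or_ge N N0 with hlt | hge
  · have h1 : Real.log (Real.log N) ≤ Real.log (Real.log N0) := by
      have hNR : (16 : ℝ) ≤ N := by exact_mod_cast hN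
      refine Real.log_le_log (by linarith) (Real.log_le_log (by linarith) ?_)
      exact_mod_cast hlt.le
    have h2 : (((Bx 5 (N ^ K) N).filter fun s => Pr (s.2, s.1)).card : ℝ) ≤ 3 ^ (5 + 7) * W := by
      rw [hW]
      refine le_trans ?_ (QM_card 5 K N hN1)
      exact_mod_cast Finset.card_filter_le _ _
    refine h2.trans ?_
    rw [le_div_iff₀ hLL]
    have h3 : 3 ^ (5 + 7) * W * Real.log (Real.log N) ≤ 3 ^ (5 + 7) * W * Real.log (Real.log N0) :=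
      mul_le_mul_of_nonneg_left h1 (by positivity)
    refine h3.trans ?_
    have h4 : 0 ≤ (8 ^ 12 * 8200 + 3 * 3 ^ 11 + 2 * C) * W := by
      positivity
    linarith
  · obtain ⟨P0, z0, p1, p2, p3, p4, p5, p6⟩ := HP N hge
    have hz : z0 ≤ N := by
      by_contra h
      have h1 : N < z0 := not_le.1 h
      have h2 : N * N < z0 ^ 2 := by
        rw [pow_two]
        exact Nat.mul_lt_mul'' h1 h1
      have h3 : 16 * N ≤ N * N := Nat.mul_le_mul_right _ hN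
      omega
    have hH : N ≤ N ^ K := Nat.le_self_pow (by omega) N
    have hsub : ((Bx 5 (N ^ K) N).filter fun s => Pr (s.2, s.1)) ⊆
        (((Bx 5 (N ^ K) N).filter fun s => ¬ Ty eQ P0 z0 s.1 s.2) ∪
          ((Bx 5 (N ^ K) N).filter fun s => ∃ p ∈ PQ P0 N, XeP p s.1 s.2)) ∪
        (((Bx 5 (N ^ K) N).filter fun s => ¬ (s.1 3 ≠ 0 ∧ s.1 4 ≠ 0 ∧ s.1 5 ≠ 0)) ∪
          ((Bx 5 (N ^ K) N).filter fun s => Sel1 eQ P0 z0 (B0 * (N ^ K) ^ 2 * N ^ 4) s.1 s.2)) := by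
      intro s hs
      rw [Finset.mem_filter] at hs
      simp only [Finset.mem_union, Finset.mem_filter]
      by_cases h1 : Ty eQ P0 z0 s.1 s.2
      · by_cases h2 : ∃ p ∈ PQ P0 N, XeP p s.1 s.2
        · exact Or.inl (Or.inr ⟨hs.1, h2⟩)
        · by_cases h3 : s.1 3 ≠ 0 ∧ s.1 4 ≠ 0 ∧ s.1 5 ≠ 0
          · refine Or.inr (Or.inr ⟨hs.1, ?_⟩)
            push Not at h2
            have hs2 := hs.2
            rw [hPr] at hs2
            exact sel_of s hs.1 p1 hz h1 h2 h3 (by rw [← hB0]) hs2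
          · exact Or.inr (Or.inl ⟨hs.1, h3⟩)
      · exact Or.inl (Or.inl ⟨hs.1, h1⟩)
    have hc1 : (((Bx 5 (N ^ K) N).filter fun s => Pr (s.2, s.1)).card : ℝ) ≤
        (((Bx 5 (N ^ K) N).filter fun s => ¬ Ty eQ P0 z0 s.1 s.2).card : ℝ) +
          (((Bx 5 (N ^ K) N).filter fun s => ∃ p ∈ PQ P0 N, XeP p s.1 s.2).card : ℝ) +
        ((((Bx 5 (N ^ K) N).filter fun s => ¬ (s.1 3 ≠ 0 ∧ s.1 4 ≠ 0 ∧ s.1 5 ≠ 0)).card : ℝ) +
          (((Bx 5 (N ^ K) N).filter fun s => Sel1 eQ P0 z0 (B0 * (N ^ K) ^ 2 * N ^ 4) s.1 s.2).card : ℝ)) := by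
      have e1 := (Finset.card_le_card hsub).trans ((Finset.card_union_le _ _).trans
        (Nat.add_le_add (Finset.card_union_le _ _) (Finset.card_union_le _ _)))
      exact_mod_cast e1
    have hx := Xe_card (H := N ^ K) (N := N) (P0 := P0) hN1 hH (by omega)
    have hcz := QM_nz (K := K) (N := N) (by omega) hN
    rw [show (((N : ℝ) ^ K) ^ 6 * (N : ℝ) ^ 6) = W from by rw [hW]] at hcz
    rw [← hW] at p5 p6
    have hx2 : (((Bx 5 (N ^ K) N).filter fun s => ∃ p ∈ PQ P0 N, XeP p s.1 s.2).card : ℝ) ≤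
        8 ^ 12 * 8200 * W / Real.log (Real.log N) := by
      refine hx.trans ?_
      have e1 : (8 * ((N ^ K : ℕ) : ℝ)) ^ 6 * (8 * (N : ℝ)) ^ 6 = 8 ^ 12 * W := by
        rw [hW]
        push_cast
        rw [mul_pow, mul_pow]
        ring
      have e2 : 41 / (P0 : ℝ) ≤ 8200 / Real.log (Real.log N) := by
        calc 41 / (P0 : ℝ) = 41 * (1 / (P0 : ℝ)) := by ring
          _ ≤ 41 * (200 / Real.log (Real.log N)) := mul_le_mul_of_nonneg_left p4 (by norm_num)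
          _ = 8200 / Real.log (Real.log N) := by ring
      rw [e1]
      calc 8 ^ 12 * W * (41 / (P0 : ℝ)) ≤ 8 ^ 12 * W * (8200 / Real.log (Real.log N)) :=
            mul_le_mul_of_nonneg_left e2 (by positivity)
        _ = 8 ^ 12 * 8200 * W / Real.log (Real.log N) := by ring
    have hfin : C * W / Real.log (Real.log N) + 8 ^ 12 * 8200 * W / Real.log (Real.log N) +
        (3 * 3 ^ 11 * W / Real.log (Real.log N) + C * W / Real.log (Real.log N)) ≤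
        (3 ^ (5 + 7) * Real.log (Real.log N0) + (8 ^ 12 * 8200 + 3 * 3 ^ 11 + 2 * C)) * W /
          Real.log (Real.log N) := by
      rw [← add_div, ← add_div, ← add_div]
      refine div_le_div_of_nonneg_right ?_ hLL.le
      have h5 : 0 ≤ 3 ^ (5 + 7) * Real.log (Real.log N0) * W := by positivity
      linarith
    refine le_trans ?_ hfin
    linarith

end HNQ
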