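import Pool.Agent.Lib.MP_10e784_agQ.QT1

/-! The second moment of the number of points. -/

set_option autoImplicit false

open Classical

namespace HNQ

open Finset Polynomial FGO FQQ HNF

theorem QT2_two (p : ℕ) [Fact p.Prime] (hp : 17 ≤ p) : (2 : ZMod p) ≠ 0 := by
  have h1 : ((2 : ℕ) : ZMod p) ≠ 0 := by
    intro h
    rw [ZMod.natCast_eq_zero_iff] at h
    have := Nat.le_of_dvd (by norm_num) h
    omega
  exact_mod_cast h1

/-- the fibres of a surjective homomorphism -/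
theorem QT2_fiber {G H : Type} [AddCommGroup G] [Fintype G] [AddCommGroup H] [Fintype H]
    [DecidableEq H] (f : G →+ H) (hf : Function.Surjective f) (h : H) :
    (univ.filter fun g : G => f g = h).card * Fintype.card H = Fintype.card G := by
  have key : ∀ h : H, (univ.filter fun g : G => f g = h).card = (univ.filter fun g : G => f g = 0).card := by
    intro h
    obtain ⟨g0, rfl⟩ := hf h
    refine Finset.card_bij' (fun g _ => g - g0) (fun g _ => g + g0) ?_ ?_ ?_ ?_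
    · intro g hg
      rw [Finset.mem_filter] at hg ⊢
      exact ⟨Finset.mem_univ _, by rw [map_sub, hg.2, sub_self]⟩
    · intro g hg
      rw [Finset.mem_filter] at hg ⊢
      exact ⟨Finset.mem_univ _, by rw [map_add, hg.2, zero_add]⟩
    · intro g _
      exact sub_add_cancel g g0
    · intro g _
      exact add_sub_cancel_right g g0
  have h1 : (univ : Finset G).card = ∑ b : H, (univ.filter fun g : G => f g = b).card :=
    Finset.card_eq_sum_card_fiberwise fun P _ => Finset.mem_coe.mpr (Finset.mem_univ _)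
  rw [Finset.sum_congr rfl fun b _ => key b, Finset.sum_const, Finset.card_univ, Finset.card_univ,
    smul_eq_mul] at h1
  rw [key h, h1, mul_comm]

/-- Proof. For given `c 1, .., c 5` there is exactly one `c 0`. -/
theorem card_one (p : ℕ) [Fact p.Prime] (x y s : ZMod p) :
    (univ.filter fun c : Fin 6 → ZMod p => hA c x y 1 = s).card = p ^ 5 := by
  let f : (Fin 6 → ZMod p) →+ ZMod p :=
    { toFun := fun c => hA c x y 1
      map_zero' := by simp [hA]
      map_add' := fun c c' => by simp only [hA, Pi.add_apply]; ring }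
  have hf : Function.Surjective f := by
    intro s
    refine ⟨![s, 0, 0, 0, 0, 0], ?_⟩
    show hA ![s, 0, 0, 0, 0, 0] x y 1 = s
    simp [hA]
  have h1 := QT2_fiber f hf s
  have h2 : (univ.filter fun c : Fin 6 → ZMod p => f c = s) =
      univ.filter fun c : Fin 6 → ZMod p => hA c x y 1 = s := by
    ext c
    simp only [Finset.mem_filter]
    exact Iff.rfl
  rw [h2, Fintype.card_fun, Fintype.card_fin, ZMod.card] at h1
  have hp0 : 0 < p := (Fact.out : p.Prime).pos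
  exact Nat.eq_of_mul_eq_mul_right hp0 (h1.trans (by ring))

/-- Proof. If `x ≠ x'`: for given `c 2, .., c 5` there is exactly one pair `(c 0, c 1)`. If `y ≠ y'`: for given `c 1, c 3, c 4, c 5` exactly one pair `(c 0, c 2)`. -/
theorem card_two (p : ℕ) [Fact p.Prime] (x y s x' y' s' : ZMod p) (h : ¬ (x = x' ∧ y = y')) :
    (univ.filter fun c : Fin 6 → ZMod p => hA c x y 1 = s ∧ hA c x' y' 1 = s').card = p ^ 4 := by
  let f : (Fin 6 → ZMod p) →+ ZMod p × ZMod p :=
    { toFun := fun c => (hA c x y 1, hA c x' y' 1)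
      map_zero' := by simp [hA]
      map_add' := fun c c' => by
        refine Prod.ext ?_ ?_
        · show hA (c + c') x y 1 = hA c x y 1 + hA c' x y 1
          simp only [hA, Pi.add_apply]; ring
        · show hA (c + c') x' y' 1 = hA c x' y' 1 + hA c' x' y' 1
          simp only [hA, Pi.add_apply]; ring }
  have hf : Function.Surjective f := by
    rintro ⟨A, B⟩
    by_cases hx : x = x'
    · have hy : y - y' ≠ 0 := fun hy => h ⟨hx, sub_eq_zero.mp hy⟩
      refine ⟨![A - (A - B) / (y - y') * y, 0, (A - B) / (y - y'), 0, 0, 0], ?_⟩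
      have h3 : (A - B) / (y - y') * (y - y') = A - B := div_mul_cancel₀ _ hy
      refine Prod.ext ?_ ?_
      · show hA ![A - (A - B) / (y - y') * y, 0, (A - B) / (y - y'), 0, 0, 0] x y 1 = A
        simp [hA]
      · show hA ![A - (A - B) / (y - y') * y, 0, (A - B) / (y - y'), 0, 0, 0] x' y' 1 = B
        simp [hA]
        linear_combination -h3
    · have hx' : x - x' ≠ 0 := fun hy => hx (sub_eq_zero.mp hy)
      refine ⟨![A - (A - B) / (x - x') * x, (A - B) / (x - x'), 0, 0, 0, 0], ?_⟩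
      have h3 : (A - B) / (x - x') * (x - x') = A - B := div_mul_cancel₀ _ hx'
      refine Prod.ext ?_ ?_
      · show hA ![A - (A - B) / (x - x') * x, (A - B) / (x - x'), 0, 0, 0, 0] x y 1 = A
        simp [hA]
      · show hA ![A - (A - B) / (x - x') * x, (A - B) / (x - x'), 0, 0, 0, 0] x' y' 1 = B
        simp [hA]
        linear_combination -h3
  have h1 := QT2_fiber f hf (s, s')
  have h2 : (univ.filter fun c : Fin 6 → ZMod p => f c = (s, s')) =
      univ.filter fun c : Fin 6 → ZMod p => hA c x y 1 = s ∧ hA c x' y' 1 = s' := by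
    ext c
    simp only [Finset.mem_filter]
    refine and_congr_right fun _ => ?_
    exact Prod.ext_iff
  rw [h2, Fintype.card_fun, Fintype.card_fin, Fintype.card_prod, ZMod.card] at h1
  have hp0 : 0 < p * p := Nat.mul_pos (Fact.out : p.Prime).pos (Fact.out : p.Prime).pos
  exact Nat.eq_of_mul_eq_mul_right hp0 (h1.trans (by ring))

/-- Proof. For given `c 3, c 4, c 5` the second equation determines `c 1`, the third `c 2`, the first `c 0`. -/
theorem card_three (p : ℕ) [Fact p.Prime] (x y s a b : ZMod p) :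
    (univ.filter fun c : Fin 6 → ZMod p => hA c x y 1 = s ∧ c 1 + c 3 * y + 2 * c 4 * x = a ∧
      c 2 + c 3 * x + 2 * c 5 * y = b).card ≤ p ^ 3 := by
  have h1 : (univ.filter fun c : Fin 6 → ZMod p => hA c x y 1 = s ∧ c 1 + c 3 * y + 2 * c 4 * x = a ∧
      c 2 + c 3 * x + 2 * c 5 * y = b).card ≤ (univ : Finset (ZMod p × ZMod p × ZMod p)).card := by
    refine Finset.card_le_card_of_injOn (fun c => (c 3, c 4, c 5)) (fun _ _ => Finset.mem_coe.mpr
      (Finset.mem_univ _)) ?_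
    intro c hc c' hc' h
    obtain ⟨e1, e2, e3⟩ := (Finset.mem_filter.mp (Finset.mem_coe.mp hc)).2
    obtain ⟨f1, f2, f3⟩ := (Finset.mem_filter.mp (Finset.mem_coe.mp hc')).2
    have g3 : c 3 = c' 3 := (Prod.ext_iff.mp h).1
    have g4 : c 4 = c' 4 := (Prod.ext_iff.mp (Prod.ext_iff.mp h).2).1
    have g5 : c 5 = c' 5 := (Prod.ext_iff.mp (Prod.ext_iff.mp h).2).2
    rw [g3, g4] at e2
    rw [g3, g5] at e3
    have g1 : c 1 = c' 1 := by linear_combination e2 - f2
    have g2 : c 2 = c' 2 := by linear_combination e3 - f3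
    have g0 : c 0 = c' 0 := by
      simp only [hA] at e1 f1
      rw [g1, g2, g3, g4, g5] at e1
      linear_combination e1 - f1
    funext i
    fin_cases i
    · exact g0
    · exact g1
    · exact g2
    · exact g3
    · exact g4
    · exact g5
  refine h1.trans (le_of_eq ?_)
  rw [Finset.card_univ, Fintype.card_prod, Fintype.card_prod, ZMod.card]
  ring

/-- **Proof.** Choose for each `P ∈ SqP` a square root `s(P) ≠ 0` of `v w (P)`; `n = |SqP|`, `N(c)` = the number of `P ∈ SqP` with `A_c(P) = s(P)`. By `card_one`, `card_two`: `∑_c N(c) = n p⁵`, `∑_c N(c)² = n p⁵ + n (n - 1) p⁴`, so `∑_c (N(c) - n/p)² = n p⁵ - n p⁴ ≤ n p⁵`, so the number of `c` with `N(c) = 0` is at most `n p⁵ (p/n)² = p⁷/n ≤ 16 p⁵` (`SqP_card`).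
If `BdF c v w` and `N(c) > 0` then there is `P = (x, y) ∈ SqP` with `A_c(P) = s(P)` (so `Gq = 0`) and `Gx = Gy = 0`: `c 1 + c 3 y + 2 c 4 x = a(P)`, `c 2 + c 3 x + 2 c 5 y = b(P)` with `a(P) = (2 v.1 x + v.2.1) w(y)/(2 s)`, `b(P) = v(x) (2 w.1 y + w.2.1)/(2 s)`: by `card_three` at most `n p³ ≤ p⁵` vectors `c`. Total `≤ 17 p⁵`. (`mF` divides by `p⁶`.) -/
theorem mF_BdF (p : ℕ) [Fact p.Prime] (hp : 17 ≤ p) (v w : ZMod p × ZMod p × ZMod p) (hv : v ≠ 0) (hw : w ≠ 0)
    (h : ¬ (ds v = 0 ∧ ds w = 0)) : mF 5 p (fun c => ind (BdF c v w)) ≤ 17 / (p : ℝ) := by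
  have h2 := QT2_two p hp
  have hS : ∀ P ∈ SqP p v w, ∃ s : ZMod p, s ≠ 0 ∧ s ^ 2 = qv v P.1 1 * qv w P.2 1 :=
    fun P hP => (Finset.mem_filter.mp hP).2
  choose! s hs0 hs2 using hS
  have hn := SqP_card p hp v w hv hw h
  have hp0 : (0 : ℝ) < p := by exact_mod_cast (Fact.out : p.Prime).pos
  have hp1 : (p : ℝ) ≠ 0 := hp0.ne'
  set S := SqP p v w with hSdef
  have hn0 : (0 : ℝ) < S.card := lt_of_lt_of_le (by positivity) hn
  set e : ZMod p × ZMod p → (Fin 6 → ZMod p) → ℝ :=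
    fun P c => if hA c P.1 P.2 1 = s P then 1 else 0 with he
  have he1 : ∀ P, ∑ c, e P c = (p : ℝ) ^ 5 := by
    intro P
    simp only [he]
    rw [Finset.sum_boole, card_one]
    push_cast
    rfl
  have hee : ∀ P c, e P c * e P c = e P c := by
    intro P c
    simp only [he]
    split_ifs <;> norm_num
  have he2 : ∀ P P', P ≠ P' → ∑ c, e P c * e P' c = (p : ℝ) ^ 4 := by
    intro P P' hne
    have h3 : ∀ c, e P c * e P' c =
        if (hA c P.1 P.2 1 = s P ∧ hA c P'.1 P'.2 1 = s P') then 1 else 0 := by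
      intro c
      simp only [he]
      by_cases h4 : hA c P.1 P.2 1 = s P
      · by_cases h5 : hA c P'.1 P'.2 1 = s P'
        · rw [if_pos h4, if_pos h5, if_pos ⟨h4, h5⟩, one_mul]
        · have h7 : ¬ (hA c P.1 P.2 1 = s P ∧ hA c P'.1 P'.2 1 = s P') := fun h6 => h5 h6.2
          rw [if_neg h5, if_neg h7, mul_zero]
      · have h7 : ¬ (hA c P.1 P.2 1 = s P ∧ hA c P'.1 P'.2 1 = s P') := fun h6 => h4 h6.1
        rw [if_neg h4, if_neg h7, zero_mul]
    rw [Finset.sum_congr rfl fun c _ => h3 c, Finset.sum_boole,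
      card_two _ _ _ _ _ _ _ (fun h6 => hne (Prod.ext h6.1 h6.2))]
    push_cast
    rfl
  have hone : ∑ _c : Fin 6 → ZMod p, (1 : ℝ) = (p : ℝ) ^ 6 := by
    rw [Finset.sum_const, Finset.card_univ, Fintype.card_fun, Fintype.card_fin, ZMod.card,
      nsmul_eq_mul, mul_one]
    push_cast
    rfl
  have hgen : ∀ P P', ∑ c, (e P c - 1 / p) * (e P' c - 1 / p) = ∑ c, e P c * e P' c - (p : ℝ) ^ 4 := by
    intro P P'
    have h3 : ∀ c, (e P c - 1 / p) * (e P' c - 1 / p) =
        e P c * e P' c - (1 / (p : ℝ)) * e P c - (1 / (p : ℝ)) * e P' c + (1 / (p : ℝ) ^ 2) * 1 := by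
      intro c
      ring
    rw [Finset.sum_congr rfl fun c _ => h3 c, Finset.sum_add_distrib, Finset.sum_sub_distrib,
      Finset.sum_sub_distrib, ← Finset.mul_sum, ← Finset.mul_sum, ← Finset.mul_sum, he1, he1, hone]
    field_simp
    ring
  have hdd : ∀ P P', ∑ c, (e P c - 1 / p) * (e P' c - 1 / p) =
      if P = P' then (p : ℝ) ^ 5 - (p : ℝ) ^ 4 else 0 := by
    intro P P'
    rw [hgen]
    by_cases hPP : P = P'
    · rw [if_pos hPP, ← hPP, Finset.sum_congr rfl fun c _ => hee P c, he1]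
    · rw [if_neg hPP, he2 P P' hPP, sub_self]
  have hsq : ∑ c, (∑ P ∈ S, (e P c - 1 / p)) ^ 2 = (S.card : ℝ) * ((p : ℝ) ^ 5 - (p : ℝ) ^ 4) := by
    have h3 : ∀ c, (∑ P ∈ S, (e P c - 1 / p)) ^ 2 =
        ∑ P ∈ S, ∑ P' ∈ S, (e P c - 1 / p) * (e P' c - 1 / p) := by
      intro c
      rw [sq, Finset.sum_mul_sum]
    rw [Finset.sum_congr rfl fun c _ => h3 c, Finset.sum_comm]
    have h4 : ∀ P ∈ S, ∑ c, ∑ P' ∈ S, (e P c - 1 / p) * (e P' c - 1 / p) =
        (p : ℝ) ^ 5 - (p : ℝ) ^ 4 := by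
      intro P hP
      rw [Finset.sum_comm, Finset.sum_congr rfl fun P' _ => hdd P P', Finset.sum_ite_eq, if_pos hP]
    rw [Finset.sum_congr rfl h4, Finset.sum_const, nsmul_eq_mul]
  set Z := univ.filter fun c : Fin 6 → ZMod p => ∀ P ∈ S, hA c P.1 P.2 1 ≠ s P with hZdef
  have hZ1 : ∀ c ∈ Z, (∑ P ∈ S, (e P c - 1 / p)) ^ 2 = ((S.card : ℝ) / p) ^ 2 := by
    intro c hc
    have h3 : ∑ P ∈ S, (e P c - 1 / p) = ∑ _P ∈ S, (-(1 / (p : ℝ))) := by
      refine Finset.sum_congr rfl fun P hP => ?_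
      simp only [he]
      rw [if_neg ((Finset.mem_filter.mp hc).2 P hP), zero_sub]
    rw [h3, Finset.sum_const, nsmul_eq_mul]
    ring
  have hZ2 : (Z.card : ℝ) * ((S.card : ℝ) / p) ^ 2 ≤ (S.card : ℝ) * ((p : ℝ) ^ 5 - (p : ℝ) ^ 4) := by
    rw [← hsq]
    have h3 : ∑ c ∈ Z, (∑ P ∈ S, (e P c - 1 / p)) ^ 2 = (Z.card : ℝ) * ((S.card : ℝ) / p) ^ 2 := by
      rw [Finset.sum_congr rfl hZ1, Finset.sum_const, nsmul_eq_mul]
    rw [← h3]
    exact Finset.sum_le_sum_of_subset_of_nonneg (Finset.subset_univ _) fun _ _ _ => sq_nonneg _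
  have hZ3 : (Z.card : ℝ) ≤ 16 * (p : ℝ) ^ 5 := by
    have h3 : (Z.card : ℝ) * (S.card : ℝ) ≤ (p : ℝ) ^ 7 := by
      have h4 : (Z.card : ℝ) * (S.card : ℝ) * ((S.card : ℝ) / (p : ℝ) ^ 2) ≤
          (p : ℝ) ^ 7 * ((S.card : ℝ) / (p : ℝ) ^ 2) := by
        calc (Z.card : ℝ) * (S.card : ℝ) * ((S.card : ℝ) / (p : ℝ) ^ 2)
            = (Z.card : ℝ) * ((S.card : ℝ) / p) ^ 2 := by ring
          _ ≤ (S.card : ℝ) * ((p : ℝ) ^ 5 - (p : ℝ) ^ 4) := hZ2
          _ ≤ (S.card : ℝ) * (p : ℝ) ^ 5 := by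
              refine mul_le_mul_of_nonneg_left ?_ hn0.le
              linarith [pow_pos hp0 4]
          _ = (p : ℝ) ^ 7 * ((S.card : ℝ) / (p : ℝ) ^ 2) := by
              field_simp
      exact le_of_mul_le_mul_right h4 (by positivity)
    have h5 : (Z.card : ℝ) * ((p : ℝ) ^ 2 / 16) ≤ (p : ℝ) ^ 7 :=
      (mul_le_mul_of_nonneg_left hn (Nat.cast_nonneg _)).trans h3
    have h6 : (Z.card : ℝ) * (p : ℝ) ^ 2 ≤ (16 * (p : ℝ) ^ 5) * (p : ℝ) ^ 2 := by
      calc (Z.card : ℝ) * (p : ℝ) ^ 2 = 16 * ((Z.card : ℝ) * ((p : ℝ) ^ 2 / 16)) := by ring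
        _ ≤ 16 * (p : ℝ) ^ 7 := by linarith
        _ = (16 * (p : ℝ) ^ 5) * (p : ℝ) ^ 2 := by ring
    exact le_of_mul_le_mul_right h6 (by positivity)
  set W := S.biUnion fun P => univ.filter fun c : Fin 6 → ZMod p => hA c P.1 P.2 1 = s P ∧
    c 1 + c 3 * P.2 + 2 * c 4 * P.1 = (2 * v.1 * P.1 + v.2.1) * qv w P.2 1 / (2 * s P) ∧
    c 2 + c 3 * P.1 + 2 * c 5 * P.2 = qv v P.1 1 * (2 * w.1 * P.2 + w.2.1) / (2 * s P) with hW
  have hW1 : W.card ≤ S.card * p ^ 3 :=
    Finset.card_biUnion_le_card_mul _ _ _ fun P _ => card_three p P.1 P.2 (s P) _ _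
  have hS2 : S.card ≤ p * p := by
    refine (Finset.card_le_univ S).trans (le_of_eq ?_)
    rw [Fintype.card_prod, ZMod.card]
  have hW2 : (W.card : ℝ) ≤ (p : ℝ) ^ 5 := by
    have h3 : W.card ≤ p ^ 5 := hW1.trans ((Nat.mul_le_mul_right _ hS2).trans (le_of_eq (by ring)))
    exact_mod_cast h3
  have hsub : (univ.filter fun c : Fin 6 → ZMod p => BdF c v w) ⊆ Z ∪ W := by
    intro c hc
    have hb := (Finset.mem_filter.mp hc).2
    rw [Finset.mem_union]
    by_cases hz : c ∈ Z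
    · exact Or.inl hz
    · right
      have h3 : ¬ ∀ P ∈ S, hA c P.1 P.2 1 ≠ s P := fun h4 =>
        hz (Finset.mem_filter.mpr ⟨Finset.mem_univ _, h4⟩)
      simp only [not_forall] at h3
      obtain ⟨P, hP, h4⟩ := h3
      have h4' : hA c P.1 P.2 1 = s P := not_not.mp h4
      have h5 := hs2 P hP
      have h6 := hs0 P hP
      obtain ⟨h7, h8⟩ := hb P.1 P.2 (by rw [Gq, h4', h5, sub_self])
      rw [Gx, h4'] at h7
      rw [Gy, h4'] at h8
      have h9 : (2 * s P : ZMod p) ≠ 0 := mul_ne_zero h2 h6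
      rw [hW, Finset.mem_biUnion]
      refine ⟨P, hP, Finset.mem_filter.mpr ⟨Finset.mem_univ _, h4', ?_, ?_⟩⟩
      · rw [eq_div_iff h9]
        linear_combination h7
      · rw [eq_div_iff h9]
        linear_combination h8
  have hfin : ((univ.filter fun c : Fin 6 → ZMod p => BdF c v w).card : ℝ) ≤ 17 * (p : ℝ) ^ 5 := by
    have h3 := (Finset.card_le_card hsub).trans (Finset.card_union_le Z W)
    have h4 : ((univ.filter fun c : Fin 6 → ZMod p => BdF c v w).card : ℝ) ≤ (Z.card : ℝ) + W.card := by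
      exact_mod_cast h3
    linarith
  have hsum : ∑ c : Fin 6 → ZMod p, ind (BdF c v w) =
      ((univ.filter fun c : Fin 6 → ZMod p => BdF c v w).card : ℝ) := by
    unfold ind
    rw [Finset.sum_boole]
  rw [mF]
  show (∑ c : Fin 6 → ZMod p, ind (BdF c v w)) / (p : ℝ) ^ 6 ≤ 17 / (p : ℝ)
  rw [hsum, div_le_div_iff₀ (by positivity) hp0]
  calc ((univ.filter fun c : Fin 6 → ZMod p => BdF c v w).card : ℝ) * p
      ≤ (17 * (p : ℝ) ^ 5) * p := mul_le_mul_of_nonneg_right hfin hp0.le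
    _ = 17 * (p : ℝ) ^ 6 := by ring

end HNQ
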