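import Pool.Agent.Lib.MP_10e784_agQ.QCDefs

/-! The mean value of the algebraic bad event. -/

set_option autoImplicit false

open Classical

namespace HNQ

open Finset Polynomial FGO FQQ HNF

theorem QT3_inj (p : ℕ) [Fact p.Prime] (S : Finset (Fin 6 → ZMod p)) (g : (Fin 6 → ZMod p) → (Fin 4 → ZMod p))
    (h : ∀ c ∈ S, ∀ c' ∈ S, g c = g c' → c = c') : S.card ≤ p ^ 4 := by
  have h1 : Fintype.card (Fin 4 → ZMod p) = p ^ 4 := by
    rw [Fintype.card_fun, ZMod.card, Fintype.card_fin]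
  rw [← h1, ← Finset.card_univ]
  apply Finset.card_le_card_of_injOn g
  · intro c _
    exact Finset.mem_coe.2 (Finset.mem_univ _)
  · intro c hc c' hc' hcc
    exact h c (Finset.mem_coe.1 hc) c' (Finset.mem_coe.1 hc') hcc

theorem QT3_ext {F : Type} {c c' : Fin 6 → F} (h0 : c 0 = c' 0) (h1 : c 1 = c' 1) (h2 : c 2 = c' 2)
    (h3 : c 3 = c' 3) (h4 : c 4 = c' 4) (h5 : c 5 = c' 5) : c = c' := by
  funext i
  fin_cases i
  · exact h0
  · exact h1
  · exact h2
  · exact h3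
  · exact h4
  · exact h5

theorem QT3_line {K : Type} [Field K] {a b a' b' r r' : K} (hr : r ≠ r') (h1 : a - a' + (b - b') * r = 0)
    (h2 : a - a' + (b - b') * r' = 0) : a = a' ∧ b = b' := by
  have h3 : (b - b') * (r - r') = 0 := by
    have : (b - b') * (r - r') = (a - a' + (b - b') * r) - (a - a' + (b - b') * r') := by ring
    rw [this, h1, h2, sub_self]
  have h4 : b - b' = 0 := by
    rcases mul_eq_zero.1 h3 with h | h
    · exact h
    · exact absurd (sub_eq_zero.1 h) hr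
  rw [h4, zero_mul, add_zero] at h1
  exact ⟨sub_eq_zero.1 h1, sub_eq_zero.1 h4⟩

/-- Proof. If `r ≠ r'` two solutions with the same `c 2, .., c 5` are equal: the differences `d0 + d1 r = 0 = d0 + d1 r'` in the closure, so `d1 = 0`, `d0 = 0` (`iK p` injective). If `q ≠ q'`: the same with `c 1, c 3, c 4, c 5` given. So at most `p⁴` solutions (an injection into `Fin 4 → ZMod p` or a product). -/
theorem card_pair (p : ℕ) [Fact p.Prime] (r q r' q' : Kp p) (h : ¬ (r = r' ∧ q = q')) :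
    (univ.filter fun c : Fin 6 → ZMod p => hA (fun i => iK p (c i)) r q 1 = 0 ∧ hA (fun i => iK p (c i)) r' q' 1 = 0).card ≤ p ^ 4 := by
  have hinj : Function.Injective (iK p) := (iK p).injective
  by_cases hr : r = r'
  · have hq : q ≠ q' := fun hq => h ⟨hr, hq⟩
    apply QT3_inj p _ (fun c => ![c 1, c 3, c 4, c 5])
    intro c hc c' hc' hcc
    rw [Finset.mem_filter] at hc hc'
    obtain ⟨-, a1, a2⟩ := hc
    obtain ⟨-, b1, b2⟩ := hc'
    have e1 : c 1 = c' 1 := congrFun hcc 0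
    have e3 : c 3 = c' 3 := congrFun hcc 1
    have e4 : c 4 = c' 4 := congrFun hcc 2
    have e5 : c 5 = c' 5 := congrFun hcc 3
    unfold hA at a1 a2 b1 b2
    simp only [e1, e3, e4, e5] at a1 a2
    have h1 : iK p (c 0) - iK p (c' 0) + (iK p (c 2) - iK p (c' 2)) * q = 0 := by
      linear_combination a1 - b1
    have h2 : iK p (c 0) - iK p (c' 0) + (iK p (c 2) - iK p (c' 2)) * q' = 0 := by
      linear_combination a2 - b2
    obtain ⟨f0, f2⟩ := QT3_line hq h1 h2
    exact QT3_ext (hinj f0) e1 (hinj f2) e3 e4 e5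
  · apply QT3_inj p _ (fun c => ![c 2, c 3, c 4, c 5])
    intro c hc c' hc' hcc
    rw [Finset.mem_filter] at hc hc'
    obtain ⟨-, a1, a2⟩ := hc
    obtain ⟨-, b1, b2⟩ := hc'
    have e2 : c 2 = c' 2 := congrFun hcc 0
    have e3 : c 3 = c' 3 := congrFun hcc 1
    have e4 : c 4 = c' 4 := congrFun hcc 2
    have e5 : c 5 = c' 5 := congrFun hcc 3
    unfold hA at a1 a2 b1 b2
    simp only [e2, e3, e4, e5] at a1 a2
    have h1 : iK p (c 0) - iK p (c' 0) + (iK p (c 1) - iK p (c' 1)) * r = 0 := by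
      linear_combination a1 - b1
    have h2 : iK p (c 0) - iK p (c' 0) + (iK p (c 1) - iK p (c' 1)) * r' = 0 := by
      linear_combination a2 - b2
    obtain ⟨f0, f1⟩ := QT3_line hr h1 h2
    exact QT3_ext (hinj f0) (hinj f1) e2 e3 e4 e5

theorem QT3_roots {K : Type} [Field K] (v : K × K × K) (hv : v.1 ≠ 0) :
    ∃ R : Finset K, R.card ≤ 2 ∧ ∀ r, qv v r 1 = 0 → r ∈ R := by
  have hdeg : (C v.1 * X ^ 2 + C v.2.1 * X + C v.2.2 : K[X]).natDegree = 2 := natDegree_quadratic hv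
  have hne : (C v.1 * X ^ 2 + C v.2.1 * X + C v.2.2 : K[X]) ≠ 0 := by
    intro h0
    rw [h0, natDegree_zero] at hdeg
    exact absurd hdeg (by norm_num)
  refine ⟨(C v.1 * X ^ 2 + C v.2.1 * X + C v.2.2 : K[X]).roots.toFinset, ?_, ?_⟩
  · refine le_trans (Multiset.toFinset_card_le _) ?_
    refine le_trans (card_roots' _) ?_
    rw [hdeg]
  · intro r hr
    rw [Multiset.mem_toFinset, mem_roots hne, IsRoot.def]
    simp only [eval_add, eval_mul, eval_C, eval_pow, eval_X]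
    unfold qv at hr
    linear_combination hr

/-- **Proof.** First clause of `Bd1`: `p⁴` vectors. Second: for given `c 0, c 3, c 4, c 5` the equations determine `c 1` and `c 2` (coefficient `2 v.1 w.1 ≠ 0`): `≤ p⁴`. Third: the finite set `R` of the roots of `v` in `Kp p` has at most 2 elements, `Q` of `w` too (`mV`; `v.1 ≠ 0`; `Polynomial.card_roots'`), so the pairs `((r, q), (r', q'))` are at most 16, each with at most `p⁴` vectors (`card_pair`). Total `18 p⁴`. -/
theorem mF_Bd1 (p : ℕ) [Fact p.Prime] (h2 : p ≠ 2) (v w : ZMod p × ZMod p × ZMod p) (hv : v.1 ≠ 0) (hw : w.1 ≠ 0) :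
    mF 5 p (fun c => ind (Bd1 p c v w)) ≤ 18 / (p : ℝ) ^ 2 := by
  have hp0 : (0 : ℝ) < p := by exact_mod_cast (Fact.out : p.Prime).pos
  have h20 : (2 : ZMod p) ≠ 0 := by
    intro h0
    have h1 : ((2 : ℕ) : ZMod p) = 0 := by exact_mod_cast h0
    rw [ZMod.natCast_eq_zero_iff] at h1
    exact h2 ((Nat.prime_dvd_prime_iff_eq (Fact.out : p.Prime) Nat.prime_two).1 h1)
  have hinj : Function.Injective (iK p) := (iK p).injective
  have hv' : (mV (iK p) v).1 ≠ 0 := fun h0 => hv (hinj (by rw [map_zero]; exact h0))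
  have hw' : (mV (iK p) w).1 ≠ 0 := fun h0 => hw (hinj (by rw [map_zero]; exact h0))
  obtain ⟨R, hR, hR'⟩ := QT3_roots _ hv'
  obtain ⟨Q, hQ, hQ'⟩ := QT3_roots _ hw'
  have hA1 : (univ.filter fun c : Fin 6 → ZMod p => c 4 = 0 ∧ c 5 = 0).card ≤ p ^ 4 := by
    apply QT3_inj p _ (fun c => ![c 0, c 1, c 2, c 3])
    intro c hc c' hc' hcc
    rw [Finset.mem_filter] at hc hc'
    obtain ⟨-, a1, a2⟩ := hc
    obtain ⟨-, b1, b2⟩ := hc'
    exact QT3_ext (congrFun hcc 0) (congrFun hcc 1) (congrFun hcc 2) (congrFun hcc 3)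
      (a1.trans b1.symm) (a2.trans b2.symm)
  have hA2 : (univ.filter fun c : Fin 6 → ZMod p => Uq c v w = 0 ∧ Wq c v w = 0).card ≤ p ^ 4 := by
    apply QT3_inj p _ (fun c => ![c 0, c 3, c 4, c 5])
    intro c hc c' hc' hcc
    rw [Finset.mem_filter] at hc hc'
    obtain ⟨-, a1, a2⟩ := hc
    obtain ⟨-, b1, b2⟩ := hc'
    have e0 : c 0 = c' 0 := congrFun hcc 0
    have e3 : c 3 = c' 3 := congrFun hcc 1
    have e4 : c 4 = c' 4 := congrFun hcc 2
    have e5 : c 5 = c' 5 := congrFun hcc 3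
    unfold Uq at a1 b1
    unfold Wq at a2 b2
    rw [e3, e4] at a1
    rw [e3, e5] at a2
    have hne : 2 * v.1 * w.1 ≠ 0 := mul_ne_zero (mul_ne_zero h20 hv) hw
    have f1 : 2 * v.1 * w.1 * c 1 = 2 * v.1 * w.1 * c' 1 := by linear_combination a1 - b1
    have f2 : 2 * v.1 * w.1 * c 2 = 2 * v.1 * w.1 * c' 2 := by linear_combination a2 - b2
    exact QT3_ext e0 (mul_left_cancel₀ hne f1) (mul_left_cancel₀ hne f2) e3 e4 e5
  have hA3 : (((R ×ˢ Q) ×ˢ (R ×ˢ Q)).biUnion fun z => univ.filter fun c : Fin 6 → ZMod p =>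
      ¬ (z.1.1 = z.2.1 ∧ z.1.2 = z.2.2) ∧ (hA (fun i => iK p (c i)) z.1.1 z.1.2 1 = 0 ∧
        hA (fun i => iK p (c i)) z.2.1 z.2.2 1 = 0)).card ≤ 16 * p ^ 4 := by
    refine le_trans Finset.card_biUnion_le ?_
    refine le_trans (Finset.sum_le_card_nsmul _ _ (p ^ 4) ?_) ?_
    · intro z _
      by_cases hz : z.1.1 = z.2.1 ∧ z.1.2 = z.2.2
      · rw [Finset.filter_false_of_mem (fun c _ hc => hc.1 hz), Finset.card_empty]
        exact Nat.zero_le _
      · refine le_trans (Finset.card_le_card ?_) (card_pair p z.1.1 z.1.2 z.2.1 z.2.2 hz)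
        intro c hc
        rw [Finset.mem_filter] at hc ⊢
        exact ⟨hc.1, hc.2.2⟩
    · rw [smul_eq_mul, Finset.card_product, Finset.card_product]
      apply Nat.mul_le_mul_right
      have h4 : R.card * Q.card ≤ 2 * 2 := Nat.mul_le_mul hR hQ
      calc R.card * Q.card * (R.card * Q.card) ≤ (2 * 2) * (2 * 2) := Nat.mul_le_mul h4 h4
        _ = 16 := by norm_num
  have hsub : (univ.filter fun c : Fin 6 → ZMod p => Bd1 p c v w) ⊆
      ((univ.filter fun c : Fin 6 → ZMod p => c 4 = 0 ∧ c 5 = 0) ∪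
        (univ.filter fun c : Fin 6 → ZMod p => Uq c v w = 0 ∧ Wq c v w = 0)) ∪
      (((R ×ˢ Q) ×ˢ (R ×ˢ Q)).biUnion fun z => univ.filter fun c : Fin 6 → ZMod p =>
      ¬ (z.1.1 = z.2.1 ∧ z.1.2 = z.2.2) ∧ (hA (fun i => iK p (c i)) z.1.1 z.1.2 1 = 0 ∧
        hA (fun i => iK p (c i)) z.2.1 z.2.2 1 = 0)) := by
    intro c hc
    rw [Finset.mem_filter] at hc
    rcases hc.2 with h | h | h
    · exact Finset.mem_union_left _ (Finset.mem_union_left _ (Finset.mem_filter.2 ⟨hc.1, h⟩))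
    · exact Finset.mem_union_left _ (Finset.mem_union_right _ (Finset.mem_filter.2 ⟨hc.1, h⟩))
    · obtain ⟨r, q, r', q', hne, k1, k2, k3, k4, k5, k6⟩ := h
      apply Finset.mem_union_right
      rw [Finset.mem_biUnion]
      refine ⟨((r, q), (r', q')), ?_, ?_⟩
      · rw [Finset.mem_product, Finset.mem_product, Finset.mem_product]
        exact ⟨⟨hR' r k1, hQ' q k2⟩, ⟨hR' r' k3, hQ' q' k4⟩⟩
      · rw [Finset.mem_filter]
        exact ⟨hc.1, hne, k5, k6⟩
  have hcard : (univ.filter fun c : Fin 6 → ZMod p => Bd1 p c v w).card ≤ 18 * p ^ 4 := by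
    refine le_trans (Finset.card_le_card hsub) ?_
    refine le_trans (Finset.card_union_le _ _) ?_
    have h5 := Finset.card_union_le (univ.filter fun c : Fin 6 → ZMod p => c 4 = 0 ∧ c 5 = 0)
      (univ.filter fun c : Fin 6 → ZMod p => Uq c v w = 0 ∧ Wq c v w = 0)
    omega
  have hcard' : ((univ.filter fun c : Fin 6 → ZMod p => Bd1 p c v w).card : ℝ) ≤ 18 * (p : ℝ) ^ 4 := by
    exact_mod_cast hcard
  unfold mF ind
  rw [Finset.sum_boole, div_le_div_iff₀ (by positivity) (by positivity)]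
  calc ((univ.filter fun c : Fin 6 → ZMod p => Bd1 p c v w).card : ℝ) * (p : ℝ) ^ 2
      ≤ (18 * (p : ℝ) ^ 4) * (p : ℝ) ^ 2 := mul_le_mul_of_nonneg_right hcard' (by positivity)
    _ = 18 * (p : ℝ) ^ (5 + 1) := by ring

end HNQ
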