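import Pool.Agent.Lib.MP_10e784_agQ.QR3
import Pool.Agent.Lib.MP_10e784_agQ.QT2
import Pool.Agent.Lib.MP_10e784_agQ.QT3
import Pool.Agent.Lib.MP_1ad228_ntH.PC3

/-! The mean value of the bad event. -/

set_option autoImplicit false

open Classical

namespace HNQ

open Finset Polynomial FGO FQQ HNF

/-- **Proof.** `C = 6500²`. For `p < 6500`: the mean value is at most `1 ≤ C/p²` (`Av` of an indicator is `≤ 1`: monotone and constants). For `p ≥ 6500`, fixed `(v, w)`: if `v = 0`, or `w = 0`, or `ds v = 0 = ds w`: bound `1`, mean values over `(v, w)`: `1/p³`, `1/p³`, `1/p²` (`Av_DD` of HNF, or `mQ_disc` twice). Otherwise, if `v.1 = 0` or `w.1 = 0` or `ds v = 0` or `ds w = 0`: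
`mF_BdF`: `17/p`, times the mean value `1/p` of each of the four conditions (`mQ`; `mQ_disc`): `68/p²`. Otherwise `nd_point` and `mF_Bd1`: `18/p²`. In one line: for all `(v, w)`, `mF 5 p (ind (BdF ..)) ≤ ind (v = 0) + ind (w = 0) + ind (ds v = 0 ∧ ds w = 0) + 17/p (ind (v.1 = 0) + ind (w.1 = 0) + ind (ds v = 0) + ind (ds w = 0)) + 18/p²`; sum over `(v, w)`. Model: `HNF.Av_Bd` (PC3.lean of H: MP_1ad228_ntH_PC3.lean in the store). -/
theorem Av_BdQ (p : ℕ) [Fact p.Prime] (h2 : p ≠ 2) :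
    Av 5 p (fun c v w => ind (BdF c v w)) ≤ 42250000 / (p : ℝ) ^ 2 := by
  have hp0 : (0 : ℝ) < p := by exact_mod_cast (Fact.out : p.Prime).pos
  have hp1 : (1 : ℝ) ≤ p := by exact_mod_cast (Fact.out : p.Prime).one_le
  have hone : ∀ v w : ZMod p × ZMod p × ZMod p, mF 5 p (fun c => ind (BdF c v w)) ≤ 1 := by
    intro v w
    exact (mF_mono _ p _ (fun _ => 1) fun c => ind_le_one _).trans (le_of_eq (mF_const _ p 1))
  by_cases hp : p < 6500
  · have h1 : Av 5 p (fun c v w => ind (BdF c v w)) ≤ 1 := by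
      unfold Av
      refine (mQ_mono p _ (fun _ => 1) fun v => ?_).trans (le_of_eq (mQ_const p 1))
      exact (mQ_mono p _ (fun _ => 1) fun w => hone v w).trans (le_of_eq (mQ_const p 1))
    refine h1.trans ?_
    have h2 : (p : ℝ) ≤ 6500 := by exact_mod_cast hp.le
    rw [le_div_iff₀ (by positivity)]
    nlinarith
  have hp' : 6500 ≤ p := not_lt.mp hp
  have h17 : 17 ≤ p := by omega
  have h170 : 0 ≤ 17 / (p : ℝ) := by positivity
  have h180 : 0 ≤ 18 / (p : ℝ) ^ 2 := by positivity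
  have hmain : ∀ v w : ZMod p × ZMod p × ZMod p, mF 5 p (fun c => ind (BdF c v w)) ≤
      ind (v = 0) + ind (w = 0) + ind (ds v = 0) * ind (ds w = 0) + 18 / (p : ℝ) ^ 2 +
        (17 / (p : ℝ)) * ind (v.1 = 0) + (17 / (p : ℝ)) * ind (w.1 = 0) +
        (17 / (p : ℝ)) * ind (ds v = 0) + (17 / (p : ℝ)) * ind (ds w = 0) := by
    intro v w
    have n1 := ind_nonneg (v = 0)
    have n2 := ind_nonneg (w = 0)
    have n3 : 0 ≤ (17 / (p : ℝ)) * ind (v.1 = 0) := mul_nonneg h170 (ind_nonneg _)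
    have n4 : 0 ≤ (17 / (p : ℝ)) * ind (w.1 = 0) := mul_nonneg h170 (ind_nonneg _)
    have n5 : 0 ≤ (17 / (p : ℝ)) * ind (ds v = 0) := mul_nonneg h170 (ind_nonneg _)
    have n6 : 0 ≤ (17 / (p : ℝ)) * ind (ds w = 0) := mul_nonneg h170 (ind_nonneg _)
    have n8 : 0 ≤ ind (ds v = 0) * ind (ds w = 0) := mul_nonneg (ind_nonneg _) (ind_nonneg _)
    have h1 := hone v w
    by_cases hv : v = 0
    · have e : ind (v = 0) = 1 := by unfold ind; rw [if_pos hv]
      linarith
    by_cases hw : w = 0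
    · have e : ind (w = 0) = 1 := by unfold ind; rw [if_pos hw]
      linarith
    by_cases hd : ds v = 0 ∧ ds w = 0
    · have e : ind (ds v = 0) = 1 := by unfold ind; rw [if_pos hd.1]
      have e' : ind (ds w = 0) = 1 := by unfold ind; rw [if_pos hd.2]
      rw [e, e'] at n8
      rw [e] at n5
      rw [e'] at n6
      rw [e, e']
      linarith
    have hB := mF_BdF p h17 v w hv hw hd
    by_cases a1 : v.1 = 0
    · have e : ind (v.1 = 0) = 1 := by unfold ind; rw [if_pos a1]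
      rw [e, mul_one]
      linarith
    by_cases a2 : w.1 = 0
    · have e : ind (w.1 = 0) = 1 := by unfold ind; rw [if_pos a2]
      rw [e, mul_one]
      linarith
    by_cases a3 : ds v = 0
    · have e : ind (ds v = 0) = 1 := by unfold ind; rw [if_pos a3]
      rw [e, one_mul] at n8
      rw [e, mul_one, one_mul]
      linarith
    by_cases a4 : ds w = 0
    · have e : ind (ds w = 0) = 1 := by unfold ind; rw [if_pos a4]
      rw [e, mul_one] at n8
      rw [e, mul_one, mul_one]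
      linarith
    have h2' : mF 5 p (fun c => ind (BdF c v w)) ≤ mF 5 p (fun c => ind (Bd1 p c v w)) :=
      mF_mono _ p _ _ fun c => ind_mono fun h => nd_point p hp' c v w a1 a2 a3 a4 h
    have h3 := mF_Bd1 p h2 v w a1 a2
    linarith
  have e0 : mQ p (fun v => ind (v = 0)) = 1 / (p : ℝ) ^ 3 := mQ_zero p
  have e1 : mQ p (fun v => ind (v.1 = 0)) = 1 / (p : ℝ) := by
    have h := mQ_lead_root p none
    rw [if_pos rfl] at h
    rw [← h]
    refine congrArg (mQ p) (funext fun v => ?_)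
    have hn : qv v (pt (none : Option (ZMod p))).1 (pt (none : Option (ZMod p))).2 = v.1 := by
      unfold qv
      simp [pt]
    rw [hn, and_self_iff]
  have e2 : mQ p (fun v => ind (ds v = 0)) = 1 / (p : ℝ) := mQ_disc p h2
  have e4 : mQ p (fun v => ind (ds v = 0) * (1 / (p : ℝ))) = (1 / (p : ℝ)) * (1 / (p : ℝ)) := by
    have e : (fun v : ZMod p × ZMod p × ZMod p => ind (ds v = 0) * (1 / (p : ℝ))) =
        fun v => (1 / (p : ℝ)) * ind (ds v = 0) := funext fun v => mul_comm _ _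
    rw [e, mQ_smul, e2]
  have hA : Av 5 p (fun c v w => ind (BdF c v w)) ≤
      mQ p (fun v => mQ p (fun w => ind (v = 0) + ind (w = 0) + ind (ds v = 0) * ind (ds w = 0) +
        18 / (p : ℝ) ^ 2 +
        (17 / (p : ℝ)) * ind (v.1 = 0) + (17 / (p : ℝ)) * ind (w.1 = 0) +
        (17 / (p : ℝ)) * ind (ds v = 0) + (17 / (p : ℝ)) * ind (ds w = 0))) := by
    unfold Av
    exact mQ_mono p _ _ fun v => mQ_mono p _ _ fun w => hmain v w
  refine hA.trans ?_
  simp only [mQ_add, mQ_smul, mQ_const, e0, e1, e2, e4]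
  have h3 : 1 / (p : ℝ) ^ 3 ≤ 1 / (p : ℝ) ^ 2 :=
    one_div_le_one_div_of_le (by positivity) (pow_le_pow_right₀ hp1 (by norm_num))
  have h4 : 17 / (p : ℝ) * (1 / (p : ℝ)) = 17 * (1 / (p : ℝ) ^ 2) := by
    field_simp
  have h4'' : 1 / (p : ℝ) * (1 / (p : ℝ)) = 1 / (p : ℝ) ^ 2 := by
    field_simp
  have h5' : 42250000 / (p : ℝ) ^ 2 = 42250000 * (1 / (p : ℝ) ^ 2) := by ring
  have h6 : 18 / (p : ℝ) ^ 2 = 18 * (1 / (p : ℝ) ^ 2) := by ring
  have h7 : 0 ≤ 1 / (p : ℝ) ^ 2 := by positivity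
  rw [h4, h4'', h5', h6]
  linarith

end HNQ
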