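import Pool.Agent.Lib.MP_10e784_agQ.QV2
import Pool.Agent.Lib.MP_10e784_agQ.QT4

/-! Large primes. -/

set_option autoImplicit false

open Classical

namespace HNQ

open Finset Polynomial FGO FQQ HNF

private theorem QV3_inv_sq (a b : ℕ) (ha : 0 < a) (Q : Finset ℕ) (hQ : ∀ p ∈ Q, a < p ∧ p ≤ b) :
    ∑ p ∈ Q, 1 / (p : ℝ) ^ 2 ≤ 1 / (a : ℝ) := by
  by_cases hab : a ≤ b
  · have h1 : Q ⊆ Finset.Ioc a b := by
      intro p hp
      rw [Finset.mem_Ioc]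
      exact hQ p hp
    have h2 : ∑ p ∈ Q, 1 / (p : ℝ) ^ 2 ≤ ∑ p ∈ Finset.Ioc a b, ((p : ℝ) ^ 2)⁻¹ := by
      refine (Finset.sum_le_sum_of_subset_of_nonneg h1 fun p _ _ => by positivity).trans (le_of_eq ?_)
      exact Finset.sum_congr rfl fun p _ => one_div _
    have h3 := sum_Ioc_inv_sq_le_sub (α := ℝ) (k := a) (n := b) (by omega) hab
    have h4 : (0 : ℝ) ≤ ((b : ℕ) : ℝ)⁻¹ := by positivity
    rw [one_div]
    linarith
  · have h1 : Q = ∅ := by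
      rw [Finset.eq_empty_iff_forall_notMem]
      intro p hp
      have := hQ p hp
      omega
    rw [h1, Finset.sum_empty]
    positivity

private theorem QV3_box {N : ℕ} {v : V} (hv : v ∈ FGO.box N) :
    |v.1| ≤ (N : ℤ) ∧ |v.2.1| ≤ (N : ℤ) ∧ |v.2.2| ≤ (N : ℤ) := by
  unfold FGO.box at hv
  rw [Finset.mem_product, Finset.mem_product, Finset.mem_Icc, Finset.mem_Icc, Finset.mem_Icc] at hv
  exact ⟨abs_le.2 hv.1, abs_le.2 hv.2.1, abs_le.2 hv.2.2⟩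

private theorem QV3_ne {N p : ℕ} (hp : N < p) {n : ℤ} (hn : |n| ≤ (N : ℤ)) (h0 : n ≠ 0) : ((n : ℤ) : ZMod p) ≠ 0 := by
  intro h
  rw [ZMod.intCast_zmod_eq_zero_iff_dvd] at h
  have h1 := Int.eq_zero_of_abs_lt_dvd h (by
    have : (N : ℤ) < (p : ℤ) := by exact_mod_cast hp
    linarith)
  exact h0 h1

private theorem QV3_ds {N : ℕ} {v : V} (hv : v ∈ FGO.box N) : |ds v| ≤ 5 * (N : ℤ) ^ 2 := by
  obtain ⟨h1, h2, h3⟩ := QV3_box hv
  have hN : (0 : ℤ) ≤ N := Int.natCast_nonneg N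
  unfold ds
  have e1 : |v.2.1 ^ 2| ≤ (N : ℤ) ^ 2 := by
    rw [abs_pow]
    exact pow_le_pow_left₀ (abs_nonneg _) h2 2
  have e2 : |4 * v.1 * v.2.2| ≤ 4 * (N : ℤ) ^ 2 := by
    rw [abs_mul, abs_mul]
    have : |(4 : ℤ)| = 4 := by norm_num
    rw [this]
    have e3 : |v.1| * |v.2.2| ≤ (N : ℤ) * N := mul_le_mul h1 h3 (abs_nonneg _) hN
    nlinarith
  have e4 := abs_sub (v.2.1 ^ 2) (4 * v.1 * v.2.2)
  linarith

/-- the number of the vectors with a property modulo `p` -/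
private theorem QV3_mean {H p : ℕ} [Fact p.Prime] (hH : 0 < H) (hpH : p ≤ 4 * H) (P : (Fin 6 → ZMod p) → Prop) (K : ℝ)
    (hK : mF 5 p (fun c => ind (P c)) ≤ K) :
    (((boxN 5 H).filter fun c => P (cN p c)).card : ℝ) ≤ (8 * (H : ℝ)) ^ 6 * K := by
  have hc : (((boxN 5 H).filter fun c => P (cN p c)).card : ℝ) = ∑ c ∈ boxN 5 H, ind (P (cN p c)) := by
    rw [← Finset.sum_boole]
    refine Finset.sum_congr rfl fun c _ => ?_
    unfold ind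
    by_cases h : P (cN p c)
    · rw [if_pos h]
    · rw [if_neg h]
  rw [hc]
  exact (boxc_mean (m := 5) hH hpH (fun c => ind (P c)) (fun c => ind_nonneg _)).trans
    (mul_le_mul_of_nonneg_left hK (by positivity))

/-- at most one large prime divides a discriminant -/
private theorem QV3_one {N b : ℕ} (hN : 0 < N) {v : V} (hv : v ∈ FGO.box N) (h0 : ds v ≠ 0) :
    ((Ioc (4 * N) b).filter fun p : ℕ => p.Prime ∧ (p : ℤ) ∣ ds v).card ≤ 1 := by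
  have hdsN := QV3_ds hv
  rw [Finset.card_le_one]
  intro a ha b hb
  by_contra hab
  obtain ⟨ha1, ha2, ha3⟩ := mem_filter.1 ha
  obtain ⟨hb1, hb2, hb3⟩ := mem_filter.1 hb
  have ha4 := (mem_Ioc.1 ha1).1
  have hb4 := (mem_Ioc.1 hb1).1
  have hco : IsCoprime (a : ℤ) (b : ℤ) := by
    rw [Nat.isCoprime_iff_coprime]
    exact (Nat.coprime_primes ha2 hb2).2 hab
  have h1 : (a : ℤ) * b ∣ ds v := hco.mul_dvd ha3 hb3
  have h2 : (a : ℤ) * b ≤ |ds v| := Int.le_of_dvd (abs_pos.2 h0) ((dvd_abs _ _).2 h1)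
  have h3 : (4 * (N : ℤ)) < a := by exact_mod_cast ha4
  have h4 : (4 * (N : ℤ)) < b := by exact_mod_cast hb4
  have hNz : (0 : ℤ) < N := by exact_mod_cast hN
  nlinarith

/-- a large prime divisor of a discriminant is at most `4 H` -/
private theorem QV3_le {N H p : ℕ} (hN : 2 ≤ N) (hH : N ^ 5 ≤ H) {v : V} (hv : v ∈ FGO.box N) (h0 : ds v ≠ 0)
    (hpd : (p : ℤ) ∣ ds v) : p ≤ 4 * H := by
  have h6 : (p : ℤ) ≤ |ds v| := Int.le_of_dvd (abs_pos.2 h0) ((dvd_abs _ _).2 hpd)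
  have h7 : (p : ℤ) ≤ 5 * (N : ℤ) ^ 2 := h6.trans (QV3_ds hv)
  have h8 : p ≤ 5 * N ^ 2 := by exact_mod_cast h7
  have h9 : 5 * N ^ 2 ≤ 4 * N ^ 5 := by
    have e1 : N ^ 5 = N ^ 2 * N ^ 3 := by ring
    have e2 : 2 ^ 3 ≤ N ^ 3 := Nat.pow_le_pow_left hN 3
    rw [e1]
    nlinarith [Nat.mul_le_mul_left (N ^ 2) e2]
  omega

/-- **Proof.** (`C = 34 · 8⁶ + 18 · 8⁶ + 38 · 3⁵ = 13644634 ≤ 2 · 10⁷`.) Let `p > 4 N` be a prime with `BdP p c u`. `p ∤ v.1 w.1` (`v = u.1`, `w = u.2`), `ds v, ds w ≠ 0`, `|ds| ≤ 5 N² < 16 N²`.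
(a) `p ∣ ds v` (or `p ∣ ds w`): at most one such prime `> 4 N` for each of the two; `p ≤ 5 N² ≤ 4 N⁵ ≤ 4 H`; the other discriminant is not divisible (`hp`): `boxc_mean` (file PD of H) with `φ = ind (BdF · v w)` and `mF_BdF` (`17/p ≤ 17/(4 N)`): at most `2 (8 H)⁶ 17/(4 N)` vectors.
(b) `p ∤ ds v ds w`, `4 N < p ≤ 4 H`: `nd_point` (`p ≥ 6500`), `boxc_mean` with `φ = ind (Bd1 p · v w)`, `mF_Bd1`: `(8 H)⁶ 18/p²`, `∑_{p > 4 N} 1/p² ≤ 1/(4 N)` (`sum_Ioc_inv_sq_le_sub`; see `PH_union` in PH.lean of H). (c) `p > 4 H`: `nd_point`, `large_Bd1`: `38 (2 H + 1)⁵ ≤ 38 · 3⁵ H⁵ ≤ 38 · 3⁵ H⁶/N`. Model: `HNF.large_H` (PF3.lean). -/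
theorem large_Q (H N : ℕ) (hN : 6500 ≤ N) (hH : N ^ 5 ≤ H) (u : V × V) (hu : u ∈ box2 N)
    (hv : u.1.1 ≠ 0) (hw : u.2.1 ≠ 0) (h1 : ¬ IsSquare (ds u.1)) (h2 : ¬ IsSquare (ds u.2)) (h3 : ¬ IsSquare (ds u.1 * ds u.2))
    (hp : ∀ p : ℕ, p.Prime → 4 * N < p → ¬ ((p : ℤ) ∣ ds u.1 ∧ (p : ℤ) ∣ ds u.2)) :
    (((boxN 5 H).filter fun c => (c 3 ≠ 0 ∧ c 5 ≠ 0) ∧ ∃ p : ℕ, p.Prime ∧ 4 * N < p ∧ BdP p c u).card : ℝ) ≤
      20000000 * (H : ℝ) ^ 6 / N := by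
  have hN1 : 0 < N := by omega
  have hNN5 : N ≤ N ^ 5 := Nat.le_self_pow (by norm_num) N
  have hH1 : 1 ≤ H := by omega
  have hNH : N ≤ H := by omega
  have hN0 : (0 : ℝ) < N := by exact_mod_cast hN1
  have hH0 : (1 : ℝ) ≤ H := by exact_mod_cast hH1
  have hu' := hu
  rw [box2, mem_product] at hu'
  obtain ⟨hu1, hu2⟩ := hu'
  let A1 : Finset ℕ := (Ioc (4 * N) (4 * H)).filter fun p : ℕ => p.Prime ∧ (p : ℤ) ∣ ds u.1
  let A2 : Finset ℕ := (Ioc (4 * N) (4 * H)).filter fun p : ℕ => p.Prime ∧ (p : ℤ) ∣ ds u.2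
  let A3 : Finset ℕ := (Ioc (4 * N) (4 * H)).filter fun p => p.Prime
  let S : Finset (FQQ.Vn 5) := (boxN 5 H).filter fun c : FQQ.Vn 5 => (c 3 ≠ 0 ∧ c 5 ≠ 0) ∧ ∃ (p : ℕ) (_ : Fact p.Prime), 4 * H < p ∧
      Bd1 p (cN p c) (cV p u.1) (cV p u.2)
  have hds1 : ds u.1 ≠ 0 := by
    intro h
    apply h1
    rw [h]
    exact ⟨0, by norm_num⟩
  have hds2 : ds u.2 ≠ 0 := by
    intro h
    apply h2
    rw [h]
    exact ⟨0, by norm_num⟩
  have hcv : ∀ p : ℕ, (p : ℤ) ∣ ds u.1 ↔ ds (cV p u.1) = 0 := by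
    intro p
    rw [← ds_cast, ZMod.intCast_zmod_eq_zero_iff_dvd]
  have hcw : ∀ p : ℕ, (p : ℤ) ∣ ds u.2 ↔ ds (cV p u.2) = 0 := by
    intro p
    rw [← ds_cast, ZMod.intCast_zmod_eq_zero_iff_dvd]
  have hne1 : ∀ p : ℕ, 4 * N < p → (cV p u.1).1 ≠ 0 := by
    intro p hp
    exact QV3_ne (by omega) (QV3_box hu1).1 hv
  have hne2 : ∀ p : ℕ, 4 * N < p → (cV p u.2).1 ≠ 0 := by
    intro p hp
    exact QV3_ne (by omega) (QV3_box hu2).1 hw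
  -- the count for one prime, degenerate case
  have hdeg : ∀ p : ℕ, p.Prime → 4 * N < p → p ≤ 4 * H →
      (((boxN 5 H).filter fun c => BdF (cN p c) (cV p u.1) (cV p u.2)).card : ℝ) ≤
        (8 * (H : ℝ)) ^ 6 * (17 / (4 * (N : ℝ))) := by
    intro p hpp hpN hpH
    have : Fact p.Prime := ⟨hpp⟩
    refine (QV3_mean (by omega) hpH (fun c => BdF c (cV p u.1) (cV p u.2)) (17 / (p : ℝ)) ?_).trans ?_
    · refine mF_BdF p (by omega) (cV p u.1) (cV p u.2) ?_ ?_ ?_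
      · intro h
        apply hne1 p hpN
        rw [h]
        rfl
      · intro h
        apply hne2 p hpN
        rw [h]
        rfl
      · rintro ⟨e1, e2⟩
        exact hp p hpp hpN ⟨(hcv p).2 e1, (hcw p).2 e2⟩
    · refine mul_le_mul_of_nonneg_left ?_ (by positivity)
      refine div_le_div_of_nonneg_left (by norm_num) (by positivity) ?_
      exact_mod_cast hpN.le
  -- the count for one prime, general case
  have hgen : ∀ p : ℕ, p.Prime → 4 * N < p → p ≤ 4 * H →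
      (((boxN 5 H).filter fun c => ∃ (_ : Fact p.Prime), Bd1 p (cN p c) (cV p u.1) (cV p u.2)).card : ℝ) ≤
        (8 * (H : ℝ)) ^ 6 * (18 * (1 / (p : ℝ) ^ 2)) := by
    intro p hpp hpN hpH
    have hF : Fact p.Prime := ⟨hpp⟩
    have e1 : ((boxN 5 H).filter fun c => ∃ (_ : Fact p.Prime), Bd1 p (cN p c) (cV p u.1) (cV p u.2)) =
        (boxN 5 H).filter fun c => Bd1 p (cN p c) (cV p u.1) (cV p u.2) := by
      refine Finset.filter_congr fun c _ => ?_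
      exact ⟨fun ⟨_, h⟩ => h, fun h => ⟨hF, h⟩⟩
    rw [e1]
    refine QV3_mean (by omega) hpH (fun c => Bd1 p c (cV p u.1) (cV p u.2)) _ ?_
    refine (mF_Bd1 p (by omega) (cV p u.1) (cV p u.2) (hne1 p hpN) (hne2 p hpN)).trans (le_of_eq ?_)
    ring
  -- the covering
  have hsub : ((boxN 5 H).filter fun c => (c 3 ≠ 0 ∧ c 5 ≠ 0) ∧ ∃ p : ℕ, p.Prime ∧ 4 * N < p ∧ BdP p c u) ⊆
      ((A1.biUnion fun p => (boxN 5 H).filter fun c => BdF (cN p c) (cV p u.1) (cV p u.2)) ∪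
      (A2.biUnion fun p => (boxN 5 H).filter fun c => BdF (cN p c) (cV p u.1) (cV p u.2))) ∪
      ((A3.biUnion fun p => (boxN 5 H).filter fun c => ∃ (_ : Fact p.Prime), Bd1 p (cN p c) (cV p u.1) (cV p u.2)) ∪ S) := by
    intro c hc
    obtain ⟨hcB, hz, p, hpp, hpN, hbad⟩ := mem_filter.1 hc
    unfold BdP at hbad
    by_cases hd1 : (p : ℤ) ∣ ds u.1
    · refine mem_union_left _ (mem_union_left _ (mem_biUnion.2 ⟨p, ?_, mem_filter.2 ⟨hcB, hbad⟩⟩))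
      exact mem_filter.2 ⟨mem_Ioc.2 ⟨hpN, QV3_le (by omega) hH hu1 hds1 hd1⟩, hpp, hd1⟩
    · by_cases hd2 : (p : ℤ) ∣ ds u.2
      · refine mem_union_left _ (mem_union_right _ (mem_biUnion.2 ⟨p, ?_, mem_filter.2 ⟨hcB, hbad⟩⟩))
        exact mem_filter.2 ⟨mem_Ioc.2 ⟨hpN, QV3_le (by omega) hH hu2 hds2 hd2⟩, hpp, hd2⟩
      · have hF : Fact p.Prime := ⟨hpp⟩
        have hB1 : Bd1 p (cN p c) (cV p u.1) (cV p u.2) :=
          nd_point p (by omega) (cN p c) (cV p u.1) (cV p u.2) (hne1 p hpN) (hne2 p hpN)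
            (fun h => hd1 ((hcv p).2 h)) (fun h => hd2 ((hcw p).2 h)) hbad
        by_cases hpH : p ≤ 4 * H
        · refine mem_union_right _ (mem_union_left _ (mem_biUnion.2 ⟨p, ?_, mem_filter.2 ⟨hcB, hF, hB1⟩⟩))
          exact mem_filter.2 ⟨mem_Ioc.2 ⟨hpN, hpH⟩, hpp⟩
        · exact mem_union_right _ (mem_union_right _ (mem_filter.2 ⟨hcB, hz, p, hF, by omega, hB1⟩))
  have hcu := (card_le_card hsub).trans ((card_union_le _ _).trans (Nat.add_le_add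
    ((card_union_le _ _).trans (Nat.add_le_add card_biUnion_le card_biUnion_le))
    ((card_union_le _ _).trans (Nat.add_le_add card_biUnion_le (le_refl S.card)))))
  have hcard : (((boxN 5 H).filter fun c => (c 3 ≠ 0 ∧ c 5 ≠ 0) ∧ ∃ p : ℕ, p.Prime ∧ 4 * N < p ∧ BdP p c u).card : ℝ) ≤
      ((∑ p ∈ A1, (((boxN 5 H).filter fun c => BdF (cN p c) (cV p u.1) (cV p u.2)).card : ℝ)) +
      (∑ p ∈ A2, (((boxN 5 H).filter fun c => BdF (cN p c) (cV p u.1) (cV p u.2)).card : ℝ))) +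
      ((∑ p ∈ A3, (((boxN 5 H).filter fun c => ∃ (_ : Fact p.Prime), Bd1 p (cN p c) (cV p u.1) (cV p u.2)).card : ℝ)) +
      (S.card : ℝ)) := by
    exact_mod_cast hcu
  refine hcard.trans ?_
  clear hcard hcu hsub
  have hK : 0 ≤ (8 * (H : ℝ)) ^ 6 * (17 / (4 * (N : ℝ))) := by positivity
  have s1 : (∑ p ∈ A1, (((boxN 5 H).filter fun c => BdF (cN p c) (cV p u.1) (cV p u.2)).card : ℝ)) ≤
      (8 * (H : ℝ)) ^ 6 * (17 / (4 * (N : ℝ))) := by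
    have hA : (A1.card : ℝ) ≤ 1 := by exact_mod_cast QV3_one hN1 hu1 hds1
    refine (Finset.sum_le_card_nsmul A1 _ ((8 * (H : ℝ)) ^ 6 * (17 / (4 * (N : ℝ)))) fun p hp => ?_).trans ?_
    · obtain ⟨e1, e2, e3⟩ := mem_filter.1 hp
      exact hdeg p e2 (mem_Ioc.1 e1).1 (mem_Ioc.1 e1).2
    · rw [nsmul_eq_mul]
      nlinarith
  have s2 : (∑ p ∈ A2, (((boxN 5 H).filter fun c => BdF (cN p c) (cV p u.1) (cV p u.2)).card : ℝ)) ≤
      (8 * (H : ℝ)) ^ 6 * (17 / (4 * (N : ℝ))) := by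
    have hA : (A2.card : ℝ) ≤ 1 := by exact_mod_cast QV3_one hN1 hu2 hds2
    refine (Finset.sum_le_card_nsmul A2 _ ((8 * (H : ℝ)) ^ 6 * (17 / (4 * (N : ℝ)))) fun p hp => ?_).trans ?_
    · obtain ⟨e1, e2, e3⟩ := mem_filter.1 hp
      exact hdeg p e2 (mem_Ioc.1 e1).1 (mem_Ioc.1 e1).2
    · rw [nsmul_eq_mul]
      nlinarith
  have s3 : (∑ p ∈ A3, (((boxN 5 H).filter fun c => ∃ (_ : Fact p.Prime), Bd1 p (cN p c) (cV p u.1) (cV p u.2)).card : ℝ)) ≤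
      (8 * (H : ℝ)) ^ 6 * (18 * (1 / (4 * (N : ℝ)))) := by
    refine (Finset.sum_le_sum (g := fun p : ℕ => (8 * (H : ℝ)) ^ 6 * (18 * (1 / (p : ℝ) ^ 2))) fun p hp => ?_).trans ?_
    · obtain ⟨e1, e2⟩ := mem_filter.1 hp
      exact hgen p e2 (mem_Ioc.1 e1).1 (mem_Ioc.1 e1).2
    · rw [← Finset.mul_sum, ← Finset.mul_sum]
      refine mul_le_mul_of_nonneg_left (mul_le_mul_of_nonneg_left ?_ (by norm_num)) (by positivity)
      have h := QV3_inv_sq (4 * N) (4 * H) (by omega) A3 (fun p hp => mem_Ioc.1 (mem_filter.1 hp).1)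
      push_cast at h
      exact h
  have s4 : (S.card : ℝ) ≤ 38 * 243 * (H : ℝ) ^ 5 := by
    have h := large_Bd1 H N (by omega) hH u.1 u.2 hu1 hu2 hv hw h1 h2 h3
    have h' : (S.card : ℝ) ≤ 38 * (2 * (H : ℝ) + 1) ^ 5 := by exact_mod_cast h
    refine h'.trans ?_
    have e1 : (2 * (H : ℝ) + 1) ^ 5 ≤ (3 * (H : ℝ)) ^ 5 := pow_le_pow_left₀ (by positivity) (by linarith) 5
    have e2 : (3 * (H : ℝ)) ^ 5 = 243 * (H : ℝ) ^ 5 := by ring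
    linarith
  have s5 : (H : ℝ) ^ 5 ≤ (H : ℝ) ^ 6 / N := by
    rw [le_div_iff₀ hN0]
    have e1 : (N : ℝ) ≤ H := by exact_mod_cast hNH
    calc (H : ℝ) ^ 5 * N ≤ (H : ℝ) ^ 5 * H := mul_le_mul_of_nonneg_left e1 (by positivity)
      _ = (H : ℝ) ^ 6 := by ring
  have s6 : (8 * (H : ℝ)) ^ 6 * (17 / (4 * (N : ℝ))) = 1114112 * ((H : ℝ) ^ 6 / N) := by
    field_simp
    ring
  have s7 : (8 * (H : ℝ)) ^ 6 * (18 * (1 / (4 * (N : ℝ)))) = 1179648 * ((H : ℝ) ^ 6 / N) := by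
    field_simp
    ring
  have s8 : (0 : ℝ) ≤ (H : ℝ) ^ 6 / N := by positivity
  have s9 : 20000000 * (H : ℝ) ^ 6 / N = 20000000 * ((H : ℝ) ^ 6 / N) := by ring
  rw [s6] at s1 s2
  rw [s7] at s3
  rw [s9]
  linarith

end HNQ
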