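import Pool.Agent.Lib.MP_10e784_agQ.QC1
import Pool.Agent.Lib.MP_10e784_agQ.QC2
import Pool.Agent.Lib.MP_10e784_agQ.QE1
import Pool.Agent.Lib.MP_10e784_agQ.QV3
import Pool.Agent.Lib.MP_10e784_agQ.QM
import Pool.Agent.Lib.MP_1ad228_ntG.Po3
import Pool.Agent.Lib.MP_1ad228_ntG.Z0

/-! Part (2): a positive proportion of the quartics is smooth and soluble everywhere. -/

set_option autoImplicit false

open Classical

namespace HNQ

open Finset Polynomial FGO FQQ HNF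

private theorem QH_fib {α β : Type*} (A : Finset α) (B : Finset β) (P : α × β → Prop) {i1 : DecidablePred P}
    (C : ℝ) (h : ∑ v ∈ B, ((A.filter fun w => P (w, v)).card : ℝ) ≤ C) :
    (((A ×ˢ B).filter P).card : ℝ) ≤ C := by
  have e : ((A ×ˢ B).filter P).card = ∑ v ∈ B, (A.filter fun w => P (w, v)).card := by
    rw [Finset.card_filter, Finset.sum_product_right]
    refine Finset.sum_congr rfl fun v _ => ?_
    rw [Finset.card_filter]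
  rw [e]
  push_cast
  exact h

private theorem QH_boxN (m H : ℕ) (hH : 1 ≤ H) : ((boxN m H).card : ℝ) ≤ (3 * (H : ℝ)) ^ (m + 1) := by
  unfold boxN
  rw [Fintype.card_piFinset, Finset.prod_const, Z0_card, Finset.card_univ, Fintype.card_fin]
  push_cast
  have h1 : (1 : ℝ) ≤ H := by exact_mod_cast hH
  refine pow_le_pow_left₀ (by positivity) (by linarith) _

private theorem QH_box2 (N : ℕ) (hN : 6 ≤ N) : ((box2 N).card : ℝ) ≤ 729 * (N : ℝ) ^ 6 := by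
  rw [box2, card_product]
  push_cast
  have h := Po3_box N hN
  have h0 : (0 : ℝ) ≤ ((FGO.box N).card : ℝ) := Nat.cast_nonneg _
  calc ((FGO.box N).card : ℝ) * ((FGO.box N).card : ℝ) ≤ (27 * (N : ℝ) ^ 3) * (27 * (N : ℝ) ^ 3) := by gcongr
    _ = 729 * (N : ℝ) ^ 6 := by ring

private theorem QH_union {α : Type*} (B : Finset α) (a b : ℕ) (ha : 1 ≤ a) (Q : ℕ → α → Prop)
    [∀ p, DecidablePred (Q p)] [DecidablePred fun f => ∃ p : ℕ, p.Prime ∧ a < p ∧ p ≤ b ∧ Q p f] (c : ℝ) (hc : 0 ≤ c)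
    (h : ∀ p : ℕ, p.Prime → a < p → p ≤ b → ((B.filter (Q p)).card : ℝ) ≤ c / (p : ℝ) ^ 2) :
    ((B.filter fun f => ∃ p : ℕ, p.Prime ∧ a < p ∧ p ≤ b ∧ Q p f).card : ℝ) ≤ c / a := by
  have h1 : (B.filter fun f => ∃ p : ℕ, p.Prime ∧ a < p ∧ p ≤ b ∧ Q p f) ⊆
      ((Ioc a b).filter Nat.Prime).biUnion fun p => B.filter (Q p) := by
    intro f hf
    rw [mem_filter] at hf
    obtain ⟨hB, p, hp, hzp, hpP, hQ⟩ := hf
    exact mem_biUnion.2 ⟨p, mem_filter.2 ⟨mem_Ioc.2 ⟨hzp, hpP⟩, hp⟩, mem_filter.2 ⟨hB, hQ⟩⟩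
  have h2 : (B.filter fun f => ∃ p : ℕ, p.Prime ∧ a < p ∧ p ≤ b ∧ Q p f).card ≤
      ∑ p ∈ (Ioc a b).filter Nat.Prime, (B.filter (Q p)).card := (card_le_card h1).trans card_biUnion_le
  have ha0 : (0 : ℝ) < a := by exact_mod_cast ha
  have h3 : ∑ p ∈ Ioc a b, ((p : ℝ) ^ 2)⁻¹ ≤ 1 / a := by
    rcases le_total a b with h | h
    · have h4 := sum_Ioc_inv_sq_le_sub (α := ℝ) (by omega : a ≠ 0) h
      have h5 : (0 : ℝ) ≤ (b : ℝ)⁻¹ := by positivity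
      rw [one_div]
      linarith
    · rw [Finset.Ioc_eq_empty (by omega), Finset.sum_empty]
      positivity
  calc ((B.filter fun f => ∃ p : ℕ, p.Prime ∧ a < p ∧ p ≤ b ∧ Q p f).card : ℝ)
      ≤ ((∑ p ∈ (Ioc a b).filter Nat.Prime, (B.filter (Q p)).card : ℕ) : ℝ) := by exact_mod_cast h2
    _ = ∑ p ∈ (Ioc a b).filter Nat.Prime, ((B.filter (Q p)).card : ℝ) := by push_cast; rfl
    _ ≤ ∑ p ∈ (Ioc a b).filter Nat.Prime, c / (p : ℝ) ^ 2 := by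
        refine Finset.sum_le_sum fun p hp => ?_
        rw [mem_filter, mem_Ioc] at hp
        exact h p hp.2 hp.1.1 hp.1.2
    _ ≤ ∑ p ∈ Ioc a b, c / (p : ℝ) ^ 2 := by
        refine Finset.sum_le_sum_of_subset_of_nonneg (Finset.filter_subset _ _) fun p _ _ => ?_
        positivity
    _ = c * ∑ p ∈ Ioc a b, ((p : ℝ) ^ 2)⁻¹ := by
        rw [Finset.mul_sum]
        refine Finset.sum_congr rfl fun p _ => ?_
        rw [div_eq_mul_inv]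
    _ ≤ c * (1 / a) := mul_le_mul_of_nonneg_left h3 hc
    _ = c / a := by rw [mul_one_div]

private theorem QH_cop (w p : ℕ) (hp : p.Prime) (hw : 3 ≤ w) (h : w < p) : (32 * primorial w).Coprime p := by
  rw [Nat.coprime_comm, Nat.Prime.coprime_iff_not_dvd hp]
  intro h1
  rcases (Nat.Prime.dvd_mul hp).1 h1 with h2 | h2
  · have h3 : p ∣ 2 ^ 5 := h2
    have h4 := hp.dvd_of_dvd_pow h3
    have h5 := Nat.le_of_dvd (by norm_num) h4
    omega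
  · unfold primorial at h2
    obtain ⟨q, hq, hpq⟩ := hp.prime.exists_mem_finset_dvd h2
    rw [mem_filter, mem_range] at hq
    have h4 := (Nat.prime_dvd_prime_iff_eq hp hq.2).1 hpq
    omega

private theorem QH_dvd (w l : ℕ) (hl : l.Prime) (h : l ≤ w) : l ∣ 32 * primorial w := by
  refine Dvd.dvd.mul_left ?_ 32
  unfold primorial
  exact Finset.dvd_prod_of_mem (fun p => p) (mem_filter.2 ⟨mem_range.2 (by omega), hl⟩)

private theorem QH_cl {M l : ℕ} (hl : l ∣ M) {c : FQQ.Vn 5} {u : V × V} (h : ClQ M c u) : ClQ l c u := by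
  have hl' : (l : ℤ) ∣ (M : ℤ) := Int.natCast_dvd_natCast.2 hl
  obtain ⟨h1, h2, h3⟩ := h
  exact ⟨fun i => hl'.trans (h1 i), ⟨hl'.trans h2.1, hl'.trans h2.2.1, hl'.trans h2.2.2⟩,
    ⟨hl'.trans h3.1, hl'.trans h3.2.1, hl'.trans h3.2.2⟩⟩

private theorem QH_LL (δ : ℝ) (hδ : 0 < δ) : ∃ N2 : ℕ, 16 ≤ N2 ∧ ∀ N : ℕ, N2 ≤ N →
    0 < Real.log (Real.log N) ∧ 1 / Real.log (Real.log N) ≤ δ := by
  refine ⟨max 16 ⌈Real.exp (Real.exp (1 / δ))⌉₊, le_max_left _ _, fun N hN => ?_⟩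
  have h1 : Real.exp (Real.exp (1 / δ)) ≤ N :=
    (Nat.le_ceil _).trans (by exact_mod_cast (le_max_right _ _).trans hN)
  have h2 : Real.exp (1 / δ) ≤ Real.log N := by
    rw [Real.le_log_iff_exp_le (lt_of_lt_of_le (Real.exp_pos _) h1)]
    exact h1
  have h3 : 1 / δ ≤ Real.log (Real.log N) := by
    rw [Real.le_log_iff_exp_le (lt_of_lt_of_le (Real.exp_pos _) h2)]
    exact h2
  have h4 : 0 < 1 / δ := by positivity
  have h5 : 0 < Real.log (Real.log N) := lt_of_lt_of_le h4 h3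
  refine ⟨h5, ?_⟩
  rw [div_le_iff₀ h5]
  rw [div_le_iff₀ hδ] at h3
  linarith

/-- the conditions of `large_Q` -/
private def QH_good (N : ℕ) (u : V × V) : Prop :=
  u.1.1 ≠ 0 ∧ u.2.1 ≠ 0 ∧ ¬ IsSquare (ds u.1) ∧ ¬ IsSquare (ds u.2) ∧ ¬ IsSquare (ds u.1 * ds u.2) ∧
    (∀ p : ℕ, p.Prime → 4 * N < p → ¬ ((p : ℤ) ∣ ds u.1 ∧ (p : ℤ) ∣ ds u.2))

/-- (part 2) **Proof.** Copy `HNF.part2_H` (complete proof: /team-store/MP_1ad228_ntH_PH.lean; `g = 2` there, i.e. `2 g + 1 = 5`, `2 g + 2 = 6`, `2 g + 8 = 12`) with `M = 32 primorial w2` (NEVER compute it), `w2 = 4 · 42250000 · 16^12` (as a variable; never compute), `clQ_lower`, `clQ_bad_card`, `bdQ_card`, `els_Q`, `smooth_Q` (the class modulo `M` contains the class modulo `3`: `3 ∣ primorial w2`),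
`large_Q` (with the hypotheses `c 3 ≠ 0`, `c 5 ≠ 0` in the place of `NoCz`; `nz_card` (file QX3) bounds the number of the others: `≤ 3 (2 H + 1)⁵ (2 N + 1)⁶`), `core_card` with `m = 5`, `e = eQ`, `Mon_eQ` (as in `part1_Q`, file QM), `Ty_ns`, `FGO.disc_large`, `card_Dt` (file QX3). `N ≥ 6500`. -/
theorem part2_Q (K : ℕ) (hK : 5 ≤ K) : ∃ c : ℝ, 0 < c ∧ ∃ N₀ : ℕ, ∀ N : ℕ, N₀ ≤ N →
    c * (N : ℝ) ^ (6 * K + 6) ≤
      (Nat.card {q : Dt // InBox (N ^ K) N q ∧ Smooth q ∧ HasPoint ℝ q ∧ ∀ (p : ℕ) [Fact p.Prime], HasPoint ℚ_[p] q} : ℝ) := by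
  obtain ⟨C1, hC1, Nc, hNc, hcore⟩ := core_card Mon_eQ K 0 (by omega) (fun _ => 0) 0
    (fun N _ => Nat.zero_le _) (fun N _ => by simp)
  obtain ⟨w2, hw24, hw23⟩ : ∃ w2 : ℕ, 169000000 * 16 ^ 12 ≤ w2 ∧ 3 ≤ w2 :=
    ⟨169000000 * 16 ^ 12, le_rfl, by norm_num⟩
  have hE2 : ∀ (c : FQQ.Vn 5) (u : V × V), ClQ (32 * primorial w2) c u → PosQ c u → (∀ p : ℕ, p.Prime → w2 < p → ¬ BdP p c u) →
      HasPoint ℝ (u, c) ∧ ∀ (p : ℕ) [Fact p.Prime], HasPoint ℚ_[p] (u, c) :=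
    fun c u hC hP hB => els_Q w2 hw23 c u hC hP hB
  have hlM : 3 ∣ 32 * primorial w2 := QH_dvd w2 3 Nat.prime_three hw23
  have hcop : ∀ p : ℕ, p.Prime → w2 < p → (32 * primorial w2).Coprime p := fun p hp h => QH_cop w2 p hp hw23 h
  have hMpos : 0 < 32 * primorial w2 := Nat.mul_pos (by norm_num) (primorial_pos w2)
  generalize 32 * primorial w2 = M at hE2 hcop hMpos hlM
  have hSm : ∀ (c : FQQ.Vn 5) (u : V × V), ClQ M c u → Smooth (u, c) := fun c u h => smooth_Q c u (QH_cl hlM h)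
  have hM0 : (0 : ℝ) < M := by exact_mod_cast hMpos
  obtain ⟨ε, hε⟩ : ∃ ε : ℝ, ε = 1 / (2 * (M : ℝ)) ^ 12 := ⟨_, rfl⟩
  have hε0 : 0 < ε := by rw [hε]; positivity
  obtain ⟨A, hA⟩ : ∃ A : ℝ, A = 42250000 * 8 ^ 12 * M + 1701 * 3 ^ 6 + 3 * 3 ^ 11 + 729 * 20000000 :=
    ⟨_, rfl⟩
  have hA0 : 0 < A := by rw [hA]; positivity
  obtain ⟨NL, hNL, hLL⟩ := QH_LL (ε / (8 * C1)) (by positivity)
  refine ⟨ε / 2, by positivity, max (max (max NL 6500) Nc) (max M ⌈8 * A / ε⌉₊), fun N hN => ?_⟩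
  have hNNL : NL ≤ N := (le_max_left _ _).trans ((le_max_left _ _).trans ((le_max_left _ _).trans hN))
  have hN65 : 6500 ≤ N := (le_max_right _ _).trans ((le_max_left _ _).trans ((le_max_left _ _).trans hN))
  have hNNc : Nc ≤ N := (le_max_right _ _).trans ((le_max_left _ _).trans hN)
  have hNM : M ≤ N := (le_max_left _ _).trans ((le_max_right _ _).trans hN)
  have hNA : ⌈8 * A / ε⌉₊ ≤ N := (le_max_right _ _).trans ((le_max_right _ _).trans hN)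
  have hN16 : 16 ≤ N := hNL.trans hNNL
  obtain ⟨hLL0, hLL1⟩ := hLL N hNNL
  obtain ⟨P0, z0, -, -, -, -, hTy, -⟩ := hcore N hNNc
  have hNpos : 0 < N := by omega
  have hNr : (1 : ℝ) ≤ N := by exact_mod_cast hNpos
  have hNr0 : (0 : ℝ) < N := by linarith
  obtain ⟨H, hH⟩ : ∃ H : ℕ, H = N ^ K := ⟨_, rfl⟩
  have hHr : (H : ℝ) = (N : ℝ) ^ K := by rw [hH]; push_cast; rfl
  have hN5 : N ^ 5 ≤ H := by
    rw [hH]
    exact Nat.pow_le_pow_right hNpos (by omega)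
  have hNH : N ≤ H := by
    rw [hH]
    exact Nat.le_self_pow (by omega) N
  have hNHr : (N : ℝ) ≤ H := by exact_mod_cast hNH
  have hHr0 : (0 : ℝ) < H := by linarith
  have hH1 : 1 ≤ H := by omega
  obtain ⟨X, hX⟩ : ∃ X : ℝ, X = (H : ℝ) ^ 6 * (N : ℝ) ^ 6 := ⟨_, rfl⟩
  have hX0 : 0 < X := by rw [hX]; positivity
  have hX1 : (N : ℝ) ^ (6 * K + 6) = X := by
    rw [hX, hHr, pow_add, ← pow_mul]
    congr 2
    ring
  have e8 : (8 * (H : ℝ)) ^ 6 * (8 * (N : ℝ)) ^ 6 = 8 ^ 12 * X := by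
    rw [hX, mul_pow, mul_pow]
    ring
  obtain ⟨Pr, hPr⟩ : ∃ Pr : Dt → Prop, Pr = fun q => Smooth q ∧ HasPoint ℝ q ∧ ∀ (p : ℕ) [Fact p.Prime], HasPoint ℚ_[p] q :=
    ⟨_, rfl⟩
  have hcount : Nat.card {q : Dt // InBox (N ^ K) N q ∧ Smooth q ∧ HasPoint ℝ q ∧ ∀ (p : ℕ) [Fact p.Prime], HasPoint ℚ_[p] q} =
      Nat.card {q : Dt // InBox H N q ∧ Pr q} := by
    rw [hPr, hH]
  rw [hX1, hcount, card_Dt]
  -- the lower bound
  have hlow := clQ_lower hMpos hNM hNH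
  rw [← hX] at hlow
  have hlow2 : X * ε ≤ (((Bx 5 H N).filter fun s => ClQ M s.1 s.2 ∧ PosQ s.1 s.2).card : ℝ) := by
    refine le_trans (le_of_eq ?_) hlow
    rw [hε]
    ring
  -- the error terms
  have hq1 : 1 ≤ 4 * N / M := by
    rw [Nat.le_div_iff_mul_le hMpos]
    omega
  have ea := QH_union (Bx 5 H N) w2 (4 * N / M) (by omega) (fun p s => ClQ M s.1 s.2 ∧ BdP p s.1 s.2)
    ((8 * (H : ℝ)) ^ 6 * (8 * (N : ℝ)) ^ 6 * (42250000 / (M : ℝ) ^ 12)) (by positivity) (by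
      intro p hp h1 h2
      have h3 : M * p ≤ 4 * N := by
        rw [mul_comm]
        exact (Nat.le_div_iff_mul_le hMpos).1 h2
      have h4 := clQ_bad_card hNpos hNH hMpos hp (by omega) (hcop p hp h1) h3
      refine h4.trans (le_of_eq ?_)
      have hp0 : (p : ℝ) ≠ 0 := by
        have := hp.pos
        positivity
      field_simp)
  have eb := QH_union (Bx 5 H N) (4 * N / M) (4 * N) hq1 (fun p s => BdP p s.1 s.2)
    ((8 * (H : ℝ)) ^ 6 * (8 * (N : ℝ)) ^ 6 * 42250000) (by positivity) (by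
      intro p hp h1 h2
      have h5 : 4 ≤ 4 * N / M := by
        rw [Nat.le_div_iff_mul_le hMpos]
        omega
      have h4 := bdQ_card hNpos hNH hp (by omega) h2
      refine h4.trans (le_of_eq ?_)
      ring)
  have ba : (8 * (H : ℝ)) ^ 6 * (8 * (N : ℝ)) ^ 6 * (42250000 / (M : ℝ) ^ 12) / (w2 : ℝ) ≤ X * ε / 4 := by
    have hw : (0 : ℝ) < w2 := by
      have : 0 < w2 := by omega
      exact_mod_cast this
    rw [e8, div_le_iff₀ hw]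
    have h1 : (169000000 : ℝ) * 16 ^ 12 ≤ w2 := by exact_mod_cast hw24
    have h16 : (16 : ℝ) ^ 12 = 8 ^ 12 * 2 ^ 12 := by
      rw [← mul_pow]
      norm_num
    have h2 : X * ε / 4 * (169000000 * 16 ^ 12) = 8 ^ 12 * X * (42250000 / (M : ℝ) ^ 12) := by
      rw [hε, h16, mul_pow]
      field_simp
      ring
    rw [← h2]
    exact mul_le_mul_of_nonneg_left h1 (by positivity)
  have bb : (8 * (H : ℝ)) ^ 6 * (8 * (N : ℝ)) ^ 6 * 42250000 / ((4 * N / M : ℕ) : ℝ) ≤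
      X * (42250000 * 8 ^ 12 * M / N) := by
    have h1 : (N : ℝ) ≤ M * ((4 * N / M : ℕ) : ℝ) := by
      have h2 := Nat.div_add_mod (4 * N) M
      have h3 := Nat.mod_lt (4 * N) hMpos
      have h4 : N ≤ M * (4 * N / M) := by omega
      exact_mod_cast h4
    have h0 : (0 : ℝ) < ((4 * N / M : ℕ) : ℝ) := by
      have : 0 < 4 * N / M := by omega
      exact_mod_cast this
    rw [e8, div_le_iff₀ h0]
    calc 8 ^ 12 * X * 42250000 = X * (42250000 * 8 ^ 12) * (N / N) := by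
          rw [div_self hNr0.ne']
          ring
      _ = X * (42250000 * 8 ^ 12 / N) * N := by ring
      _ ≤ X * (42250000 * 8 ^ 12 / N) * (M * ((4 * N / M : ℕ) : ℝ)) := by
        refine mul_le_mul_of_nonneg_left h1 (by positivity)
      _ = _ := by ring
  -- not typical
  have bc : (((Bx 5 H N).filter fun s => ¬ Ty eQ P0 z0 s.1 s.2).card : ℝ) ≤ X * ε / 8 := by
    have h1 : C1 * (((N : ℝ) ^ K) ^ (5 + 1) * (N : ℝ) ^ 6) / Real.log (Real.log N) ≤ X * ε / 8 := by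
      have h2 : ((N : ℝ) ^ K) ^ (5 + 1) * (N : ℝ) ^ 6 = X := by
        rw [hX, hHr]
      rw [h2]
      calc C1 * X / Real.log (Real.log N) = C1 * X * (1 / Real.log (Real.log N)) := by ring
        _ ≤ C1 * X * (ε / (8 * C1)) := mul_le_mul_of_nonneg_left hLL1 (by positivity)
        _ = X * ε / 8 := by
          field_simp
    rw [← hH] at hTy
    exact hTy.trans h1
  -- both discriminants
  have bd : (((Bx 5 H N).filter fun s => s.2.1.1 ≠ 0 ∧ s.2.2.1 ≠ 0 ∧ ∃ p : ℕ, p.Prime ∧ N < p ∧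
      (p : ℤ) ∣ disc s.2.1 ∧ (p : ℤ) ∣ disc s.2.2).card : ℝ) ≤ X * (1701 * 3 ^ 6 / N) := by
    have h1 : (((Bx 5 H N).filter fun s => s.2.1.1 ≠ 0 ∧ s.2.2.1 ≠ 0 ∧ ∃ p : ℕ, p.Prime ∧ N < p ∧
      (p : ℤ) ∣ disc s.2.1 ∧ (p : ℤ) ∣ disc s.2.2)) = boxN 5 H ×ˢ ((box2 N).filter fun u =>
        u.1.1 ≠ 0 ∧ u.2.1 ≠ 0 ∧ ∃ p : ℕ, p.Prime ∧ N < p ∧ (p : ℤ) ∣ disc u.1 ∧ (p : ℤ) ∣ disc u.2) := by
      ext s
      unfold Bx
      simp only [mem_filter, mem_product]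
      constructor
      · rintro ⟨⟨h1, h2⟩, h3⟩
        exact ⟨h1, h2, h3⟩
      · rintro ⟨h1, h2, h3⟩
        exact ⟨⟨h1, h2⟩, h3⟩
    rw [h1, card_product]
    push_cast
    have h2 := QH_boxN 5 H hH1
    have h3 := disc_large N (by omega)
    calc _ ≤ (3 * (H : ℝ)) ^ (5 + 1) * (1701 * (N : ℝ) ^ 5) := by gcongr
      _ = X * (1701 * 3 ^ 6 / N) := by
        rw [hX, mul_pow]
        field_simp
        ring
  -- common zeros
  have be : (((Bx 5 H N).filter fun s => ¬ (s.1 3 ≠ 0 ∧ s.1 4 ≠ 0 ∧ s.1 5 ≠ 0)).card : ℝ) ≤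
      X * (3 * 3 ^ 11 / N) := by
    have h1 : (((Bx 5 H N).filter fun s => ¬ (s.1 3 ≠ 0 ∧ s.1 4 ≠ 0 ∧ s.1 5 ≠ 0)).card : ℝ) ≤
        ((3 * (2 * H + 1) ^ 5 * (2 * N + 1) ^ 6 : ℕ) : ℝ) := by
      exact_mod_cast nz_card H N
    have h3 : 3 * (2 * H + 1) ^ 5 * (2 * N + 1) ^ 6 ≤ 3 * (3 * H) ^ 5 * (3 * N) ^ 6 :=
      Nat.mul_le_mul (Nat.mul_le_mul_left _ (Nat.pow_le_pow_left (by omega) _)) (Nat.pow_le_pow_left (by omega) _)
    have h4 : ((3 * (2 * H + 1) ^ 5 * (2 * N + 1) ^ 6 : ℕ) : ℝ) ≤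
        ((3 * (3 * H) ^ 5 * (3 * N) ^ 6 : ℕ) : ℝ) := by exact_mod_cast h3
    refine h1.trans (h4.trans ?_)
    have h5 : (((3 * (3 * H) ^ 5 * (3 * N) ^ 6 : ℕ)) : ℝ) =
        3 * 3 ^ 11 * ((H : ℝ) ^ 5 * (N : ℝ) ^ 6) := by
      push_cast
      rw [mul_pow, mul_pow]
      ring
    rw [h5]
    have h6 : (H : ℝ) ^ 5 * (N : ℝ) ^ 6 ≤ X / N := by
      rw [hX, le_div_iff₀ hNr0]
      calc (H : ℝ) ^ 5 * (N : ℝ) ^ 6 * N ≤ (H : ℝ) ^ 5 * (N : ℝ) ^ 6 * H :=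
            mul_le_mul_of_nonneg_left hNHr (by positivity)
        _ = (H : ℝ) ^ 6 * (N : ℝ) ^ 6 := by
          rw [pow_succ (H : ℝ) 5]
          ring
    calc 3 * 3 ^ 11 * ((H : ℝ) ^ 5 * (N : ℝ) ^ 6)
        ≤ 3 * 3 ^ 11 * (X / N) := mul_le_mul_of_nonneg_left h6 (by positivity)
      _ = X * (3 * 3 ^ 11 / N) := by ring
  -- large primes
  have bf : (((Bx 5 H N).filter fun s => QH_good N s.2 ∧ (s.1 3 ≠ 0 ∧ s.1 5 ≠ 0) ∧
      ∃ p : ℕ, p.Prime ∧ 4 * N < p ∧ BdP p s.1 s.2).card : ℝ) ≤ X * (729 * 20000000 / N) := by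
    unfold Bx
    refine QH_fib _ _ _ _ ?_
    have h1 : ∀ u ∈ box2 N, (((boxN 5 H).filter fun c => QH_good N (c, u).2 ∧
        (c 3 ≠ 0 ∧ c 5 ≠ 0) ∧ ∃ p : ℕ, p.Prime ∧ 4 * N < p ∧ BdP p (c, u).1 (c, u).2).card : ℝ) ≤
        20000000 * (H : ℝ) ^ 6 / N := by
      intro u hu
      by_cases hgu : QH_good N u
      · obtain ⟨g1, g2, g3, g4, g5, g6⟩ := hgu
        have h2 := large_Q H N hN65 hN5 u hu g1 g2 g3 g4 g5 g6
        refine le_trans ?_ h2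
        have h3 : ((boxN 5 H).filter fun c => QH_good N (c, u).2 ∧
            (c 3 ≠ 0 ∧ c 5 ≠ 0) ∧ ∃ p : ℕ, p.Prime ∧ 4 * N < p ∧ BdP p (c, u).1 (c, u).2) ⊆
            (boxN 5 H).filter fun c => (c 3 ≠ 0 ∧ c 5 ≠ 0) ∧ ∃ p : ℕ, p.Prime ∧ 4 * N < p ∧ BdP p c u := by
          intro c hc
          rw [mem_filter] at hc ⊢
          exact ⟨hc.1, hc.2.2⟩
        exact_mod_cast card_le_card h3
      · have h3 : ((boxN 5 H).filter fun c => QH_good N (c, u).2 ∧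
            (c 3 ≠ 0 ∧ c 5 ≠ 0) ∧ ∃ p : ℕ, p.Prime ∧ 4 * N < p ∧ BdP p (c, u).1 (c, u).2) = ∅ :=
          Finset.filter_eq_empty_iff.2 fun c _ hc => hgu hc.1
        rw [h3, card_empty, Nat.cast_zero]
        positivity
    refine (Finset.sum_le_sum h1).trans ?_
    rw [Finset.sum_const, nsmul_eq_mul]
    have h2 := QH_box2 N (by omega)
    calc ((box2 N).card : ℝ) * (20000000 * (H : ℝ) ^ 6 / N) ≤ (729 * (N : ℝ) ^ 6) * (20000000 * (H : ℝ) ^ 6 / N) :=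
          mul_le_mul_of_nonneg_right h2 (by positivity)
      _ = X * (729 * 20000000 / N) := by
        rw [hX]
        ring
  -- the inclusion
  have hsub : (Bx 5 H N).filter (fun s => ClQ M s.1 s.2 ∧ PosQ s.1 s.2) ⊆
      (Bx 5 H N).filter (fun s => Pr (s.2, s.1)) ∪
        ((Bx 5 H N).filter (fun s => ∃ p : ℕ, p.Prime ∧ w2 < p ∧ p ≤ 4 * N / M ∧ ClQ M s.1 s.2 ∧ BdP p s.1 s.2) ∪
          ((Bx 5 H N).filter (fun s => ∃ p : ℕ, p.Prime ∧ 4 * N / M < p ∧ p ≤ 4 * N ∧ BdP p s.1 s.2) ∪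
            ((Bx 5 H N).filter (fun s => ¬ Ty eQ P0 z0 s.1 s.2) ∪
              ((Bx 5 H N).filter (fun s => s.2.1.1 ≠ 0 ∧ s.2.2.1 ≠ 0 ∧ ∃ p : ℕ, p.Prime ∧ N < p ∧
                (p : ℤ) ∣ disc s.2.1 ∧ (p : ℤ) ∣ disc s.2.2) ∪
                ((Bx 5 H N).filter (fun s => ¬ (s.1 3 ≠ 0 ∧ s.1 4 ≠ 0 ∧ s.1 5 ≠ 0)) ∪
                  (Bx 5 H N).filter (fun s => QH_good N s.2 ∧ (s.1 3 ≠ 0 ∧ s.1 5 ≠ 0) ∧
                    ∃ p : ℕ, p.Prime ∧ 4 * N < p ∧ BdP p s.1 s.2)))))) := by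
    intro s hs
    rw [mem_filter] at hs
    obtain ⟨hB, hcl, hpos⟩ := hs
    simp only [mem_union, mem_filter]
    by_cases hc : ∀ p : ℕ, p.Prime → w2 < p → ¬ BdP p s.1 s.2
    · refine Or.inl ⟨hB, ?_⟩
      rw [hPr]
      exact ⟨hSm s.1 s.2 hcl, hE2 s.1 s.2 hcl hpos hc⟩
    · push Not at hc
      obtain ⟨p, hp, hwp, hbad⟩ := hc
      by_cases h4 : p ≤ 4 * N / M
      · exact Or.inr (Or.inl ⟨hB, p, hp, hwp, h4, hcl, hbad⟩)
      by_cases h5 : p ≤ 4 * N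
      · exact Or.inr (Or.inr (Or.inl ⟨hB, p, hp, by omega, h5, hbad⟩))
      by_cases h6 : Ty eQ P0 z0 s.1 s.2
      · obtain ⟨n1, n2, n3⟩ := Ty_ns h6
        have v1 : s.2.1.1 ≠ 0 := hpos.2.1.ne'
        have v2 : s.2.2.1 ≠ 0 := hpos.2.2.ne'
        by_cases h7 : ∃ p : ℕ, p.Prime ∧ N < p ∧ (p : ℤ) ∣ disc s.2.1 ∧ (p : ℤ) ∣ disc s.2.2
        · exact Or.inr (Or.inr (Or.inr (Or.inr (Or.inl ⟨hB, v1, v2, h7⟩))))
        · by_cases h8 : (s.1 3 ≠ 0 ∧ s.1 5 ≠ 0)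
          · refine Or.inr (Or.inr (Or.inr (Or.inr (Or.inr (Or.inr ⟨hB, ⟨v1, v2, n1, n2, n3, ?_⟩, h8, p, hp, by omega, hbad⟩)))))
            intro p' hp' hN' h9
            exact h7 ⟨p', hp', by omega, h9.1, h9.2⟩
          · exact Or.inr (Or.inr (Or.inr (Or.inr (Or.inr (Or.inl ⟨hB, fun h9 => h8 ⟨h9.1, h9.2.2⟩⟩)))))
      · exact Or.inr (Or.inr (Or.inr (Or.inl ⟨hB, h6⟩)))
  have hc2 := (card_le_card hsub).trans ((card_union_le _ _).trans (Nat.add_le_add_left ((card_union_le _ _).trans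
    (Nat.add_le_add_left ((card_union_le _ _).trans (Nat.add_le_add_left ((card_union_le _ _).trans
      (Nat.add_le_add_left ((card_union_le _ _).trans (Nat.add_le_add_left (card_union_le _ _) _)) _)) _)) _)) _))
  have hc3 : (((Bx 5 H N).filter (fun s => ClQ M s.1 s.2 ∧ PosQ s.1 s.2)).card : ℝ) ≤
      (((Bx 5 H N).filter (fun s => Pr (s.2, s.1))).card : ℝ) +
        ((((Bx 5 H N).filter (fun s => ∃ p : ℕ, p.Prime ∧ w2 < p ∧ p ≤ 4 * N / M ∧ ClQ M s.1 s.2 ∧ BdP p s.1 s.2)).card : ℝ) +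
          ((((Bx 5 H N).filter (fun s => ∃ p : ℕ, p.Prime ∧ 4 * N / M < p ∧ p ≤ 4 * N ∧ BdP p s.1 s.2)).card : ℝ) +
            ((((Bx 5 H N).filter (fun s => ¬ Ty eQ P0 z0 s.1 s.2)).card : ℝ) +
              ((((Bx 5 H N).filter (fun s => s.2.1.1 ≠ 0 ∧ s.2.2.1 ≠ 0 ∧ ∃ p : ℕ, p.Prime ∧ N < p ∧
                (p : ℤ) ∣ disc s.2.1 ∧ (p : ℤ) ∣ disc s.2.2)).card : ℝ) +
                ((((Bx 5 H N).filter (fun s => ¬ (s.1 3 ≠ 0 ∧ s.1 4 ≠ 0 ∧ s.1 5 ≠ 0))).card : ℝ) +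
                  (((Bx 5 H N).filter (fun s => QH_good N s.2 ∧ (s.1 3 ≠ 0 ∧ s.1 5 ≠ 0) ∧
                    ∃ p : ℕ, p.Prime ∧ 4 * N < p ∧ BdP p s.1 s.2)).card : ℝ)))))) := by
    exact_mod_cast hc2
  have hNA2 : 8 * A / ε ≤ N := (Nat.le_ceil _).trans (by exact_mod_cast hNA)
  have hAN : X * (A / N) ≤ X * ε / 8 := by
    have h1 : A / N ≤ ε / 8 := by
      rw [div_le_div_iff₀ hNr0 (by norm_num)]
      rw [div_le_iff₀ hε0] at hNA2
      linarith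
    calc X * (A / N) ≤ X * (ε / 8) := mul_le_mul_of_nonneg_left h1 hX0.le
      _ = X * ε / 8 := by ring
  have hsplit : X * (A / N) = X * (42250000 * 8 ^ 12 * M / N) + X * (1701 * 3 ^ 6 / N) +
      X * (3 * 3 ^ 11 / N) + X * (729 * 20000000 / N) := by
    rw [hA]
    ring
  have hgoal : ε / 2 * X = X * ε - X * ε / 4 - X * ε / 8 - X * ε / 8 := by ring
  rw [hgoal]
  linarith

end HNQ
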