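import Pool.Agent.Lib.MP_10e784_agQ.QB1
import Pool.Agent.Lib.MP_1ad228_ntH.LV
import Pool.Agent.Lib.MP_1ad228_ntH.HI1

/-! The generic point attached to a point of the curve. -/

set_option autoImplicit false

open Classical

namespace HNQ

open Finset Polynomial FGO FQQ HNF ZC ZG

/-- the resultant of the curve `q` -/
noncomputable def Rq (q : Dt) : ℤ := RQ q.2 q.1.1 q.1.2

/-- The two factors have no common zero. Proof. If `v(x, z) = 0 = w(y, z)` then `A(x, y, z) = 0`. `(x, z) ≠ (0, 0)`: otherwise `w.1 y² = 0`. Now `hv (Bq ..) x z = 0` by `Bq_comb`, so `Rs .. = 0` in `K` by `Rs_zero_of_root` (file RC, `m = 4`), and `RQ_map` (`Int.castRingHom K`; injective):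
model `HNF.noz_of_R` (HI1.lean). -/
theorem noz_of_R (q : Dt) (hR : Rq q ≠ 0) (hw1 : q.1.2.1 ≠ 0) (K : Type) [Field K] [CharZero K] (x y z : K)
    (hxyz : ¬ (x = 0 ∧ y = 0 ∧ z = 0)) (h : vA q.2 x y z ^ 2 = vV q.1.1 x z * vV q.1.2 y z) :
    ¬ (vV q.1.1 x z = 0 ∧ vV q.1.2 y z = 0) := by
  rintro ⟨h1, h2⟩
  have hA0 : vA q.2 x y z = 0 := by
    rw [h1, zero_mul] at h
    exact pow_eq_zero_iff (two_ne_zero) |>.1 h
  have hwK : (q.1.2.1 : K) ≠ 0 := Int.cast_ne_zero.2 hw1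
  have hxz : ¬ (x = 0 ∧ z = 0) := by
    rintro ⟨hx, hz⟩
    refine hxyz ⟨hx, ?_, hz⟩
    unfold vV at h2
    rw [hz] at h2
    have h3 : (q.1.2.1 : K) * y ^ 2 = 0 := by linear_combination h2
    exact pow_eq_zero_iff (two_ne_zero) |>.1 ((mul_eq_zero.1 h3).resolve_left hwK)
  have h4 : hv (Bq (fun i => ((q.2 i : ℤ) : K)) ((q.1.2.1 : K), (q.1.2.2.1 : K), (q.1.2.2.2 : K))) x z = 0 := by
    rw [vV_eq] at h2
    rw [vA_eq] at hA0
    rw [Bq_comb _ _ x y z, h2, hA0, mul_zero, mul_zero, add_zero]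
  rw [vV_eq] at h1
  have h5 := Rs_zero_of_root (by omega : 1 ≤ 4) _ _ x z hxz h4 h1
  have h6 : ((Rq q : ℤ) : K) = 0 := by
    rw [← h5]
    exact RQ_map (Int.castRingHom K) q.2 q.1.1 q.1.2
  exact hR (by exact_mod_cast h6)

/-- the generic point attached to a point of the curve -/
def toGP {F : Type} [Field F] [CharZero F] {q : Dt} (hR : Rq q ≠ 0) (hw1 : q.1.2.1 ≠ 0) (P : Pt F q) : GP F where
  K := P.K
  a := vV q.1.1 P.x P.z
  b := vV q.1.2 P.y P.z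
  y := vA q.2 P.x P.y P.z
  eq := P.eq
  ne := by
    have : CharZero P.K := charZero_of_injective_algebraMap (algebraMap F P.K).injective
    exact noz_of_R q hR hw1 P.K P.x P.y P.z P.ne P.eq

theorem toGP_val {F : Type} [Field F] [CharZero F] {q : Dt} (hR : Rq q ≠ 0) (hw1 : q.1.2.1 ≠ 0) (P : Pt F q) :
    (toGP hR hw1 P).val = P.val := rfl

theorem QI1_xz {K : Type} [Field K] [CharZero K] (v w : V) (c : Fin 6 → ℤ) (h5 : c 5 ≠ 0) (x y z : K)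
    (hne : ¬ (x = 0 ∧ y = 0 ∧ z = 0)) (h : vA c x y z ^ 2 = vV v x z * vV w y z) :
    ¬ (x = 0 ∧ z = 0) := by
  rintro ⟨hx, hz⟩
  have hc : ((c 5 : ℤ) : K) ≠ 0 := Int.cast_ne_zero.2 h5
  refine hne ⟨hx, ?_, hz⟩
  unfold vA vV at h
  rw [hx, hz] at h
  have h3 : (((c 5 : ℤ) : K) * y ^ 2) ^ 2 = 0 := by linear_combination h
  have h6 := pow_eq_zero_iff (two_ne_zero) |>.1 h3
  exact pow_eq_zero_iff (two_ne_zero) |>.1 ((mul_eq_zero.1 h6).resolve_left hc)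

theorem QI1_core {p : ℕ} [Fact p.Prime] {K : Type} [Field K] [Algebra ℚ_[p] K] (L : LVal p K)
    {c5 w1 A0 B1 b0 b1 Y T : K} (hc5 : L.v c5 ≤ 1) (hw1 : L.v w1 ≤ 1) (hA0 : L.v A0 ≤ 1)
    (hB1 : L.v B1 ≤ 1) (hb0 : L.v b0 ≤ 1) (hb1 : L.v b1 ≤ 1) (hT : L.v T ≤ 1)
    (hE : L.v ((c5 * b0 - A0 * w1) ^ 2 - (c5 * b1 - B1 * w1) * (B1 * b0 - A0 * b1)) = 1)
    (h : (c5 * Y ^ 2 + B1 * Y + A0) ^ 2 = T * (w1 * Y ^ 2 + b1 * Y + b0)) :
    ∃ s : K, s ≠ 0 ∧ L.v (w1 * Y ^ 2 + b1 * Y + b0) = L.v s ^ 2 := by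
  have hsub : ∀ a b : K, L.v a < 1 → L.v b < 1 → L.v (a - b) < 1 := fun a b ha hb =>
    (v_sub L a b).trans_lt (max_lt ha hb)
  have hsub' : ∀ a b : K, L.v a ≤ 1 → L.v b ≤ 1 → L.v (a - b) ≤ 1 := fun a b ha hb =>
    (v_sub L a b).trans (max_le ha hb)
  have hadd' : ∀ a b : K, L.v a ≤ 1 → L.v b ≤ 1 → L.v (a + b) ≤ 1 := fun a b ha hb =>
    (L.add a b).trans (max_le ha hb)
  have hmul_lt' : ∀ a b : K, L.v a ≤ 1 → L.v b < 1 → L.v (a * b) < 1 := fun a b ha hb => by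
    rw [mul_comm]
    exact LV_mul_lt L hb ha
  have hsq : L.v (c5 * Y ^ 2 + B1 * Y + A0) ^ 2 = L.v T * L.v (w1 * Y ^ 2 + b1 * Y + b0) := by
    rw [← v_pow, h, L.mul]
  rcases le_or_gt (L.v Y) 1 with hY | hY
  · -- the integral case
    have hW : L.v (w1 * Y ^ 2 + b1 * Y + b0) ≤ 1 :=
      hadd' _ _ (hadd' _ _ (LV_mul_le L hw1 (LV_pow_le L hY 2)) (LV_mul_le L hb1 hY)) hb0
    refine ⟨1, one_ne_zero, ?_⟩
    rw [v_one, one_pow]
    by_contra hne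
    have hW1 : L.v (w1 * Y ^ 2 + b1 * Y + b0) < 1 := lt_of_le_of_ne hW hne
    have hA1 : L.v (c5 * Y ^ 2 + B1 * Y + A0) < 1 := by
      by_contra hcon
      push Not at hcon
      have h1 : 1 ≤ L.v (c5 * Y ^ 2 + B1 * Y + A0) ^ 2 := one_le_pow₀ hcon
      rw [hsq] at h1
      have h2 : L.v T * L.v (w1 * Y ^ 2 + b1 * Y + b0) ≤ 1 * L.v (w1 * Y ^ 2 + b1 * Y + b0) :=
        mul_le_mul_of_nonneg_right hT (L.nonneg _)
      linarith
    have hid : (c5 * b0 - A0 * w1) ^ 2 - (c5 * b1 - B1 * w1) * (B1 * b0 - A0 * b1) =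
        ((c5 * b0 - A0 * w1) * c5 - (c5 * b1 - B1 * w1) * (c5 * Y + B1)) * (w1 * Y ^ 2 + b1 * Y + b0) +
        ((c5 * b1 - B1 * w1) * (w1 * Y + b1) - (c5 * b0 - A0 * w1) * w1) * (c5 * Y ^ 2 + B1 * Y + A0) := by
      ring
    have i1 : L.v (c5 * b0 - A0 * w1) ≤ 1 := hsub' _ _ (LV_mul_le L hc5 hb0) (LV_mul_le L hA0 hw1)
    have i2 : L.v (c5 * b1 - B1 * w1) ≤ 1 := hsub' _ _ (LV_mul_le L hc5 hb1) (LV_mul_le L hB1 hw1)
    have i3 : L.v (c5 * Y + B1) ≤ 1 := hadd' _ _ (LV_mul_le L hc5 hY) hB1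
    have i4 : L.v (w1 * Y + b1) ≤ 1 := hadd' _ _ (LV_mul_le L hw1 hY) hb1
    have i5 := hsub' _ _ (LV_mul_le L i1 hc5) (LV_mul_le L i2 i3)
    have i6 := hsub' _ _ (LV_mul_le L i2 i4) (LV_mul_le L i1 hw1)
    have i7 := LV_add_lt L (hmul_lt' _ _ i5 hW1) (hmul_lt' _ _ i6 hA1)
    rw [← hid, hE] at i7
    exact lt_irrefl _ i7
  · have hY0 : 0 < L.v Y := lt_trans one_pos hY
    have hYne : Y ≠ 0 := by
      intro h0
      rw [h0, (L.zero_iff 0).2 rfl] at hY0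
      exact lt_irrefl _ hY0
    have hYY : L.v Y < L.v Y ^ 2 := by nlinarith
    have h1Y : 1 < L.v Y ^ 2 := hY.trans hYY
    have hlow : ∀ a b : K, L.v a ≤ 1 → L.v b ≤ 1 → L.v (a * Y + b) < L.v Y ^ 2 := by
      intro a b ha hb
      refine (L.add _ _).trans_lt (max_lt ?_ (hb.trans_lt h1Y))
      rw [L.mul]
      refine lt_of_le_of_lt ?_ hYY
      have := mul_le_mul_of_nonneg_right ha hY0.le
      linarith
    have hlead : ∀ a : K, L.v a = 1 → L.v (a * Y ^ 2) = L.v Y ^ 2 := by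
      intro a ha
      rw [L.mul, ha, one_mul, v_pow]
    rcases eq_or_lt_of_le hw1 with e1 | l1
    · refine ⟨Y, hYne, ?_⟩
      rw [v_eq_of_close L (y := w1 * Y ^ 2), hlead _ e1]
      rw [hlead _ e1]
      have e : w1 * Y ^ 2 + b1 * Y + b0 - w1 * Y ^ 2 = b1 * Y + b0 := by ring
      rw [e]
      exact hlow _ _ hb1 hb0
    · exfalso
      rcases eq_or_lt_of_le hc5 with e2 | l2
      · have hA : L.v (c5 * Y ^ 2 + B1 * Y + A0) = L.v Y ^ 2 := by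
          rw [v_eq_of_close L (y := c5 * Y ^ 2), hlead _ e2]
          rw [hlead _ e2]
          have e : c5 * Y ^ 2 + B1 * Y + A0 - c5 * Y ^ 2 = B1 * Y + A0 := by ring
          rw [e]
          exact hlow _ _ hB1 hA0
        have hW : L.v (w1 * Y ^ 2 + b1 * Y + b0) < L.v Y ^ 2 := by
          have e : w1 * Y ^ 2 + b1 * Y + b0 = w1 * Y ^ 2 + (b1 * Y + b0) := by ring
          rw [e]
          refine (L.add _ _).trans_lt (max_lt ?_ (hlow _ _ hb1 hb0))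
          rw [L.mul, v_pow]
          have h3 : 0 < L.v Y ^ 2 := by positivity
          nlinarith
        rw [hA] at hsq
        have h2 : L.v T * L.v (w1 * Y ^ 2 + b1 * Y + b0) ≤ 1 * L.v (w1 * Y ^ 2 + b1 * Y + b0) :=
          mul_le_mul_of_nonneg_right hT (L.nonneg _)
        have h3 : L.v Y ^ 2 < (L.v Y ^ 2) ^ 2 := by nlinarith
        linarith
      · have i1 : L.v (c5 * b0 - A0 * w1) < 1 := hsub _ _ (LV_mul_lt L l2 hb0) (hmul_lt' _ _ hA0 l1)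
        have i2 : L.v (c5 * b1 - B1 * w1) < 1 := hsub _ _ (LV_mul_lt L l2 hb1) (hmul_lt' _ _ hB1 l1)
        have i3 : L.v (B1 * b0 - A0 * b1) ≤ 1 := hsub' _ _ (LV_mul_le L hB1 hb0) (LV_mul_le L hA0 hb1)
        have i4 : L.v ((c5 * b0 - A0 * w1) ^ 2) < 1 := by
          rw [sq]
          exact LV_mul_lt L i1 i1.le
        have i5 := hsub _ _ i4 (LV_mul_lt L i2 i3)
        rw [hE] at i5
        exact lt_irrefl _ i5

/-- Proof. `(X, Y) = (2 v.1 x + v.2.1 z, z)` (model `HNF.HI1_form`). Both zero: `x = z = 0`, then `v(x, z) = 0`, so `A(0, y, 0)² = 0`, `c 5 y² = 0`, `y = 0`: contradiction. -/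
theorem toGP_NfA {F : Type} [Field F] [CharZero F] {q : Dt} (hR : Rq q ≠ 0) (hw1 : q.1.2.1 ≠ 0) (P : Pt F q)
    (hv : q.1.1.1 ≠ 0) (h5 : q.2 5 ≠ 0) : (toGP hR hw1 P).NfA q.1.1.1 (ds (q.1.1 : V)) := by
  have : CharZero P.K := charZero_of_injective_algebraMap (algebraMap F P.K).injective
  exact HI1_form q.1.1 hv P.x P.z (QI1_xz q.1.1 q.1.2 q.2 h5 P.x P.y P.z P.ne P.eq)

/-- Proof. The same with `y`, `z`: both zero gives `c 4 x² = 0`. -/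
theorem toGP_NfB {F : Type} [Field F] [CharZero F] {q : Dt} (hR : Rq q ≠ 0) (hw1 : q.1.2.1 ≠ 0) (P : Pt F q)
    (h4 : q.2 4 ≠ 0) : (toGP hR hw1 P).NfB q.1.2.1 (ds (q.1.2 : V)) := by
  have : CharZero P.K := charZero_of_injective_algebraMap (algebraMap F P.K).injective
  refine HI1_form q.1.2 hw1 P.y P.z ?_
  rintro ⟨hy, hz⟩
  have h := P.eq
  have hc : ((q.2 4 : ℤ) : P.K) ≠ 0 := Int.cast_ne_zero.2 h4
  refine P.ne ⟨?_, hy, hz⟩
  unfold vA vV at h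
  rw [hy, hz] at h
  have h3 : (((q.2 4 : ℤ) : P.K) * P.x ^ 2) ^ 2 = 0 := by linear_combination h
  have h6 := pow_eq_zero_iff (two_ne_zero) |>.1 h3
  exact pow_eq_zero_iff (two_ne_zero) |>.1 ((mul_eq_zero.1 h6).resolve_left hc)

/-- **Proof.** `L` a valuation (`ZC.exists_lval p P.K`), `|t| = L.v t`. `(x, z) ≠ (0, 0)`: otherwise `A = c 5 y²`, `v = 0`, so `c 5 y² = 0`, `y = 0`. `LV_unit` (file LV of H, `m = 4`, `f = Bq q.2 q.1.2`, `v = q.1.1`) at `(x, z)`: `lam ≠ 0` with `|x|, |z| ≤ |lam|` and `|B(x, z)| = |lam|⁴` or `|v(x, z)| = |lam|²`.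
In the second case take `s = lam` (first alternative of `GP.Ev`). In the first case put `x' = x/lam`, `y' = y/lam`, `z' = z/lam`: `|x'|, |z'| ≤ 1`, `|B(x', z')| = 1` (homogeneity `hv_smul`), `A(x', y', z')² = v(x', z') w(y', z')`, and it is enough to find `s'` with `|w(y', z')| = |s'|²` (then `s = lam s'`).
Case `|y'| ≤ 1`: all the integral expressions are `≤ 1` in absolute value (`HNF.v_int_le`, `LV_mul_le`, `L.add`), `v(x', z')` too. If `|w(y', z')| < 1` then `|A|² = |v| |w| < 1`, so `|A| < 1`, and `Bq_comb` gives `|B(x', z')| < 1`, contradiction; so `|w(y', z')| = 1`, `s' = 1`.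
Case `|y'| > 1`: if `|w.1| = 1`: `|w(y', z')| = |y'|²` (the other terms are `≤ |y'| < |y'|²`), `s' = y'`. If `|w.1| < 1` and `|c 5| = 1`: `|A| = |y'|²` (the other terms are `≤ |y'|`), `|w(y', z')| < |y'|²` (`|w.1| |y'|² < |y'|²`, `|w.2.1 z' y'| ≤ |y'| < |y'|²`, ..), `|v| ≤ 1`:
`|y'|⁴ = |A|² = |v| |w| < |y'|²`, contradiction. If `|w.1| < 1` and `|c 5| < 1`: `hv_Bq` gives `|B(x', z')| < 1` (every term contains `w.1` or `c 5`), contradiction. (`L.v` of an integer is `1` or `< 1`: `LVal.ext`, it is the `p`-adic absolute value; see LV.lean for helper lemmas.) -/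
theorem toGP_Ev {p : ℕ} [Fact p.Prime] {q : Dt} (hR : Rq q ≠ 0) (hw1 : q.1.2.1 ≠ 0) (h5 : q.2 5 ≠ 0)
    (hp : ¬ (p : ℤ) ∣ Rq q) (P : Pt ℚ_[p] q) : (toGP hR hw1 P).Ev := by
  have hC : CharZero P.K := charZero_of_injective_algebraMap (algebraMap ℚ_[p] P.K).injective
  obtain ⟨L⟩ := exists_lval p P.K
  have hxz := QI1_xz q.1.1 q.1.2 q.2 h5 P.x P.y P.z P.ne P.eq
  obtain ⟨lam, hlam, hx, hz, hcase⟩ := LV_unit L (by omega : 1 ≤ 4) (Bq q.2 q.1.2) q.1.1 hp hxz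
  have hl0 : 0 < L.v lam := lt_of_le_of_ne (L.nonneg lam) fun h => hlam ((L.zero_iff lam).1 h.symm)
  rcases hcase with hB | hV
  swap
  · exact ⟨L, lam, hlam, Or.inl hV⟩
  have hcast : (fun i => ((Bq q.2 q.1.2 i : ℤ) : P.K)) =
      Bq (fun i => ((q.2 i : ℤ) : P.K)) ((q.1.2.1 : P.K), (q.1.2.2.1 : P.K), (q.1.2.2.2 : P.K)) := by
    funext i
    exact map_Bq (Int.castRingHom P.K) q.2 q.1.2 i
  rw [hcast] at hB
  have ex : P.x = lam * (P.x / lam) := by field_simp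
  have ey : P.y = lam * (P.y / lam) := by field_simp
  have ez : P.z = lam * (P.z / lam) := by field_simp
  have hX : L.v (P.x / lam) ≤ 1 := by
    rw [v_div]
    exact (div_le_one hl0).2 hx
  have hZ : L.v (P.z / lam) ≤ 1 := by
    rw [v_div]
    exact (div_le_one hl0).2 hz
  set X : P.K := P.x / lam with hXd
  set Y : P.K := P.y / lam with hYd
  set Z : P.K := P.z / lam with hZd
  have hB1 : L.v (hv (Bq (fun i => ((q.2 i : ℤ) : P.K))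
      ((q.1.2.1 : P.K), (q.1.2.2.1 : P.K), (q.1.2.2.2 : P.K))) X Z) = 1 := by
    rw [ex, ez, hv_smul, L.mul, v_pow] at hB
    have h0 : L.v lam ^ 4 ≠ 0 := pow_ne_zero 4 hl0.ne'
    exact mul_left_cancel₀ h0 (by rw [hB, mul_one])
  rw [hv_Bq] at hB1
  have heq : (((q.2 5 : ℤ) : P.K) * Y ^ 2 + (((q.2 3 : ℤ) : P.K) * X + ((q.2 2 : ℤ) : P.K) * Z) * Y +
      (((q.2 4 : ℤ) : P.K) * X ^ 2 + ((q.2 1 : ℤ) : P.K) * X * Z + ((q.2 0 : ℤ) : P.K) * Z ^ 2)) ^ 2 =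
      qv ((q.1.1.1 : P.K), (q.1.1.2.1 : P.K), (q.1.1.2.2 : P.K)) X Z *
        ((q.1.2.1 : P.K) * Y ^ 2 + ((q.1.2.2.1 : P.K) * Z) * Y + (q.1.2.2.2 : P.K) * Z ^ 2) := by
    have h := P.eq
    unfold vA vV at h
    rw [ex, ey, ez] at h
    have h0 : lam ^ 4 ≠ 0 := pow_ne_zero 4 hlam
    apply mul_left_cancel₀ h0
    unfold qv
    linear_combination h
  have hint : ∀ m : ℤ, L.v ((m : ℤ) : P.K) ≤ 1 := fun m => v_int_le L m
  have hadd' : ∀ a b : P.K, L.v a ≤ 1 → L.v b ≤ 1 → L.v (a + b) ≤ 1 := fun a b ha hb =>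
    (L.add a b).trans (max_le ha hb)
  obtain ⟨s, hs, hWs⟩ := QI1_core L (hint (q.2 5)) (hint q.1.2.1)
    (hadd' _ _ (hadd' _ _ (LV_mul_le L (hint (q.2 4)) (LV_pow_le L hX 2))
      (LV_mul_le L (LV_mul_le L (hint (q.2 1)) hX) hZ)) (LV_mul_le L (hint (q.2 0)) (LV_pow_le L hZ 2)))
    (hadd' _ _ (LV_mul_le L (hint (q.2 3)) hX) (LV_mul_le L (hint (q.2 2)) hZ))
    (LV_mul_le L (hint q.1.2.2.2) (LV_pow_le L hZ 2))
    (LV_mul_le L (hint q.1.2.2.1) hZ)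
    (LV_qv_le L q.1.1 hX hZ) hB1 heq
  have hls : lam * s ≠ 0 := mul_ne_zero hlam hs
  refine ⟨L, lam * s, hls, Or.inr ?_⟩
  have e : vV q.1.2 P.y P.z = lam ^ 2 * ((q.1.2.1 : P.K) * Y ^ 2 + ((q.1.2.2.1 : P.K) * Z) * Y +
      (q.1.2.2.2 : P.K) * Z ^ 2) := by
    unfold vV
    rw [ey, ez]
    ring
  change L.v (vV q.1.2 P.y P.z) = _
  rw [e, L.mul, hWs, v_pow, L.mul, mul_pow]

end HNQ
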