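import Pool.Agent.Lib.MP_1ad228_ntH.LC1

/-! From a family of zero-cycles of odd degree to the conditions on an integer. -/

set_option autoImplicit false

open Classical

namespace HNQ

open Finset Polynomial FGO FQQ HNF

private theorem QI2_cons {F : Type} [Field F] (q : ℤ × GP F) (z : GC F) :
    GC.cls (q :: z : GC F) = (Algebra.norm F q.2.val) ^ q.1 * z.cls := by
  unfold GC.cls
  rw [List.map_cons, List.prod_cons]

private theorem QI2_nil {F : Type} [Field F] : GC.cls ([] : GC F) = 1 := by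
  unfold GC.cls
  rw [List.map_nil, List.prod_nil]

private theorem QI2_sq_div {F : Type} [Field F] {c x : F} (hc : c ≠ 0) (h : IsSquare (c * c * x)) :
    IsSquare x := by
  obtain ⟨r, hr⟩ := h
  refine ⟨r / c, ?_⟩
  field_simp
  linear_combination hr

private theorem QI2_val {p : ℕ} [hp : Fact p.Prime] {n : ℤ} (hn : n ≠ 0) (h1 : (p : ℤ) ∣ n)
    (h2 : ¬ (p : ℤ) ^ 2 ∣ n) : (n : ℚ_[p]).valuation = 1 := by
  obtain ⟨m, rfl⟩ := h1
  have hm : ¬ (p : ℤ) ∣ m := by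
    intro hm
    exact h2 (by rw [sq]; exact mul_dvd_mul_left _ hm)
  have hm0 : m ≠ 0 := by
    rintro rfl
    exact hm (dvd_zero _)
  have hp0 : ((p : ℤ) : ℚ_[p]) ≠ 0 := by
    exact_mod_cast hp.out.ne_zero
  have hm1 : (m : ℚ_[p]) ≠ 0 := by exact_mod_cast hm0
  rw [Int.cast_mul, Padic.valuation_mul hp0 hm1, Int.cast_natCast, Padic.valuation_p,
    Padic.valuation_intCast, padicValInt.eq_zero_of_not_dvd hm]
  rfl

/-- Proof. As `GC.sq` (H, files LA/LB), the last step: `(z.cls * c) = (cls * c ^ deg) * (c ^ (1 - deg))` and `c ^ (1 - deg)` is a square as `1 - deg` is even (`zpow`). (Look at the proof of `HNF.GC.sq`; it uses the degree only through `∏ (norm * c ^ finrank) ^ m = cls * c ^ deg`.) -/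
theorem GC_sq_odd {p : ℕ} [Fact p.Prime] (z : GC ℚ_[p]) (c : ℤ) (hc : c ≠ 0)
    (h : ∀ q ∈ z, IsSquare (Algebra.norm ℚ_[p] q.2.val * (c : ℚ_[p]) ^ Module.finrank ℚ_[p] q.2.K))
    (hd : Odd z.deg) : IsSquare (z.cls * (c : ℚ_[p])) := by
  have hc0 : (c : ℚ_[p]) ≠ 0 := by exact_mod_cast hc
  have key : ∀ z : GC ℚ_[p],
      (∀ q ∈ z, IsSquare (Algebra.norm ℚ_[p] q.2.val * (c : ℚ_[p]) ^ Module.finrank ℚ_[p] q.2.K)) →
      IsSquare (z.cls * (c : ℚ_[p]) ^ z.deg) := by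
    intro z
    induction z with
    | nil =>
      intro _
      have h3 : GC.deg ([] : GC ℚ_[p]) = 0 := by
        unfold GC.deg
        rw [List.map_nil, List.sum_nil]
      rw [QI2_nil, h3, zpow_zero, mul_one]
      exact IsSquare.one
    | cons q z ih =>
      intro hh
      have h3 : GC.deg (q :: z : GC ℚ_[p]) = q.1 * (Module.finrank ℚ_[p] q.2.K : ℤ) + GC.deg z := by
        unfold GC.deg
        rw [List.map_cons, List.sum_cons]
      have h4 := (hh q List.mem_cons_self).zpow q.1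
      have h5 : GC.cls (q :: z : GC ℚ_[p]) * (c : ℚ_[p]) ^ GC.deg (q :: z : GC ℚ_[p]) =
          (Algebra.norm ℚ_[p] q.2.val * (c : ℚ_[p]) ^ Module.finrank ℚ_[p] q.2.K) ^ q.1 *
            (GC.cls z * (c : ℚ_[p]) ^ GC.deg z) := by
        rw [QI2_cons, h3, zpow_add₀ hc0, mul_zpow, mul_comm q.1, zpow_mul, zpow_natCast]
        ring
      rw [h5]
      exact h4.mul (ih fun r hr => hh r (List.mem_cons_of_mem _ hr))
  have h6 := key z h
  obtain ⟨k, hk⟩ := hd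
  have h7 : z.cls * (c : ℚ_[p]) = (z.cls * (c : ℚ_[p]) ^ z.deg) * ((c : ℚ_[p]) ^ (-k) * (c : ℚ_[p]) ^ (-k)) := by
    rw [← zpow_add₀ hc0, mul_assoc, ← zpow_add₀ hc0, hk]
    have e : 2 * k + 1 + (-k + -k) = 1 := by ring
    rw [e, zpow_one]
  rw [h7]
  exact h6.mul ⟨_, rfl⟩

/-- Proof. Copy `HNF.arith_of` (LC1.lean) with `GC_sq_odd` in place of `GC.sq` (private lemmas of LC1 must be copied). -/
theorem arith_odd {R : ℤ} (hR : R ≠ 0) (v w : V) (z : ∀ (p : ℕ) [Fact p.Prime], GC ℚ_[p]) (z₀ : GC ℝ)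
    (hz : ∀ (p : ℕ) [Fact p.Prime], Odd (z p).deg)
    (hs : ∀ β : ℚ, β ≠ 0 → ZC.SumZero (fun p _ => (z p).cls) z₀.cls β)
    (hE : ∀ (p : ℕ) [Fact p.Prime], ¬ (p : ℤ) ∣ R → ∀ q ∈ z p, q.2.Ev)
    (hA : ∀ (p : ℕ) [Fact p.Prime], ∀ q ∈ z p, q.2.NfA v.1 (ds v))
    (hB : ∀ (p : ℕ) [Fact p.Prime], ∀ q ∈ z p, q.2.NfB w.1 (ds w)) :
    ∃ β : ℤ, Squarefree β ∧ Cn R v w β := by
  have hc : ∀ (p : ℕ) [Fact p.Prime], (z p).cls ≠ 0 := fun p _ => GC.cls_ne (z p)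
  have hev : ∀ (p : ℕ) [Fact p.Prime], ¬ (p : ℤ) ∣ R → ∀ q ∈ z p, Even (Algebra.norm ℚ_[p] q.2.val).valuation :=
    fun p _ hp q hq => GP.even_of_Ev q.2 (hE p hp q hq)
  have hT : ∀ (p : ℕ) [Fact p.Prime], p ∉ R.natAbs.primeFactors → Even ((z p).cls).valuation := by
    intro p hp hpT
    refine GC.even (z p) (hev p ?_)
    intro hd
    exact hpT (Nat.mem_primeFactors.2 ⟨hp.out, Int.natCast_dvd.1 hd, Int.natAbs_ne_zero.2 hR⟩)
  obtain ⟨β, hβ, hsq⟩ := ZC.dual (fun p _ => (z p).cls) z₀.cls (fun p _ => hc p) (GC.cls_ne z₀) _ hT hs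
  have hβ0 : β ≠ 0 := hβ.ne_zero
  -- the class has odd valuation at the prime factors of `β`
  have hodd : ∀ p : ℕ, ∀ hp : p.Prime, (p : ℤ) ∣ β → ¬ (haveI : Fact p.Prime := ⟨hp⟩; Even ((z p).cls).valuation) := by
    intro p hp hpβ e2
    have : Fact p.Prime := ⟨hp⟩
    have hβp : (β : ℚ_[p]) ≠ 0 := by exact_mod_cast hβ0
    have e1 := even_of_sq (mul_ne_zero (hc p) hβp) (hsq p)
    have hnp : ¬ (p : ℤ) ^ 2 ∣ β := by
      intro hd
      rw [sq] at hd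
      have hu := hβ _ hd
      exact (Nat.prime_iff_prime_int.1 hp).not_isUnit hu
    rw [Padic.valuation_mul (hc p) hβp, QI2_val hβ0 hpβ hnp] at e1
    exact Int.not_even_iff_odd.2 (Even.add_one e2) e1
  refine ⟨β, hβ, ?_, ?_, ?_⟩
  · intro p hp hpβ
    have : Fact p.Prime := ⟨hp⟩
    refine ⟨?_, ?_, ?_⟩
    · by_contra hpr
      exact hodd p hp hpβ (GC.even (z p) (hev p hpr))
    · intro hp2 hpv hj
      exact hodd p hp hpβ (GC.even (z p) fun q hq => GP.even_nonresA hp2 q.2 v.1 (ds v) hpv hj (hA p q hq))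
    · intro hp2 hpw hj
      exact hodd p hp hpβ (GC.even (z p) fun q hq => GP.even_nonresB hp2 q.2 w.1 (ds w) hpw hj (hB p q hq))
  · intro p hp hp2 hpr h1 h2 hA1
    have : Fact p.Prime := ⟨hp⟩
    have hv0 : v.1 ≠ 0 := fun h => hA1 (by rw [h]; exact dvd_zero _)
    have k1 : IsSquare ((z p).cls * ((v.1 : ℤ) : ℚ_[p])) :=
      GC_sq_odd (z p) v.1 hv0 (fun q hq => GP.sq_A hp2 q.2 v.1 (ds v) hA1 h1 h2 (hA p q hq) (hev p hpr q hq)) (hz p)
    have k2 : IsSquare ((z p).cls * (β : ℚ_[p])) := hsq p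
    have k3 : IsSquare (((β * v.1 : ℤ)) : ℚ_[p]) := by
      refine QI2_sq_div (hc p) ?_
      have e : (z p).cls * (z p).cls * ((β * v.1 : ℤ) : ℚ_[p])
          = ((z p).cls * ((v.1 : ℤ) : ℚ_[p])) * ((z p).cls * (β : ℚ_[p])) := by
        push_cast
        ring
      rw [e]
      exact k1.mul k2
    refine (ZC.isSquare_int_iff hp2 _ ?_).1 k3
    intro hd
    rcases (Nat.prime_iff_prime_int.1 hp).dvd_or_dvd hd with hd | hd
    · exact hodd p hp hd (GC.even (z p) (hev p hpr))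
    · exact hA1 hd
  · intro p hp hp2 hpr h1 h2 hA1
    have : Fact p.Prime := ⟨hp⟩
    have hw0 : w.1 ≠ 0 := fun h => hA1 (by rw [h]; exact dvd_zero _)
    have k1 : IsSquare ((z p).cls * ((w.1 : ℤ) : ℚ_[p])) :=
      GC_sq_odd (z p) w.1 hw0 (fun q hq => GP.sq_B hp2 q.2 w.1 (ds w) hA1 h1 h2 (hB p q hq) (hev p hpr q hq)) (hz p)
    have k2 : IsSquare ((z p).cls * (β : ℚ_[p])) := hsq p
    have k3 : IsSquare (((β * w.1 : ℤ)) : ℚ_[p]) := by
      refine QI2_sq_div (hc p) ?_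
      have e : (z p).cls * (z p).cls * ((β * w.1 : ℤ) : ℚ_[p])
          = ((z p).cls * ((w.1 : ℤ) : ℚ_[p])) * ((z p).cls * (β : ℚ_[p])) := by
        push_cast
        ring
      rw [e]
      exact k1.mul k2
    refine (ZC.isSquare_int_iff hp2 _ ?_).1 k3
    intro hd
    rcases (Nat.prime_iff_prime_int.1 hp).dvd_or_dvd hd with hd | hd
    · exact hodd p hp hd (GC.even (z p) (hev p hpr))
    · exact hA1 hd

end HNQ
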