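import Pool.Agent.Lib.MP_10e784_agQ.QI1
import Pool.Agent.Lib.MP_10e784_agQ.QI2

/-! From an adelic zero-cycle of odd degree to the conditions on an integer. -/

set_option autoImplicit false

open Classical

namespace HNQ

open Finset Polynomial FGO FQQ HNF

/-- the cycle of generic points -/
noncomputable def QI3_cyc {F : Type} [Field F] [CharZero F] {q : Dt} (hR : Rq q ≠ 0) (hw1 : q.1.2.1 ≠ 0)
    (z : Cyc F q) : GC F := z.map fun s => (s.1, toGP hR hw1 s.2)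

theorem QI3_deg {F : Type} [Field F] [CharZero F] {q : Dt} (hR : Rq q ≠ 0) (hw1 : q.1.2.1 ≠ 0)
    (z : Cyc F q) : (QI3_cyc hR hw1 z).deg = z.deg := by
  unfold QI3_cyc GC.deg Cyc.deg
  rw [List.map_map]
  rfl

theorem QI3_cls {F : Type} [Field F] [CharZero F] {q : Dt} (hR : Rq q ≠ 0) (hw1 : q.1.2.1 ≠ 0)
    (z : Cyc F q) : (QI3_cyc hR hw1 z).cls = z.cls := by
  unfold QI3_cyc GC.cls Cyc.cls
  rw [List.map_map]
  rfl

theorem QI3_mem {F : Type} [Field F] [CharZero F] {q : Dt} (hR : Rq q ≠ 0) (hw1 : q.1.2.1 ≠ 0)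
    (z : Cyc F q) {s : ℤ × GP F} (hs : s ∈ QI3_cyc hR hw1 z) : ∃ P : Pt F q, s.2 = toGP hR hw1 P := by
  obtain ⟨t, _, rfl⟩ := List.mem_map.1 hs
  exact ⟨t.2, rfl⟩

theorem arith_Q (q : Dt) (hR : Rq q ≠ 0) (hv : q.1.1.1 ≠ 0) (hw1 : q.1.2.1 ≠ 0)
    (h4 : q.2 4 ≠ 0) (h5 : q.2 5 ≠ 0) (h : Adelic q) : ∃ β : ℤ, Squarefree β ∧ Cn (Rq q) q.1.1 q.1.2 β := by
  obtain ⟨z, z₀, hz, hs⟩ := h
  refine arith_odd hR q.1.1 q.1.2 (fun p _ => QI3_cyc hR hw1 (z p)) (QI3_cyc hR hw1 z₀) ?_ ?_ ?_ ?_ ?_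
  · intro p _
    rw [QI3_deg]
    exact hz p
  · intro β hβ
    have h1 := hs β hβ
    have e : (fun (p : ℕ) (_ : Fact p.Prime) => (QI3_cyc hR hw1 (z p)).cls) = fun (p : ℕ) (_ : Fact p.Prime) => (z p).cls := by
      funext p hp
      exact QI3_cls hR hw1 (z p)
    rw [e, QI3_cls]
    exact h1
  · intro p _ hp s hs
    obtain ⟨P, hP⟩ := QI3_mem hR hw1 (z p) hs
    rw [hP]
    exact toGP_Ev hR hw1 h5 hp P
  · intro p _ s hs
    obtain ⟨P, hP⟩ := QI3_mem hR hw1 (z p) hs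
    rw [hP]
    exact toGP_NfA hR hw1 P hv h5
  · intro p _ s hs
    obtain ⟨P, hP⟩ := QI3_mem hR hw1 (z p) hs
    rw [hP]
    exact toGP_NfB hR hw1 P h4

end HNQ
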