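import Pool.Agent.Lib.MP_10e784_agQ.QI1
import Pool.Agent.Lib.MP_1ad228_nt.ZBase
import Pool.Agent.Lib.MP_1ad228_nt.ZRecip

/-! A point over a number field of odd degree gives an orthogonal family of local zero-cycles of odd degree. -/

set_option autoImplicit false

open Classical

namespace HNQ

open Finset Polynomial FGO FQQ HNF

theorem QJ_vV_map {K L : Type} [Field K] [Field L] (φ : K →+* L) (v : ℤ × ℤ × ℤ) (x z : K) :
    vV v (φ x) (φ z) = φ (vV v x z) := by
  simp only [vV, map_add, map_mul, map_pow, map_intCast]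

theorem QJ_vA_map {K L : Type} [Field K] [Field L] (φ : K →+* L) (c : Fin 6 → ℤ) (x y z : K) :
    vA c (φ x) (φ y) (φ z) = φ (vA c x y z) := by
  simp only [vA, map_add, map_mul, map_pow, map_intCast]

/-- the image of a point under a homomorphism of its field of definition -/
def QJ_pt {F F' : Type} [Field F] [Field F'] {q : Dt} (P : Pt F q) (E : ZC.FExt P.K F') : Pt F' q where
  K := E.L
  x := E.φ P.x
  y := E.φ P.y
  z := E.φ P.z
  ne := by
    rintro ⟨hx, hy, hz⟩
    exact P.ne ⟨(map_eq_zero E.φ).1 hx, (map_eq_zero E.φ).1 hy, (map_eq_zero E.φ).1 hz⟩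
  eq := by
    have h := congrArg E.φ P.eq
    rw [QJ_vV_map, QJ_vV_map, QJ_vA_map]
    simpa only [map_mul, map_pow] using h

theorem QJ_pt_val {F F' : Type} [Field F] [Field F'] {q : Dt} (P : Pt F q) (E : ZC.FExt P.K F') :
    (QJ_pt P E).val = E.φ P.val := by
  change (if vV q.1.1 (E.φ P.x) (E.φ P.z) = 0 then vV q.1.2 (E.φ P.y) (E.φ P.z) else vV q.1.1 (E.φ P.x) (E.φ P.z)) = _
  rw [QJ_vV_map, QJ_vV_map]
  unfold Pt.val
  by_cases h : vV q.1.1 P.x P.z = 0
  · rw [if_pos ((map_eq_zero E.φ).2 h), if_pos h]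
  · rw [if_neg (fun h' => h ((map_eq_zero E.φ).1 h')), if_neg h]

theorem QJ_deg {F F' : Type} [Field F] [Field F'] {q : Dt} (P : Pt F q) (m : ℤ)
    (l : List (ZC.FExt P.K F')) :
    (List.map (fun r : ℤ × Pt F' q => r.1 * (Module.finrank F' r.2.K : ℤ))
      (l.map fun E => (m, QJ_pt P E))).sum = m * ((l.map fun E => Module.finrank F' E.L).sum : ℕ) := by
  induction l with
  | nil => simp
  | cons E l ih =>
    simp only [List.map_cons, List.sum_cons, Nat.cast_add, mul_add]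
    rw [ih]
    rfl

theorem QJ_cls {F F' : Type} [Field F] [Field F'] {q : Dt} (P : Pt F q) (m : ℤ)
    (l : List (ZC.FExt P.K F')) :
    (List.map (fun r : ℤ × Pt F' q => (Algebra.norm F' r.2.val) ^ r.1)
      (l.map fun E => (m, QJ_pt P E))).prod = (l.map fun E => Algebra.norm F' (E.φ P.val)).prod ^ m := by
  induction l with
  | nil => simp
  | cons E l ih =>
    simp only [List.map_cons, List.prod_cons, mul_zpow]
    rw [ih, QJ_pt_val]
    rfl

theorem QJ_base (F F' : Type) [Field F] [Field F'] [CharZero F] [Algebra F F'] {q : Dt}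
    (z : Cyc F q) :
    ∃ z' : Cyc F' q, z'.deg = z.deg ∧ z'.cls = algebraMap F F' z.cls := by
  induction z with
  | nil =>
    refine ⟨[], ?_, ?_⟩
    · simp [Cyc.deg]
    · simp [Cyc.cls]
  | cons r z ih =>
    obtain ⟨z', hd, hc⟩ := ih
    obtain ⟨m, P⟩ := r
    obtain ⟨l, -, h2, h3⟩ := ZC.base_change F F' P.K
    refine ⟨(l.map fun E => (m, QJ_pt P E)) ++ z', ?_, ?_⟩
    · unfold Cyc.deg at hd ⊢
      rw [List.map_append, List.sum_append, QJ_deg, h2, hd, List.map_cons, List.sum_cons]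
    · unfold Cyc.cls at hc ⊢
      rw [List.map_append, List.prod_append, QJ_cls, h3, hc, List.map_cons, List.prod_cons, map_mul, map_zpow₀]

theorem QJ_val_ne {F : Type} [Field F] [CharZero F] {q : Dt} (hR : Rq q ≠ 0) (hw1 : q.1.2.1 ≠ 0) (P : Pt F q) :
    P.val ≠ 0 := by
  have : CharZero P.K := charZero_of_injective_algebraMap (algebraMap F P.K).injective
  have h := noz_of_R q hR hw1 P.K P.x P.y P.z P.ne P.eq
  unfold Pt.val
  by_cases h0 : vV q.1.1 P.x P.z = 0
  · rw [if_pos h0]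
    exact fun h1 => h ⟨h0, h1⟩
  · rw [if_neg h0]
    exact h0

theorem QJ_cls_ne {F : Type} [Field F] [CharZero F] {q : Dt} (hR : Rq q ≠ 0) (hw1 : q.1.2.1 ≠ 0) (z : Cyc F q) :
    z.cls ≠ 0 := by
  induction z with
  | nil => simp [Cyc.cls]
  | cons r z ih =>
    unfold Cyc.cls at ih ⊢
    rw [List.map_cons, List.prod_cons]
    exact mul_ne_zero (zpow_ne_zero _ (Algebra.norm_ne_zero_iff.2 (QJ_val_ne hR hw1 r.2))) ih

/-- a point over a number field of odd degree is a zero-cycle of odd degree -/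
theorem QJ_cyc {q : Dt} (h : HasOddPoint q) : ∃ z : Cyc ℚ q, Odd z.deg := by
  obtain ⟨K, hK, hN, hodd, P, hP, hPq⟩ := h
  have heq : vA q.2 (P 0) (P 1) (P 2) ^ 2 = vV q.1.1 (P 0) (P 2) * vV q.1.2 (P 1) (P 2) := by
    have h1 := hPq
    simp only [quartic, vA, vV, map_sub, map_add, map_mul, map_pow, MvPolynomial.aeval_X, map_intCast] at h1
    simp only [vA, vV]
    exact sub_eq_zero.1 h1
  refine ⟨[(1, { K := K, x := P 0, y := P 1, z := P 2, ne := ?_, eq := heq })], ?_⟩
  · rintro ⟨h0, h1, h2⟩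
    apply hP
    funext i
    fin_cases i
    · exact h0
    · exact h1
    · exact h2
  · simp only [Cyc.deg, List.map_cons, List.map_nil, List.sum_cons, List.sum_nil, one_mul, add_zero]
    exact (Int.odd_coe_nat _).2 hodd

/-- Proof. `HasOddPoint` gives `K`, `P : Fin 3 → K`, `P ≠ 0`, `aeval P (quartic q) = 0`, i.e. (simp with `quartic`, `vA`, `vV`, `map_sub`, `map_mul`, `map_pow`, `aeval_X`, `map_intCast`) `vA q.2 (P 0) (P 1) (P 2) ^ 2 = vV .. * vV ..`: a point `Pt ℚ q` with field `K`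
(`FiniteDimensional ℚ K` from `NumberField K`); the cycle `[(1, P)]` has degree `Module.finrank ℚ K`, odd. Then copy `HJ1.lean` of H (`HNF.HJ1_base`, `HJ1_val_ne`, `HJ1_cls_ne`, `glob_H`) with the present `Pt` (three coordinates; `noz_of_R`): for every cycle over `ℚ` of odd degree the base changes to `ℚ_p` and `ℝ` have the same degree and
class; `ZC.recip`. -/
theorem glob_Q (q : Dt) (hR : Rq q ≠ 0) (hw1 : q.1.2.1 ≠ 0) (h : HasOddPoint q) : Adelic q := by
  obtain ⟨z, hz⟩ := QJ_cyc h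
  refine ⟨fun p _ => (QJ_base ℚ ℚ_[p] z).choose, (QJ_base ℚ ℝ z).choose, ?_, ?_⟩
  · intro p _
    rw [(QJ_base ℚ ℚ_[p] z).choose_spec.1]
    exact hz
  · intro β hβ
    have h0 : z.cls ≠ 0 := QJ_cls_ne hR hw1 z
    have h1 : ∀ (p : ℕ) [Fact p.Prime], (QJ_base ℚ ℚ_[p] z).choose.cls = ((z.cls : ℚ) : ℚ_[p]) := by
      intro p _
      rw [(QJ_base ℚ ℚ_[p] z).choose_spec.2, eq_ratCast]
    have h2 : (QJ_base ℚ ℝ z).choose.cls = ((z.cls : ℚ) : ℝ) := by
      rw [(QJ_base ℚ ℝ z).choose_spec.2, eq_ratCast]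
    have h3 := ZC.recip z.cls β h0 hβ
    simp only [h1, h2]
    exact h3

end HNQ
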