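import Pool.Agent.Lib.MP_10e784_agQ.QX2
import Pool.Agent.Lib.MP_1ad228_ntH.HC3

/-! The number of data with an exceptional prime. -/

set_option autoImplicit false

open Classical

namespace HNQ

open Finset Polynomial FGO FQQ HNF

/-- Proof. Copy `HNF.Xe_card` (HC3.lean) with `Av_Xe`. -/
theorem Xe_card {H N P0 : ℕ} (hN : 0 < N) (hH : N ≤ H) (hP0 : 2 ≤ P0) :
    (((Bx 5 H N).filter fun s => ∃ p ∈ PQ P0 N, XeP p s.1 s.2).card : ℝ) ≤
      (8 * (H : ℝ)) ^ 6 * (8 * (N : ℝ)) ^ 6 * (41 / (P0 : ℝ)) := by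
  refine (TA_union (PQ P0 N) (fun p f u => XeP p f u)).trans ?_
  have h1 : ∀ p ∈ PQ P0 N, ∑ u ∈ box2 N, ∑ f ∈ boxN 5 H, ind (XeP p f u) ≤
      (8 * (H : ℝ)) ^ 6 * (8 * (N : ℝ)) ^ 6 * (41 * (1 / (p : ℝ) ^ 2)) := by
    intro p hp
    unfold PQ at hp
    rw [Finset.mem_filter, Finset.mem_Ioc] at hp
    obtain ⟨⟨hp1, hp2⟩, hp3⟩ := hp
    have : Fact p.Prime := ⟨hp3⟩
    have : NeZero p := ⟨hp3.ne_zero⟩
    have hper : Per3 p (fun (f : Vn 5) u => ind (XeP p f u)) :=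
      Per3_of 5 p (fun c v w => ind (Xe c v w))
    have hE : E3 5 p (fun (f : Vn 5) u => ind (XeP p f u)) =
        Av 5 p (fun c v w => ind (Xe c v w)) :=
      E3_eq_Av 5 p (fun c v w => ind (Xe c v w))
    refine (box3_mean hN hH hp3.pos (by omega) (fun (f : Vn 5) u => ind (XeP p f u))
      (fun f u => ind_nonneg _) hper).trans ?_
    rw [hE]
    have h2 := Av_Xe p (by omega)
    rw [mul_one_div]
    exact mul_le_mul_of_nonneg_left h2 (by positivity)
  refine (Finset.sum_le_sum h1).trans ?_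
  rw [← Finset.mul_sum, ← Finset.mul_sum]
  refine mul_le_mul_of_nonneg_left ?_ (by positivity)
  have h2 := HC3_inv_sq P0 N hP0
  rw [← mul_one_div (41 : ℝ)]
  linarith

/-- Proof. `q ↦ (q.2, q.1)` is a bijection (`Nat.card_congr`; model `HNF.card_Dt` in HN.lean, here it is only the exchange of the two components). -/
theorem card_Dt (H N : ℕ) (P : Dt → Prop) :
    Nat.card {q : Dt // InBox H N q ∧ P q} = ((Bx 5 H N).filter fun s => P (s.2, s.1)).card := by
  have hmem : ∀ s : Vn 5 × (V × V), s ∈ Bx 5 H N ↔ InBox H N (s.2, s.1) := by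
    intro s
    unfold Bx
    rw [Finset.mem_product, mem_boxN, mem_box2, mem_box, mem_box]
    constructor
    · rintro ⟨h1, h2, h3⟩
      exact ⟨h2, h3, h1⟩
    · rintro ⟨h2, h3, h1⟩
      exact ⟨h1, h2, h3⟩
  let e : {q : Dt // InBox H N q ∧ P q} ≃ {s // s ∈ (Bx 5 H N).filter fun s => P (s.2, s.1)} :=
    { toFun := fun q => ⟨(q.1.2, q.1.1), by
        rw [Finset.mem_filter, hmem]
        exact q.2⟩
      invFun := fun s => ⟨(s.1.2, s.1.1), by
        have h2 := Finset.mem_filter.1 s.2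
        exact ⟨(hmem s.1).1 h2.1, h2.2⟩⟩
      left_inv := fun q => rfl
      right_inv := fun s => rfl }
  rw [Nat.card_congr e, Nat.card_eq_fintype_card, Fintype.card_coe]

theorem QX3_aux1 (H : ℕ) (i : Fin (5 + 1)) :
    ((boxN 5 H).filter fun c => c i = 0).card ≤ (2 * H + 1) ^ 5 := by
  have hI : (Icc (-(H : ℤ)) (H : ℤ)).card = 2 * H + 1 := by
    rw [Int.card_Icc]
    omega
  have hsub : ((boxN 5 H).filter fun c => c i = 0) ⊆
      Fintype.piFinset fun j : Fin (5 + 1) => if j = i then ({0} : Finset ℤ) else Icc (-(H : ℤ)) (H : ℤ) := by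
    intro c hc
    rw [Finset.mem_filter] at hc
    obtain ⟨h1, h2⟩ := hc
    unfold boxN at h1
    rw [Fintype.mem_piFinset] at h1 ⊢
    intro j
    by_cases hj : j = i
    · rw [if_pos hj, Finset.mem_singleton, hj]
      exact h2
    · rw [if_neg hj]
      exact h1 j
  refine (Finset.card_le_card hsub).trans ?_
  rw [Fintype.card_piFinset]
  have h3 : ∀ j : Fin (5 + 1), (if j = i then ({0} : Finset ℤ) else Icc (-(H : ℤ)) (H : ℤ)).card =
      if j = i then 1 else 2 * H + 1 := by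
    intro j
    split_ifs
    · rfl
    · exact hI
  rw [Finset.prod_congr rfl fun j _ => h3 j, Finset.prod_ite, Finset.prod_const_one, one_mul, Finset.prod_const]
  have h4 : ((univ : Finset (Fin (5 + 1))).filter fun j => ¬ j = i).card = 5 := by
    rw [Finset.filter_not, Finset.filter_eq' univ i, if_pos (mem_univ i), Finset.card_sdiff_of_subset (Finset.subset_univ _)]
    rfl
  rw [h4]

/-- Proof. One coordinate of `c` is zero: `(2 H + 1) ^ 5 * (2 N + 1) ^ 6` for each of the three coordinates. -/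
theorem nz_card (H N : ℕ) :
    ((Bx 5 H N).filter fun s => ¬ (s.1 3 ≠ 0 ∧ s.1 4 ≠ 0 ∧ s.1 5 ≠ 0)).card ≤ 3 * (2 * H + 1) ^ 5 * (2 * N + 1) ^ 6 := by
  have hb : (box2 N).card = (2 * N + 1) ^ 6 := by
    unfold box2 FGO.box
    rw [Finset.card_product, Finset.card_product, Finset.card_product, Int.card_Icc]
    have h : (((N : ℤ) + 1 - (-(N : ℤ))).toNat) = 2 * N + 1 := by omega
    rw [h]
    ring
  have hi : ∀ i : Fin (5 + 1), ((Bx 5 H N).filter fun s => s.1 i = 0).card ≤ (2 * H + 1) ^ 5 * (2 * N + 1) ^ 6 := by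
    intro i
    have h1 : ((Bx 5 H N).filter fun s => s.1 i = 0) ⊆ ((boxN 5 H).filter fun c => c i = 0) ×ˢ box2 N := by
      intro s hs
      rw [Finset.mem_filter] at hs
      obtain ⟨h2, h3⟩ := hs
      unfold Bx at h2
      rw [Finset.mem_product] at h2 ⊢
      exact ⟨Finset.mem_filter.2 ⟨h2.1, h3⟩, h2.2⟩
    refine (Finset.card_le_card h1).trans ?_
    rw [Finset.card_product, hb]
    exact Nat.mul_le_mul_right _ (QX3_aux1 H i)
  have hsub : ((Bx 5 H N).filter fun s => ¬ (s.1 3 ≠ 0 ∧ s.1 4 ≠ 0 ∧ s.1 5 ≠ 0)) ⊆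
      ((Bx 5 H N).filter fun s => s.1 3 = 0) ∪ (((Bx 5 H N).filter fun s => s.1 4 = 0) ∪
        ((Bx 5 H N).filter fun s => s.1 5 = 0)) := by
    intro s hs
    rw [Finset.mem_filter] at hs
    rw [Finset.mem_union, Finset.mem_union, Finset.mem_filter, Finset.mem_filter, Finset.mem_filter]
    by_cases h3 : s.1 3 = 0
    · exact Or.inl ⟨hs.1, h3⟩
    by_cases h4 : s.1 4 = 0
    · exact Or.inr (Or.inl ⟨hs.1, h4⟩)
    by_cases h5 : s.1 5 = 0
    · exact Or.inr (Or.inr ⟨hs.1, h5⟩)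
    · exact absurd ⟨h3, h4, h5⟩ hs.2
  refine (Finset.card_le_card hsub).trans ((Finset.card_union_le _ _).trans ?_)
  have h1 := Finset.card_union_le ((Bx 5 H N).filter fun s => s.1 4 = 0) ((Bx 5 H N).filter fun s => s.1 5 = 0)
  have h3 := hi 3
  have h4 := hi 4
  have h5 := hi 5
  have h6 : 3 * (2 * H + 1) ^ 5 * (2 * N + 1) ^ 6 = (2 * H + 1) ^ 5 * (2 * N + 1) ^ 6 +
      ((2 * H + 1) ^ 5 * (2 * N + 1) ^ 6 + (2 * H + 1) ^ 5 * (2 * N + 1) ^ 6) := by ring
  rw [h6]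
  exact Nat.add_le_add h3 (h1.trans (Nat.add_le_add h4 h5))

end HNQ
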