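import Pool.Agent.Lib.MP_10e784_agQ.QB4
import Pool.Agent.Lib.MP_10e784_agQ.QB5
import Pool.Agent.Lib.MP_10e784_agQ.QI3
import Pool.Agent.Lib.MP_10e784_agQ.QJ
import Pool.Agent.Lib.MP_10e784_agQ.QX3
import Pool.Agent.Lib.MP_1ad228_ntH.TC
import Pool.Agent.Lib.MP_1ad228_ntH.HL2

/-! A point over a number field of odd degree gives the conditions `Sel1`. -/

set_option autoImplicit false

open Classical

namespace HNQ

open Finset Polynomial FGO FQQ HNF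

/-- Proof. Copy `HNF.sel_of` (HL2.lean) with `RQ`, `RQ_ne` (`c 3 ≠ 0`), `glob_Q`, `arith_Q`, `switch_Q`, `abs_RQ_le` (`δ² ≤ 103680 H⁴ N⁸ ≤ (103680 H² N⁴)²`), `RQ_cast`, `Ez_of_RQ`, `Xe`. -/
theorem sel_of {H N P0 z0 P : ℕ} (s : Vn 5 × (V × V)) (hs : s ∈ Bx 5 H N) (hP0 : 4 ≤ P0)
    (hz : z0 ≤ N) (hT : Ty eQ P0 z0 s.1 s.2) (hX : ∀ p ∈ PQ P0 N, ¬ XeP p s.1 s.2)
    (hc : s.1 3 ≠ 0 ∧ s.1 4 ≠ 0 ∧ s.1 5 ≠ 0) (hP : 103680 * H ^ 2 * N ^ 4 ≤ P)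
    (h : Adelic (s.2, s.1) ∨ HasOddPoint (s.2, s.1)) : Sel1 (m := 5) eQ P0 z0 P s.1 s.2 := by
  obtain ⟨c, v, w⟩ := s
  change Ty eQ P0 z0 c (v, w) at hT
  change ∀ p ∈ PQ P0 N, ¬ XeP p c (v, w) at hX
  change c 3 ≠ 0 ∧ c 4 ≠ 0 ∧ c 5 ≠ 0 at hc
  change Adelic ((v, w), c) ∨ HasOddPoint ((v, w), c) at h
  change Sel1 (m := 5) eQ P0 z0 P c (v, w)
  obtain ⟨hc3, hc4, hc5⟩ := hc
  -- the box
  unfold Bx at hs
  rw [Finset.mem_product] at hs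
  obtain ⟨hs1, hs2⟩ := hs
  change c ∈ boxN 5 H at hs1
  change (v, w) ∈ box2 N at hs2
  obtain ⟨hvb, hwb⟩ := mem_box2.1 hs2
  change v ∈ box N at hvb
  change w ∈ box N at hwb
  have hcb : ∀ i, |c i| ≤ (H : ℤ) := by
    intro i
    have h1 := Fintype.mem_piFinset.1 hs1 i
    rw [Finset.mem_Icc] at h1
    exact abs_le.2 h1
  -- the resultant
  obtain ⟨n1, n2, n3⟩ := Ty_ns hT
  change ¬ IsSquare (ds v) at n1
  change ¬ IsSquare (ds w) at n2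
  change ¬ IsSquare (ds v * ds w) at n3
  have hv1 : v.1 ≠ 0 := HL2_first n1
  have hw1 : w.1 ≠ 0 := HL2_first n2
  have hR : RQ c v w ≠ 0 := RQ_ne c v w hc3 n1 n2 n3
  have hR' : Rq ((v, w), c) ≠ 0 := hR
  have hA : Adelic ((v, w), c) := by
    rcases h with h | h
    · exact h
    · exact glob_Q _ hR' hw1 h
  obtain ⟨β, hβ, hCn⟩ := arith_Q ((v, w), c) hR' hv1 hw1 hc4 hc5 hA
  obtain ⟨δ, hδ, hδR, k1, k2, k3⟩ := switch_Q c v w hR hv1 hw1 β hβ hCn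
  have hRabs := abs_RQ_le c v w H N hcb hvb hwb
  have hRp : ∀ p : ℕ, ((RQ c v w : ℤ) : ZMod p) = RQ (cN p c) (cV p v) (cV p w) := by
    intro p
    exact RQ_cast p c v w
  refine ⟨δ, hδ, ?_, ?_, ?_, ?_⟩
  · -- the bound for `δ`
    obtain ⟨B0, hB0⟩ : ∃ B0 : ℕ, B0 = 103680 := ⟨_, rfl⟩
    have h1 : δ ^ 2 ≤ (B0 : ℤ) * (H : ℤ) ^ 4 * (N : ℤ) ^ 8 := by
      rw [hB0]
      exact hδR.trans (by exact_mod_cast hRabs)
    have h2 : ((δ.natAbs : ℕ) : ℤ) ^ 2 = δ ^ 2 := Int.natAbs_sq δ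
    rw [← h2] at h1
    have h3 : δ.natAbs ^ 2 ≤ B0 * H ^ 4 * N ^ 8 := by exact_mod_cast h1
    have h4 : B0 * H ^ 4 * N ^ 8 ≤ (B0 * H ^ 2 * N ^ 4) ^ 2 := by
      have h5 : B0 ≤ B0 ^ 2 := Nat.le_self_pow two_ne_zero B0
      calc B0 * H ^ 4 * N ^ 8 ≤ B0 ^ 2 * H ^ 4 * N ^ 8 :=
            Nat.mul_le_mul_right _ (Nat.mul_le_mul_right _ h5)
        _ = (B0 * H ^ 2 * N ^ 4) ^ 2 := by ring
    have h6 : δ.natAbs ^ 2 ≤ (B0 * H ^ 2 * N ^ 4) ^ 2 := h3.trans h4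
    rw [hB0] at h6
    exact ((Nat.pow_le_pow_iff_left two_ne_zero).1 h6).trans hP
  · -- the primes which divide `δ`
    intro p hp hpP hpδ
    change ¬ (p : ℤ) ∣ v.1 ∧ ¬ (p : ℤ) ∣ w.1 ∧ Ez eQ (cN p c) (cV p v) (cV p w)
    have : Fact p.Prime := ⟨hp⟩
    have hp2 : p ≠ 2 := by omega
    obtain ⟨j1, j2, j3⟩ := k1 p hp hpδ
    have hRg0 : RQ (cN p c) (cV p v) (cV p w) = 0 := by
      rw [← hRp]
      exact HL2_zero j1
    have hpv : ¬ (p : ℤ) ∣ v.1 ∧ ¬ (p : ℤ) ∣ w.1 := by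
      by_cases hpN : p ≤ N
      · have hmem : p ∈ PQ P0 N := by
          unfold PQ
          rw [Finset.mem_filter, Finset.mem_Ioc]
          exact ⟨⟨hpP, hpN⟩, hp⟩
        have hx := hX p hmem
        constructor
        · intro hd
          exact hx (Or.inl ⟨hRg0, Or.inl (HL2_zero hd)⟩)
        · intro hd
          exact hx (Or.inl ⟨hRg0, Or.inr (Or.inl (HL2_zero hd))⟩)
      · push Not at hpN
        exact ⟨HL2_small hv1 (mem_box.1 hvb).1 hpN, HL2_small hw1 (mem_box.1 hwb).1 hpN⟩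
    refine ⟨hpv.1, hpv.2, ?_⟩
    have h2F : (2 : ZMod p) ≠ 0 := by
      intro h0
      have h1 : ((2 : ℕ) : ZMod p) = 0 := by exact_mod_cast h0
      rw [ZMod.natCast_eq_zero_iff] at h1
      exact hp2 ((Nat.prime_dvd_prime_iff_eq hp Nat.prime_two).1 h1)
    refine Ez_of_RQ h2F (cN p c) (cV p v) (cV p w) ?_ ?_ ?_ ?_ hRg0
    · intro h0
      exact hpv.1 ((ZMod.intCast_zmod_eq_zero_iff_dvd _ _).1 h0)
    · intro h0
      exact hpv.2 ((ZMod.intCast_zmod_eq_zero_iff_dvd _ _).1 h0)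
    · rw [← ds_cast]
      exact HL2_isSq (j2 hp2 hpv.1)
    · rw [← ds_cast]
      exact HL2_isSq (j3 hp2 hpv.2)
  · intro p hp hd
    change (p : ℤ) ∣ ds v at hd
    have hmem := hp
    unfold PQ at hmem
    rw [Finset.mem_filter, Finset.mem_Ioc] at hmem
    obtain ⟨⟨hpP, hpz⟩, hpp⟩ := hmem
    have : Fact p.Prime := ⟨hpp⟩
    have hx : ¬ XeP p c (v, w) := by
      refine hX p ?_
      unfold PQ
      rw [Finset.mem_filter, Finset.mem_Ioc]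
      exact ⟨⟨hpP, hpz.trans hz⟩, hpp⟩
    have hdv : ds (cV p v) = 0 := by
      rw [← ds_cast]
      exact HL2_zero hd
    have hnR : ¬ (p : ℤ) ∣ RQ c v w := by
      intro h0
      exact hx (Or.inl ⟨by rw [← hRp]; exact HL2_zero h0, Or.inr (Or.inr (Or.inl hdv))⟩)
    have hnv : ¬ (p : ℤ) ∣ v.1 := by
      intro h0
      exact hx (Or.inr (Or.inl ⟨hdv, HL2_zero h0⟩))
    exact HL2_Sq (k2 p hpp (by omega) hnR hd (hT.1 p hp).2.1 hnv)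
  · intro p hp hd
    change (p : ℤ) ∣ ds w at hd
    have hmem := hp
    unfold PQ at hmem
    rw [Finset.mem_filter, Finset.mem_Ioc] at hmem
    obtain ⟨⟨hpP, hpz⟩, hpp⟩ := hmem
    have : Fact p.Prime := ⟨hpp⟩
    have hx : ¬ XeP p c (v, w) := by
      refine hX p ?_
      unfold PQ
      rw [Finset.mem_filter, Finset.mem_Ioc]
      exact ⟨⟨hpP, hpz.trans hz⟩, hpp⟩
    have hdw : ds (cV p w) = 0 := by
      rw [← ds_cast]
      exact HL2_zero hd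
    have hnR : ¬ (p : ℤ) ∣ RQ c v w := by
      intro h0
      exact hx (Or.inl ⟨by rw [← hRp]; exact HL2_zero h0, Or.inr (Or.inr (Or.inr hdw))⟩)
    have hnw : ¬ (p : ℤ) ∣ w.1 := by
      intro h0
      exact hx (Or.inr (Or.inr ⟨hdw, HL2_zero h0⟩))
    exact HL2_Sq (k3 p hpp (by omega) hnR hd (hT.1 p hp).2.2 hnw)

end HNQ
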