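import Pool.Agent.Lib.MP_10e784_agQ.QDefs
import Pool.Agent.Lib.MP_1ad228_nt.ZDefs

/-!
# Zero-cycles on the plane quartics `A(x, y, z)² = v(x, z) w(y, z)`: the definitions of the statement
-/

set_option autoImplicit false

namespace HNQ

/-- A point of the quartic with homogeneous coordinates in a finite extension `K` of `F`. -/
structure Pt (F : Type) [Field F] (q : Dt) where
  K : Type
  [field : Field K]
  [alg : Algebra F K]
  [fin : FiniteDimensional F K]
  x : K
  y : K
  z : K
  ne : ¬ (x = 0 ∧ y = 0 ∧ z = 0)
  eq : vA q.2 x y z ^ 2 = vV q.1.1 x z * vV q.1.2 y z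

attribute [instance] Pt.field Pt.alg Pt.fin

open Classical in
/-- The value at `P` of the function `v`, up to squares.  (If `v` vanishes at `P` we use `w`, which is the same function
up to squares, since the product of the two is `A²`.) -/
noncomputable def Pt.val {F : Type} [Field F] {q : Dt} (P : Pt F q) : P.K :=
  if vV q.1.1 P.x P.z = 0 then vV q.1.2 P.y P.z else vV q.1.1 P.x P.z

/-- A zero-cycle on the quartic over `F`: a formal integral combination of points over finite extensions. -/
abbrev Cyc (F : Type) [Field F] (q : Dt) := List (ℤ × Pt F q)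

/-- The degree of a zero-cycle. -/
noncomputable def Cyc.deg {F : Type} [Field F] {q : Dt} (z : Cyc F q) : ℤ :=
  (z.map fun r => r.1 * (Module.finrank F r.2.K : ℤ)).sum

/-- The value of the function `v` at a zero-cycle, an element of `F*` modulo squares: for every `β ∈ F*` the value
of the Brauer class `(v, β)` at the zero-cycle is the class of the quaternion algebra `(z.cls, β)`. -/
noncomputable def Cyc.cls {F : Type} [Field F] {q : Dt} (z : Cyc F q) : F :=
  (z.map fun r => (Algebra.norm F r.2.val) ^ r.1).prod

/-- There is a family of zero-cycles, one for each place of `ℚ`, of odd degree at all primes `p`, which is orthogonal to all the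
Brauer classes `(v, β)`, `β ∈ ℚ*`. -/
def Adelic (q : Dt) : Prop :=
  ∃ (z : ∀ (p : ℕ) [Fact p.Prime], Cyc ℚ_[p] q) (z₀ : Cyc ℝ q),
    (∀ (p : ℕ) [Fact p.Prime], Odd (z p).deg) ∧
    ∀ β : ℚ, β ≠ 0 → ZC.SumZero (fun p _ => (z p).cls) z₀.cls β

/-- There is a zero-cycle of odd degree over `ℚ`. -/
def Global (q : Dt) : Prop :=
  ∃ z : Cyc ℚ q, Odd z.deg

end HNQ
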