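import Pool.Agent.Lib.MP_10e784_agQ.QCDefs

/-! The two types of factorisations of `a² - V W`. -/

set_option autoImplicit false

open Classical

namespace HNQ

open Finset Polynomial FGO FQQ HNF

section

variable {K : Type} [Field K]

theorem QR1_aux1 (S l : K[X]) (κ r r' q1 q2 : K) (hκ : κ ≠ 0) (hr : r ≠ r')
    (h : S ^ 2 = C κ * ((X - C r) * (X - C r')) * ((l - C q1) * (l - C q2))) :
    S.eval r = 0 ∧ (l.eval r = q1 ∨ l.eval r = q2) := by
  have h0 : S.eval r = 0 := by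
    have h1 := congrArg (eval r) h
    simp only [eval_pow, eval_mul, eval_sub, eval_X, eval_C, sub_self, zero_mul, mul_zero] at h1
    exact pow_eq_zero_iff (two_ne_zero) |>.1 h1
  refine ⟨h0, ?_⟩
  obtain ⟨S1, hS1⟩ := dvd_iff_isRoot.2 h0
  have h2 : (X - C r) * ((X - C r) * S1 ^ 2) =
      (X - C r) * (C κ * (X - C r') * ((l - C q1) * (l - C q2))) := by
    rw [hS1] at h
    linear_combination h
  have h3 := mul_left_cancel₀ (X_sub_C_ne_zero r) h2
  have h4 := congrArg (eval r) h3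
  simp only [eval_pow, eval_mul, eval_sub, eval_X, eval_C, sub_self, zero_mul] at h4
  have h5 := mul_eq_zero.1 h4.symm
  rcases h5 with h5 | h5
  · rcases mul_eq_zero.1 h5 with h6 | h6
    · exact absurd h6 hκ
    · exact absurd (sub_eq_zero.1 h6) hr
  · rcases mul_eq_zero.1 h5 with h6 | h6
    · exact Or.inl (sub_eq_zero.1 h6)
    · exact Or.inr (sub_eq_zero.1 h6)

/-- **Proof.** At `r1`: the left side is a square `S ^ 2` with `S(r1) = 0` (the right side vanishes at `r1`), so `(X - C r1) ^ 2` divides the right side; as `r1 ≠ r2`, `κ ≠ 0`, `X - C r1` divides `(l - C q1) * (l - C q2)` (cancel one factor `X - C r1`, evaluate at `r1`): `l(r1) = q1` or `q2`. Put `s = l(r1)`; evaluation of the equation at `r1` gives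
`s² + a1(r1) s + a0(r1) = 0`. The same at `r2`. -/
theorem lin_case (a1 a0 l : K[X]) (κ r1 r2 q1 q2 : K) (hκ : κ ≠ 0) (hr : r1 ≠ r2)
    (h : (l ^ 2 + a1 * l + a0) ^ 2 = C κ * ((X - C r1) * (X - C r2)) * ((l - C q1) * (l - C q2))) :
    ∃ s t : K, (s = q1 ∨ s = q2) ∧ (t = q1 ∨ t = q2) ∧ s ^ 2 + a1.eval r1 * s + a0.eval r1 = 0 ∧
      t ^ 2 + a1.eval r2 * t + a0.eval r2 = 0 := by
  have h1 := QR1_aux1 _ l κ r1 r2 q1 q2 hκ hr h
  have h2 := QR1_aux1 (l ^ 2 + a1 * l + a0) l κ r2 r1 q1 q2 hκ hr.symm (by rw [h]; ring)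
  refine ⟨l.eval r1, l.eval r2, h1.2, h2.2, ?_, ?_⟩
  · have h3 := h1.1
    simp only [eval_add, eval_mul, eval_pow] at h3
    exact h3
  · have h3 := h2.1
    simp only [eval_add, eval_mul, eval_pow] at h3
    exact h3

theorem QR1_aux2 (h2 : (2 : K) ≠ 0) (σ θ μ a1 a0 : K[X]) (κ r r' q w e : K) (hκ : κ ≠ 0) (hr : r ≠ r')
    (h1 : 2 * μ = C κ * ((X - C r) * (X - C r')) - σ ^ 2) (h3 : μ * (a1 + C q) = -(σ * θ))
    (h4 : μ * (μ - 2 * a0 + 2 * C w - C q * a1 - C q ^ 2) = θ ^ 2 + C e * σ ^ 2)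
    (hσ : σ.eval r = 0) (hθ : θ.eval r = 0) (hμ : μ.eval r = 0) :
    a1.eval r = -q ∧ a0.eval r = w := by
  obtain ⟨σ1, hσ1⟩ := dvd_iff_isRoot.2 hσ
  obtain ⟨θ1, hθ1⟩ := dvd_iff_isRoot.2 hθ
  obtain ⟨μ1, hμ1⟩ := dvd_iff_isRoot.2 hμ
  have hX := X_sub_C_ne_zero r
  have e1 : 2 * μ1 = C κ * (X - C r') - (X - C r) * σ1 ^ 2 := by
    apply mul_left_cancel₀ hX
    rw [hσ1, hμ1] at h1
    linear_combination h1
  have e2 : μ1 * (a1 + C q) = -((X - C r) * σ1 * θ1) := by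
    apply mul_left_cancel₀ hX
    rw [hσ1, hμ1, hθ1] at h3
    linear_combination h3
  have e3 : μ1 * (μ - 2 * a0 + 2 * C w - C q * a1 - C q ^ 2) =
      (X - C r) * θ1 ^ 2 + C e * ((X - C r) * σ1 ^ 2) := by
    apply mul_left_cancel₀ hX
    rw [hσ1, hθ1] at h4
    have h5 : μ * (μ - 2 * a0 + 2 * C w - C q * a1 - C q ^ 2) =
        (X - C r) * (μ1 * (μ - 2 * a0 + 2 * C w - C q * a1 - C q ^ 2)) := by
      linear_combination (μ - 2 * a0 + 2 * C w - C q * a1 - C q ^ 2) * hμ1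
    rw [← h5, h4]
    ring
  have f1 := congrArg (eval r) e1
  have f2 := congrArg (eval r) e2
  have f3 := congrArg (eval r) e3
  simp only [eval_add, eval_sub, eval_mul, eval_pow, eval_X, eval_C, eval_neg, eval_ofNat, sub_self,
    zero_mul, mul_zero, sub_zero, neg_zero, add_zero] at f1 f2 f3
  have hne : μ1.eval r ≠ 0 := by
    intro h0
    rw [h0, mul_zero] at f1
    exact mul_ne_zero hκ (sub_ne_zero.2 hr) f1.symm
  have g1 : a1.eval r + q = 0 := (mul_eq_zero.1 f2).resolve_left hne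
  have g2 := (mul_eq_zero.1 f3).resolve_left hne
  refine ⟨by linear_combination g1, ?_⟩
  rw [hμ] at g2
  have g3 : 2 * (a0.eval r - w) = 0 := by linear_combination -g2 - q * g1
  exact sub_eq_zero.1 ((mul_eq_zero.1 g3).resolve_left h2)

/-- **Proof.** (`char K ≠ 2`.) `V = κ (x - r1)(x - r2)`, `w1 = -(q1 + q2)`, `w0 = q1 q2`, `E = (q1 - q2)² / 4 ≠ 0`. Put `σ = s1 - a1` (so `t1 = a1 - σ`), `m = (s0 + t0) / 2`, `τ = (s0 - t0) / 2`, `μ = a0 - m`, `τ' = τ - σ w1 / 2`. The equations give (each by `linear_combination`)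
(i) `2 μ = V - σ²`, (ii) `μ (a1 - w1) = - σ τ'`, (iii) `μ (μ - 2 a0 + 2 w0 + w1 a1 - w1²) = τ'² + E σ²`.
(a) If `μ` has a root `x0`: (i), (ii), (iii) at `x0`: `V(x0) = σ(x0)²`, `σ(x0) τ'(x0) = 0`, `τ'(x0)² + E σ(x0)² = 0`, so `σ(x0) = 0` (otherwise `τ'(x0) = 0`, `E σ(x0)² = 0`), `τ'(x0) = 0`, `V(x0) = 0`: `x0 = r1` or `r2`. Say `x0 = r1` (the other case is the same): `σ = (x - r1) σ1`, `τ' = (x - r1) τ1`, `μ = (x - r1) μ1`, and (i) divided by `x - r1`:
`2 μ1 = κ (x - r2) - (x - r1) σ1²`, so `μ1(r1) ≠ 0`. (ii), (iii) divided by `x - r1` and evaluated at `r1`: `μ1(r1) (a1(r1) - w1) = 0`, `μ1(r1) (- 2 a0(r1) + 2 w0 + w1 a1(r1) - w1²) = 0`: `a1(r1) = w1`, `a0(r1) = w0`: first alternative with `r = r1` (`q1² - (q1 + q2) q1 + q1 q2 = 0`).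
(b) If `μ` has no root: `K` is algebraically closed, so `μ = C m0`, `m0 ≠ 0` (`μ = 0` has roots). (i): `σ² = V - 2 m0` has degree 2, so `σ` has degree 1, `σ = s (x - x1)`, `s ≠ 0`; the derivative of (i) at `x1` gives `V'(x1) = 0`, i.e. `2 x1 = r1 + r2`. (ii) at `x1`: `a1(x1) = w1`. By (ii) `σ τ'` has degree `≤ 1` (`hd`), so `τ'` is constant, `τ'' := derivative τ' = 0`.
The derivative of (iii) at `x1`: `m0 (- 2 a0'(x1) + w1 a1'(x1)) = 0`, i.e. `a0'(x1) = w1 a1'(x1) / 2 = - (q1 + q2)/2 a1'(x1)`: second alternative. -/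
theorem quad_case [IsAlgClosed K] (h2 : (2 : K) ≠ 0) (a1 a0 s1 s0 t1 t0 : K[X]) (κ r1 r2 q1 q2 : K) (hκ : κ ≠ 0)
    (hr : r1 ≠ r2) (hq : q1 ≠ q2) (hd : a1.natDegree ≤ 1)
    (e1 : s1 + t1 = 2 * a1) (e2 : s0 + t0 + s1 * t1 = a1 ^ 2 + 2 * a0 - C κ * ((X - C r1) * (X - C r2)))
    (e3 : s1 * t0 + s0 * t1 = 2 * a0 * a1 + C κ * ((X - C r1) * (X - C r2)) * C (q1 + q2))
    (e4 : s0 * t0 = a0 ^ 2 - C κ * ((X - C r1) * (X - C r2)) * C (q1 * q2)) :
    (∃ r, (r = r1 ∨ r = r2) ∧ q1 ^ 2 + a1.eval r * q1 + a0.eval r = 0 ∧ q2 ^ 2 + a1.eval r * q2 + a0.eval r = 0) ∨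
    (a1.eval ((r1 + r2) / 2) + (q1 + q2) = 0 ∧
      (derivative a0).eval ((r1 + r2) / 2) + (q1 + q2) / 2 * (derivative a1).eval ((r1 + r2) / 2) = 0) := by
  obtain ⟨c, hc0⟩ : ∃ c : K[X], c = C (2⁻¹ : K) := ⟨_, rfl⟩
  have hc : 2 * c = 1 := by
    rw [hc0]
    have h3 : (2 : K[X]) = C 2 := (map_ofNat C 2).symm
    rw [h3, ← C_mul, mul_inv_cancel₀ h2, C_1]
  obtain ⟨V, hV⟩ : ∃ V : K[X], V = C κ * ((X - C r1) * (X - C r2)) := ⟨_, rfl⟩
  rw [← hV] at e2 e3 e4
  obtain ⟨σ, hσ⟩ : ∃ σ : K[X], σ = s1 - a1 := ⟨_, rfl⟩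
  obtain ⟨m, hm⟩ : ∃ m : K[X], m = c * (s0 + t0) := ⟨_, rfl⟩
  obtain ⟨τ, hτ⟩ : ∃ τ : K[X], τ = c * (s0 - t0) := ⟨_, rfl⟩
  have k1 : s1 = a1 + σ := by rw [hσ]; ring
  have k2 : t1 = a1 - σ := by rw [hσ]; linear_combination e1
  have k3 : s0 = m + τ := by rw [hm, hτ]; linear_combination (-s0) * hc
  have k4 : t0 = m - τ := by rw [hm, hτ]; linear_combination (-t0) * hc
  obtain ⟨μ, hμ⟩ : ∃ μ : K[X], μ = a0 - m := ⟨_, rfl⟩
  have k5 : m = a0 - μ := by rw [hμ]; ring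
  rw [k1, k2, k3, k4, k5] at e2
  rw [k1, k2, k3, k4, k5] at e3
  rw [k3, k4, k5] at e4
  obtain ⟨θ, hθ⟩ : ∃ θ : K[X], θ = τ + c * σ * C (q1 + q2) := ⟨_, rfl⟩
  have i1 : 2 * μ = V - σ ^ 2 := by linear_combination -e2
  have i2 : μ * (a1 + C (q1 + q2)) = -(σ * θ) := by
    rw [hθ]
    linear_combination (-c) * e3 + c * C (q1 + q2) * i1 -
      (a1 * μ + σ * τ + μ * C (q1 + q2)) * hc
  have i3' : μ * (μ - 2 * a0 + 2 * C (q1 * q2) - C (q1 + q2) * a1 - C (q1 + q2) ^ 2) =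
      θ ^ 2 + (c ^ 2 * C (q1 + q2) ^ 2 - C (q1 * q2)) * σ ^ 2 := by
    have i2' := i2
    rw [hθ] at i2' ⊢
    linear_combination e4 + C (q1 * q2) * i1 - C (q1 + q2) * i2' -
      (σ * τ * C (q1 + q2) + c * σ ^ 2 * C (q1 + q2) ^ 2) * hc
  have hE : c ^ 2 * C (q1 + q2) ^ 2 - C (q1 * q2) = C (((q1 - q2) * 2⁻¹) ^ 2) := by
    rw [hc0, ← C_pow, ← C_pow, ← C_mul, ← C_sub]
    congr 1
    have h3 : (2 : K) * 2⁻¹ = 1 := mul_inv_cancel₀ h2
    linear_combination (q1 * q2 * (2 * 2⁻¹ + 1)) * h3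
  rw [hE] at i3'
  have hE0 : ((q1 - q2) * 2⁻¹) ^ 2 ≠ 0 :=
    pow_ne_zero 2 (mul_ne_zero (sub_ne_zero.2 hq) (inv_ne_zero h2))
  obtain ⟨e, he⟩ : ∃ e : K, e = ((q1 - q2) * 2⁻¹) ^ 2 := ⟨_, rfl⟩
  rw [← he] at i3' hE0
  by_cases hroot : ∃ x0, μ.eval x0 = 0
  · left
    obtain ⟨x0, hx0⟩ := hroot
    have f1 := congrArg (eval x0) i1
    have f2 := congrArg (eval x0) i2
    have f3 := congrArg (eval x0) i3'
    rw [eval_mul, hx0, mul_zero] at f1
    rw [eval_mul, hx0, zero_mul] at f2 f3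
    simp only [eval_add, eval_sub, eval_mul, eval_pow, eval_C, eval_neg] at f1 f2 f3
    have hσ0 : σ.eval x0 = 0 := by
      by_contra hne
      have h5 : θ.eval x0 = 0 := by
        have h6 : σ.eval x0 * θ.eval x0 = 0 := by linear_combination f2
        exact (mul_eq_zero.1 h6).resolve_left hne
      rw [h5] at f3
      have h7 : e * σ.eval x0 ^ 2 = 0 := by linear_combination -f3
      exact mul_ne_zero hE0 (pow_ne_zero 2 hne) h7
    have hθ0 : θ.eval x0 = 0 := by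
      rw [hσ0] at f3
      have h7 : θ.eval x0 ^ 2 = 0 := by linear_combination -f3
      exact pow_eq_zero_iff (two_ne_zero) |>.1 h7
    have hV0 : V.eval x0 = 0 := by
      rw [hσ0] at f1
      linear_combination -f1
    rw [hV] at hV0
    simp only [eval_mul, eval_sub, eval_X, eval_C] at hV0
    have hx : x0 = r1 ∨ x0 = r2 := by
      rcases mul_eq_zero.1 ((mul_eq_zero.1 hV0).resolve_left hκ) with h6 | h6
      · exact Or.inl (sub_eq_zero.1 h6)
      · exact Or.inr (sub_eq_zero.1 h6)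
    have key : a1.eval x0 = -(q1 + q2) ∧ a0.eval x0 = q1 * q2 := by
      rcases hx with hx | hx
      · rw [hx] at hσ0 hθ0 hx0 ⊢
        exact QR1_aux2 h2 σ θ μ a1 a0 κ r1 r2 _ _ e hκ hr (by rw [i1, hV]) i2 i3' hσ0 hθ0 hx0
      · rw [hx] at hσ0 hθ0 hx0 ⊢
        exact QR1_aux2 h2 σ θ μ a1 a0 κ r2 r1 _ _ e hκ hr.symm (by rw [i1, hV]; ring) i2 i3' hσ0 hθ0 hx0
    refine ⟨x0, hx, ?_, ?_⟩
    · rw [key.1, key.2]; ring
    · rw [key.1, key.2]; ring
  · right
    have hdμ : μ.degree = 0 := by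
      by_contra hne
      exact hroot (IsAlgClosed.exists_root μ hne)
    obtain ⟨m0, hm0⟩ : ∃ m0 : K, μ = C m0 := ⟨_, eq_C_of_degree_eq_zero hdμ⟩
    have hm0' : m0 ≠ 0 := by
      rintro rfl
      rw [hm0, C_0, degree_zero] at hdμ
      exact absurd hdμ (by decide)
    have hsq : σ ^ 2 = C κ * ((X - C r1) * (X - C r2)) - 2 * C m0 := by
      rw [← hV, ← hm0]
      linear_combination i1
    have hnd : σ.natDegree = 1 := by
      have h5 : (σ ^ 2).natDegree = 2 := by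
        rw [hsq]
        have h6 : (C κ * ((X - C r1) * (X - C r2))).natDegree = 2 := by
          rw [natDegree_C_mul hκ, natDegree_mul (X_sub_C_ne_zero r1) (X_sub_C_ne_zero r2),
            natDegree_X_sub_C, natDegree_X_sub_C]
        have h7 : (2 * C m0 : K[X]) = C (2 * m0) := by
          rw [C_mul]
          rfl
        rw [h7, natDegree_sub_C, h6]
      rw [natDegree_pow] at h5
      omega
    have hd1 : σ.degree ≠ 0 := by
      intro h5
      have h6 : σ.natDegree = 0 := natDegree_eq_zero_iff_degree_le_zero.2 h5.le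
      omega
    obtain ⟨x1, hx1⟩ := IsAlgClosed.exists_root σ hd1
    have hx1' : σ.eval x1 = 0 := hx1
    have hσ' : (derivative (σ ^ 2)).eval x1 = 0 := by
      rw [pow_two, derivative_mul, eval_add, eval_mul, eval_mul, hx1', zero_mul, mul_zero, add_zero]
    have j1 : κ * (2 * x1 - r1 - r2) = 0 := by
      have h5 := congrArg (fun p => (derivative p).eval x1) hsq
      simp only [hσ', derivative_mul, derivative_sub, derivative_C, derivative_X, derivative_ofNat,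
        eval_add, eval_sub, eval_mul, eval_C, eval_X, eval_zero, eval_one, zero_mul, mul_zero,
        sub_zero, one_mul, mul_one, zero_add, add_zero] at h5
      linear_combination -h5
    have hx1r : x1 = (r1 + r2) / 2 := by
      rw [eq_div_iff h2]
      have h5 := (mul_eq_zero.1 j1).resolve_left hκ
      linear_combination h5
    have j2 : a1.eval x1 + (q1 + q2) = 0 := by
      have h5 := congrArg (eval x1) i2
      simp only [hm0, eval_mul, eval_add, eval_neg, eval_C, hx1', zero_mul, neg_zero] at h5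
      exact (mul_eq_zero.1 h5).resolve_left hm0'
    have hθc : θ.natDegree = 0 := by
      rcases eq_or_ne θ 0 with h0 | h0
      · rw [h0, natDegree_zero]
      · have hσne : σ ≠ 0 := by
          rintro h5
          rw [h5, natDegree_zero] at hnd
          exact zero_ne_one hnd
        have h5 : (σ * θ).natDegree = 1 + θ.natDegree := by
          rw [natDegree_mul hσne h0, hnd]
        have h6 : (σ * θ).natDegree ≤ 1 := by
          have h7 : σ * θ = C (-m0) * (a1 + C (q1 + q2)) := by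
            rw [hm0] at i2
            rw [C_neg]
            linear_combination i2
          rw [h7]
          refine (natDegree_C_mul_le _ _).trans ?_
          rw [natDegree_add_C]
          exact hd
        omega
    obtain ⟨t, ht⟩ : ∃ t : K, θ = C t := ⟨_, eq_C_of_natDegree_eq_zero hθc⟩
    have j3 : m0 * (2 * (derivative a0).eval x1 + (q1 + q2) * (derivative a1).eval x1) = 0 := by
      have h5 := congrArg (fun p => (derivative p).eval x1) i3'
      simp only [hm0, ht, derivative_mul, derivative_sub, derivative_add, derivative_C, derivative_ofNat,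
        ← C_pow, hσ', eval_add, eval_sub, eval_neg, eval_mul, eval_C, eval_zero, eval_ofNat, zero_mul, mul_zero,
        sub_zero, zero_add, add_zero, zero_sub] at h5
      linear_combination -h5
    rw [hx1r] at j2 j3
    refine ⟨j2, ?_⟩
    have h5 := (mul_eq_zero.1 j3).resolve_left hm0'
    have h6 : 2 * ((derivative a0).eval ((r1 + r2) / 2) +
        (q1 + q2) / 2 * (derivative a1).eval ((r1 + r2) / 2)) = 0 := by
      have h7 : 2 * ((q1 + q2) / 2) = q1 + q2 := mul_div_cancel₀ _ h2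
      linear_combination h5 + (derivative a1).eval ((r1 + r2) / 2) * h7
    exact (mul_eq_zero.1 h6).resolve_left h2

end

end HNQ
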