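import Pool.Agent.Lib.MP_10e784_agQ.QR1
import Pool.Agent.Lib.MP_1ad228_ntH.HB1

/-! The irreducibility of the quartic. -/

set_option autoImplicit false

open Classical

namespace HNQ

open Finset Polynomial FGO FQQ HNF

section

variable {K : Type} [Field K]

/-- the coefficients of `(y² + b y + d)² - e (f y² + g y + h)` -/
theorem QR2_expand {R : Type} [CommRing R] (b d e f g h : R) :
    (X ^ 2 + C b * X + C d) ^ 2 - C e * (C f * X ^ 2 + C g * X + C h) =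
      X ^ 4 + (C (2 * b) * X ^ 3 + C (b ^ 2 + 2 * d - e * f) * X ^ 2 + C (2 * d * b - e * g) * X + C (d ^ 2 - e * h)) := by
  simp only [map_mul, map_add, map_sub, map_pow, map_ofNat]
  ring

/-- a polynomial of degree at most three -/
theorem QR2_deg {R : Type} [CommRing R] (a b d e : R) :
    (C a * X ^ 3 + C b * X ^ 2 + C d * X + C e : R[X]).degree < (4 : ℕ) := by
  exact_mod_cast (degree_cubic_lt (a := a) (b := b) (c := d) (d := e))

/-- Proof. `aP c` is monic of degree 2, the other product has degree `≤ 2`. -/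
theorem fP_monic (c : Fin 6 → K) (v w : K × K × K) : (fP c v w).Monic ∧ (fP c v w).natDegree = 4 := by
  have h := QR2_expand (C (c 3 / c 5) * X + C (c 2 / c 5) : K[X]) (C (c 4 / c 5) * X ^ 2 + C (c 1 / c 5) * X + C (c 0 / c 5))
    (C ((c 5)⁻¹ ^ 2) * (C v.1 * X ^ 2 + C v.2.1 * X + C v.2.2)) (C w.1) (C w.2.1) (C w.2.2)
  have h' : fP c v w = _ := h
  rw [h']
  refine ⟨monic_X_pow_add (QR2_deg _ _ _ _), ?_⟩
  rw [natDegree_add_eq_left_of_degree_lt (by rw [degree_X_pow]; exact QR2_deg _ _ _ _), natDegree_X_pow]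

/-- a monic polynomial of degree two -/
theorem QR2_quad {R : Type} [CommRing R] (p : R[X]) (hp : p.Monic) (hd : p.natDegree = 2) :
    p = X ^ 2 + C (p.coeff 1) * X + C (p.coeff 0) := by
  have h := Polynomial.eq_quadratic_of_degree_le_two (p := p) (by
    rw [← Nat.cast_ofNat, ← Polynomial.natDegree_le_iff_degree_le, hd])
  have h2 : p.coeff 2 = 1 := by
    have := hp.coeff_natDegree
    rwa [hd] at this
  rw [h2] at h
  simpa using h

/-- comparison of coefficients -/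
theorem QR2_coeff {R : Type} [CommRing R] (B3 B2 B1 B0 A3 A2 A1 A0 : R)
    (h : (C B3 * X ^ 3 + C B2 * X ^ 2 + C B1 * X + C B0 : R[X]) = C A3 * X ^ 3 + C A2 * X ^ 2 + C A1 * X + C A0) :
    B3 = A3 ∧ B2 = A2 ∧ B1 = A1 ∧ B0 = A0 := by
  have c3 := congrArg (fun q => coeff q 3) h
  have c2 := congrArg (fun q => coeff q 2) h
  have c1 := congrArg (fun q => coeff q 1) h
  have c0 := congrArg (fun q => coeff q 0) h
  simp [coeff_X, coeff_C, coeff_X_pow] at c3 c2 c1 c0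
  exact ⟨c3, c2, c1, c0⟩

/-- the product of two monic quadratic polynomials -/
theorem QR2_mul {R : Type} [CommRing R] (s1 s0 t1 t0 A3 A2 A1 A0 : R)
    (h : (X ^ 2 + C t1 * X + C t0) * (X ^ 2 + C s1 * X + C s0) =
      X ^ 4 + (C A3 * X ^ 3 + C A2 * X ^ 2 + C A1 * X + C A0)) :
    s1 + t1 = A3 ∧ s0 + t0 + s1 * t1 = A2 ∧ s1 * t0 + s0 * t1 = A1 ∧ s0 * t0 = A0 := by
  have e : (X ^ 2 + C t1 * X + C t0) * (X ^ 2 + C s1 * X + C s0) =
      X ^ 4 + (C (s1 + t1) * X ^ 3 + C (s0 + t0 + s1 * t1) * X ^ 2 + C (s1 * t0 + s0 * t1) * X + C (s0 * t0)) := by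
    simp only [map_mul, map_add]
    ring
  rw [e] at h
  exact QR2_coeff _ _ _ _ _ _ _ _ (add_left_cancel h)

/-- the quartic is irreducible -/
theorem irr_fP [IsAlgClosed K] (h2 : (2 : K) ≠ 0) (c : Fin 6 → K) (v w : K × K × K) (h5 : c 5 ≠ 0) (hv : v.1 ≠ 0)
    (hw : w.1 ≠ 0) (hdv : ds v ≠ 0) (hdw : ds w ≠ 0) (hU : ¬ (Uq c v w = 0 ∧ Wq c v w = 0)) (hT : ¬ Two c v w) :
    Irreducible (fP c v w) := by
  have sqv : IsSquare (ds v) := by
    obtain ⟨z, hz⟩ := IsAlgClosed.exists_pow_nat_eq (ds v) (n := 2) (by norm_num)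
    exact ⟨z, by rw [← hz, sq]⟩
  have sqw : IsSquare (ds w) := by
    obtain ⟨z, hz⟩ := IsAlgClosed.exists_pow_nat_eq (ds w) (n := 2) (by norm_num)
    exact ⟨z, by rw [← hz, sq]⟩
  obtain ⟨r1, r2, hr⟩ := split_of_sq h2 v hv sqv
  obtain ⟨q1, q2, hq⟩ := split_of_sq h2 w hw sqw
  obtain ⟨v1, v2, v3⟩ := v
  obtain ⟨w1, w2, w3⟩ := w
  have hv' : v1 ≠ 0 := hv
  have hw' : w1 ≠ 0 := hw
  have ev2 : v2 = -(v1 * (r1 + r2)) := congrArg (fun t : K × K × K => t.2.1) hr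
  have ev3 : v3 = v1 * r1 * r2 := congrArg (fun t : K × K × K => t.2.2) hr
  have ew2 : w2 = -(w1 * (q1 + q2)) := congrArg (fun t : K × K × K => t.2.1) hq
  have ew3 : w3 = w1 * q1 * q2 := congrArg (fun t : K × K × K => t.2.2) hq
  clear hr hq
  subst ev2 ev3 ew2 ew3
  have hr12 : r1 ≠ r2 := by
    intro h
    apply hdv
    subst h
    show (-(v1 * (r1 + r1))) ^ 2 - 4 * v1 * (v1 * r1 * r1) = 0
    ring
  have hq12 : q1 ≠ q2 := by
    intro h
    apply hdw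
    subst h
    show (-(w1 * (q1 + q1))) ^ 2 - 4 * w1 * (w1 * q1 * q1) = 0
    ring
  have hvr1 : qv (v1, -(v1 * (r1 + r2)), v1 * r1 * r2) r1 1 = 0 := by
    unfold qv; ring
  have hvr2 : qv (v1, -(v1 * (r1 + r2)), v1 * r1 * r2) r2 1 = 0 := by
    unfold qv; ring
  have hwq1 : qv (w1, -(w1 * (q1 + q2)), w1 * q1 * q2) q1 1 = 0 := by
    unfold qv; ring
  have hwq2 : qv (w1, -(w1 * (q1 + q2)), w1 * q1 * q2) q2 1 = 0 := by
    unfold qv; ring
  have hwq : ∀ s, (s = q1 ∨ s = q2) → qv (w1, -(w1 * (q1 + q2)), w1 * q1 * q2) s 1 = 0 := by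
    rintro s (rfl | rfl)
    · exact hwq1
    · exact hwq2
  have hvr : ∀ s, (s = r1 ∨ s = r2) → qv (v1, -(v1 * (r1 + r2)), v1 * r1 * r2) s 1 = 0 := by
    rintro s (rfl | rfl)
    · exact hvr1
    · exact hvr2
  set a1 : K[X] := C (c 3 / c 5) * X + C (c 2 / c 5) with ha1
  set a0 : K[X] := C (c 4 / c 5) * X ^ 2 + C (c 1 / c 5) * X + C (c 0 / c 5) with ha0
  set κ : K := (c 5)⁻¹ ^ 2 * v1 * w1 with hκ
  have hκ0 : κ ≠ 0 := by
    rw [hκ]
    exact mul_ne_zero (mul_ne_zero (pow_ne_zero _ (inv_ne_zero h5)) hv') hw'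
  have hA : ∀ r s : K, s ^ 2 + a1.eval r * s + a0.eval r = 0 → hA c r s 1 = 0 := by
    intro r s h
    simp only [ha1, ha0, eval_add, eval_mul, eval_C, eval_X, eval_pow] at h
    have e : hA c r s 1 = c 5 * (s ^ 2 + (c 3 / c 5 * r + c 2 / c 5) * s + (c 4 / c 5 * r ^ 2 + c 1 / c 5 * r + c 0 / c 5)) := by
      unfold hA
      field_simp
      ring
    rw [e, h, mul_zero]
  have hV : (C ((c 5)⁻¹ ^ 2) * (C v1 * X ^ 2 + C (-(v1 * (r1 + r2))) * X + C (v1 * r1 * r2)) : K[X]) * C w1 =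
      C κ * ((X - C r1) * (X - C r2)) := by
    rw [hκ]
    simp only [map_mul, map_add, map_neg, map_pow]
    ring
  have hfd := fP_monic c (v1, -(v1 * (r1 + r2)), v1 * r1 * r2) (w1, -(w1 * (q1 + q2)), w1 * q1 * q2)
  rw [Monic.irreducible_iff_natDegree' hfd.1]
  refine ⟨?_, ?_⟩
  · intro h
    have := hfd.2
    rw [h, natDegree_one] at this
    exact absurd this (by norm_num)
  intro g h hg hh hgh hmem
  rw [hfd.2] at hmem
  have hdeg : g.natDegree + h.natDegree = 4 := by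
    rw [← hg.natDegree_mul hh, hgh, hfd.2]
  have hmem' := Finset.mem_Ioc.mp hmem
  have hcase : h.natDegree = 1 ∨ h.natDegree = 2 := by omega
  have hexp : fP c (v1, -(v1 * (r1 + r2)), v1 * r1 * r2) (w1, -(w1 * (q1 + q2)), w1 * q1 * q2) =
      X ^ 4 + (C (2 * a1) * X ^ 3 +
        C (a1 ^ 2 + 2 * a0 - (C ((c 5)⁻¹ ^ 2) * (C v1 * X ^ 2 + C (-(v1 * (r1 + r2))) * X + C (v1 * r1 * r2))) * C w1) * X ^ 2 +
        C (2 * a0 * a1 - (C ((c 5)⁻¹ ^ 2) * (C v1 * X ^ 2 + C (-(v1 * (r1 + r2))) * X + C (v1 * r1 * r2))) *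
          C (-(w1 * (q1 + q2)))) * X +
        C (a0 ^ 2 - (C ((c 5)⁻¹ ^ 2) * (C v1 * X ^ 2 + C (-(v1 * (r1 + r2))) * X + C (v1 * r1 * r2))) * C (w1 * q1 * q2))) :=
    QR2_expand a1 a0 (C ((c 5)⁻¹ ^ 2) * (C v1 * X ^ 2 + C (-(v1 * (r1 + r2))) * X + C (v1 * r1 * r2))) (C w1)
      (C (-(w1 * (q1 + q2)))) (C (w1 * q1 * q2))
  rcases hcase with h1 | h2'
  · have hl := hh.eq_X_add_C h1
    set l : K[X] := - h.coeff 0 with hl0
    have hroot : h.eval l = 0 := by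
      rw [hl, eval_add, eval_X, eval_C, hl0]
      ring
    have hz : (fP c (v1, -(v1 * (r1 + r2)), v1 * r1 * r2) (w1, -(w1 * (q1 + q2)), w1 * q1 * q2)).eval l = 0 := by
      rw [← hgh, eval_mul, hroot, mul_zero]
    have hz' : (l ^ 2 + a1 * l + a0) ^ 2 -
        (C ((c 5)⁻¹ ^ 2) * (C v1 * X ^ 2 + C (-(v1 * (r1 + r2))) * X + C (v1 * r1 * r2))) *
          (C w1 * l ^ 2 + C (-(w1 * (q1 + q2))) * l + C (w1 * q1 * q2)) = 0 := by
      rw [← hz]
      unfold fP aP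
      simp only [eval_sub, eval_mul, eval_pow, eval_add, eval_X, eval_C]
      rw [ha1, ha0]
    have hlin : (l ^ 2 + a1 * l + a0) ^ 2 = C κ * ((X - C r1) * (X - C r2)) * ((l - C q1) * (l - C q2)) := by
      rw [← hV]
      have e : (C w1 * l ^ 2 + C (-(w1 * (q1 + q2))) * l + C (w1 * q1 * q2) : K[X]) = C w1 * ((l - C q1) * (l - C q2)) := by
        simp only [map_mul, map_add, map_neg]
        ring
      rw [e] at hz'
      linear_combination hz'
    obtain ⟨s, t, hs, ht, es, et⟩ := lin_case a1 a0 l κ r1 r2 q1 q2 hκ0 hr12 hlin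
    exact hT ⟨r1, s, r2, t, fun hh' => hr12 hh'.1, hvr1, hwq s hs, hvr2, hwq t ht, hA r1 s es, hA r2 t et⟩
  · have hg2 : g.natDegree = 2 := by omega
    have eh := QR2_quad h hh h2'
    have eg := QR2_quad g hg hg2
    rw [hexp, eh, eg] at hgh
    obtain ⟨e1, e2, e3, e4⟩ := QR2_mul _ _ _ _ _ _ _ _ hgh
    have hd : a1.natDegree ≤ 1 := by
      rw [ha1]
      compute_degree
    have e2' : h.coeff 0 + g.coeff 0 + h.coeff 1 * g.coeff 1 = a1 ^ 2 + 2 * a0 - C κ * ((X - C r1) * (X - C r2)) := by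
      rw [← hV]
      exact e2
    have e3' : h.coeff 1 * g.coeff 0 + h.coeff 0 * g.coeff 1 =
        2 * a0 * a1 + C κ * ((X - C r1) * (X - C r2)) * C (q1 + q2) := by
      rw [← hV, e3]
      simp only [map_mul, map_add, map_neg]
      ring
    have e4' : h.coeff 0 * g.coeff 0 = a0 ^ 2 - C κ * ((X - C r1) * (X - C r2)) * C (q1 * q2) := by
      rw [← hV, e4]
      simp only [map_mul]
      ring
    rcases quad_case h2 a1 a0 (h.coeff 1) (h.coeff 0) (g.coeff 1) (g.coeff 0) κ r1 r2 q1 q2 hκ0 hr12 hq12 hd e1 e2' e3' e4'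
      with ⟨r, hr, hA1, hA2⟩ | ⟨hA1, hA2⟩
    · exact hT ⟨r, q1, r, q2, fun hh' => hq12 hh'.2, hvr r hr, hwq1, hvr r hr, hwq2, hA r q1 hA1, hA r q2 hA2⟩
    · apply hU
      rw [ha1] at hA1 hA2
      rw [ha0] at hA2
      simp at hA1 hA2
      constructor
      · show 2 * v1 * w1 * c 1 - 2 * w1 * (-(v1 * (r1 + r2))) * c 4 - v1 * (-(w1 * (q1 + q2))) * c 3 = 0
        field_simp at hA2
        linear_combination v1 * w1 * hA2
      · show 2 * v1 * w1 * c 2 - 2 * v1 * (-(w1 * (q1 + q2))) * c 5 - w1 * (-(v1 * (r1 + r2))) * c 3 = 0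
        field_simp at hA1
        linear_combination v1 * w1 * hA1

end

end HNQ
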