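import Pool.Agent.Lib.MP_10e784_agQ.QS3

/-! The linear system of Stepanov's method. -/

set_option autoImplicit false

open Classical

namespace HNQ

open Finset Polynomial

section

variable {K : Type} [Field K]

/-- the condition number `(k, j)` -/
noncomputable def Cd (f : K[X][X]) (a : Fin 18 → Fin 4 → K[X][X]) (k j : ℕ) : K[X][X] :=
  if h : j < 3 then
    ∑ i : Fin 18, ((Dd f)^[k] (a i ⟨j, by omega⟩) - gz f j * (Dd f)^[k] (a i 3)) * C (X ^ (i : ℕ))
  else 0

theorem QS6_iter_add (f g h : K[X][X]) (k : ℕ) :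
    (Dd f)^[k] (g + h) = (Dd f)^[k] g + (Dd f)^[k] h := by
  induction k with
  | zero => rfl
  | succ k ih => rw [Function.iterate_succ_apply', Function.iterate_succ_apply', Function.iterate_succ_apply', ih, Dd_add]

theorem QS6_Cd_add (f : K[X][X]) (a a' : Fin 18 → Fin 4 → K[X][X]) (k j : ℕ) :
    Cd f (fun i l => a i l + a' i l) k j = Cd f a k j + Cd f a' k j := by
  unfold Cd
  split_ifs with h
  · rw [← Finset.sum_add_distrib]
    refine Finset.sum_congr rfl fun i _ => ?_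
    rw [QS6_iter_add, QS6_iter_add]
    ring
  · rw [add_zero]

theorem QS6_Cd_smul (f : K[X][X]) (c : K) (a : Fin 18 → Fin 4 → K[X][X]) (k j : ℕ) :
    Cd f (fun i l => C (C c) * a i l) k j = C (C c) * Cd f a k j := by
  unfold Cd
  split_ifs with h
  · rw [Finset.mul_sum]
    refine Finset.sum_congr rfl fun i _ => ?_
    rw [Dd_iter_smul, Dd_iter_smul]
    ring
  · rw [mul_zero]

/-- the linear map of the system -/
noncomputable def QS6_map (f : K[X][X]) :
    (Fin 18 → Fin 4 → Fin 4 → Fin 1598 → K) →ₗ[K] (Fin 23 → Fin 3 → Fin 4 → Fin 1665 → K) where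
  toFun u := fun k j => co 1665 (Cd f (fun i l => P2 (u i l)) (k : ℕ) (j : ℕ) %ₘ f)
  map_add' u u' := by
    funext k j
    have e : (fun i l => P2 ((u + u') i l)) = fun (i : Fin 18) (l : Fin 4) => P2 (u i l) + P2 (u' i l) := by
      funext i l
      rw [Pi.add_apply, Pi.add_apply, P2_add]
    rw [e, QS6_Cd_add, Polynomial.add_modByMonic, co_add]
    rfl
  map_smul' c u := by
    funext k j
    have e : (fun i l => P2 ((c • u) i l)) = fun (i : Fin 18) (l : Fin 4) => C (C c) * P2 (u i l) := by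
      funext i l
      rw [Pi.smul_apply, Pi.smul_apply, P2_smul]
    rw [e, QS6_Cd_smul, ← Polynomial.smul_eq_C_mul, Polynomial.smul_modByMonic, Polynomial.smul_eq_C_mul, co_smul]
    rfl

theorem QS6_TD {f : K[X][X]} (hf : Qr f) {a : Fin 18 → Fin 4 → K[X][X]} (ha : ∀ i j, TD 1600 (a i j)) {k j : ℕ}
    (hk : k < 23) : TD 1664 (Cd f a k j) := by
  unfold Cd
  split_ifs with h
  · refine TD.sum _ _ fun i _ => ?_
    have h1 : TD (1600 + 2 * k) ((Dd f)^[k] (a i ⟨j, by omega⟩)) := TD.Dd_iter hf.td (ha _ _) k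
    have h2 : TD (1600 + 2 * k) ((Dd f)^[k] (a i 3)) := TD.Dd_iter hf.td (ha _ _) k
    have h3 : TD (3 + (1600 + 2 * k)) (gz f j * (Dd f)^[k] (a i 3)) := TD.mul (TD_gz hf j) h2
    have h4 : TD (3 + (1600 + 2 * k)) ((Dd f)^[k] (a i ⟨j, by omega⟩) - gz f j * (Dd f)^[k] (a i 3)) :=
      TD.sub (TD.mono h1 (by omega)) h3
    have h5 : TD 17 (C (X ^ (i : ℕ)) : K[X][X]) := by
      refine TD_C _ ?_
      rw [natDegree_X_pow]
      have := i.2
      omega
    exact TD.mono (TD.mul h4 h5) (by omega)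
  · intro b hb
    exact absurd (coeff_zero b) hb

/-- **Proof.** Linear map `Φ : (Fin 18 → Fin 4 → Fin 4 → Fin 1598 → K) → (Fin 23 → Fin 3 → Fin 4 → Fin 1665 → K)`, `Φ u k j = co 1665 (Cd f (fun i j => P2 (u i j)) k j %ₘ f)`. The dimensions are `18 · 4 · 4 · 1598 = 460224 > 459540 = 23 · 3 · 4 · 1665`, so there is `u ≠ 0` with `Φ u = 0` (`LinearMap.exists_ne_zero_of_finrank_lt` or
`ker ≠ ⊥`; `Module.finrank_pi`, `Fintype.card`: by `simp`, `norm_num`). Put `a i j = P2 (u i j)`: `TD 1600` (`TD_P2`), degree `< 4`, not all zero (`P2_eq_zero`). The polynomial `Cd ..` has total degree `≤ 1600 + 2 · 22 + 3 + 17 = 1664` (`TD.Dd_iter`, `TD_gz`, `TD.mul`, `TD_C`), so its remainder too (`TD_mod`), and `co_eq_zero` gives that the remainder is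
zero: `f ∣ Cd ..` (`modByMonic_eq_zero_iff_dvd`). (Linearity of `Φ`: `Dd_iter_sum`/`Dd_iter_smul`, additivity of the iterates, `P2_add`, `P2_smul`, `add_modByMonic`, `co_add`, `co_smul`.) -/
theorem exists_system {f : K[X][X]} (hf : Qr f) :
    ∃ a : Fin 18 → Fin 4 → K[X][X], (∃ i j, a i j ≠ 0) ∧ (∀ i j, TD 1600 (a i j)) ∧ (∀ i j, (a i j).degree < 4) ∧
      ∀ k j : ℕ, k < 23 → j < 3 → f ∣ Cd f a k j := by
  have hfin : Module.finrank K (Fin 23 → Fin 3 → Fin 4 → Fin 1665 → K) <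
      Module.finrank K (Fin 18 → Fin 4 → Fin 4 → Fin 1598 → K) := by
    simp only [Module.finrank_pi_fintype, Module.finrank_self, Finset.sum_const, Finset.card_univ, Fintype.card_fin,
      smul_eq_mul, mul_one]
    norm_num
  obtain ⟨u, hu, hu0⟩ := (Submodule.ne_bot_iff _).1 (LinearMap.ker_ne_bot_of_finrank_lt (f := QS6_map f) hfin)
  have hu1 : QS6_map f u = 0 := LinearMap.mem_ker.1 hu
  have ht : ∀ i j, TD 1600 (P2 (u i j)) := fun i j => TD_P2 (u i j)
  refine ⟨fun i j => P2 (u i j), ?_, ht, fun i j => P2_degree _, ?_⟩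
  · by_contra hcon
    refine hu0 ?_
    funext i j
    by_contra hij
    exact hcon ⟨i, j, fun h0 => hij (P2_eq_zero h0)⟩
  · intro k j hk hj
    have h1 : co 1665 (Cd f (fun i l => P2 (u i l)) k j %ₘ f) = 0 :=
      congrFun (congrFun hu1 ⟨k, hk⟩) ⟨j, hj⟩
    have h2 : Cd f (fun i l => P2 (u i l)) k j %ₘ f = 0 :=
      co_eq_zero (degree_mod hf _) (TD_mod hf (QS6_TD hf ht hk)) (by norm_num) h1
    exact (modByMonic_eq_zero_iff_dvd hf.mo).1 h2

end

end HNQ
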