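import Pool.Agent.Lib.MP_10e784_agQ.QS5
import Pool.Agent.Lib.MP_10e784_agQ.QS6

/-! Points modulo `p` on an absolutely irreducible quartic. -/

set_option autoImplicit false

open Classical

namespace HNQ

open Finset Polynomial

/-- the image of `f` over the algebraic closure -/
noncomputable def fK (p : ℕ) [Fact p.Prime] (f : (ZMod p)[X][X]) : (AlgebraicClosure (ZMod p))[X][X] :=
  f.map (mapRingHom (algebraMap (ZMod p) (AlgebraicClosure (ZMod p))))

/-- Proof. The `p` elements of `ZMod p` are roots of `X ^ p - X`, which has at most `p` roots in `K`. -/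
theorem frob_fixed (p : ℕ) [Fact p.Prime] (y : AlgebraicClosure (ZMod p)) (h : y ^ p = y) :
    ∃ y0 : ZMod p, algebraMap (ZMod p) (AlgebraicClosure (ZMod p)) y0 = y := by
  have hp := (Fact.out : p.Prime)
  have hinj : Function.Injective (algebraMap (ZMod p) (AlgebraicClosure (ZMod p))) :=
    (algebraMap (ZMod p) (AlgebraicClosure (ZMod p))).injective
  have hdeg : (X ^ p - X : (AlgebraicClosure (ZMod p))[X]).natDegree = p :=
    FiniteField.X_pow_card_sub_X_natDegree_eq _ hp.one_lt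
  have hg0 : (X ^ p - X : (AlgebraicClosure (ZMod p))[X]) ≠ 0 := FiniteField.X_pow_card_sub_X_ne_zero _ hp.one_lt
  have hsub : (univ.image (algebraMap (ZMod p) (AlgebraicClosure (ZMod p)))) ⊆
      (X ^ p - X : (AlgebraicClosure (ZMod p))[X]).roots.toFinset := by
    intro z hz
    obtain ⟨w, -, rfl⟩ := mem_image.1 hz
    rw [Multiset.mem_toFinset, mem_roots hg0, IsRoot.def, eval_sub, eval_pow, eval_X, ← map_pow, ZMod.pow_card, sub_self]
  have hcard : (univ.image (algebraMap (ZMod p) (AlgebraicClosure (ZMod p)))).card = p := by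
    rw [card_image_of_injective _ hinj, card_univ, ZMod.card]
  have heq := Finset.eq_of_subset_of_card_le hsub (by
    rw [hcard]
    exact (Multiset.toFinset_card_le _).trans ((card_roots' _).trans hdeg.le))
  have hy : y ∈ (X ^ p - X : (AlgebraicClosure (ZMod p))[X]).roots.toFinset := by
    rw [Multiset.mem_toFinset, mem_roots hg0, IsRoot.def, eval_sub, eval_pow, eval_X, h, sub_self]
  rw [← heq] at hy
  obtain ⟨w, -, hw⟩ := mem_image.1 hy
  exact ⟨w, hw⟩

theorem QS7_eval (p : ℕ) [Fact p.Prime] (f : (ZMod p)[X][X]) (x0 : ZMod p) (z : AlgebraicClosure (ZMod p)) :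
    (fK p f).evalEval (algebraMap (ZMod p) (AlgebraicClosure (ZMod p)) x0) z = aeval z (f.map (evalRingHom x0)) := by
  have h1 : (evalRingHom (algebraMap (ZMod p) (AlgebraicClosure (ZMod p)) x0)).comp
      (mapRingHom (algebraMap (ZMod p) (AlgebraicClosure (ZMod p)))) =
      (algebraMap (ZMod p) (AlgebraicClosure (ZMod p))).comp (evalRingHom x0) := by
    refine RingHom.ext fun g => ?_
    rw [RingHom.comp_apply, RingHom.comp_apply, coe_mapRingHom, coe_evalRingHom, coe_evalRingHom, eval_map_apply]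
  rw [← map_evalRingHom_eval, fK, Polynomial.map_map, h1, ← Polynomial.map_map, aeval_def, eval_map]

/-- Proof. `(∑ c_ab x^a y^b)^p = ∑ c_ab^p (x^p)^a (y^p)^b` and `c_ab^p = c_ab`, `x0^p = x0` in `ZMod p` (`ZMod.pow_card`, Frobenius is a ring homomorphism: `map_mapRingHom_evalEval`, `frobenius`). -/
theorem frob_eval (p : ℕ) [Fact p.Prime] (f : (ZMod p)[X][X]) (x0 : ZMod p) (y : AlgebraicClosure (ZMod p)) :
    (fK p f).evalEval (algebraMap (ZMod p) (AlgebraicClosure (ZMod p)) x0) (y ^ p) =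
      ((fK p f).evalEval (algebraMap (ZMod p) (AlgebraicClosure (ZMod p)) x0) y) ^ p := by
  rw [QS7_eval, QS7_eval, ← expand_aeval, ZMod.expand_card, map_pow]

theorem QS7_Qr (p : ℕ) [Fact p.Prime] {f : (ZMod p)[X][X]} (hf : Qr f) : Qr (fK p f) := by
  refine ⟨hf.mo.map _, ?_, ?_⟩
  · rw [fK, hf.mo.natDegree_map, hf.dg]
  · intro b hb
    rw [fK, coeff_map, coe_mapRingHom] at hb ⊢
    have h0 : f.coeff b ≠ 0 := fun h => hb (by rw [h, Polynomial.map_zero])
    have h1 := hf.td b h0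
    have h2 := natDegree_map_le (f := algebraMap (ZMod p) (AlgebraicClosure (ZMod p))) (p := f.coeff b)
    omega

theorem QS7_derivative (p : ℕ) [Fact p.Prime] (f : (ZMod p)[X][X]) : derivative (fK p f) = fK p (derivative f) := by
  rw [fK, fK, derivative_map]

theorem QS7_base (p : ℕ) [Fact p.Prime] (f : (ZMod p)[X][X]) (x y : ZMod p) :
    (fK p f).evalEval (algebraMap (ZMod p) (AlgebraicClosure (ZMod p)) x)
      (algebraMap (ZMod p) (AlgebraicClosure (ZMod p)) y) =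
    algebraMap (ZMod p) (AlgebraicClosure (ZMod p)) (f.evalEval x y) := by
  rw [QS7_eval, aeval_algebraMap_apply, coe_aeval_eq_eval, map_evalRingHom_eval]

section

variable {K : Type} [Field K]

theorem QS7_cd {g : K[X][X]} {a : Fin 18 → Fin 4 → K[X][X]} {k : ℕ} {x y : K} (hg : g.evalEval x y = 0)
    (j : ℕ) (hj : j < 3) (h : g ∣ Cd g a k j) :
    ∑ i : Fin 18, (((Dd g)^[k] (a i ⟨j, by omega⟩)).evalEval x y -
      (gz g j).evalEval x y * ((Dd g)^[k] (a i 3)).evalEval x y) * x ^ (i : ℕ) = 0 := by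
  obtain ⟨c, hc⟩ := h
  have h1 : (Cd g a k j).evalEval x y = 0 := by rw [hc, evalEval_mul, hg, zero_mul]
  rw [Cd, dif_pos hj, evalEval_finsetSum] at h1
  rw [← h1]
  refine Finset.sum_congr rfl fun i _ => ?_
  rw [evalEval_mul, evalEval_sub, evalEval_mul, evalEval_C, eval_pow, eval_X]

theorem QS7_vn (p : ℕ) [Fact p.Prime] [CharP K p] {g : K[X][X]} (hq : Qr g) {a : Fin 18 → Fin 4 → K[X][X]} {x y : K}
    (hg : g.evalEval x y = 0) (hz : g.evalEval x (y ^ p) = 0) (hyz : y ^ p ≠ y) (hx : x ^ p = x)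
    (h : ∀ k j : ℕ, k < 23 → j < 3 → g ∣ Cd g a k j) :
    Vn g x y 23 (∑ i : Fin 18, ∑ j : Fin 4, a i j * (C (X ^ (i : ℕ)) * X ^ (j : ℕ)) ^ p) := by
  intro k hk
  have h3 := gz_root hq hg hz hyz
  have c0 := QS7_cd hg 0 (by omega) (h k 0 hk (by omega))
  have c1 := QS7_cd hg 1 (by omega) (h k 1 hk (by omega))
  have c2 := QS7_cd hg 2 (by omega) (h k 2 hk (by omega))
  rw [Dd_iter_sum, evalEval_finsetSum]
  have key : ∀ i : Fin 18, ((Dd g)^[k] (∑ j : Fin 4, a i j * (C (X ^ (i : ℕ)) * X ^ (j : ℕ)) ^ p)).evalEval x y =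
      (((Dd g)^[k] (a i ⟨0, by omega⟩)).evalEval x y -
        (gz g 0).evalEval x y * ((Dd g)^[k] (a i 3)).evalEval x y) * x ^ (i : ℕ) +
      (((Dd g)^[k] (a i ⟨1, by omega⟩)).evalEval x y -
        (gz g 1).evalEval x y * ((Dd g)^[k] (a i 3)).evalEval x y) * x ^ (i : ℕ) * y ^ p +
      (((Dd g)^[k] (a i ⟨2, by omega⟩)).evalEval x y -
        (gz g 2).evalEval x y * ((Dd g)^[k] (a i 3)).evalEval x y) * x ^ (i : ℕ) * (y ^ p) ^ 2 := by
    intro i
    have hv : ∀ j : Fin 4, ((Dd g)^[k] (a i j * (C (X ^ (i : ℕ)) * X ^ (j : ℕ)) ^ p)).evalEval x y =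
        ((Dd g)^[k] (a i j)).evalEval x y * (x ^ (i : ℕ) * (y ^ p) ^ (j : ℕ)) := by
      intro j
      rw [Dd_iter_mul_pow_p, evalEval_mul, evalEval_pow, evalEval_mul, evalEval_C, evalEval_pow, evalEval_X,
        eval_pow, eval_X, mul_pow, ← pow_mul, mul_comm (i : ℕ) p, pow_mul, hx, ← pow_mul, mul_comm (j : ℕ) p, pow_mul]
    rw [Dd_iter_sum, evalEval_finsetSum, Fin.sum_univ_four, hv, hv, hv, hv]
    have e0 : ((0 : Fin 4) : ℕ) = 0 := rfl
    have e1 : ((1 : Fin 4) : ℕ) = 1 := rfl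
    have e2 : ((2 : Fin 4) : ℕ) = 2 := rfl
    have e3 : ((3 : Fin 4) : ℕ) = 3 := rfl
    have f0 : (⟨0, by omega⟩ : Fin 4) = 0 := rfl
    have f1 : (⟨1, by omega⟩ : Fin 4) = 1 := rfl
    have f2 : (⟨2, by omega⟩ : Fin 4) = 2 := rfl
    rw [e0, e1, e2, e3, f0, f1, f2, h3]
    ring
  rw [Finset.sum_congr rfl fun i _ => key i, Finset.sum_add_distrib, Finset.sum_add_distrib, ← Finset.sum_mul,
    ← Finset.sum_mul, c0, c1, c2]
  ring

theorem QS7_TD (p : ℕ) {a : Fin 18 → Fin 4 → K[X][X]} (ha : ∀ i j, TD 1600 (a i j)) :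
    TD (1600 + 20 * p) (∑ i : Fin 18, ∑ j : Fin 4, a i j * (C (X ^ (i : ℕ)) * X ^ (j : ℕ)) ^ p) := by
  refine TD.sum _ _ fun i _ => TD.sum _ _ fun j _ => TD.mul (ha i j) ?_
  have h1 : TD ((i : ℕ) + (j : ℕ)) ((C (X ^ (i : ℕ)) * X ^ (j : ℕ) : K[X][X])) :=
    TD.mul (TD_C _ (natDegree_X_pow_le _)) (TD_X_pow _)
  refine (h1.pow p).mono (Nat.mul_le_mul_right _ ?_)
  have := i.2
  have := j.2
  omega

theorem QS7_zero {ι : Type} (G : Finset ι) (φ : ι → K) (hφ : Function.Injective φ) {L : K[X]}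
    (h : ∀ i ∈ G, (X - C (φ i)) ^ 23 ∣ L) (hd : L.natDegree < 23 * G.card) : L = 0 := by
  by_contra hL
  have h1 : ∏ i ∈ G, (X - C (φ i)) ^ 23 ∣ L := by
    refine Finset.prod_dvd_of_coprime ?_ h
    intro i _ j _ hij
    exact (isCoprime_X_sub_C_of_isUnit_sub (by
      rw [isUnit_iff_ne_zero, sub_ne_zero]
      exact fun h => hij (hφ h))).pow
  have h2 := natDegree_le_of_dvd h1 hL
  rw [natDegree_prod_of_monic _ _ fun i _ => (monic_X_sub_C _).pow _] at h2
  simp only [natDegree_pow, natDegree_X_sub_C, Finset.sum_const, smul_eq_mul] at h2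
  omega

end

/-- **Proof.** Suppose there is no such point. `K` the algebraic closure, `fK p f` is `Qr` (monic of degree 4, `TD 4`) over `K`. `a` of `exists_system`, `h = ∑ a i j * (C (X ^ i) * X ^ j) ^ p`, `h' = h %ₘ fK`. `T` of `bad_x`. For `x0 : ZMod p` with image `x ∉ T` (at least `p - 28` of them; the map `ZMod p → K` is injective) and `y ∈ S` (`four_roots`):
`f_y(x, y) ≠ 0`, `z = y ^ p` is also a root (`frob_eval`) and `z ≠ y` (`frob_fixed`: otherwise `y` is in `ZMod p` and `(x0, y0)` is a point as wanted). `Vn fK x y 23 h`: for `k < 23`, `(Dd fK)^[k] h = ∑ (Dd fK)^[k] (a i j) * (C (X ^ i) * X ^ j) ^ p` (`Dd_iter_sum`, `Dd_iter_mul_pow_p`), with value at `(x, y)`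
`∑ (Dd^[k] (a i j))(x, y) * (x ^ p) ^ i * (y ^ p) ^ j = ∑ (Dd^[k] (a i j))(x, y) x ^ i z ^ j` (`x ^ p = x`), `= ∑_{j < 3} (Cd fK a k j)(x, y) z ^ j` by `gz_root`, `= 0` as `fK ∣ Cd` and `fK(x, y) = 0`. So `Vn fK x y 23 h'` (`h = h' + fK * _`, `Vn_self_mul`, `Vn.sub`). By `dvd_of_Vn` (`23 ≤ p`) `(X - C x) ^ 23 ∣ h'.coeff b`, for at
least `p - 28` different `x`, so the product (pairwise coprime: `Finset.prod_dvd_of_coprime`) divides `h'.coeff b`, which has degree `≤ 1600 + 17 p + 3 p` (`TD.mul`, `TD.pow`, `TD_mod`), `< 23 (p - 28)` as `3 p > 2244`: `h'.coeff b = 0`. So `h' = 0`, `fK ∣ h`, and `indep_pow` (`A = 1600`, `6412 < p`) gives `a i j = 0` for all `i, j`: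
contradiction. -/
theorem stepanov_quartic (p : ℕ) [Fact p.Prime] (hp : 6500 ≤ p) (f : (ZMod p)[X][X]) (hf : Qr f)
    (hi : Irreducible (fK p f)) : ∃ x y : ZMod p, f.evalEval x y = 0 ∧ (derivative f).evalEval x y ≠ 0 := by
  by_contra hno
  have hp' := (Fact.out : p.Prime)
  have hfK := QS7_Qr p hf
  have hinj : Function.Injective (algebraMap (ZMod p) (AlgebraicClosure (ZMod p))) :=
    (algebraMap (ZMod p) (AlgebraicClosure (ZMod p))).injective
  obtain ⟨a, ⟨i, j, hij⟩, haT, had, hadvd⟩ := exists_system hfK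
  obtain ⟨T, hT, hTy⟩ := bad_x p (by omega) hfK hi
  have hgood : ∀ x0 : ZMod p, algebraMap (ZMod p) (AlgebraicClosure (ZMod p)) x0 ∉ T → ∀ b,
      (X - C (algebraMap (ZMod p) (AlgebraicClosure (ZMod p)) x0)) ^ 23 ∣
        ((∑ i : Fin 18, ∑ j : Fin 4, a i j * (C (X ^ (i : ℕ)) * X ^ (j : ℕ)) ^ p) %ₘ fK p f).coeff b := by
    intro x0 hx0 b
    obtain ⟨S, hS, hSf⟩ := four_roots hfK (hTy _ · hx0)
    refine dvd_of_Vn S hS (degree_mod hfK _) (fun y hy => hTy _ y hx0 (hSf y hy)) (fun l h1 h2 h3 => ?_)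
      (fun y hy => ?_) b
    · rw [CharP.cast_eq_zero_iff _ p] at h3
      exact absurd (Nat.le_of_dvd (by omega) h3) (by omega)
    · have hne : y ^ p ≠ y := by
        intro hyp
        obtain ⟨y0, rfl⟩ := frob_fixed p y hyp
        refine hno ⟨x0, y0, ?_, ?_⟩
        · have h1 := hSf _ hy
          rw [QS7_base, map_eq_zero] at h1
          exact h1
        · have h1 := hTy _ _ hx0 (hSf _ hy)
          rw [QS7_derivative, QS7_base] at h1
          intro h2
          exact h1 (by rw [h2, map_zero])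
      have hv := QS7_vn p hfK (hSf y hy) (by rw [frob_eval, hSf y hy, zero_pow hp'.ne_zero]) hne
        (by rw [← map_pow, ZMod.pow_card]) hadvd
      have hdiv := modByMonic_add_div (∑ i : Fin 18, ∑ j : Fin 4, a i j * (C (X ^ (i : ℕ)) * X ^ (j : ℕ)) ^ p) (fK p f)
      have h' := Vn.sub hv (Vn_self_mul (hSf y hy)
        ((∑ i : Fin 18, ∑ j : Fin 4, a i j * (C (X ^ (i : ℕ)) * X ^ (j : ℕ)) ^ p) /ₘ fK p f) 23)
      rw [← eq_sub_iff_add_eq] at hdiv
      rw [hdiv]
      exact h'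
  have hcard : p ≤ (univ.filter fun x0 : ZMod p => algebraMap (ZMod p) (AlgebraicClosure (ZMod p)) x0 ∉ T).card + 28 := by
    have h1 : (univ.filter fun x0 : ZMod p => ¬ algebraMap (ZMod p) (AlgebraicClosure (ZMod p)) x0 ∉ T).card ≤ 28 := by
      refine le_trans ?_ hT
      refine Finset.card_le_card_of_injOn (algebraMap (ZMod p) (AlgebraicClosure (ZMod p))) ?_ hinj.injOn
      intro x0 hx0
      have := (mem_filter.1 hx0).2
      exact not_not.1 this
    have h2 := Finset.card_filter_add_card_filter_not (s := (univ : Finset (ZMod p)))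
      (fun x0 : ZMod p => algebraMap (ZMod p) (AlgebraicClosure (ZMod p)) x0 ∉ T)
    rw [card_univ, ZMod.card] at h2
    omega
  have hzero : ∀ b, ((∑ i : Fin 18, ∑ j : Fin 4, a i j * (C (X ^ (i : ℕ)) * X ^ (j : ℕ)) ^ p) %ₘ fK p f).coeff b = 0 := by
    intro b
    refine QS7_zero (univ.filter fun x0 : ZMod p => algebraMap (ZMod p) (AlgebraicClosure (ZMod p)) x0 ∉ T) _ hinj
      (fun x0 hx0 => hgood x0 (mem_filter.1 hx0).2 b) ?_
    have := QS5_coeff_le (TD_mod hfK (QS7_TD p haT)) b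
    omega
  have hmod : (∑ i : Fin 18, ∑ j : Fin 4, a i j * (C (X ^ (i : ℕ)) * X ^ (j : ℕ)) ^ p) %ₘ fK p f = 0 := by
    ext1 b
    rw [hzero b, coeff_zero]
  exact hij (indep_pow p hfK hi (A := 1600) (by omega) a haT had ((modByMonic_eq_zero_iff_dvd hfK.mo).1 hmod) i j)

end HNQ
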