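import Pool.Agent.Lib.MP_10e784_agQ.QR2
import Pool.Agent.Lib.MP_10e784_agQ.QS7

/-! A smooth point modulo `p`. -/

set_option autoImplicit false

open Classical

namespace HNQ

open Finset Polynomial FGO FQQ HNF

section

variable {K : Type} [Field K]

/-- Proof. The coefficients of `fP`: `fP = Y⁴ + 2 a1 Y³ + (a1² + 2 a0 - V w.1) Y² + ..`, each coefficient of `Y ^ j` is a polynomial in `x` of degree `≤ 4 - j`. Best by closure: `TD 2 (aP c)` and `TD 4` of the square (`TD.mul`), `TD 2 (C (..))`, `TD 2 (w ..)`, `TD.sub` (file QS1; `TD.add`, `TD_C`, `TD_X_pow`). -/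
theorem fP_TD (c : Fin 6 → K) (v w : K × K × K) : TD 4 (fP c v w) := by
  have hX1 : TD 1 (X : K[X][X]) := by
    have := TD_X_pow (K := K) 1
    rwa [pow_one] at this
  have h1 : TD 2 (aP c) := by
    unfold aP
    refine TD.add (TD.add (TD_X_pow 2) ?_) (TD_C _ natDegree_quadratic_le)
    exact TD.mul (TD_C _ natDegree_linear_le) hX1
  have h2 : TD 2 (C (C ((c 5)⁻¹ ^ 2) * (C v.1 * X ^ 2 + C v.2.1 * X + C v.2.2)) : K[X][X]) :=
    TD_C _ ((natDegree_C_mul_le _ _).trans natDegree_quadratic_le)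
  have h3 : TD 2 (C (C w.1) * X ^ 2 + C (C w.2.1) * X + C (C w.2.2) : K[X][X]) := by
    have e0 : ∀ a : K, TD 0 (C (C a) : K[X][X]) := fun a => TD_C _ (by rw [natDegree_C])
    refine TD.add (TD.add ?_ ?_) (TD.mono (e0 _) (by norm_num))
    · exact TD.mono (TD.mul (e0 _) (TD_X_pow 2)) (by norm_num)
    · exact TD.mono (TD.mul (e0 _) hX1) (by norm_num)
  unfold fP
  exact TD.sub (TD.pow h1 2) (TD.mul h2 h3)

theorem fP_Qr (c : Fin 6 → K) (v w : K × K × K) : Qr (fP c v w) := ⟨(fP_monic c v w).1, (fP_monic c v w).2, fP_TD c v w⟩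

/-- Proof. Evaluate (`simp [fP, aP, evalEval]`, `field_simp`, `ring`). -/
theorem fP_eval (c : Fin 6 → K) (v w : K × K × K) (h5 : c 5 ≠ 0) (x y : K) :
    (fP c v w).evalEval x y * c 5 ^ 2 = Gq c v w x y := by
  unfold Gq hA qv fP aP evalEval
  simp only [eval_add, eval_sub, eval_mul, eval_pow, eval_C, eval_X]
  field_simp
  ring

theorem fP_deriv (c : Fin 6 → K) (v w : K × K × K) (h5 : c 5 ≠ 0) (x y : K) :
    (derivative (fP c v w)).evalEval x y * c 5 ^ 2 = Gy c v w x y := by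
  unfold Gy hA qv fP aP evalEval
  simp only [derivative_add, derivative_sub, derivative_mul, derivative_X_pow, derivative_pow, derivative_C,
    derivative_X, eval_add, eval_sub, eval_mul, eval_pow, eval_C, eval_X, eval_one, eval_zero, eval_natCast,
    Nat.cast_ofNat, eval_ofNat, map_ofNat, Nat.add_one_sub_one, pow_one, mul_one, zero_mul, mul_zero, zero_add, add_zero]
  field_simp
  ring

end

/-- Proof. `map` of the explicit polynomial: `simp [fK, fP, aP]`. -/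
theorem fK_fP (p : ℕ) [Fact p.Prime] (c : Fin 6 → ZMod p) (v w : ZMod p × ZMod p × ZMod p) :
    fK p (fP c v w) = fP (fun i => iK p (c i)) (mV (iK p) v) (mV (iK p) w) := by
  unfold fK fP aP mV
  simp only [Polynomial.map_add, Polynomial.map_sub, Polynomial.map_mul, Polynomial.map_pow, Polynomial.map_C,
    Polynomial.map_X, coe_mapRingHom, map_div₀, map_pow, map_inv₀]

/-- Proof. `irr_fP` over the algebraic closure, `stepanov_quartic`, `fP_eval`, `fP_deriv`. (`iK p` is injective; `ds (mV φ v) = φ (ds v)`, `Uq`, `Wq` similarly: `unfold`, `map_sub`, ..) -/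
theorem nd_point5 (p : ℕ) [Fact p.Prime] (hp : 6500 ≤ p) (c : Fin 6 → ZMod p) (v w : ZMod p × ZMod p × ZMod p)
    (h5 : c 5 ≠ 0) (hv : v.1 ≠ 0) (hw : w.1 ≠ 0) (hdv : ds v ≠ 0) (hdw : ds w ≠ 0) (hB : BdF c v w) : Bd1 p c v w := by
  by_contra hn
  have hn2 : ¬ (Uq c v w = 0 ∧ Wq c v w = 0) := fun h => hn (Or.inr (Or.inl h))
  have hn3 : ¬ Two (fun i => iK p (c i)) (mV (iK p) v) (mV (iK p) w) := fun h => hn (Or.inr (Or.inr h))
  have hinj : ∀ a : ZMod p, iK p a = 0 → a = 0 := fun a ha => (map_eq_zero (iK p)).1 ha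
  have h2 : (2 : Kp p) ≠ 0 := by
    intro h
    have h1 : iK p 2 = 0 := by rw [map_ofNat]; exact h
    have h3 : ((2 : ℕ) : ZMod p) = 0 := by
      rw [Nat.cast_ofNat]
      exact hinj _ h1
    rw [ZMod.natCast_eq_zero_iff] at h3
    have := Nat.le_of_dvd (by norm_num) h3
    omega
  have eds : ∀ u : ZMod p × ZMod p × ZMod p, ds (mV (iK p) u) = iK p (ds u) := by
    intro u
    unfold ds mV
    simp only [map_sub, map_mul, map_pow, map_ofNat]
  have eU : Uq (fun i => iK p (c i)) (mV (iK p) v) (mV (iK p) w) = iK p (Uq c v w) := by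
    unfold Uq mV
    simp only [map_sub, map_mul, map_ofNat]
  have eW : Wq (fun i => iK p (c i)) (mV (iK p) v) (mV (iK p) w) = iK p (Wq c v w) := by
    unfold Wq mV
    simp only [map_sub, map_mul, map_ofNat]
  have hirr : Irreducible (fK p (fP c v w)) := by
    rw [fK_fP]
    refine irr_fP h2 _ _ _ (fun h => h5 (hinj _ h)) (fun h => hv (hinj _ h)) (fun h => hw (hinj _ h)) ?_ ?_ ?_ hn3
    · rw [eds]
      exact fun h => hdv (hinj _ h)
    · rw [eds]
      exact fun h => hdw (hinj _ h)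
    · rw [eU, eW]
      exact fun h => hn2 ⟨hinj _ h.1, hinj _ h.2⟩
  obtain ⟨x, y, h0, h1⟩ := stepanov_quartic p hp (fP c v w) (fP_Qr c v w) hirr
  have e0 := fP_eval c v w h5 x y
  rw [h0, zero_mul] at e0
  have e1 := fP_deriv c v w h5 x y
  rw [(hB x y e0.symm).2] at e1
  exact mul_ne_zero h1 (pow_ne_zero 2 h5) e1

/-- the exchange of `x` and `y` -/
theorem hA_sw {F : Type} [CommRing F] (c : Fin 6 → F) (x y z : F) : hA (sw c) y x z = hA c x y z := by
  show c 0 * z ^ 2 + c 2 * y * z + c 1 * x * z + c 3 * y * x + c 5 * y ^ 2 + c 4 * x ^ 2 =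
    c 0 * z ^ 2 + c 1 * x * z + c 2 * y * z + c 3 * x * y + c 4 * x ^ 2 + c 5 * y ^ 2
  ring

theorem QR3_Gq_sw {F : Type} [CommRing F] (c : Fin 6 → F) (v w : F × F × F) (x y : F) :
    Gq (sw c) w v x y = Gq c v w y x := by
  unfold Gq
  rw [hA_sw]
  ring

theorem QR3_Gx_sw {F : Type} [CommRing F] (c : Fin 6 → F) (v w : F × F × F) (x y : F) :
    Gx (sw c) w v x y = Gy c v w y x := by
  unfold Gx Gy
  rw [hA_sw]
  show 2 * hA c y x 1 * (c 2 + c 3 * y + 2 * c 5 * x) - (2 * w.1 * x + w.2.1) * qv v y 1 =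
    2 * hA c y x 1 * (c 2 + c 3 * y + 2 * c 5 * x) - qv v y 1 * (2 * w.1 * x + w.2.1)
  ring

theorem QR3_Gy_sw {F : Type} [CommRing F] (c : Fin 6 → F) (v w : F × F × F) (x y : F) :
    Gy (sw c) w v x y = Gx c v w y x := by
  unfold Gx Gy
  rw [hA_sw]
  show 2 * hA c y x 1 * (c 1 + c 3 * x + 2 * c 4 * y) - qv w x 1 * (2 * v.1 * y + v.2.1) =
    2 * hA c y x 1 * (c 1 + c 3 * x + 2 * c 4 * y) - (2 * v.1 * y + v.2.1) * qv w x 1
  ring

theorem BdF_sw {F : Type} [CommRing F] {c : Fin 6 → F} {v w : F × F × F} (h : BdF c v w) : BdF (sw c) w v := by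
  intro x y hG
  rw [QR3_Gq_sw] at hG
  obtain ⟨h1, h2⟩ := h y x hG
  exact ⟨by rw [QR3_Gx_sw]; exact h2, by rw [QR3_Gy_sw]; exact h1⟩

theorem Bd1_sw (p : ℕ) [Fact p.Prime] {c : Fin 6 → ZMod p} {v w : ZMod p × ZMod p × ZMod p}
    (h : Bd1 p (sw c) w v) : Bd1 p c v w := by
  rcases h with h | h | h
  · exact Or.inl ⟨h.2, h.1⟩
  · refine Or.inr (Or.inl ⟨?_, ?_⟩)
    · have e : Uq c v w = Wq (sw c) w v := by
        show 2 * v.1 * w.1 * c 1 - 2 * w.1 * v.2.1 * c 4 - v.1 * w.2.1 * c 3 =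
          2 * w.1 * v.1 * c 1 - 2 * w.1 * v.2.1 * c 4 - v.1 * w.2.1 * c 3
        ring
      rw [e]
      exact h.2
    · have e : Wq c v w = Uq (sw c) w v := by
        show 2 * v.1 * w.1 * c 2 - 2 * v.1 * w.2.1 * c 5 - w.1 * v.2.1 * c 3 =
          2 * w.1 * v.1 * c 2 - 2 * v.1 * w.2.1 * c 5 - w.1 * v.2.1 * c 3
        ring
      rw [e]
      exact h.1
  · have e : (fun i => iK p (sw c i)) = sw (fun i => iK p (c i)) := by
      funext i
      fin_cases i <;> rfl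
    rw [e] at h
    obtain ⟨r, q, r', q', hne, h1, h2, h3, h4, h5, h6⟩ := h
    refine Or.inr (Or.inr ⟨q, r, q', r', fun hh => hne ⟨hh.2, hh.1⟩, h2, h1, h4, h3, ?_, ?_⟩)
    · rw [← hA_sw]
      exact h5
    · rw [← hA_sw]
      exact h6

/-- (M1) Proof. If `c 5 ≠ 0`: `nd_point5`. If `c 5 = 0` and `c 4 = 0`: first clause. Otherwise `sw c 5 = c 4 ≠ 0`: `BdF_sw`, `nd_point5` for `(sw c, w, v)`, `Bd1_sw`. -/
theorem nd_point (p : ℕ) [Fact p.Prime] (hp : 6500 ≤ p) (c : Fin 6 → ZMod p) (v w : ZMod p × ZMod p × ZMod p)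
    (hv : v.1 ≠ 0) (hw : w.1 ≠ 0) (hdv : ds v ≠ 0) (hdw : ds w ≠ 0) (hB : BdF c v w) : Bd1 p c v w := by
  by_cases h5 : c 5 = 0
  · by_cases h4 : c 4 = 0
    · exact Or.inl ⟨h4, h5⟩
    · exact Bd1_sw p (nd_point5 p hp (sw c) w v h4 hw hv hdw hdv (BdF_sw hB))
  · exact nd_point5 p hp c v w h5 hv hw hdv hdw hB

end HNQ
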