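import Pool.Agent.Lib.MP_10e784_agQ.QS1

/-! Orders of vanishing. -/

set_option autoImplicit false

open Classical

namespace HNQ

open Finset Polynomial

section

variable {K : Type} [Field K]

theorem QS2_iter_add (f g h : K[X][X]) (j : ℕ) : (Dd f)^[j] (g + h) = (Dd f)^[j] g + (Dd f)^[j] h := by
  induction j generalizing g h with
  | zero => rfl
  | succ j ih => rw [Function.iterate_succ_apply, Function.iterate_succ_apply, Function.iterate_succ_apply, Dd_add, ih]

theorem QS2_iter_sub (f g h : K[X][X]) (j : ℕ) : (Dd f)^[j] (g - h) = (Dd f)^[j] g - (Dd f)^[j] h := by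
  induction j generalizing g h with
  | zero => rfl
  | succ j ih => rw [Function.iterate_succ_apply, Function.iterate_succ_apply, Function.iterate_succ_apply, Dd_sub, ih]

theorem Vn.add {f g h : K[X][X]} {x y : K} {k : ℕ} (hg : Vn f x y k g) (hh : Vn f x y k h) : Vn f x y k (g + h) := by
  intro j hj
  rw [QS2_iter_add, evalEval_add, hg j hj, hh j hj, add_zero]

theorem Vn.sub {f g h : K[X][X]} {x y : K} {k : ℕ} (hg : Vn f x y k g) (hh : Vn f x y k h) : Vn f x y k (g - h) := by
  intro j hj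
  rw [QS2_iter_sub, evalEval_sub, hg j hj, hh j hj, sub_zero]

theorem Vn.mono {f g : K[X][X]} {x y : K} {k l : ℕ} (hg : Vn f x y k g) (h : l ≤ k) : Vn f x y l g :=
  fun j hj => hg j (lt_of_lt_of_le hj h)

theorem Vn_succ {f g : K[X][X]} {x y : K} {k : ℕ} : Vn f x y (k + 1) g ↔ g.evalEval x y = 0 ∧ Vn f x y k (Dd f g) := by
  constructor
  · intro h
    refine ⟨h 0 (Nat.succ_pos k), ?_⟩
    intro j hj
    have := h (j + 1) (Nat.succ_lt_succ hj)
    rwa [Function.iterate_succ_apply] at this
  · rintro ⟨h0, h1⟩ j hj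
    rcases j with _ | j
    · exact h0
    · rw [Function.iterate_succ_apply]
      exact h1 j (Nat.lt_of_succ_lt_succ hj)

/-- Proof. Induction on `k` (for all `g`, `h`), `Vn_succ`, `Dd_mul`, `Vn.add`. -/
theorem Vn.mul {f g : K[X][X]} {x y : K} {k : ℕ} (hg : Vn f x y k g) (h : K[X][X]) : Vn f x y k (g * h) := by
  induction k generalizing g h with
  | zero => intro j hj; exact absurd hj (Nat.not_lt_zero j)
  | succ k ih =>
    have h1 := Vn_succ.mp hg
    refine Vn_succ.mpr ⟨?_, ?_⟩
    · rw [evalEval_mul, h1.1, zero_mul]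
    · rw [Dd_mul]
      exact (ih h1.2 h).add (ih (hg.mono (Nat.le_succ k)) (Dd f h))

/-- Proof. `Dd_iter_self_mul`. -/
theorem Vn_self_mul {f : K[X][X]} {x y : K} (hf : f.evalEval x y = 0) (g : K[X][X]) (k : ℕ) : Vn f x y k (f * g) := by
  intro j _
  rw [Dd_iter_self_mul, evalEval_mul, hf, zero_mul]

theorem QS2_A {f : K[X][X]} {x y : K} (k : ℕ) (u h : K[X][X]) (hh : Vn f x y k h) :
    ((Dd f)^[k] (u * h)).evalEval x y = u.evalEval x y * ((Dd f)^[k] h).evalEval x y := by
  induction k generalizing u h with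
  | zero => exact evalEval_mul x y u h
  | succ k ih =>
    rw [Function.iterate_succ_apply, Function.iterate_succ_apply, Dd_mul, QS2_iter_add, evalEval_add]
    have h1 : ((Dd f)^[k] (Dd f u * h)).evalEval x y = 0 := by
      rw [mul_comm]
      exact hh.mul (Dd f u) k (Nat.lt_succ_self k)
    rw [h1, zero_add]
    exact ih u (Dd f h) (Vn_succ.mp hh).2

theorem QS2_Dxi (f : K[X][X]) (x : K) : Dd f (C (X - C x)) = derivative f := by
  rw [Dd_C, derivative_X_sub_C, C_1, mul_one]

theorem QS2_xi (x y : K) : (C (X - C x) : K[X][X]).evalEval x y = 0 := by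
  rw [evalEval_C, eval_sub, eval_X, eval_C, sub_self]

theorem QS2_B {f : K[X][X]} {x y : K} (k : ℕ) (h : K[X][X]) (hh : Vn f x y k h) :
    ((Dd f)^[k + 1] (C (X - C x) * h)).evalEval x y
      = ((k : K) + 1) * (derivative f).evalEval x y * ((Dd f)^[k] h).evalEval x y := by
  induction k generalizing h with
  | zero =>
    rw [Function.iterate_succ_apply, Function.iterate_zero_apply, Function.iterate_zero_apply, Dd_mul, QS2_Dxi,
      evalEval_add, evalEval_mul, evalEval_mul, QS2_xi, Nat.cast_zero]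
    ring
  | succ k ih =>
    rw [Function.iterate_succ_apply, Dd_mul, QS2_Dxi, QS2_iter_add, evalEval_add, QS2_A (k + 1) _ _ hh,
      ih (Dd f h) (Vn_succ.mp hh).2, ← Function.iterate_succ_apply, Nat.cast_succ]
    ring

/-- Proof. `ξ = C (X - C x)` vanishes at the point, `Dd f ξ = derivative f`. By induction on `k` one has for every `h`:
`((Dd f)^[k + 1] (ξ * h))(P) = ∑ j in range k, (stuff_j) * ((Dd f)^[j] h)(P) + (k + 1) f_y(P) ((Dd f)^[k] h)(P)`; most easily in the form: if `Vn f x y k h` then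
`((Dd f)^[k + 1] (ξ * h)).evalEval x y = (k + 1) * (derivative f).evalEval x y * ((Dd f)^[k] h).evalEval x y`. (Induction on `k`: `Dd f (ξ h) = f_y h + ξ Dd f h`; `(Dd f)^[k] (f_y * h) (P) = f_y(P) (Dd f)^[k] h (P)` if `Vn k h` [a lemma proved by induction on `k` for all factors `u` in the place of `f_y`:
`(Dd f)^[k] (u * h) (P) = u(P) (Dd f)^[k] h (P)` if `Vn k h`, as `Dd f (u h) = (Dd f u) h + u Dd f h`, the first term is killed by `Vn.mul`], and the induction hypothesis for `Dd f h`.) Then: `Vn (k + 1) (ξ h)` implies `Vn k h` by induction on `k`. -/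
theorem Vn_xi {f h : K[X][X]} {x y : K} {k : ℕ} (hy : (derivative f).evalEval x y ≠ 0)
    (hk : ∀ j : ℕ, 1 ≤ j → j ≤ k → (j : K) ≠ 0) (h1 : Vn f x y (k + 1) (C (X - C x) * h)) : Vn f x y k h := by
  induction k with
  | zero => intro j hj; exact absurd hj (Nat.not_lt_zero j)
  | succ k ih =>
    have h2 : Vn f x y k h := ih (fun j hj1 hj2 => hk j hj1 (Nat.le_succ_of_le hj2)) (h1.mono (Nat.le_succ _))
    have h3 := QS2_B k h h2
    rw [h1 (k + 1) (Nat.lt_succ_self _)] at h3
    have h4 : ((k : K) + 1) ≠ 0 := by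
      have := hk (k + 1) (Nat.succ_le_succ (Nat.zero_le k)) le_rfl
      rwa [Nat.cast_succ] at this
    have h5 : ((Dd f)^[k] h).evalEval x y = 0 := by
      rcases mul_eq_zero.mp h3.symm with h6 | h6
      · exact absurd h6 (mul_ne_zero h4 hy)
      · exact h6
    intro j hj
    rcases Nat.lt_succ_iff_lt_or_eq.mp hj with h6 | h6
    · exact h2 j h6
    · rw [h6]; exact h5

/-- Proof. Induction on `k`: `L(x) = 0` (`Vn` with `j = 0`), so `L = (X - C x) * L'`, and `Vn_xi`. -/
theorem Vn_C {f : K[X][X]} {L : K[X]} {x y : K} {k : ℕ} (hy : (derivative f).evalEval x y ≠ 0)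
    (hk : ∀ j : ℕ, 1 ≤ j → j < k → (j : K) ≠ 0) (h1 : Vn f x y k (C L)) : (X - C x) ^ k ∣ L := by
  induction k generalizing L with
  | zero => rw [pow_zero]; exact one_dvd L
  | succ k ih =>
    have h2 : (C L : K[X][X]).evalEval x y = 0 := h1 0 (Nat.succ_pos k)
    rw [evalEval_C] at h2
    obtain ⟨L', hL'⟩ := dvd_iff_isRoot.mpr h2
    have h3 : Vn f x y (k + 1) (C (X - C x) * C L') := by
      rw [← C_mul, ← hL']; exact h1
    have h4 : Vn f x y k (C L') := Vn_xi hy (fun j hj1 hj2 => hk j hj1 (Nat.lt_succ_of_le hj2)) h3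
    have h5 := ih (fun j hj1 hj2 => hk j hj1 (Nat.lt_succ_of_lt hj2)) h4
    rw [hL', pow_succ']
    exact mul_dvd_mul_left _ h5

/-- Proof. Induction on `M`. At each of the four points `h(x, y) = 0`; the polynomial `h.map (evalRingHom x)` of degree `< 4` has four roots, so it is zero and all coefficients of `h` vanish at `x`: `h = C (X - C x) * h'`, `h'.degree < 4`, with `h.coeff b = (X - C x) * h'.coeff b`; `Vn_xi` and the induction hypothesis for `h'`. -/
theorem dvd_of_Vn {f h : K[X][X]} {x : K} {M : ℕ} (S : Finset K) (hS : S.card = 4) (hd : h.degree < 4)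
    (hy : ∀ y ∈ S, (derivative f).evalEval x y ≠ 0) (hk : ∀ j : ℕ, 1 ≤ j → j < M → (j : K) ≠ 0)
    (hv : ∀ y ∈ S, Vn f x y M h) (b : ℕ) : (X - C x) ^ M ∣ h.coeff b := by
  induction M generalizing h with
  | zero => rw [pow_zero]; exact one_dvd _
  | succ M ih =>
    have h1 : h.map (evalRingHom x) = 0 := by
      apply eq_zero_of_degree_lt_of_eval_finset_eq_zero S
      · rw [hS]
        exact lt_of_le_of_lt degree_map_le hd
      · intro y hyS
        rw [map_evalRingHom_eval]
        exact hv y hyS 0 (Nat.succ_pos M)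
    have h2 : C (X - C x) ∣ h := by
      rw [C_dvd_iff_dvd_coeff]
      intro i
      rw [dvd_iff_isRoot]
      have h3 : (h.map (evalRingHom x)).coeff i = 0 := by rw [h1, coeff_zero]
      rw [coeff_map] at h3
      exact h3
    obtain ⟨h', hh'⟩ := h2
    have h4 : h'.degree < 4 := by
      have : h.degree = h'.degree := by
        rw [hh', degree_C_mul (X_sub_C_ne_zero x)]
      rw [← this]; exact hd
    have h5 : ∀ y ∈ S, Vn f x y M h' := by
      intro y hyS
      apply Vn_xi (hy y hyS) (fun j hj1 hj2 => hk j hj1 (Nat.lt_succ_of_le hj2))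
      rw [← hh']
      exact hv y hyS
    have h6 := ih h4 (fun j hj1 hj2 => hk j hj1 (Nat.lt_succ_of_lt hj2)) h5
    rw [hh', coeff_C_mul, pow_succ']
    exact mul_dvd_mul_left _ h6

end

end HNQ
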