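import Pool.Agent.Lib.MP_10e784_agQ.QS1

/-! Arrays of coefficients; reduction modulo the quartic. -/

set_option autoImplicit false

open Classical

namespace HNQ

open Finset Polynomial

section

variable {K : Type} [Field K]

theorem P2_add {n : ℕ} (u u' : Fin 4 → Fin n → K) : P2 (u + u') = P2 u + P2 u' := by
  simp only [P2, Pi.add_apply, map_add, Finset.sum_add_distrib]

theorem P2_smul {n : ℕ} (c : K) (u : Fin 4 → Fin n → K) : P2 (c • u) = C (C c) * P2 u := by
  simp only [P2, Pi.smul_apply, smul_eq_mul, Finset.mul_sum, C_mul_monomial]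

theorem coeff_P2 {n : ℕ} (u : Fin 4 → Fin n → K) (b a : ℕ) :
    ((P2 u).coeff b).coeff a = if h : b < 4 ∧ a < n then u ⟨b, h.1⟩ ⟨a, h.2⟩ else 0 := by
  simp only [P2, finsetSum_coeff, coeff_monomial]
  split_ifs with h
  · rw [Finset.sum_eq_single (⟨b, h.1⟩ : Fin 4), Finset.sum_eq_single (⟨a, h.2⟩ : Fin n)]
    · simp
    · intro x _ hx
      have : (x : ℕ) ≠ a := fun e => hx (Fin.ext e)
      simp [coeff_monomial, this]
    · simp
    · intro x _ hx
      have : (x : ℕ) ≠ b := fun e => hx (Fin.ext e)
      simp [this]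
    · simp
  · refine Finset.sum_eq_zero fun x _ => Finset.sum_eq_zero fun y _ => ?_
    by_cases h1 : (x : ℕ) = b
    · by_cases h2 : (y : ℕ) = a
      · exact absurd ⟨h1 ▸ x.2, h2 ▸ y.2⟩ h
      · simp [h1, coeff_monomial, h2]
    · simp [h1]

theorem P2_degree {n : ℕ} (u : Fin 4 → Fin n → K) : (P2 u).degree < 4 := by
  refine (degree_lt_iff_coeff_zero (P2 u) 4).2 fun m hm => ?_
  ext a
  rw [coeff_P2, dif_neg (by omega)]
  simp

theorem P2_eq_zero {n : ℕ} {u : Fin 4 → Fin n → K} (h : P2 u = 0) : u = 0 := by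
  funext b a
  have := coeff_P2 u b a
  rw [h, dif_pos ⟨b.2, a.2⟩] at this
  simpa using this.symm

/-- Proof. `a < n`, `b < 4`: `a + b ≤ n + 2`. -/
theorem TD_P2 {n : ℕ} (u : Fin 4 → Fin n → K) : TD (n + 2) (P2 u) := by
  intro b hb
  have hb4 : b < 4 := by
    by_contra hc
    apply hb
    ext a
    rw [coeff_P2, dif_neg (by omega)]
    simp
  have hn : ((P2 u).coeff b).natDegree < n := by
    by_contra hc
    apply hb
    rw [← leadingCoeff_eq_zero, leadingCoeff, coeff_P2, dif_neg (by omega)]
  omega

theorem co_add {n : ℕ} (g h : K[X][X]) : co n (g + h) = co n g + co n h := by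
  funext b a
  simp [co]

theorem co_smul {n : ℕ} (c : K) (g : K[X][X]) : co n (C (C c) * g) = c • co n g := by
  funext b a
  simp [co, coeff_C_mul]

/-- Proof. A polynomial of degree `< 4` in `y` all of whose coefficients have degree `< n` is determined by the array of its coefficients. -/
theorem co_eq_zero {n m : ℕ} {g : K[X][X]} (hd : g.degree < 4) (ht : TD m g) (hm : m < n) (h : co n g = 0) : g = 0 := by
  ext b a
  rw [coeff_zero, coeff_zero]
  by_cases hb : b < 4
  · by_cases hc : g.coeff b = 0
    · rw [hc, coeff_zero]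
    · have h1 := ht b hc
      by_cases ha : a < n
      · have := congrFun (congrFun h ⟨b, hb⟩) ⟨a, ha⟩
        simpa [co] using this
      · exact coeff_eq_zero_of_natDegree_lt (by omega)
  · rw [(degree_lt_iff_coeff_zero g 4).1 (by exact_mod_cast hd) b (by omega), coeff_zero]

/-- the division with a bound for the total degree -/
theorem QS3_div {f : K[X][X]} (hf : Qr f) (n : ℕ) : ∀ (d : ℕ) (g : K[X][X]), g.natDegree ≤ d → TD n g →
    ∃ q r : K[X][X], g = f * q + r ∧ r.degree < 4 ∧ TD n r := by
  intro d
  induction d with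
  | zero =>
    intro g hg ht
    refine ⟨0, g, by ring, ?_, ht⟩
    exact lt_of_le_of_lt (degree_le_of_natDegree_le hg) (by norm_num)
  | succ d ih =>
    intro g hg ht
    by_cases h4 : g.degree < 4
    · exact ⟨0, g, by ring, h4, ht⟩
    have hg0 : g ≠ 0 := by
      rintro rfl
      exact h4 (by rw [degree_zero]; exact WithBot.bot_lt_coe 4)
    have hn4 : 4 ≤ g.natDegree := by
      by_contra hc
      apply h4
      rw [degree_eq_natDegree hg0]
      exact_mod_cast (by omega : g.natDegree < 4)
    set e := g.natDegree with he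
    set t : K[X][X] := C (g.coeff e) * X ^ (e - 4) with htdef
    have hlc : g.coeff e ≠ 0 := by
      rw [he]
      exact leadingCoeff_ne_zero.2 hg0
    have hTt : TD (n - 4) t := by
      intro b hb
      rw [htdef, coeff_C_mul, coeff_X_pow] at hb ⊢
      split_ifs at hb ⊢ with hbe
      · have := ht e hlc
        rw [mul_one]
        omega
      · simp at hb
    have hnn : 4 ≤ n := by
      have := ht e hlc
      omega
    have hT : TD n (f * t) := by
      have := (hf.td).mul hTt
      exact TD.mono this (by omega)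
    have hsub : TD n (g - f * t) := TD.sub ht hT
    have hdeg : (g - f * t).natDegree ≤ d := by
      have hft : (f * t).natDegree ≤ e := by
        refine (natDegree_mul_le).trans ?_
        have h1 : t.natDegree ≤ e - 4 := by
          rw [htdef]
          exact natDegree_C_mul_X_pow_le _ _
        have h2 := hf.dg
        omega
      have hcoe : (f * t).coeff e = g.coeff e := by
        have h1 : (f * t).coeff (4 + (e - 4)) = f.coeff 4 * t.coeff (e - 4) := by
          apply coeff_mul_add_eq_of_natDegree_le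
          · exact hf.dg.le
          · rw [htdef]
            exact natDegree_C_mul_X_pow_le _ _
        rw [show 4 + (e - 4) = e by omega] at h1
        rw [h1]
        have h2 : f.coeff 4 = 1 := by
          have := hf.mo.coeff_natDegree
          rwa [hf.dg] at this
        rw [h2, htdef]
        simp
      rw [natDegree_le_iff_coeff_eq_zero]
      intro m hm
      rw [coeff_sub]
      rcases Nat.lt_or_ge e m with h1 | h1
      · rw [coeff_eq_zero_of_natDegree_lt (he ▸ h1), coeff_eq_zero_of_natDegree_lt (lt_of_le_of_lt hft h1), sub_zero]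
      · have : m = e := by omega
        rw [this, hcoe, sub_self]
    obtain ⟨q, r, h1, h2, h3⟩ := ih (g - f * t) hdeg hsub
    exact ⟨t + q, r, by linear_combination h1, h2, h3⟩

/-- Proof. Strong induction on `natDegree g = d`: if `d < 4` nothing to do. Otherwise `g' = g - C (g.coeff d) * X ^ (d - 4) * f` has smaller degree (in `y`), `TD n g'` (the total degree of `C (g.coeff d) * X ^ (d - 4)` is `≤ n - 4`), and the same remainder. (Or: prove the statement
`TD n g → ∃ q r, g = f * q + r ∧ r.degree < 4 ∧ TD n r` in this way and use `div_modByMonic_unique`.) -/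
theorem TD_mod {f g : K[X][X]} (hf : Qr f) {n : ℕ} (hg : TD n g) : TD n (g %ₘ f) := by
  obtain ⟨q, r, h1, h2, h3⟩ := QS3_div hf n _ g le_rfl hg
  have hfd : f.degree = 4 := by
    rw [degree_eq_natDegree hf.mo.ne_zero, hf.dg]
    rfl
  have h4 : r + f * q = g := by rw [h1]; ring
  have := (div_modByMonic_unique q r hf.mo ⟨h4, by rw [hfd]; exact h2⟩).2
  rw [this]
  exact h3

theorem degree_mod {f : K[X][X]} (hf : Qr f) (g : K[X][X]) : (g %ₘ f).degree < 4 := by
  have hfd : f.degree = 4 := by
    rw [degree_eq_natDegree hf.mo.ne_zero, hf.dg]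
    rfl
  rw [← hfd]
  exact degree_modByMonic_lt g hf.mo

theorem QS3_coeff {f : K[X][X]} (hf : Qr f) (i : ℕ) (hi : i ≤ 4) : (f.coeff i).natDegree ≤ 4 - i := by
  by_cases h : f.coeff i = 0
  · rw [h]
    simp
  · have := hf.td i h
    omega

theorem TD_gz {f : K[X][X]} (hf : Qr f) (j : ℕ) : TD 3 (gz f j) := by
  have h1 := QS3_coeff hf 1 (by norm_num)
  have h2 := QS3_coeff hf 2 (by norm_num)
  have h3 := QS3_coeff hf 3 (by norm_num)
  have c1 : TD 3 (C (f.coeff 1) : K[X][X]) := TD_C _ (by omega)
  have c2 : TD 2 (C (f.coeff 2) : K[X][X]) := TD_C _ (by omega)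
  have c3 : TD 1 (C (f.coeff 3) : K[X][X]) := TD_C _ (by omega)
  have x1 : TD 1 (X : K[X][X]) := by
    have := TD_X_pow (K := K) 1
    rwa [pow_one] at this
  have x2 := TD_X_pow (K := K) 2
  have x3 := TD_X_pow (K := K) 3
  unfold gz
  split_ifs
  · exact TD.mono (x1.add c3) (by norm_num)
  · exact TD.mono ((x2.add (TD.mono (c3.mul x1) (by norm_num))).add c2) (by norm_num)
  · exact ((x3.add (TD.mono (c3.mul x2) (by norm_num))).add (TD.mono (c2.mul x1) (by norm_num))).add c1

/-- Proof. `f = X ^ 4 + ∑ b < 4, C (f.coeff b) * X ^ b` (monic of degree 4); evaluate at both points, subtract, cancel `z - y` (`mul_left_cancel₀`, `ring`). -/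
theorem gz_root {f : K[X][X]} (hf : Qr f) {x y z : K} (hy : f.evalEval x y = 0) (hz : f.evalEval x z = 0) (hyz : z ≠ y) :
    z ^ 3 = -((gz f 2).evalEval x y * z ^ 2 + (gz f 1).evalEval x y * z + (gz f 0).evalEval x y) := by
  have hf4 : f.coeff 4 = 1 := by
    have := hf.mo.coeff_natDegree
    rwa [hf.dg] at this
  have hexp : f = C (f.coeff 0) + C (f.coeff 1) * X + C (f.coeff 2) * X ^ 2 + C (f.coeff 3) * X ^ 3 + X ^ 4 := by
    have := f.as_sum_range_C_mul_X_pow
    rw [hf.dg] at this
    simp only [Finset.sum_range_succ, Finset.sum_range_zero, zero_add, pow_zero, mul_one, pow_one, hf4, map_one, one_mul] at this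
    exact this
  have key : ∀ w : K, f.evalEval x w = (f.coeff 0).eval x + (f.coeff 1).eval x * w + (f.coeff 2).eval x * w ^ 2
      + (f.coeff 3).eval x * w ^ 3 + w ^ 4 := by
    intro w
    conv_lhs => rw [hexp]
    simp [evalEval]
  rw [key] at hy hz
  have g2 : (gz f 2).evalEval x y = y + (f.coeff 3).eval x := by
    simp [gz, evalEval]
  have g1 : (gz f 1).evalEval x y = y ^ 2 + (f.coeff 3).eval x * y + (f.coeff 2).eval x := by
    simp [gz, evalEval]
  have g0 : (gz f 0).evalEval x y = y ^ 3 + (f.coeff 3).eval x * y ^ 2 + (f.coeff 2).eval x * y + (f.coeff 1).eval x := by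
    simp [gz, evalEval]
  rw [g2, g1, g0]
  have hne : z - y ≠ 0 := sub_ne_zero.2 hyz
  apply mul_left_cancel₀ hne
  linear_combination hz - hy

end

end HNQ
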