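import Pool.Agent.Lib.MP_10e784_agQ.QS2
import Pool.Agent.Lib.MP_10e784_agQ.QS3

/-! A polynomial of small degree which vanishes to the order `p` at a point of an irreducible quartic is zero. -/

set_option autoImplicit false

open Classical

namespace HNQ

open Finset Polynomial

section

variable {K : Type} [Field K]

/-- the polynomial with coefficients `l` -/
noncomputable def QS4_Lp (n : ℕ) : (Fin n → K) →ₗ[K] K[X] := ∑ i : Fin n, (monomial (i : ℕ)) ∘ₗ LinearMap.proj i

theorem QS4_coeff {n : ℕ} (l : Fin n → K) (a : ℕ) :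
    (QS4_Lp n l).coeff a = if h : a < n then l ⟨a, h⟩ else 0 := by
  rw [QS4_Lp, LinearMap.sum_apply, finsetSum_coeff]
  split_ifs with h
  · rw [Finset.sum_eq_single ⟨a, h⟩]
    · simp
    · intro i _ hi
      have : (i : ℕ) ≠ a := fun h' => hi (Fin.ext h')
      simp [coeff_monomial, this]
    · intro h'
      exact absurd (mem_univ _) h'
  · refine Finset.sum_eq_zero fun i _ => ?_
    have : (i : ℕ) ≠ a := fun h' => h (h' ▸ i.2)
    simp [coeff_monomial, this]

theorem QS4_degree {n : ℕ} (l : Fin n → K) : (QS4_Lp n l).degree < n := by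
  rw [degree_lt_iff_coeff_zero]
  intro a ha
  rw [QS4_coeff, dif_neg (by omega)]

theorem QS4_inj {n : ℕ} {l : Fin n → K} (h : QS4_Lp n l = 0) : l = 0 := by
  funext i
  have h1 := QS4_coeff l (i : ℕ)
  rw [h, coeff_zero, dif_pos i.2] at h1
  exact h1.symm

theorem QS4_degree_f {f : K[X][X]} (hf : Qr f) : f.degree = 4 := by
  rw [degree_eq_natDegree hf.mo.ne_zero, hf.dg]
  rfl

/-- the linear map of the dimension count -/
noncomputable def QS4_Psi (f e : K[X][X]) (p N : ℕ) :
    ((Fin p → K) × (Fin 4 → Fin p → K)) →ₗ[K] (Fin 4 → Fin N → K) where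
  toFun w := co N (C (QS4_Lp p w.1) + (e * P2 w.2) %ₘ f)
  map_add' w w' := by
    rw [← co_add]
    congr 1
    rw [Prod.fst_add, Prod.snd_add, P2_add, mul_add, add_modByMonic, map_add, map_add]
    ring
  map_smul' c w := by
    rw [RingHom.id_apply, ← co_smul]
    congr 1
    have h1 : e * (C (C c) * P2 w.2) = (C c : K[X]) • (e * P2 w.2) := by
      rw [smul_eq_C_mul]
      ring
    rw [Prod.smul_fst, Prod.smul_snd, P2_smul, h1, smul_modByMonic, map_smul, smul_eq_C_mul,
      smul_eq_C_mul, mul_add, map_mul]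

/-- Proof. Suppose `e ≠ 0`. Put `B = p`. Consider the linear map `Ψ : (Fin p → K) × (Fin 4 → Fin B → K) → (Fin 4 → Fin (A + B + 3) → K)`, `Ψ (l, u) = co (A + B + 3) (C L + (e * P2 u) %ₘ f)` with `L = ∑ i, C (l i) * X ^ (i : ℕ)` (degree `< p`).
It is injective: `e * P2 u` has total degree `≤ A + (B + 2)` (`TD_P2`), so `(e * P2 u) %ₘ f` too (`TD_mod`), `C L` too (`TD_C`), and the degree in `y` is `< 4`: if `Ψ (l, u) = 0` then `C L + (e * P2 u) %ₘ f = 0` (`co_eq_zero`). As `e * P2 u = (e * P2 u) %ₘ f + f * _` (`modByMonic_add_div`), `Vn f x y p ((e * P2 u) %ₘ f)`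
by `Vn.mul`, `Vn_self_mul`, `Vn.sub`; so `Vn f x y p (C L)` and `(X - C x) ^ p ∣ L` (`Vn_C`; `(j : K) ≠ 0` for `1 ≤ j < p` by `CharP.cast_eq_zero_iff`), so `L = 0` (degree `< p`), `l = 0`. Then `f ∣ e * P2 u` (`modByMonic_eq_zero_iff_dvd`), `f` is prime (`Irreducible.prime`, a UFD), so `f ∣ e` or `f ∣ P2 u`, both of degree `< 4 = f.degree`:
`e = 0` or `P2 u = 0`; so `P2 u = 0` and `u = 0` (`P2_eq_zero`). So (`LinearMap.finrank_le_finrank_of_injective`) `p + 4 B ≤ 4 (A + B + 3)`, `p ≤ 4 A + 12`: contradiction. (The function `Ψ` is linear in `u`: `P2_add`, `P2_smul`, `add_modByMonic`, `C (C c) * g %ₘ f = C (C c) * (g %ₘ f)`: `Polynomial.smul_modByMonic` or by uniqueness.) -/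
theorem eq_zero_of_Vn (p : ℕ) [Fact p.Prime] [CharP K p] {f e : K[X][X]} (hf : Qr f) (hi : Irreducible f) {x y : K}
    (hxy : f.evalEval x y = 0) (hy : (derivative f).evalEval x y ≠ 0) {A : ℕ} (hA : 4 * A + 12 < p)
    (he : TD A e) (hd : e.degree < 4) (hv : Vn f x y p e) : e = 0 := by
  by_contra he0
  have hinj : Function.Injective (QS4_Psi f e p (A + p + 3)) := by
    rw [injective_iff_map_eq_zero]
    rintro ⟨l, u⟩ hw
    have hLd := QS4_degree l
    have hg : C (QS4_Lp p l) + (e * P2 u) %ₘ f = 0 := by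
      refine co_eq_zero (n := A + p + 3) (m := A + (p + 2)) ?_ ?_ (by omega) hw
      · refine (degree_add_le _ _).trans_lt (max_lt ?_ (degree_mod hf _))
        exact degree_C_le.trans_lt (by norm_num)
      · refine TD.add (TD_C _ ?_) (TD_mod hf (TD.mul he (TD_P2 u)))
        have := natDegree_le_of_degree_le hLd.le
        omega
    have hdiv := modByMonic_add_div (e * P2 u) f
    have hCL : C (QS4_Lp p l) = f * ((e * P2 u) /ₘ f) - e * P2 u := by
      rw [eq_sub_iff_add_eq]
      conv_lhs => rw [← hdiv]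
      rw [← add_assoc, hg, zero_add]
    have hVL : Vn f x y p (C (QS4_Lp p l)) := by
      rw [hCL]
      exact Vn.sub (Vn_self_mul hxy _ _) (Vn.mul hv _)
    have hdvd := Vn_C hy (fun j h1 h2 h3 => by
      rw [CharP.cast_eq_zero_iff K p] at h3
      exact absurd (Nat.le_of_dvd (by omega) h3) (by omega)) hVL
    have hL0 : QS4_Lp p l = 0 := by
      by_contra hne
      refine absurd hdvd ((monic_X_sub_C x).pow p |>.not_dvd_of_degree_lt hne ?_)
      rw [degree_pow, degree_X_sub_C, nsmul_one]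
      exact hLd
    have hmod : (e * P2 u) %ₘ f = 0 := by
      rw [hL0, map_zero, zero_add] at hg
      exact hg
    have hfd : f ∣ e * P2 u := (modByMonic_eq_zero_iff_dvd hf.mo).1 hmod
    have hP0 : P2 u = 0 := by
      rcases hi.prime.dvd_or_dvd hfd with h1 | h1
      · exact absurd h1 (hf.mo.not_dvd_of_degree_lt he0 (by rw [QS4_degree_f hf]; exact hd))
      · by_contra hne
        exact absurd h1 (hf.mo.not_dvd_of_degree_lt hne (by rw [QS4_degree_f hf]; exact P2_degree u))
    rw [QS4_inj hL0, P2_eq_zero hP0]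
    rfl
  have hfin := LinearMap.finrank_le_finrank_of_injective hinj
  have h1 : Module.finrank K ((Fin p → K) × (Fin 4 → Fin p → K)) = p + 4 * p := by
    rw [Module.finrank_prod, Module.finrank_fin_fun, Module.finrank_pi_fintype]
    simp only [Module.finrank_fin_fun, Finset.sum_const, Finset.card_univ, Fintype.card_fin,
      smul_eq_mul]
  have h2 : Module.finrank K (Fin 4 → Fin (A + p + 3) → K) = 4 * (A + p + 3) := by
    rw [Module.finrank_pi_fintype]
    simp only [Module.finrank_fin_fun, Finset.sum_const, Finset.card_univ, Fintype.card_fin,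
      smul_eq_mul]
  rw [h1, h2] at hfin
  omega

end

end HNQ
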