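import Pool.Agent.Lib.MP_10e784_agQ.QS4

/-! Points with a vertical tangent; linear independence of `p`-th powers. -/

set_option autoImplicit false

open Classical

namespace HNQ

open Finset Polynomial

section

variable {K : Type} [Field K]

theorem QS5_det {n : ℕ} (M : Matrix (Fin n) (Fin n) K[X]) (d : ℕ) (h : ∀ i j, (M i j).natDegree ≤ d) :
    M.det.natDegree ≤ n * d := by
  rw [Matrix.det_apply]
  refine natDegree_sum_le_of_forall_le _ _ fun σ _ => ?_
  refine (natDegree_smul_le _ _).trans ?_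
  refine (natDegree_prod_le _ _).trans ?_
  refine (Finset.sum_le_sum fun i _ => h _ _).trans ?_
  rw [Finset.sum_const, Finset.card_univ, Fintype.card_fin, smul_eq_mul]

theorem QS5_coeff_le {f : K[X][X]} {n : ℕ} (hf : TD n f) (b : ℕ) : (f.coeff b).natDegree ≤ n := by
  by_cases h : f.coeff b = 0
  · rw [h, natDegree_zero]
    exact Nat.zero_le _
  · have := hf b h
    omega

theorem QS5_coeff_der_le {f : K[X][X]} {n : ℕ} (hf : TD n f) (b : ℕ) : ((derivative f).coeff b).natDegree ≤ n := by
  rw [coeff_derivative]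
  have h1 : ((b : K[X]) + 1) = C ((b : K) + 1) := by
    rw [map_add, map_natCast, map_one]
  rw [h1]
  exact (natDegree_mul_C_le _ _).trans (QS5_coeff_le hf _)

theorem QS5_res_deg {f : K[X][X]} (hf : TD 4 f) : (resultant f (derivative f) 4 3).natDegree ≤ 28 := by
  have h := QS5_det (sylvester f (derivative f) 4 3) 4 ?_
  · exact h
  · intro i j
    induction j using Fin.addCases with
    | left j =>
      simp only [sylvester, Matrix.of_apply, Fin.addCases_left]
      split_ifs
      · exact QS5_coeff_der_le hf _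
      · rw [natDegree_zero]
        exact Nat.zero_le _
    | right j =>
      simp only [sylvester, Matrix.of_apply, Fin.addCases_right]
      split_ifs
      · exact QS5_coeff_le hf _
      · rw [natDegree_zero]
        exact Nat.zero_le _

/-- Proof. `R = resultant f (derivative f) 4 3 : K[X]` (`Polynomial.resultant`). By `Polynomial.exists_mul_add_mul_eq_C_resultant`: `f * u + derivative f * v = C R`, so `R(x) = 0` at every common zero `(x, y)`. `R ≠ 0`: map to the fraction field `L = FractionRing K[X]` (`RatFunc` or `FractionRing`; `resultant_map_map`): `f.map` is irreducible over `L`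
(`Polynomial.Monic.irreducible_iff_irreducible_map_fraction_map`), `(derivative f).map ≠ 0` of degree `3` (leading coefficient `4 ≠ 0` as `p > 4`), so they are coprime (`Irreducible.coprime_iff_not_dvd` and degrees), so the resultant is not zero (`Polynomial.resultant_ne_zero` with `natDegree`s `4` and `3`). `natDegree R ≤ 28`: the determinant of a `7 × 7` matrix with
entries of degree `≤ 4` (coefficients of `f`, `derivative f`: `TD`; `Matrix.det_apply`, `natDegree_sum_le_of_forall_le`, `natDegree_prod_le`). The set is contained in the set of the roots of `R`. -/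
theorem bad_x (p : ℕ) [Fact p.Prime] [CharP K p] (h5 : 5 ≤ p) {f : K[X][X]} (hf : Qr f) (hi : Irreducible f) :
    ∃ T : Finset K, T.card ≤ 28 ∧ ∀ x y : K, x ∉ T → f.evalEval x y = 0 → (derivative f).evalEval x y ≠ 0 := by
  have hd3 : (derivative f).natDegree ≤ 3 := by
    have := natDegree_derivative_le f
    rw [hf.dg] at this
    exact this
  obtain ⟨u, v, -, -, huv⟩ := exists_mul_add_mul_eq_C_resultant (m := 4) (n := 3) f (derivative f) hf.dg.le hd3
    (Or.inl (by norm_num))
  have hdeg := QS5_res_deg hf.td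
  have hR0 : resultant f (derivative f) 4 3 ≠ 0 := by
    intro h0
    have hφ : Function.Injective (algebraMap K[X] (FractionRing K[X])) := IsFractionRing.injective _ _
    have h1 : resultant (f.map (algebraMap K[X] (FractionRing K[X])))
        ((derivative f).map (algebraMap K[X] (FractionRing K[X]))) 4 3 = 0 := by
      rw [resultant_map_map, h0, map_zero]
    have h2 : (f.map (algebraMap K[X] (FractionRing K[X]))).natDegree = 4 := by
      rw [hf.mo.natDegree_map, hf.dg]
    have h3 : ((derivative f).map (algebraMap K[X] (FractionRing K[X]))).natDegree = 3 := by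
      rw [natDegree_map_eq_of_injective hφ]
      refine natDegree_eq_of_le_of_coeff_ne_zero hd3 ?_
      have h4 : f.coeff (3 + 1) = 1 := by
        have := hf.mo.coeff_natDegree
        rw [hf.dg] at this
        exact this
      have h6 : ((((3 : ℕ) : K[X])) + 1) = C ((4 : ℕ) : K) := by
        rw [map_natCast]
        norm_num
      rw [coeff_derivative, h4, one_mul, h6]
      intro h7
      rw [C_eq_zero, CharP.cast_eq_zero_iff K p] at h7
      exact absurd (Nat.le_of_dvd (by omega) h7) (by omega)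
    have h4 : IsCoprime (f.map (algebraMap K[X] (FractionRing K[X])))
        ((derivative f).map (algebraMap K[X] (FractionRing K[X]))) := by
      have hirr : Irreducible (f.map (algebraMap K[X] (FractionRing K[X]))) :=
        (hf.mo.irreducible_iff_irreducible_map_fraction_map (K := FractionRing K[X])).1 hi
      rw [hirr.coprime_iff_not_dvd]
      intro hdvd
      have := natDegree_le_of_dvd hdvd (by
        intro h
        rw [h, natDegree_zero] at h3
        exact absurd h3 (by norm_num))
      omega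
    have h6 := resultant_ne_zero _ _ h4
    rw [h2, h3] at h6
    exact h6 h1
  refine ⟨(resultant f (derivative f) 4 3).roots.toFinset,
    (Multiset.toFinset_card_le _).trans ((card_roots' _).trans hdeg), ?_⟩
  intro x y hx h0 h1
  apply hx
  rw [Multiset.mem_toFinset, mem_roots hR0, IsRoot.def]
  have h2 := congrArg (evalEval x y) huv
  rw [evalEval_add, evalEval_mul, evalEval_mul, h0, h1, evalEval_C, zero_mul, zero_mul, add_zero] at h2
  exact h2.symm

/-- Proof. `f.map (evalRingHom x)` is monic of degree 4 and separable (no common root with its derivative: `hx`), `K` algebraically closed: it has four distinct roots (`IsAlgClosed.card_roots_eq_natDegree` or `splits`, `nodup_roots`; `roots.toFinset`). -/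
theorem four_roots [IsAlgClosed K] {f : K[X][X]} (hf : Qr f) {x : K}
    (hx : ∀ y : K, f.evalEval x y = 0 → (derivative f).evalEval x y ≠ 0) :
    ∃ S : Finset K, S.card = 4 ∧ ∀ y ∈ S, f.evalEval x y = 0 := by
  have hgd : (f.map (evalRingHom x)).natDegree = 4 := by rw [hf.mo.natDegree_map, hf.dg]
  have hg0 : f.map (evalRingHom x) ≠ 0 := (hf.mo.map _).ne_zero
  have hnd : (f.map (evalRingHom x)).roots.Nodup := by
    rw [Multiset.nodup_iff_count_le_one]
    intro y
    rw [count_roots]
    by_contra hlt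
    rw [not_le, one_lt_rootMultiplicity_iff_isRoot hg0, IsRoot.def, IsRoot.def, derivative_map,
      map_evalRingHom_eval, map_evalRingHom_eval] at hlt
    exact hx y hlt.1 hlt.2
  refine ⟨(f.map (evalRingHom x)).roots.toFinset, ?_, ?_⟩
  · rw [Multiset.toFinset_card_of_nodup hnd, IsAlgClosed.card_roots_eq_natDegree, hgd]
  · intro y hy
    rw [Multiset.mem_toFinset, mem_roots hg0, IsRoot.def, map_evalRingHom_eval] at hy
    exact hy

theorem QS5_point (p : ℕ) [Fact p.Prime] [CharP K p] {f : K[X][X]} (hf : Qr f) (hi : Irreducible f)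
    {A m : ℕ} (hA : 4 * A + 12 < p) (a : Fin m → Fin 4 → K[X][X]) (ha : ∀ i j, TD A (a i j)) (hd : ∀ i j, (a i j).degree < 4)
    (h : f ∣ ∑ i : Fin m, ∑ j : Fin 4, a i j * (C (X ^ (i : ℕ)) * X ^ (j : ℕ)) ^ p) {x y : K}
    (hxy : f.evalEval x y = 0) (hy : (derivative f).evalEval x y ≠ 0) :
    ∑ i : Fin m, ∑ j : Fin 4, C (C ((x ^ (i : ℕ) * y ^ (j : ℕ)) ^ p)) * a i j = 0 := by
  refine eq_zero_of_Vn p hf hi hxy hy hA ?_ ?_ ?_
  · refine TD.sum _ _ fun i _ => TD.sum _ _ fun j _ => ?_
    have := TD.mul (TD_C (n := 0) (C ((x ^ (i : ℕ) * y ^ (j : ℕ)) ^ p)) (by rw [natDegree_C])) (ha i j)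
    rwa [zero_add] at this
  · refine (degree_sum_le _ _).trans_lt ((Finset.sup_lt_iff (WithBot.bot_lt_coe 4)).2 fun i _ => ?_)
    refine (degree_sum_le _ _).trans_lt ((Finset.sup_lt_iff (WithBot.bot_lt_coe 4)).2 fun j _ => ?_)
    exact ((degree_mul_le _ _).trans (add_le_of_nonpos_left degree_C_le)).trans_lt (hd i j)
  · intro k _
    obtain ⟨g, hg⟩ := h
    have h1 : ((Dd f)^[k] (∑ i : Fin m, ∑ j : Fin 4, a i j * (C (X ^ (i : ℕ)) * X ^ (j : ℕ)) ^ p)).evalEval x y = 0 := by
      rw [hg]
      exact Vn_self_mul hxy g (k + 1) k (Nat.lt_succ_self k)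
    rw [Dd_iter_sum, evalEval_finsetSum] at h1 ⊢
    rw [← h1]
    refine Finset.sum_congr rfl fun i _ => ?_
    rw [Dd_iter_sum, Dd_iter_sum, evalEval_finsetSum, evalEval_finsetSum]
    refine Finset.sum_congr rfl fun j _ => ?_
    rw [Dd_iter_smul, Dd_iter_mul_pow_p, evalEval_mul, evalEval_mul, evalEval_pow, evalEval_mul, evalEval_C,
      evalEval_C, evalEval_pow, evalEval_X, eval_C, eval_pow, eval_X, mul_comm]

theorem QS5_eval {n : ℕ} (c : Fin n → K) (x : K) : (QS4_Lp n c).eval x = ∑ i : Fin n, c i * x ^ (i : ℕ) := by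
  rw [QS4_Lp, LinearMap.sum_apply, eval_finsetSum]
  refine Finset.sum_congr rfl fun i _ => ?_
  rw [LinearMap.comp_apply, LinearMap.proj_apply, eval_monomial]

theorem QS5_van {n : ℕ} (c : Fin n → K) (S : Finset K) (hS : n ≤ S.card)
    (h : ∀ x ∈ S, ∑ i : Fin n, c i * x ^ (i : ℕ) = 0) : c = 0 := by
  refine QS4_inj (eq_zero_of_degree_lt_of_eval_finset_eq_zero S ?_ fun x hx => ?_)
  · exact (QS4_degree c).trans_le (by exact_mod_cast hS)
  · rw [QS5_eval]
    exact h x hx

theorem QS5_two [IsAlgClosed K] {f : K[X][X]} (hf : Qr f) (T : Finset K)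
    (hT : ∀ x y : K, x ∉ T → f.evalEval x y = 0 → (derivative f).evalEval x y ≠ 0) {m : ℕ}
    (β : Fin m → Fin 4 → K)
    (h : ∀ x y : K, x ∉ T → f.evalEval x y = 0 → ∑ i : Fin m, ∑ j : Fin 4, x ^ (i : ℕ) * y ^ (j : ℕ) * β i j = 0) :
    ∀ i j, β i j = 0 := by
  have h1 : ∀ x : K, x ∉ T → ∀ j : Fin 4, ∑ i : Fin m, β i j * x ^ (i : ℕ) = 0 := by
    intro x hx
    obtain ⟨S, hS, hSf⟩ := four_roots hf (hT x · hx)
    have h2 := QS5_van (fun j : Fin 4 => ∑ i : Fin m, β i j * x ^ (i : ℕ)) S hS.ge (fun y hy => by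
      rw [← h x y hx (hSf y hy), Finset.sum_comm]
      refine Finset.sum_congr rfl fun j _ => ?_
      rw [Finset.sum_mul]
      refine Finset.sum_congr rfl fun i _ => ?_
      ring)
    intro j
    exact congrFun h2 j
  have : Infinite K := IsAlgClosed.instInfinite
  obtain ⟨U, hU, hUc⟩ := (T.finite_toSet.infinite_compl).exists_subset_card_eq m
  intro i j
  have h3 := QS5_van (fun i => β i j) U hUc.ge (fun x hx => h1 x (by
    have := hU hx
    simpa using this) j)
  exact congrFun h3 i

/-- **Proof.** Let `h = ∑ a i j * (C (X ^ i) * X ^ j) ^ p`, `f ∣ h`. Let `(x, y)` be a point with `f(x, y) = 0`, `f_y(x, y) ≠ 0`. Put `e = ∑ C (C ((x ^ i * y ^ j) ^ p)) * a i j`: `TD A e`, degree `< 4`. `h - e = ∑ a i j * (C (X ^ i) * X ^ j - C (C (x ^ i * y ^ j))) ^ p` (`sub_pow_char` / `sub_pow_expChar`), so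
`(Dd f)^[k] (h - e) = ∑ (Dd f)^[k] (a i j) * (..) ^ p` (`Dd_iter_mul_pow_p`) vanishes at `(x, y)` for every `k`; `h` too (`Vn_self_mul`); so `Vn f x y p e` and `e = 0` by `eq_zero_of_Vn`. So for all `a', b`: `∑ i j, (x ^ i * y ^ j) ^ p * α i j = 0`, `α i j = ((a i j).coeff b).coeff a'`. `K` is perfect (algebraically closed): `α i j = β i j ^ p`
(`IsAlgClosed.exists_pow_nat_eq`), `(∑ x ^ i * y ^ j * β i j) ^ p = 0` (`sum_pow_char`), so `∑ i j, β i j x ^ i y ^ j = 0`. This holds for all `x ∉ T` (`bad_x`) and the four `y ∈ S` (`four_roots`): the polynomial `∑ j, (∑ i, β i j x ^ i) Y ^ j` of degree `≤ 3` has 4 roots, so `∑ i, β i j x ^ i = 0` for every `j` and all `x ∉ T`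
(infinitely many: `K` is infinite), so `β i j = 0`. So all coefficients of `a i j` vanish. -/
theorem indep_pow (p : ℕ) [Fact p.Prime] [CharP K p] [IsAlgClosed K] {f : K[X][X]} (hf : Qr f) (hi : Irreducible f)
    {A m : ℕ} (hA : 4 * A + 12 < p) (a : Fin m → Fin 4 → K[X][X]) (ha : ∀ i j, TD A (a i j)) (hd : ∀ i j, (a i j).degree < 4)
    (h : f ∣ ∑ i : Fin m, ∑ j : Fin 4, a i j * (C (X ^ (i : ℕ)) * X ^ (j : ℕ)) ^ p) : ∀ i j, a i j = 0 := by
  obtain ⟨T, -, hT⟩ := bad_x p (by omega) hf hi
  intro i j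
  ext b a'
  rw [coeff_zero, coeff_zero]
  have hβ : ∀ i j, ∃ β : K, β ^ p = ((a i j).coeff b).coeff a' := fun i j =>
    IsAlgClosed.exists_pow_nat_eq _ (Fact.out : p.Prime).pos
  choose β hβ using hβ
  rw [← hβ i j]
  have hz : ∀ i j, β i j = 0 := by
    refine QS5_two hf T hT β fun x y hx hxy => ?_
    have h1 := QS5_point p hf hi hA a ha hd h hxy (hT x y hx hxy)
    have h2 : ((∑ i : Fin m, ∑ j : Fin 4, C (C ((x ^ (i : ℕ) * y ^ (j : ℕ)) ^ p)) * a i j).coeff b).coeff a' = 0 := by
      rw [h1, coeff_zero, coeff_zero]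
    have h3 : (∑ i : Fin m, ∑ j : Fin 4, x ^ (i : ℕ) * y ^ (j : ℕ) * β i j) ^ p = 0 := by
      rw [← h2, finsetSum_coeff, finsetSum_coeff, sum_pow_char]
      refine Finset.sum_congr rfl fun i _ => ?_
      rw [finsetSum_coeff, finsetSum_coeff, sum_pow_char]
      refine Finset.sum_congr rfl fun j _ => ?_
      rw [coeff_C_mul, coeff_C_mul, mul_pow, hβ]
    exact pow_eq_zero_iff (Fact.out : p.Prime).ne_zero |>.1 h3
  rw [hz i j, zero_pow (Fact.out : p.Prime).ne_zero]

end

end HNQ
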