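import Mathlib

/-!
# MP_10e784_ag, plane quartics: points modulo `p` on an absolutely irreducible quartic (Stepanov's method): definitions

`K[X][X]` is the ring of polynomials in two variables `x` (the inner one, `C X`) and `y` (the outer one, `X`).
-/

set_option autoImplicit false

open Classical

namespace HNQ

open Finset Polynomial

section

variable {K : Type} [Field K]

/-- the total degree is at most `n` -/
def TD (n : ℕ) (g : K[X][X]) : Prop := ∀ b, g.coeff b ≠ 0 → (g.coeff b).natDegree + b ≤ n

/-- the partial derivative with respect to `x` -/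
noncomputable def dX (g : K[X][X]) : K[X][X] := g.sum fun b c => monomial b (derivative c)

/-- the derivation `f_y ∂_x - f_x ∂_y` -/
noncomputable def Dd (f g : K[X][X]) : K[X][X] := derivative f * dX g - dX f * derivative g

/-- `g` vanishes at the point `(x, y)` of the curve `f = 0` to the order `k` -/
def Vn (f : K[X][X]) (x y : K) (k : ℕ) (g : K[X][X]) : Prop := ∀ j < k, ((Dd f)^[j] g).evalEval x y = 0

/-- `f` is a monic quartic in `y` of total degree at most `4` -/
structure Qr (f : K[X][X]) : Prop where
  mo : f.Monic
  dg : f.natDegree = 4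
  td : TD 4 f

/-- the coefficients, with respect to `z`, of `(f(x, z) - f(x, y)) / (z - y)`: `z³ + gz 2 z² + gz 1 z + gz 0` -/
noncomputable def gz (f : K[X][X]) (j : ℕ) : K[X][X] :=
  if j = 2 then X + C (f.coeff 3) else
    if j = 1 then X ^ 2 + C (f.coeff 3) * X + C (f.coeff 2) else
      X ^ 3 + C (f.coeff 3) * X ^ 2 + C (f.coeff 2) * X + C (f.coeff 1)

/-- the polynomial with the array of coefficients `u` -/
noncomputable def P2 {n : ℕ} (u : Fin 4 → Fin n → K) : K[X][X] :=
  ∑ b : Fin 4, ∑ a : Fin n, monomial (b : ℕ) (monomial (a : ℕ) (u b a))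

/-- the array of coefficients of a polynomial -/
noncomputable def co (n : ℕ) (g : K[X][X]) : Fin 4 → Fin n → K := fun b a => (g.coeff (b : ℕ)).coeff (a : ℕ)

end

end HNQ
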