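import Pool.Agent.Lib.MP_10e784_agQ.QCDefs

/-! Many points at which `v(x) w(y)` is a square. -/

set_option autoImplicit false

open Classical

namespace HNQ

open Finset Polynomial FGO FQQ HNF

/-- the affine points at which `v w` is a nonzero square -/
noncomputable def SqP (p : ℕ) [NeZero p] (v w : ZMod p × ZMod p × ZMod p) : Finset (ZMod p × ZMod p) :=
  univ.filter fun P => ∃ s : ZMod p, s ≠ 0 ∧ s ^ 2 = qv v P.1 1 * qv w P.2 1

/-- a quadratic equation has at most two roots -/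
theorem QT1_quad {p : ℕ} [Fact p.Prime] (A B E : ZMod p) (h : ¬ (A = 0 ∧ B = 0 ∧ E = 0)) :
    (univ.filter fun m : ZMod p => A * m ^ 2 + B * m + E = 0).card ≤ 2 := by
  have hP0 : (C A * X ^ 2 + C B * X + C E : (ZMod p)[X]) ≠ 0 := by
    intro h0
    apply h
    refine ⟨?_, ?_, ?_⟩
    · have h1 := congrArg (fun q : (ZMod p)[X] => q.coeff 2) h0
      simpa [coeff_X, coeff_C] using h1
    · have h1 := congrArg (fun q : (ZMod p)[X] => q.coeff 1) h0
      simpa [coeff_X, coeff_C] using h1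
    · have h1 := congrArg (fun q : (ZMod p)[X] => q.coeff 0) h0
      simpa [coeff_X, coeff_C] using h1
  have hsub : (univ.filter fun m : ZMod p => A * m ^ 2 + B * m + E = 0) ⊆
      (C A * X ^ 2 + C B * X + C E : (ZMod p)[X]).roots.toFinset := by
    intro m hm
    rw [Multiset.mem_toFinset, mem_roots hP0]
    have h2 := (Finset.mem_filter.mp hm).2
    simpa [IsRoot] using h2
  calc (univ.filter fun m : ZMod p => A * m ^ 2 + B * m + E = 0).card
      ≤ (C A * X ^ 2 + C B * X + C E : (ZMod p)[X]).roots.toFinset.card := Finset.card_le_card hsub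
    _ ≤ Multiset.card (C A * X ^ 2 + C B * X + C E : (ZMod p)[X]).roots := Multiset.toFinset_card_le _
    _ ≤ (C A * X ^ 2 + C B * X + C E : (ZMod p)[X]).natDegree := card_roots' _
    _ ≤ 2 := natDegree_quadratic_le

theorem QT1_two (p : ℕ) [Fact p.Prime] (hp : 11 ≤ p) : (2 : ZMod p) ≠ 0 := by
  have h1 : ((2 : ℕ) : ZMod p) ≠ 0 := by
    intro h
    rw [ZMod.natCast_eq_zero_iff] at h
    have := Nat.le_of_dvd (by norm_num) h
    omega
  exact_mod_cast h1

/-- a point on the conic -/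
theorem QT1_point (p : ℕ) [Fact p.Prime] (hp : 11 ≤ p) (μ D : ZMod p) (hμ : μ ≠ 0) :
    ∃ t s : ZMod p, s ^ 2 = μ * (t ^ 2 - D) := by
  have hodd : Fintype.card (ZMod p) % 2 = 1 := by
    rw [ZMod.card]
    have h2 : p ≠ 2 := by omega
    exact (Nat.Prime.eq_two_or_odd (Fact.out : p.Prime)).resolve_left h2
  obtain ⟨s, t, h⟩ := FiniteField.exists_root_sum_quadratic
    (f := C (1 : ZMod p) * X ^ 2 + C 0 * X + C 0) (g := C (-μ) * X ^ 2 + C 0 * X + C (μ * D))
    (degree_quadratic one_ne_zero) (degree_quadratic (neg_ne_zero.mpr hμ)) hodd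
  refine ⟨t, s, ?_⟩
  simp only [eval_add, eval_mul, eval_C, eval_X, eval_pow] at h
  linear_combination h

/-- the points with `s ≠ 0` -/
noncomputable def QT1_Q (p : ℕ) [NeZero p] (v : ZMod p × ZMod p × ZMod p) (κ : ZMod p) :
    Finset (ZMod p × ZMod p) := univ.filter fun P => P.2 ≠ 0 ∧ P.2 ^ 2 = κ * qv v P.1 1

theorem QT1_Q_card (p : ℕ) [Fact p.Prime] (hp : 11 ≤ p) (v : ZMod p × ZMod p × ZMod p)
    (hd : ds v ≠ 0) (κ : ZMod p) (hκ : κ ≠ 0) : p ≤ (QT1_Q p v κ).card + 6 := by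
  have h2 := QT1_two p hp
  obtain ⟨a, b, c⟩ := v
  by_cases ha : a = 0
  · subst ha
    have hb : b ≠ 0 := by
      intro hb
      apply hd
      simp [ds, hb]
    have h3 : ((univ : Finset (ZMod p)).erase 0).card ≤ (QT1_Q p (0, b, c) κ).card := by
      refine Finset.card_le_card_of_injOn (fun s => ((s ^ 2 / κ - c) / b, s)) ?_ ?_
      · intro s hs
        have hs0 : s ≠ 0 := (Finset.mem_erase.mp hs).1
        show _ ∈ QT1_Q p (0, b, c) κ
        rw [QT1_Q, Finset.mem_filter]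
        refine ⟨Finset.mem_univ _, hs0, ?_⟩
        show s ^ 2 = κ * (0 * ((s ^ 2 / κ - c) / b) ^ 2 + b * ((s ^ 2 / κ - c) / b) * 1 + c * 1 ^ 2)
        field_simp
        ring
      · intro s _ s' _ h
        exact (Prod.ext_iff.mp h).2
    rw [Finset.card_erase_of_mem (Finset.mem_univ _), Finset.card_univ, ZMod.card] at h3
    omega
  · obtain ⟨t0, s0, h0⟩ := QT1_point p hp (κ * a) (b ^ 2 - 4 * a * c) (mul_ne_zero hκ ha)
    have hμ : κ * a ≠ 0 := mul_ne_zero hκ ha
    have hD : b ^ 2 - 4 * a * c ≠ 0 := hd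
    set μ := κ * a with hμd
    set D := b ^ 2 - 4 * a * c with hDd
    have hst : s0 = 0 → t0 ≠ 0 := by
      intro hs ht
      rw [hs, ht] at h0
      apply hD
      have h5 : μ * D = 0 := by linear_combination h0
      exact (mul_eq_zero.mp h5).resolve_left hμ
    have hc1 : (univ.filter fun m : ZMod p => (1 : ZMod p) * m ^ 2 + 0 * m + (-μ) = 0).card ≤ 2 :=
      QT1_quad 1 0 (-μ) fun h => one_ne_zero h.1
    have hc2 : (univ.filter fun m : ZMod p => (0 : ZMod p) * m ^ 2 + s0 * m + (-(μ * t0)) = 0).card ≤ 2 := by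
      refine QT1_quad _ _ _ fun h => ?_
      have h6 := hst h.2.1
      exact mul_ne_zero hμ h6 (neg_eq_zero.mp h.2.2)
    have hc3 : (univ.filter fun m : ZMod p => s0 * m ^ 2 + (-(2 * μ * t0)) * m + s0 * μ = 0).card ≤ 2 := by
      refine QT1_quad _ _ _ fun h => ?_
      have h6 := hst h.1
      exact mul_ne_zero (mul_ne_zero h2 hμ) h6 (neg_eq_zero.mp h.2.1)
    set M := univ.filter fun m : ZMod p => ¬ ((1 : ZMod p) * m ^ 2 + 0 * m + (-μ) = 0) ∧
      ¬ ((0 : ZMod p) * m ^ 2 + s0 * m + (-(μ * t0)) = 0) ∧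
      ¬ (s0 * m ^ 2 + (-(2 * μ * t0)) * m + s0 * μ = 0) with hM
    have hcov : (univ : Finset (ZMod p)) ⊆ M ∪
        ((univ.filter fun m : ZMod p => (1 : ZMod p) * m ^ 2 + 0 * m + (-μ) = 0) ∪
        ((univ.filter fun m : ZMod p => (0 : ZMod p) * m ^ 2 + s0 * m + (-(μ * t0)) = 0) ∪
        (univ.filter fun m : ZMod p => s0 * m ^ 2 + (-(2 * μ * t0)) * m + s0 * μ = 0))) := by
      intro m _
      simp only [hM, Finset.mem_union, Finset.mem_filter, Finset.mem_univ, true_and]
      tauto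
    have hcard : p ≤ M.card + 6 := by
      have h7 := Finset.card_le_card hcov
      rw [Finset.card_univ, ZMod.card] at h7
      have h8 := Finset.card_union_le M
        ((univ.filter fun m : ZMod p => (1 : ZMod p) * m ^ 2 + 0 * m + (-μ) = 0) ∪
        ((univ.filter fun m : ZMod p => (0 : ZMod p) * m ^ 2 + s0 * m + (-(μ * t0)) = 0) ∪
        (univ.filter fun m : ZMod p => s0 * m ^ 2 + (-(2 * μ * t0)) * m + s0 * μ = 0)))
      have h9 := Finset.card_union_le
        (univ.filter fun m : ZMod p => (1 : ZMod p) * m ^ 2 + 0 * m + (-μ) = 0)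
        ((univ.filter fun m : ZMod p => (0 : ZMod p) * m ^ 2 + s0 * m + (-(μ * t0)) = 0) ∪
        (univ.filter fun m : ZMod p => s0 * m ^ 2 + (-(2 * μ * t0)) * m + s0 * μ = 0))
      have h10 := Finset.card_union_le
        (univ.filter fun m : ZMod p => (0 : ZMod p) * m ^ 2 + s0 * m + (-(μ * t0)) = 0)
        (univ.filter fun m : ZMod p => s0 * m ^ 2 + (-(2 * μ * t0)) * m + s0 * μ = 0)
      omega
    have hinj : M.card ≤ (QT1_Q p (a, b, c) κ).card := by
      refine Finset.card_le_card_of_injOn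
        (fun m => ((t0 + (2 * s0 * m - 2 * μ * t0) / (μ - m ^ 2) - b) / (2 * a),
          (s0 + m * ((2 * s0 * m - 2 * μ * t0) / (μ - m ^ 2))) / (2 * a))) ?_ ?_
      · intro m hm
        have hm' := (Finset.mem_filter.mp hm).2
        have hd1 : μ - m ^ 2 ≠ 0 := by
          intro h
          apply hm'.1
          linear_combination -h
        have hs3 : s0 + m * ((2 * s0 * m - 2 * μ * t0) / (μ - m ^ 2)) ≠ 0 := by
          intro h
          apply hm'.2.2
          have h11 : (s0 + m * ((2 * s0 * m - 2 * μ * t0) / (μ - m ^ 2))) * (μ - m ^ 2) = 0 := by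
            rw [h, zero_mul]
          have h12 : (s0 + m * ((2 * s0 * m - 2 * μ * t0) / (μ - m ^ 2))) * (μ - m ^ 2) =
              s0 * (μ - m ^ 2) + m * (2 * s0 * m - 2 * μ * t0) := by
            field_simp
          rw [h12] at h11
          linear_combination h11
        show _ ∈ QT1_Q p (a, b, c) κ
        rw [QT1_Q, Finset.mem_filter]
        refine ⟨Finset.mem_univ _, div_ne_zero hs3 (mul_ne_zero h2 ha), ?_⟩
        have hl : ∃ l : ZMod p, l = (2 * s0 * m - 2 * μ * t0) / (μ - m ^ 2) ∧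
            l * (μ - m ^ 2) = 2 * s0 * m - 2 * μ * t0 :=
          ⟨_, rfl, div_mul_cancel₀ _ hd1⟩
        obtain ⟨l, hl1, hl2⟩ := hl
        show ((s0 + m * ((2 * s0 * m - 2 * μ * t0) / (μ - m ^ 2))) / (2 * a)) ^ 2 =
          κ * (a * ((t0 + (2 * s0 * m - 2 * μ * t0) / (μ - m ^ 2) - b) / (2 * a)) ^ 2 +
            b * ((t0 + (2 * s0 * m - 2 * μ * t0) / (μ - m ^ 2) - b) / (2 * a)) * 1 + c * 1 ^ 2)
        rw [← hl1]
        have h13 : (s0 + m * l) ^ 2 = μ * ((t0 + l) ^ 2 - D) := by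
          linear_combination h0 - l * hl2
        have h14 : κ * (a * ((t0 + l - b) / (2 * a)) ^ 2 + b * ((t0 + l - b) / (2 * a)) * 1 + c * 1 ^ 2) =
            μ * ((t0 + l) ^ 2 - D) / (2 * a) ^ 2 := by
          rw [hμd, hDd]
          field_simp
          ring
        rw [h14, ← h13, div_pow]
      · intro m hm m' hm' h
        have hk := (Finset.mem_filter.mp (Finset.mem_coe.mp hm)).2
        have hk' := (Finset.mem_filter.mp (Finset.mem_coe.mp hm')).2
        have h2a : (2 * a : ZMod p) ≠ 0 := mul_ne_zero h2 ha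
        obtain ⟨e1, e2⟩ := Prod.ext_iff.mp h
        have e1' : (2 * s0 * m - 2 * μ * t0) / (μ - m ^ 2) =
            (2 * s0 * m' - 2 * μ * t0) / (μ - m' ^ 2) := by
          have h15 := (div_left_inj' h2a).mp e1
          linear_combination h15
        have e2' := (div_left_inj' h2a).mp e2
        rw [e1'] at e2'
        have hd1' : μ - m' ^ 2 ≠ 0 := by
          intro h
          apply hk'.1
          linear_combination -h
        have hn : 2 * s0 * m' - 2 * μ * t0 ≠ 0 := by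
          intro h16
          apply hk'.2.1
          have h17 : (2 : ZMod p) * (0 * m' ^ 2 + s0 * m' + (-(μ * t0))) = 0 := by
            linear_combination h16
          exact (mul_eq_zero.mp h17).resolve_left h2
        have hl0 : (2 * s0 * m' - 2 * μ * t0) / (μ - m' ^ 2) ≠ 0 := div_ne_zero hn hd1'
        have h18 : m * ((2 * s0 * m' - 2 * μ * t0) / (μ - m' ^ 2)) =
            m' * ((2 * s0 * m' - 2 * μ * t0) / (μ - m' ^ 2)) := add_left_cancel e2'
        exact mul_right_cancel₀ hl0 h18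
    omega

/-- **Proof.** Let `κ ≠ 0`. If `v.1 = 0` then `v.2.1 ≠ 0` (`ds v = v.2.1²`), `x ↦ κ (v.2.1 x + v.2.2)` is a bijection and there are `(p - 1)/2` nonzero squares. If `v.1 ≠ 0`: `4 v.1 κ (κ v(x)) = κ² ((2 v.1 x + v.2.1)² - ds v)`, so one counts `t` with `μ (t² - D) ` a nonzero square, `μ = κ v.1 ≠ 0`, `D = ds v ≠ 0` (up to the square factors).
There is a pair `(t0, s0)` with `μ (t0² - D) = s0²` (the sets `{μ t² - μ D}` and `{s²}` have `(p + 1)/2` elements each; `ZMod.sq_add_sq`-type argument, or `FiniteField.exists_root_sum_quadratic`). The lines through it, `t = t0 + l`, `s = s0 + m l`, with `m² ≠ μ`, give `l = (2 s0 m - 2 μ t0)/(μ - m²)`; `l = 0` for at most one `m` or `s0 = 0 = t0`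
(impossible as `D ≠ 0`); so at least `p - 3` pairs `(t, s)`, at least `(p - 3)/2` values of `t`, and `s = 0` for at most two of them. (Any other proof is welcome, e.g. with the sum of `quadraticChar` over the values of a quadratic polynomial.) -/
theorem sq_x (p : ℕ) [Fact p.Prime] (hp : 11 ≤ p) (v : ZMod p × ZMod p × ZMod p) (hd : ds v ≠ 0) (κ : ZMod p) (hκ : κ ≠ 0) :
    ((p : ℝ) - 7) / 2 ≤ ((univ.filter fun x : ZMod p => ∃ s : ZMod p, s ≠ 0 ∧ s ^ 2 = κ * qv v x 1).card : ℝ) := by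
  have h1 := QT1_Q_card p hp v hd κ hκ
  have h2 : (QT1_Q p v κ).card ≤ 2 * ((QT1_Q p v κ).image Prod.fst).card := by
    refine Finset.card_le_mul_card_image _ 2 fun x _ => ?_
    have h3 : ((QT1_Q p v κ).filter fun P => P.1 = x).card ≤
        (univ.filter fun m : ZMod p => (1 : ZMod p) * m ^ 2 + 0 * m + (-(κ * qv v x 1)) = 0).card := by
      refine Finset.card_le_card_of_injOn Prod.snd ?_ ?_
      · intro P hP
        have h4 := (Finset.mem_filter.mp (Finset.mem_coe.mp hP))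
        have h5 := (Finset.mem_filter.mp h4.1).2.2
        rw [h4.2] at h5
        refine Finset.mem_coe.mpr (Finset.mem_filter.mpr ⟨Finset.mem_univ _, ?_⟩)
        linear_combination h5
      · intro P hP P' hP' h
        have h4 := (Finset.mem_filter.mp (Finset.mem_coe.mp hP)).2
        have h4' := (Finset.mem_filter.mp (Finset.mem_coe.mp hP')).2
        exact Prod.ext (h4.trans h4'.symm) h
    exact h3.trans (QT1_quad 1 0 _ fun h => one_ne_zero h.1)
  have h6 : (QT1_Q p v κ).image Prod.fst ⊆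
      univ.filter fun x : ZMod p => ∃ s : ZMod p, s ≠ 0 ∧ s ^ 2 = κ * qv v x 1 := by
    intro x hx
    obtain ⟨P, hP, rfl⟩ := Finset.mem_image.mp hx
    exact Finset.mem_filter.mpr ⟨Finset.mem_univ _, P.2, (Finset.mem_filter.mp hP).2.1,
      (Finset.mem_filter.mp hP).2.2⟩
  have h7 := Finset.card_le_card h6
  have h8 : p ≤ 2 * (univ.filter fun x : ZMod p =>
      ∃ s : ZMod p, s ≠ 0 ∧ s ^ 2 = κ * qv v x 1).card + 6 := by omega
  have h9 : (p : ℝ) ≤ 2 * ((univ.filter fun x : ZMod p =>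
      ∃ s : ZMod p, s ≠ 0 ∧ s ^ 2 = κ * qv v x 1).card : ℝ) + 6 := by exact_mod_cast h8
  linarith

theorem QT1_half (p : ℕ) [Fact p.Prime] (hp : 17 ≤ p) (v w : ZMod p × ZMod p × ZMod p) (hd : ds v ≠ 0)
    (hw : w ≠ 0) : (p : ℝ) ^ 2 / 16 ≤ ((univ.filter fun P : ZMod p × ZMod p =>
      ∃ s : ZMod p, s ≠ 0 ∧ s ^ 2 = qv w P.2 1 * qv v P.1 1).card : ℝ) := by
  set S := univ.filter fun P : ZMod p × ZMod p =>
      ∃ s : ZMod p, s ≠ 0 ∧ s ^ 2 = qv w P.2 1 * qv v P.1 1 with hS
  set Y := univ.filter fun y : ZMod p => ¬ (w.1 * y ^ 2 + w.2.1 * y + w.2.2 = 0) with hY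
  have hYc : p ≤ Y.card + 2 := by
    have h1 : (univ : Finset (ZMod p)) ⊆ Y ∪
        univ.filter fun y : ZMod p => w.1 * y ^ 2 + w.2.1 * y + w.2.2 = 0 := by
      intro y _
      simp only [hY, Finset.mem_union, Finset.mem_filter, Finset.mem_univ, true_and]
      tauto
    have h2 := Finset.card_le_card h1
    rw [Finset.card_univ, ZMod.card] at h2
    have h3 := Finset.card_union_le Y (univ.filter fun y : ZMod p => w.1 * y ^ 2 + w.2.1 * y + w.2.2 = 0)
    have h4 : (univ.filter fun y : ZMod p => w.1 * y ^ 2 + w.2.1 * y + w.2.2 = 0).card ≤ 2 := by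
      refine QT1_quad _ _ _ fun h => hw ?_
      exact Prod.ext h.1 (Prod.ext h.2.1 h.2.2)
    omega
  have hfib : ∀ y ∈ Y, ((p : ℝ) - 7) / 2 ≤ ((S.filter fun P => P.2 = y).card : ℝ) := by
    intro y hy
    have hκ : qv w y 1 ≠ 0 := by
      intro h
      apply (Finset.mem_filter.mp hy).2
      rw [← h, qv]
      ring
    refine (sq_x p (by omega) v hd (qv w y 1) hκ).trans ?_
    have h5 : (univ.filter fun x : ZMod p => ∃ s : ZMod p, s ≠ 0 ∧ s ^ 2 = qv w y 1 * qv v x 1).card ≤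
        (S.filter fun P => P.2 = y).card := by
      refine Finset.card_le_card_of_injOn (fun x => (x, y)) ?_ ?_
      · intro x hx
        have h6 := (Finset.mem_filter.mp (Finset.mem_coe.mp hx)).2
        exact Finset.mem_coe.mpr (Finset.mem_filter.mpr
          ⟨Finset.mem_filter.mpr ⟨Finset.mem_univ _, h6⟩, rfl⟩)
      · intro x _ x' _ h
        exact (Prod.ext_iff.mp h).1
    exact_mod_cast h5
  have hsum : S.card = ∑ y : ZMod p, (S.filter fun P => P.2 = y).card :=
    Finset.card_eq_sum_card_fiberwise fun P _ => Finset.mem_coe.mpr (Finset.mem_univ _)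
  have h7 : (S.card : ℝ) = ∑ y : ZMod p, ((S.filter fun P => P.2 = y).card : ℝ) := by
    rw [hsum]
    push_cast
    rfl
  have h8 : ∑ y ∈ Y, ((S.filter fun P => P.2 = y).card : ℝ) ≤
      ∑ y : ZMod p, ((S.filter fun P => P.2 = y).card : ℝ) :=
    Finset.sum_le_sum_of_subset_of_nonneg (Finset.subset_univ _) fun _ _ _ => Nat.cast_nonneg _
  have h9 : (Y.card : ℝ) * (((p : ℝ) - 7) / 2) ≤ ∑ y ∈ Y, ((S.filter fun P => P.2 = y).card : ℝ) := by
    rw [← nsmul_eq_mul]
    exact Finset.card_nsmul_le_sum _ _ _ hfib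
  have hp' : (17 : ℝ) ≤ p := by exact_mod_cast hp
  have hY' : (p : ℝ) ≤ Y.card + 2 := by exact_mod_cast hYc
  have h10 : ((p : ℝ) - 2) * (((p : ℝ) - 7) / 2) ≤ (Y.card : ℝ) * (((p : ℝ) - 7) / 2) :=
    mul_le_mul_of_nonneg_right (by linarith) (by linarith)
  rw [h7]
  nlinarith

/-- **Proof.** `p ≥ 17`. If `ds v ≠ 0`: for each `y` with `w(y) ≠ 0` (at least `p - 2` of them: `w ≠ 0` is a polynomial of degree `≤ 2`) `sq_x` with `κ = qv w y 1` gives at least `(p - 7)/2` values of `x`: `(p - 2)(p - 7)/2 ≥ p²/16 ` for `p ≥ 11`. If `ds v = 0` then `ds w ≠ 0` and the same with `x` and `y` exchanged. -/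
theorem SqP_card (p : ℕ) [Fact p.Prime] (hp : 17 ≤ p) (v w : ZMod p × ZMod p × ZMod p) (hv : v ≠ 0) (hw : w ≠ 0)
    (h : ¬ (ds v = 0 ∧ ds w = 0)) : (p : ℝ) ^ 2 / 16 ≤ ((SqP p v w).card : ℝ) := by
  by_cases hd : ds v = 0
  · have hd' : ds w ≠ 0 := fun h' => h ⟨hd, h'⟩
    refine (QT1_half p hp w v hd' hv).trans ?_
    have h1 : (univ.filter fun P : ZMod p × ZMod p =>
        ∃ s : ZMod p, s ≠ 0 ∧ s ^ 2 = qv v P.2 1 * qv w P.1 1).card ≤ (SqP p v w).card := by
      refine Finset.card_le_card_of_injOn Prod.swap ?_ ?_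
      · intro P hP
        exact Finset.mem_coe.mpr (Finset.mem_filter.mpr ⟨Finset.mem_univ _,
          (Finset.mem_filter.mp (Finset.mem_coe.mp hP)).2⟩)
      · intro P _ P' _ h
        exact Prod.swap_injective h
    exact_mod_cast h1
  · refine (QT1_half p hp v w hd hw).trans (le_of_eq ?_)
    congr 2
    unfold SqP
    refine Finset.filter_congr fun P _ => ?_
    rw [mul_comm]

end HNQ
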