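import Pool.Agent.Lib.MP_10e784_agQ.QCDefs
import Pool.Agent.Lib.MP_1ad228_ntH.PD

/-! The integer `P1`. -/

set_option autoImplicit false

open Classical

namespace HNQ

open Finset Polynomial FGO FQQ HNF

/-- the difference of two roots -/
theorem QV1_root {K : Type} [Field K] {a b c r r' : K} (h : a * r ^ 2 + b * r + c = 0)
    (h' : a * r' ^ 2 + b * r' + c = 0) (hne : r ≠ r') : a * (r + r') = -b := by
  have h1 : (r - r') * (a * (r + r') + b) = 0 := by linear_combination h - h'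
  rcases mul_eq_zero.mp h1 with h2 | h2
  · exact absurd (sub_eq_zero.mp h2) hne
  · linear_combination h2

theorem QV1_field {K : Type} [Field K] (c : Fin 6 → K) (v w : K × K × K)
    (hv : v.1 ≠ 0) (hw : w.1 ≠ 0) (h : Two c v w) :
    (ds v * w.1 ^ 2 * Uq c v w ^ 2 - ds w * v.1 ^ 2 * Wq c v w ^ 2) *
      qv v (w.1 * c 2 - w.2.1 * c 5) (-(w.1 * c 3)) *
        qv w (v.1 * c 1 - v.2.1 * c 4) (-(v.1 * c 3)) = 0 := by
  obtain ⟨r, q, r', q', hne, e1, e2, e3, e4, e5, e6⟩ := h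
  obtain ⟨v1, v2, v3⟩ := v
  obtain ⟨w1, w2, w3⟩ := w
  simp only [qv, hA, ds, Uq, Wq] at hv hw e1 e2 e3 e4 e5 e6 ⊢
  by_cases hr : r = r'
  · have hq : q ≠ q' := fun e => hne ⟨hr, e⟩
    subst hr
    have h1 : w1 * (q + q') = -w2 :=
      QV1_root (c := w3) (by linear_combination e2) (by linear_combination e4) hq
    have h2 : (q - q') * (c 2 + c 3 * r + c 5 * (q + q')) = 0 := by linear_combination e5 - e6
    have h3 : c 2 + c 3 * r + c 5 * (q + q') = 0 := by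
      rcases mul_eq_zero.mp h2 with h3 | h3
      · exact absurd (sub_eq_zero.mp h3) hq
      · exact h3
    have h4 : w1 * c 2 - w2 * c 5 = -(w1 * c 3) * r := by
      linear_combination w1 * h3 - c 5 * h1
    have h5 : v1 * (w1 * c 2 - w2 * c 5) ^ 2 + v2 * (w1 * c 2 - w2 * c 5) * (-(w1 * c 3)) +
        v3 * (-(w1 * c 3)) ^ 2 = 0 := by
      rw [h4]
      linear_combination (w1 * c 3) ^ 2 * e1
    rw [h5, mul_zero, zero_mul]
  · have h0 : v1 * (r + r') = -v2 :=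
      QV1_root (c := v3) (by linear_combination e1) (by linear_combination e3) hr
    by_cases hq : q = q'
    · subst hq
      have h2 : (r - r') * (c 1 + c 3 * q + c 4 * (r + r')) = 0 := by linear_combination e5 - e6
      have h3 : c 1 + c 3 * q + c 4 * (r + r') = 0 := by
        rcases mul_eq_zero.mp h2 with h3 | h3
        · exact absurd (sub_eq_zero.mp h3) hr
        · exact h3
      have h4 : v1 * c 1 - v2 * c 4 = -(v1 * c 3) * q := by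
        linear_combination v1 * h3 - c 4 * h0
      have h5 : w1 * (v1 * c 1 - v2 * c 4) ^ 2 + w2 * (v1 * c 1 - v2 * c 4) * (-(v1 * c 3)) +
          w3 * (-(v1 * c 3)) ^ 2 = 0 := by
        rw [h4]
        linear_combination (v1 * c 3) ^ 2 * e2
      rw [h5, mul_zero]
    · have h1 : w1 * (q + q') = -w2 :=
        QV1_root (c := w3) (by linear_combination e2) (by linear_combination e4) hq
      have hr' : r' = -v2 / v1 - r := by
        field_simp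
        linear_combination h0
      have hq' : q' = -w2 / w1 - q := by
        field_simp
        linear_combination h1
      have h2 : w1 * (2 * v1 * r + v2) * (2 * v1 * w1 * c 1 - 2 * w1 * v2 * c 4 - v1 * w2 * c 3) +
          v1 * (2 * w1 * q + w2) * (2 * v1 * w1 * c 2 - 2 * v1 * w2 * c 5 - w1 * v2 * c 3) = 0 := by
        have h3 : w1 * (2 * v1 * r + v2) * (2 * v1 * w1 * c 1 - 2 * w1 * v2 * c 4 - v1 * w2 * c 3) +
          v1 * (2 * w1 * q + w2) * (2 * v1 * w1 * c 2 - 2 * v1 * w2 * c 5 - w1 * v2 * c 3) =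
            2 * v1 ^ 2 * w1 ^ 2 * ((c 0 * 1 ^ 2 + c 1 * r * 1 + c 2 * q * 1 + c 3 * r * q +
              c 4 * r ^ 2 + c 5 * q ^ 2) - (c 0 * 1 ^ 2 + c 1 * r' * 1 + c 2 * q' * 1 +
              c 3 * r' * q' + c 4 * r' ^ 2 + c 5 * q' ^ 2)) := by
          rw [hr', hq']
          field_simp
          ring
        rw [h3, e5, e6, sub_zero, mul_zero]
      have h4 : (2 * v1 * r + v2) ^ 2 = v2 ^ 2 - 4 * v1 * v3 := by linear_combination 4 * v1 * e1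
      have h5 : (2 * w1 * q + w2) ^ 2 = w2 ^ 2 - 4 * w1 * w3 := by linear_combination 4 * w1 * e2
      have h6 : (v2 ^ 2 - 4 * v1 * v3) * w1 ^ 2 *
          (2 * v1 * w1 * c 1 - 2 * w1 * v2 * c 4 - v1 * w2 * c 3) ^ 2 -
          (w2 ^ 2 - 4 * w1 * w3) * v1 ^ 2 *
          (2 * v1 * w1 * c 2 - 2 * v1 * w2 * c 5 - w1 * v2 * c 3) ^ 2 = 0 := by
        rw [← h4, ← h5]
        linear_combination (w1 * (2 * v1 * r + v2) *
          (2 * v1 * w1 * c 1 - 2 * w1 * v2 * c 4 - v1 * w2 * c 3) -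
          v1 * (2 * w1 * q + w2) * (2 * v1 * w1 * c 2 - 2 * v1 * w2 * c 5 - w1 * v2 * c 3)) * h2
      rw [h6, zero_mul, zero_mul]

/-- **Proof.** (`K = Kp p`.) `A(x, y) - A(x', y')` at two different pairs of roots. (1) `r = r'`, `q ≠ q'`: then `q + q' = - w.2.1/w.1` (both roots of `w`), `0 = A(r, q) - A(r, q') = (q - q') (c 2 + c 3 r + c 5 (q + q'))`, so `w.1 c 2 - w.2.1 c 5 + w.1 c 3 r = 0`: with `m = w.1 c 2 - w.2.1 c 5`, `n = w.1 c 3`: `m = - n r`, and `qv v m (-n) = qv v (-n r) (-n) = n² qv v r 1 = 0`.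
(2) `q = q'`, `r ≠ r'`: the same with `v` and `w` exchanged: `qv w (v.1 c 1 - v.2.1 c 4) (-(v.1 c 3)) = 0`. (3) `r ≠ r'`, `q ≠ q'`: `r' = - v.2.1/v.1 - r`, `q' = - w.2.1/w.1 - q`; put `ρ = 2 v.1 r + v.2.1`, `κ = 2 w.1 q + w.2.1`: `ρ² = ds v`, `κ² = ds w`, and `2 v.1² w.1² (A(r, q) - A(r', q')) = w.1 ρ Uq + v.1 κ Wq` up to a nonzero
constant factor (check with `field_simp; ring`; `A(r,q) - A(r',q') = (r - r') (c 1 + c 4 (r + r')) + (q - q') (c 2 + c 5 (q + q')) + c 3 (r q - r' q')`); so `(w.1 ρ Uq)² = (v.1 κ Wq)²`: `ds v w.1² Uq² = ds w v.1² Wq²`. In each case a factor of `P1` vanishes in `K`, so `(P1 : ZMod p) = 0`. (Casts: `mV (iK p) (cV p v)`, `Int.cast`.) -/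
theorem dvd_P1 (p : ℕ) [Fact p.Prime] (h2 : p ≠ 2) (c : Vn 5) (v w : V) (hv : ¬ (p : ℤ) ∣ v.1) (hw : ¬ (p : ℤ) ∣ w.1)
    (h : Two (fun i => iK p (cN p c i)) (mV (iK p) (cV p v)) (mV (iK p) (cV p w))) : (p : ℤ) ∣ P1 c v w := by
  have hinj : Function.Injective (iK p) := (iK p).injective
  have hv' : (mV (iK p) (cV p v)).1 ≠ 0 := by
    intro e
    have e' : iK p ((v.1 : ZMod p)) = iK p 0 := by rw [map_zero]; exact e
    exact hv ((ZMod.intCast_zmod_eq_zero_iff_dvd _ _).mp (hinj e'))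
  have hw' : (mV (iK p) (cV p w)).1 ≠ 0 := by
    intro e
    have e' : iK p ((w.1 : ZMod p)) = iK p 0 := by rw [map_zero]; exact e
    exact hw ((ZMod.intCast_zmod_eq_zero_iff_dvd _ _).mp (hinj e'))
  have key := QV1_field _ _ _ hv' hw' h
  rw [← ZMod.intCast_zmod_eq_zero_iff_dvd]
  refine hinj ?_
  rw [map_zero, ← key]
  simp only [P1, qv, ds, Uq, Wq, mV, cV, cN]
  push_cast
  simp only [map_ofNat]

/-- products of bounds -/
theorem QV1_mul {a b A B : ℤ} (ha : |a| ≤ A) (hb : |b| ≤ B) : |a * b| ≤ A * B := by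
  rw [abs_mul]
  exact mul_le_mul ha hb (abs_nonneg _) ((abs_nonneg _).trans ha)

theorem QV1_sub {a b A B : ℤ} (ha : |a| ≤ A) (hb : |b| ≤ B) : |a - b| ≤ A + B :=
  (abs_sub a b).trans (add_le_add ha hb)

theorem QV1_add {a b A B : ℤ} (ha : |a| ≤ A) (hb : |b| ≤ B) : |a + b| ≤ A + B :=
  (abs_add_le a b).trans (add_le_add ha hb)

theorem QV1_pow {a A : ℤ} (ha : |a| ≤ A) : |a ^ 2| ≤ A ^ 2 := by
  rw [abs_pow]
  exact pow_le_pow_left₀ (abs_nonneg _) ha 2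

theorem QV1_sq {d a b : ℤ} (ha : a ≠ 0) (h : d * a ^ 2 = b ^ 2) : IsSquare d := by
  have h1 : a ^ 2 ∣ b ^ 2 := ⟨d, by rw [← h]; ring⟩
  have h2 : a ∣ b := (Int.pow_dvd_pow_iff two_ne_zero).mp h1
  obtain ⟨k, rfl⟩ := h2
  refine ⟨k, ?_⟩
  have h3 : a ^ 2 ≠ 0 := pow_ne_zero 2 ha
  have h4 : (d - k * k) * a ^ 2 = 0 := by linear_combination h
  rcases mul_eq_zero.mp h4 with h5 | h5
  · exact sub_eq_zero.mp h5
  · exact absurd h5 h3

/-- Proof. `|Uq| ≤ 5 N² H`, `|Wq| ≤ 5 N² H`, `|ds| ≤ 5 N²`: first factor `≤ 250 N⁸ · N² H² ..`: `5 N² · N² · 25 N⁴ H² · 2 = 250 N⁸ H²`; second and third factor `≤ 7 N³ H²` each. Product `12250 N^14 H⁶`. -/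
theorem abs_P1_le (c : Vn 5) (v w : V) (H N : ℕ) (hc : ∀ i, |c i| ≤ (H : ℤ)) (hv : v ∈ box N) (hw : w ∈ box N) :
    |P1 c v w| ≤ 12250 * (N : ℤ) ^ 14 * (H : ℤ) ^ 6 := by
  obtain ⟨a1, a2, a3⟩ := mem_box.mp hv
  obtain ⟨b1, b2, b3⟩ := mem_box.mp hw
  have two : |(2 : ℤ)| ≤ 2 := by norm_num
  have four : |(4 : ℤ)| ≤ 4 := by norm_num
  have d1 : |ds v| ≤ (N : ℤ) ^ 2 + 4 * N * N :=
    QV1_sub (QV1_pow a2) (QV1_mul (QV1_mul four a1) a3)
  have d2 : |ds w| ≤ (N : ℤ) ^ 2 + 4 * N * N :=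
    QV1_sub (QV1_pow b2) (QV1_mul (QV1_mul four b1) b3)
  have u : |Uq c v w| ≤ 2 * (N : ℤ) * N * H + 2 * N * N * H + N * N * H :=
    QV1_sub (QV1_sub (QV1_mul (QV1_mul (QV1_mul two a1) b1) (hc 1))
      (QV1_mul (QV1_mul (QV1_mul two b1) a2) (hc 4))) (QV1_mul (QV1_mul a1 b2) (hc 3))
  have u' : |Wq c v w| ≤ 2 * (N : ℤ) * N * H + 2 * N * N * H + N * N * H :=
    QV1_sub (QV1_sub (QV1_mul (QV1_mul (QV1_mul two a1) b1) (hc 2))
      (QV1_mul (QV1_mul (QV1_mul two a1) b2) (hc 5))) (QV1_mul (QV1_mul b1 a2) (hc 3))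
  have f1 := QV1_sub (QV1_mul (QV1_mul d1 (QV1_pow b1)) (QV1_pow u))
    (QV1_mul (QV1_mul d2 (QV1_pow a1)) (QV1_pow u'))
  have m1 : |w.1 * c 2 - w.2.1 * c 5| ≤ (N : ℤ) * H + N * H :=
    QV1_sub (QV1_mul b1 (hc 2)) (QV1_mul b2 (hc 5))
  have m2 : |-(w.1 * c 3)| ≤ (N : ℤ) * H := by
    rw [abs_neg]
    exact QV1_mul b1 (hc 3)
  have m3 : |v.1 * c 1 - v.2.1 * c 4| ≤ (N : ℤ) * H + N * H :=
    QV1_sub (QV1_mul a1 (hc 1)) (QV1_mul a2 (hc 4))
  have m4 : |-(v.1 * c 3)| ≤ (N : ℤ) * H := by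
    rw [abs_neg]
    exact QV1_mul a1 (hc 3)
  have f2 : |qv v (w.1 * c 2 - w.2.1 * c 5) (-(w.1 * c 3))| ≤ (N : ℤ) * (N * H + N * H) ^ 2 +
      N * (N * H + N * H) * (N * H) + N * (N * H) ^ 2 :=
    QV1_add (QV1_add (QV1_mul a1 (QV1_pow m1)) (QV1_mul (QV1_mul a2 m1) m2))
      (QV1_mul a3 (QV1_pow m2))
  have f3 : |qv w (v.1 * c 1 - v.2.1 * c 4) (-(v.1 * c 3))| ≤ (N : ℤ) * (N * H + N * H) ^ 2 +
      N * (N * H + N * H) * (N * H) + N * (N * H) ^ 2 :=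
    QV1_add (QV1_add (QV1_mul b1 (QV1_pow m3)) (QV1_mul (QV1_mul b2 m3) m4))
      (QV1_mul b3 (QV1_pow m4))
  refine (QV1_mul (QV1_mul f1 f2) f3).trans (le_of_eq ?_)
  ring

/-- Proof. Second factor: `qv v m n'` with `4 v.1 qv v m n' = (2 v.1 m + v.2.1 n')² - ds v n'²`: zero only if `n' = 0` (`ds v` is not a square), but `n' = - w.1 c 3 ≠ 0`. Third factor similarly. First factor zero: `ds v ds w (w.1 Uq)² = (ds w v.1 Wq)²`, so `w.1 Uq = 0` as `ds v ds w` is not a square. -/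
theorem P1_ne (c : Vn 5) (v w : V) (hv : v.1 ≠ 0) (hw : w.1 ≠ 0) (h1 : ¬ IsSquare (ds v)) (h2 : ¬ IsSquare (ds w))
    (h3 : ¬ IsSquare (ds v * ds w)) (hc : c 3 ≠ 0) (hU : Uq c v w ≠ 0) : P1 c v w ≠ 0 := by
  unfold P1
  refine mul_ne_zero (mul_ne_zero ?_ ?_) ?_
  · intro e
    refine h3 (QV1_sq (a := w.1 * Uq c v w) (b := ds w * v.1 * Wq c v w) (mul_ne_zero hw hU) ?_)
    linear_combination ds w * e
  · intro e
    have hn : w.1 * c 3 ≠ 0 := mul_ne_zero hw hc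
    refine h1 (QV1_sq (a := w.1 * c 3)
      (b := 2 * v.1 * (w.1 * c 2 - w.2.1 * c 5) + v.2.1 * (-(w.1 * c 3))) hn ?_)
    unfold qv at e
    unfold ds
    linear_combination (-4 * v.1) * e
  · intro e
    have hn : v.1 * c 3 ≠ 0 := mul_ne_zero hv hc
    refine h2 (QV1_sq (a := v.1 * c 3)
      (b := 2 * w.1 * (v.1 * c 1 - v.2.1 * c 4) + w.2.1 * (-(v.1 * c 3))) hn ?_)
    unfold qv at e
    unfold ds
    linear_combination (-4 * w.1) * e

end HNQ
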