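import Pool.Agent.Lib.MP_10e784_agQ.QV1

/-! Large primes: the algebraic bad event. -/

set_option autoImplicit false

open Classical

namespace HNQ

open Finset Polynomial FGO FQQ HNF


/-- fibres over the other coordinates -/
theorem QV2_fiber (H k : ℕ) (i0 : Fin 6) (S : Finset (Vn 5)) (hS : S ⊆ boxN 5 H)
    (h : ∀ c ∈ S, ∃ T : Finset ℤ, T.card ≤ k ∧ ∀ c' ∈ S, (∀ j, j ≠ i0 → c' j = c j) → c' i0 ∈ T) :
    S.card ≤ k * (2 * H + 1) ^ 5 := by
  have h1 : (Fintype.piFinset fun _ : Fin 5 => Icc (-(H : ℤ)) (H : ℤ)).card = (2 * H + 1) ^ 5 := by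
    rw [Fintype.card_piFinset]
    simp only [Finset.prod_const, Finset.card_univ, Fintype.card_fin, Int.card_Icc]
    congr 1
    omega
  rw [← h1]
  refine Finset.card_le_mul_card_image_of_maps_to
    (f := fun (c : Vn 5) (j : Fin 5) => c (i0.succAbove j)) ?_ k ?_
  · intro c hc
    have hb := hS hc
    rw [boxN, Fintype.mem_piFinset] at hb
    rw [Fintype.mem_piFinset]
    intro j
    exact hb _
  · intro b _
    by_cases hE : (S.filter fun c => (fun j : Fin 5 => c (i0.succAbove j)) = b) = ∅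
    · rw [hE]
      simp
    · obtain ⟨c, hc⟩ := Finset.nonempty_iff_ne_empty.2 hE
      rw [Finset.mem_filter] at hc
      obtain ⟨T, hT, hT2⟩ := h c hc.1
      refine le_trans (Finset.card_le_card_of_injOn (fun c' => c' i0) ?_ ?_) hT
      · intro c' hc'
        rw [Finset.mem_coe, Finset.mem_filter] at hc'
        refine hT2 c' hc'.1 ?_
        intro j hj
        obtain ⟨l, hl⟩ := Fin.exists_succAbove_eq hj
        have e : c' (i0.succAbove l) = c (i0.succAbove l) := congrFun (hc'.2.trans hc.2.symm) l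
        rw [← hl]
        exact e
      · intro c1 hc1 c2 hc2 he
        rw [Finset.mem_coe, Finset.mem_filter] at hc1 hc2
        funext j
        by_cases hj : j = i0
        · rw [hj]
          exact he
        · obtain ⟨l, hl⟩ := Fin.exists_succAbove_eq hj
          have e : c1 (i0.succAbove l) = c2 (i0.succAbove l) := congrFun (hc1.2.trans hc2.2.symm) l
          rw [← hl]
          exact e

theorem QV2_box {H : ℕ} {c : Vn 5} (hc : c ∈ boxN 5 H) (i : Fin 6) : |c i| ≤ (H : ℤ) := by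
  rw [boxN, Fintype.mem_piFinset] at hc
  have := hc i
  rw [Finset.mem_Icc] at this
  exact abs_le.2 this

theorem QV2_boxV {N : ℕ} {v : V} (hv : v ∈ box N) : |v.1| ≤ (N : ℤ) ∧ |v.2.1| ≤ (N : ℤ) ∧ |v.2.2| ≤ (N : ℤ) := by
  have hv' : v ∈ Icc (-(N : ℤ)) (N : ℤ) ×ˢ (Icc (-(N : ℤ)) (N : ℤ) ×ˢ Icc (-(N : ℤ)) (N : ℤ)) := hv
  rw [Finset.mem_product, Finset.mem_product, Finset.mem_Icc, Finset.mem_Icc, Finset.mem_Icc] at hv'
  exact ⟨abs_le.2 hv'.1, abs_le.2 hv'.2.1, abs_le.2 hv'.2.2⟩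

theorem QV2_absU {H N : ℕ} {c : Vn 5} (hc : ∀ i, |c i| ≤ (H : ℤ)) {v w : V} (hv : v ∈ box N) (hw : w ∈ box N) :
    |Uq c v w| ≤ 5 * (N : ℤ) ^ 2 * H := by
  obtain ⟨v1, v2, v3⟩ := QV2_boxV hv
  obtain ⟨w1, w2, w3⟩ := QV2_boxV hw
  have key : ∀ a b x : ℤ, |a| ≤ (N : ℤ) → |b| ≤ (N : ℤ) → |x| ≤ (H : ℤ) → |a * b * x| ≤ (N : ℤ) ^ 2 * H := by
    intro a b x ha hb hx
    rw [abs_mul, abs_mul, sq]
    exact mul_le_mul (mul_le_mul ha hb (abs_nonneg _) (by positivity)) hx (abs_nonneg _) (by positivity)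
  have k1 := key v.1 w.1 (c 1) v1 w1 (hc 1)
  have k2 := key w.1 v.2.1 (c 4) w1 v2 (hc 4)
  have k3 := key v.1 w.2.1 (c 3) v1 w2 (hc 3)
  have e : Uq c v w = 2 * (v.1 * w.1 * c 1) - 2 * (w.1 * v.2.1 * c 4) - v.1 * w.2.1 * c 3 := by
    unfold Uq
    ring
  rw [e, abs_le]
  rw [abs_le] at k1 k2 k3
  constructor <;> nlinarith [k1.1, k1.2, k2.1, k2.2, k3.1, k3.2]

theorem QV2_castU (p : ℕ) (c : Vn 5) (v w : V) : Uq (cN p c) (cV p v) (cV p w) = ((Uq c v w : ℤ) : ZMod p) := by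
  unfold Uq cN cV
  push_cast
  ring

theorem QV2_castW (p : ℕ) (c : Vn 5) (v w : V) : Wq (cN p c) (cV p v) (cV p w) = ((Wq c v w : ℤ) : ZMod p) := by
  unfold Wq cN cV
  push_cast
  ring

theorem QV2_ndvd {p : ℕ} {a : ℤ} (ha : a ≠ 0) (h : |a| < (p : ℤ)) : ¬ (p : ℤ) ∣ a :=
  fun hd => ha (Int.eq_zero_of_abs_lt_dvd hd h)

theorem QV2_roots {K : Type} [Field K] (v : K × K × K) (h : v.1 ≠ 0) :
    ((Pq v).roots.toFinset.card ≤ 2) ∧ ∀ r : K, qv v r 1 = 0 → r ∈ (Pq v).roots.toFinset := by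
  have hd : (Pq v).natDegree ≤ 2 := by
    unfold Pq
    compute_degree
  have h0 : Pq v ≠ 0 := by
    intro h0
    have := congrArg (fun g => g.coeff 2) h0
    simp only [Pq, coeff_add, coeff_C_mul, coeff_X_pow, coeff_X, coeff_C, coeff_zero] at this
    norm_num at this
    exact h this
  constructor
  · exact le_trans (Multiset.toFinset_card_le _) (le_trans (card_roots' _) hd)
  · intro r hr
    rw [Multiset.mem_toFinset, mem_roots h0, IsRoot.def]
    rw [← hr]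
    unfold Pq qv
    simp

theorem QV2_iKint (p : ℕ) [Fact p.Prime] {a : ℤ} (h : ¬ (p : ℤ) ∣ a) : iK p (a : ZMod p) ≠ 0 := by
  intro h0
  have h1 : (a : ZMod p) = 0 := (map_eq_zero (iK p)).1 h0
  exact h ((ZMod.intCast_zmod_eq_zero_iff_dvd a p).1 h1)

theorem QV2_union {α : Type} [DecidableEq α] (S A B C : Finset α) (a b d : ℕ) (hA : A.card ≤ a) (hB : B.card ≤ b)
    (hC : C.card ≤ d) (h : ∀ c ∈ S, c ∈ A ∨ c ∈ B ∨ c ∈ C) : S.card ≤ a + (b + d) := by
  have hsub : S ⊆ A ∪ (B ∪ C) := by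
    intro c hc
    rw [Finset.mem_union, Finset.mem_union]
    exact h c hc
  exact le_trans (Finset.card_le_card hsub) (le_trans (Finset.card_union_le _ _)
    (Nat.add_le_add hA (le_trans (Finset.card_union_le _ _) (Nat.add_le_add hB hC))))

/-- for a given prime there are at most four values of `c 0` -/
theorem QV2_T (p : ℕ) [Fact p.Prime] (H : ℕ) (hp : 4 * H < p) (c : Vn 5) (v w : V) (hv : ¬ (p : ℤ) ∣ v.1)
    (hw : ¬ (p : ℤ) ∣ w.1) : ∃ T : Finset ℤ, T.card ≤ 4 ∧ ∀ c' : Vn 5, (∀ j, j ≠ 0 → c' j = c j) →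
      |c' 0| ≤ (H : ℤ) → Two (fun i => iK p (cN p c' i)) (mV (iK p) (cV p v)) (mV (iK p) (cV p w)) → c' 0 ∈ T := by
  obtain ⟨hv1, hv2⟩ := QV2_roots (mV (iK p) (cV p v)) (QV2_iKint p hv)
  obtain ⟨hw1, hw2⟩ := QV2_roots (mV (iK p) (cV p w)) (QV2_iKint p hw)
  set Rv := (Pq (mV (iK p) (cV p v))).roots.toFinset with hRv
  set Rw := (Pq (mV (iK p) (cV p w))).roots.toFinset with hRw
  set J : Finset (Kp p) := (Rv ×ˢ Rw).image fun x =>
    iK p (cN p c 0) - hA (fun i => iK p (cN p c i)) x.1 x.2 1 with hJ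
  have hJc : J.card ≤ 4 := by
    refine le_trans Finset.card_image_le ?_
    rw [Finset.card_product]
    exact Nat.mul_le_mul hv1 hw1
  refine ⟨(Icc (-(H : ℤ)) (H : ℤ)).filter (fun z => iK p (z : ZMod p) ∈ J), ?_, ?_⟩
  · refine le_trans (Finset.card_le_card_of_injOn (fun z : ℤ => iK p (z : ZMod p)) ?_ ?_) hJc
    · intro z hz
      rw [Finset.mem_coe, Finset.mem_filter] at hz
      exact hz.2
    · intro a ha b hb hab
      rw [Finset.mem_coe, Finset.mem_filter, Finset.mem_Icc] at ha hb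
      have h1 : (a : ZMod p) = (b : ZMod p) := (iK p).injective hab
      have h2 : ((a - b : ℤ) : ZMod p) = 0 := by
        rw [Int.cast_sub, h1, sub_self]
      have h3 := (ZMod.intCast_zmod_eq_zero_iff_dvd (a - b) p).1 h2
      have h4 := Int.eq_zero_of_abs_lt_dvd h3 (by rw [abs_lt]; constructor <;> omega)
      omega
  · intro c' hc' hH hT
    obtain ⟨r, q, r', q', -, e1, e2, -, -, e3, -⟩ := hT
    rw [Finset.mem_filter, Finset.mem_Icc]
    refine ⟨abs_le.1 hH, ?_⟩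
    rw [hJ, Finset.mem_image]
    refine ⟨(r, q), Finset.mem_product.2 ⟨hv2 r e1, hw2 q e2⟩, ?_⟩
    have n : ∀ j : Fin 6, j ≠ 0 → iK p (cN p c' j) = iK p (cN p c j) := by
      intro j hj
      unfold cN
      rw [hc' j hj]
    have e4 : iK p ((c' 0 : ℤ) : ZMod p) = iK p (cN p c' 0) := rfl
    rw [e4]
    simp only [hA] at e3 ⊢
    rw [n 1 (by decide), n 2 (by decide), n 3 (by decide), n 4 (by decide), n 5 (by decide)] at e3
    linear_combination (-1 : Kp p) * e3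

theorem QV2_P1 (c c' : Vn 5) (v w : V) (h : ∀ j, j ≠ 0 → c' j = c j) : P1 c' v w = P1 c v w := by
  unfold P1 Uq Wq
  rw [h 1 (by decide), h 2 (by decide), h 3 (by decide), h 4 (by decide), h 5 (by decide)]

theorem QV2_H {H N : ℕ} (hN : 16 ≤ N) (hH : N ^ 5 ≤ H) : 16 * N ^ 2 < H := by
  have h1 : 16 ^ 3 * N ^ 2 ≤ N ^ 5 := by
    have : N ^ 5 = N ^ 3 * N ^ 2 := by ring
    rw [this]
    exact Nat.mul_le_mul_right _ (Nat.pow_le_pow_left hN 3)
  have h2 : 0 < N ^ 2 := by positivity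
  nlinarith

theorem QV2_NH {H N : ℕ} (hN : 16 ≤ N) (hH : N ^ 5 ≤ H) : N < H := by
  have h1 := QV2_H hN hH
  nlinarith

/-- the number of large primes -/
theorem QV2_primes (H N : ℕ) (hN : 16 ≤ N) (hH : N ^ 5 ≤ H) (P : ℤ) (hP : P ≠ 0)
    (hP2 : |P| ≤ 12250 * (N : ℤ) ^ 14 * (H : ℤ) ^ 6) :
    (P.natAbs.primeFactors.filter fun p => 4 * H < p).card ≤ 9 := by
  by_contra hcon
  push Not at hcon
  set Q := P.natAbs.primeFactors.filter fun p => 4 * H < p with hQ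
  have hH0 : 0 < H := by
    have := QV2_NH hN hH
    omega
  have h1 : (4 * H) ^ Q.card ≤ ∏ p ∈ Q, p := by
    refine Finset.pow_card_le_prod Q (fun p => p) (4 * H) ?_
    intro p hp
    rw [hQ, Finset.mem_filter] at hp
    exact hp.2.le
  have h2 : ∏ p ∈ Q, p ≤ P.natAbs := by
    have h3 : (∏ p ∈ Q, p) ∣ ∏ p ∈ P.natAbs.primeFactors, p :=
      Finset.prod_dvd_prod_of_subset _ _ _ (Finset.filter_subset _ _)
    have h4 := Nat.prod_primeFactors_dvd P.natAbs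
    exact Nat.le_of_dvd (Int.natAbs_pos.2 hP) (h3.trans h4)
  have h3 : (4 * H) ^ 10 ≤ (4 * H) ^ Q.card := Nat.pow_le_pow_right (by omega) hcon
  have h4 : P.natAbs ≤ 12250 * N ^ 14 * H ^ 6 := by
    have : ((P.natAbs : ℕ) : ℤ) ≤ ((12250 * N ^ 14 * H ^ 6 : ℕ) : ℤ) := by
      push_cast
      exact hP2
    exact_mod_cast this
  have h5 : N ^ 14 ≤ H ^ 3 := by
    calc N ^ 14 ≤ N ^ 15 := Nat.pow_le_pow_right (by omega) (by norm_num)
      _ = (N ^ 5) ^ 3 := by ring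
      _ ≤ H ^ 3 := Nat.pow_le_pow_left hH 3
  have h6 : 12250 * N ^ 14 * H ^ 6 ≤ 12250 * H ^ 3 * H ^ 6 :=
    Nat.mul_le_mul_right _ (Nat.mul_le_mul_left _ h5)
  have h7 : (4 * H) ^ 10 ≤ 12250 * H ^ 3 * H ^ 6 := by
    exact le_trans h3 (le_trans h1 (le_trans h2 (le_trans h4 h6)))
  have h8 : (4 * H) ^ 10 = 1048576 * H * (H ^ 3 * H ^ 6) := by ring
  have h9 : 12250 * H ^ 3 * H ^ 6 = 12250 * (H ^ 3 * H ^ 6) := by ring
  rw [h8, h9] at h7
  have h10 : 0 < H ^ 3 * H ^ 6 := by positivity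
  have h11 := Nat.le_of_mul_le_mul_right h7 h10
  omega

/-- Proof. The vectors with given `c 0, c 2, c 3, c 4, c 5`: `Uq = 0` determines `c 1` (`2 v.1 w.1 ≠ 0`). -/
theorem card_U (H : ℕ) (v w : V) (hv : v.1 ≠ 0) (hw : w.1 ≠ 0) :
    ((boxN 5 H).filter fun c => Uq c v w = 0).card ≤ (2 * H + 1) ^ 5 := by
  have h := QV2_fiber H 1 1 ((boxN 5 H).filter fun c => Uq c v w = 0) (Finset.filter_subset _ _) ?_
  · rwa [one_mul] at h
  · intro c hc
    refine ⟨{c 1}, by simp, ?_⟩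
    intro c' hc' hj
    rw [Finset.mem_filter] at hc hc'
    rw [Finset.mem_singleton]
    have e1 := hc.2
    have e2 := hc'.2
    unfold Uq at e1 e2
    rw [hj 3 (by decide), hj 4 (by decide)] at e2
    have e3 : (2 * v.1 * w.1) * (c' 1 - c 1) = 0 := by linear_combination e2 - e1
    have e4 : (2 * v.1 * w.1) ≠ 0 := mul_ne_zero (mul_ne_zero two_ne_zero hv) hw
    have e5 := (mul_eq_zero.1 e3).resolve_left e4
    omega

/-- **Proof.** `0 < |Uq| ≤ 5 N² H < (4 H)²`, so at most one prime `p > 4 H` divides `Uq` (two different ones: their product divides it). `Uq` does not depend on `c 2`, so for given `c 0, c 1, c 3, c 4, c 5` there is at most one such `p`, and then `p ∣ Wq` determines `2 v.1 w.1 c 2` modulo `p`, so `c 2` modulo `p` (`p ∤ 2 v.1 w.1`: `0 < |2 v.1 w.1| ≤ 2 N² < p`), so `c 2`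
(`|c 2| ≤ H < p/4`): at most one `c 2`. -/
theorem card_UW (H N : ℕ) (hN : 16 ≤ N) (hH : N ^ 5 ≤ H) (v w : V) (hv : v ∈ box N) (hw : w ∈ box N) (hv1 : v.1 ≠ 0)
    (hw1 : w.1 ≠ 0) :
    ((boxN 5 H).filter fun c => Uq c v w ≠ 0 ∧ ∃ p : ℕ, p.Prime ∧ 4 * H < p ∧ (p : ℤ) ∣ Uq c v w ∧ (p : ℤ) ∣ Wq c v w).card ≤
      (2 * H + 1) ^ 5 := by
  have h := QV2_fiber H 1 2 ((boxN 5 H).filter fun c => Uq c v w ≠ 0 ∧ ∃ p : ℕ, p.Prime ∧ 4 * H < p ∧
    (p : ℤ) ∣ Uq c v w ∧ (p : ℤ) ∣ Wq c v w) (Finset.filter_subset _ _) ?_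
  · rwa [one_mul] at h
  · intro c hc
    refine ⟨{c 2}, by simp, ?_⟩
    intro c' hc' hj
    rw [Finset.mem_filter] at hc hc'
    rw [Finset.mem_singleton]
    obtain ⟨hcb, hU, p, hp, hpH, hpU, hpW⟩ := hc
    obtain ⟨hcb', hU', p', hp', hpH', hpU', hpW'⟩ := hc'
    have hHN := QV2_H hN hH
    have hNH := QV2_NH hN hH
    have eU : Uq c' v w = Uq c v w := by
      unfold Uq
      rw [hj 1 (by decide), hj 3 (by decide), hj 4 (by decide)]
    rw [eU] at hpU'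
    have hpp : p = p' := by
      by_contra hne
      have hco : IsCoprime (p : ℤ) (p' : ℤ) := by
        rw [Nat.isCoprime_iff_coprime]
        exact (Nat.coprime_primes hp hp').2 hne
      have hd : (p : ℤ) * p' ∣ Uq c v w := hco.mul_dvd hpU hpU'
      have hle : (p : ℤ) * p' ≤ |Uq c v w| := by
        have h1 := Int.le_of_dvd (abs_pos.2 hU) ((dvd_abs _ _).2 hd)
        exact h1
      have hab := QV2_absU (QV2_box hcb) hv hw
      have g1 : (4 * H : ℤ) < p := by exact_mod_cast hpH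
      have g2 : (4 * H : ℤ) < p' := by exact_mod_cast hpH'
      have g3 : (16 * N ^ 2 : ℤ) < H := by exact_mod_cast hHN
      have g4 : (0 : ℤ) ≤ H := by positivity
      have g5 : (4 * H : ℤ) * (4 * H) ≤ p * p' := mul_le_mul g1.le g2.le (by positivity) (by positivity)
      have g6 : (5 * N ^ 2 * H : ℤ) ≤ H * H := by nlinarith
      nlinarith
    subst hpp
    have e1 : (p : ℤ) ∣ (2 * v.1 * w.1) * (c' 2 - c 2) := by
      have h1 := dvd_sub hpW' hpW
      have h2 : Wq c' v w - Wq c v w = (2 * v.1 * w.1) * (c' 2 - c 2) := by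
        unfold Wq
        rw [hj 3 (by decide), hj 5 (by decide)]
        ring
      rwa [h2] at h1
    have hpz : Prime (p : ℤ) := Nat.prime_iff_prime_int.1 hp
    obtain ⟨v1, -, -⟩ := QV2_boxV hv
    obtain ⟨w1, -, -⟩ := QV2_boxV hw
    have e2 : ¬ (p : ℤ) ∣ 2 * v.1 * w.1 := by
      refine QV2_ndvd (mul_ne_zero (mul_ne_zero two_ne_zero hv1) hw1) ?_
      rw [abs_mul, abs_mul]
      have g1 : |v.1| * |w.1| ≤ (N : ℤ) * N := mul_le_mul v1 w1 (abs_nonneg _) (by positivity)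
      have g2 : (16 * N ^ 2 : ℤ) < H := by exact_mod_cast hHN
      have g3 : (4 * H : ℤ) < p := by exact_mod_cast hpH
      have g4 : |(2 : ℤ)| = 2 := rfl
      rw [g4]
      nlinarith
    have e3 := (hpz.dvd_or_dvd e1).resolve_left e2
    have b1 := abs_le.1 (QV2_box hcb 2)
    have b2 := abs_le.1 (QV2_box hcb' 2)
    have g3 : (4 * H : ℤ) < p := by exact_mod_cast hpH
    have e4 := Int.eq_zero_of_abs_lt_dvd e3 (by rw [abs_lt]; constructor <;> omega)
    omega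

/-- **Proof.** `P1` does not depend on `c 0`. Fix `c 1, .., c 5` with `c 3 ≠ 0`, `Uq ≠ 0`: `P1 ≠ 0` (`P1_ne`), `|P1| ≤ 12250 N^14 H⁶ < (4 H)^10` (`N^15 ≤ H³`), so at most 9 primes `p > 4 H` divide `P1` (the product of ten different ones would be larger; e.g. `Finset.prod_primes_dvd` and `Finset.prod_le_prod`/`pow_card_le_prod`). By `dvd_P1` every `p` in question is one of them. For each such `p`: `c 0` is (in `Kp p`) one of the at most 4 numbers
`- B(r, q)`, `B(r, q) = A(r, q) - c 0`, `r` a root of `v`, `q` a root of `w` (the sets of roots have at most 2 elements); the map `c 0 ↦ (c 0 : Kp p)` is injective on `[-H, H]` (`2 H < p`): at most 4 values of `c 0`. Total `36 (2 H + 1)⁵`. (`p ∤ v.1 w.1` as `0 < |v.1|, |w.1| ≤ N < p`.) -/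
theorem card_Two (H N : ℕ) (hN : 16 ≤ N) (hH : N ^ 5 ≤ H) (v w : V) (hv : v ∈ box N) (hw : w ∈ box N) (hv1 : v.1 ≠ 0)
    (hw1 : w.1 ≠ 0) (h1 : ¬ IsSquare (ds v)) (h2 : ¬ IsSquare (ds w)) (h3 : ¬ IsSquare (ds v * ds w)) :
    ((boxN 5 H).filter fun c => Uq c v w ≠ 0 ∧ c 3 ≠ 0 ∧ ∃ (p : ℕ) (_ : Fact p.Prime), 4 * H < p ∧
      Two (fun i => iK p (cN p c i)) (mV (iK p) (cV p v)) (mV (iK p) (cV p w))).card ≤ 36 * (2 * H + 1) ^ 5 := by
  refine QV2_fiber H 36 0 _ (Finset.filter_subset _ _) ?_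
  intro c hc
  rw [Finset.mem_filter] at hc
  obtain ⟨hcb, hU, hc3, -⟩ := hc
  have hHN := QV2_H hN hH
  have hNH := QV2_NH hN hH
  have hP : P1 c v w ≠ 0 := P1_ne c v w hv1 hw1 h1 h2 h3 hc3 hU
  have hP2 := abs_P1_le c v w H N (QV2_box hcb) hv hw
  have hQ := QV2_primes H N hN hH (P1 c v w) hP hP2
  obtain ⟨bv, -, -⟩ := QV2_boxV hv
  obtain ⟨bw, -, -⟩ := QV2_boxV hw
  have nd : ∀ p : ℕ, 4 * H < p → (¬ (p : ℤ) ∣ v.1) ∧ (¬ (p : ℤ) ∣ w.1) := by
    intro p hp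
    have g1 : (4 * H : ℤ) < p := by exact_mod_cast hp
    have g2 : (N : ℤ) < H := by exact_mod_cast hNH
    exact ⟨QV2_ndvd hv1 (by omega), QV2_ndvd hw1 (by omega)⟩
  have hT : ∀ p : ℕ, ∃ T : Finset ℤ, T.card ≤ 4 ∧ ∀ (hp : p.Prime), 4 * H < p → ∀ c' : Vn 5,
      (∀ j, j ≠ 0 → c' j = c j) → |c' 0| ≤ (H : ℤ) →
      (have : Fact p.Prime := ⟨hp⟩
       Two (fun i => iK p (cN p c' i)) (mV (iK p) (cV p v)) (mV (iK p) (cV p w))) → c' 0 ∈ T := by
    intro p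
    by_cases hp : p.Prime
    · by_cases hpH : 4 * H < p
      · haveI : Fact p.Prime := ⟨hp⟩
        obtain ⟨T, hT1, hT2⟩ := QV2_T p H hpH c v w (nd p hpH).1 (nd p hpH).2
        exact ⟨T, hT1, fun _ _ c' a1 a2 a3 => hT2 c' a1 a2 a3⟩
      · exact ⟨∅, by simp, fun _ h => absurd h hpH⟩
    · exact ⟨∅, by simp, fun h => absurd h hp⟩
  choose T hT1 hT2 using hT
  refine ⟨((P1 c v w).natAbs.primeFactors.filter fun p => 4 * H < p).biUnion T, ?_, ?_⟩
  · refine le_trans Finset.card_biUnion_le ?_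
    refine le_trans (Finset.sum_le_card_nsmul _ _ 4 fun p _ => hT1 p) ?_
    rw [smul_eq_mul]
    calc _ ≤ 9 * 4 := Nat.mul_le_mul_right 4 hQ
      _ = 36 := rfl
  · intro c' hc' hj
    rw [Finset.mem_filter] at hc'
    obtain ⟨hcb', hU', hc3', p, hp, hpH, hTwo⟩ := hc'
    rw [Finset.mem_biUnion]
    refine ⟨p, ?_, hT2 p hp.out hpH c' hj (QV2_box hcb' 0) hTwo⟩
    rw [Finset.mem_filter, Nat.mem_primeFactors]
    refine ⟨⟨hp.out, ?_, Int.natAbs_ne_zero.2 hP⟩, hpH⟩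
    have hp2 : p ≠ 2 := by
      intro h
      omega
    have hd := dvd_P1 p hp2 c' v w (nd p hpH).1 (nd p hpH).2 hTwo
    rw [QV2_P1 c c' v w hj] at hd
    exact Int.natCast_dvd.1 hd

/-- Proof. `Bd1` at `p > 4 H`: the first clause is impossible (`0 < |c 5| ≤ H < p`). `Uq = 0` (integer): `card_U`. Otherwise the second clause gives the set of `card_UW`, the third that of `card_Two`. -/
theorem large_Bd1 (H N : ℕ) (hN : 16 ≤ N) (hH : N ^ 5 ≤ H) (v w : V) (hv : v ∈ box N) (hw : w ∈ box N) (hv1 : v.1 ≠ 0)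
    (hw1 : w.1 ≠ 0) (h1 : ¬ IsSquare (ds v)) (h2 : ¬ IsSquare (ds w)) (h3 : ¬ IsSquare (ds v * ds w)) :
    ((boxN 5 H).filter fun c => (c 3 ≠ 0 ∧ c 5 ≠ 0) ∧ ∃ (p : ℕ) (_ : Fact p.Prime), 4 * H < p ∧
      Bd1 p (cN p c) (cV p v) (cV p w)).card ≤ 38 * (2 * H + 1) ^ 5 := by
  have a1 := card_U H v w hv1 hw1
  have a2 := card_UW H N hN hH v w hv hw hv1 hw1
  have a3 := card_Two H N hN hH v w hv hw hv1 hw1 h1 h2 h3
  refine le_trans (QV2_union _ _ _ _ _ _ _ a1 a2 a3 ?_) ?_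
  · intro c hc
    rw [Finset.mem_filter] at hc
    obtain ⟨hcb, ⟨hc3, hc5⟩, p, hp, hpH, hB⟩ := hc
    rw [Finset.mem_filter, Finset.mem_filter, Finset.mem_filter]
    by_cases hU : Uq c v w = 0
    · exact Or.inl ⟨hcb, hU⟩
    · right
      rcases hB with hB | hB | hB
      · exfalso
        have h5 : ((c 5 : ℤ) : ZMod p) = 0 := hB.2
        have h6 := (ZMod.intCast_zmod_eq_zero_iff_dvd (c 5) p).1 h5
        have b5 := QV2_box hcb 5
        have hHN := QV2_NH hN hH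
        have g1 : (4 * H : ℤ) < p := by exact_mod_cast hpH
        exact QV2_ndvd hc5 (by omega) h6
      · left
        refine ⟨hcb, hU, p, hp.out, hpH, ?_, ?_⟩
        · have h5 := hB.1
          rw [QV2_castU] at h5
          exact (ZMod.intCast_zmod_eq_zero_iff_dvd _ p).1 h5
        · have h5 := hB.2
          rw [QV2_castW] at h5
          exact (ZMod.intCast_zmod_eq_zero_iff_dvd _ p).1 h5
      · right
        exact ⟨hcb, hU, hc3, p, hp, hpH, hB⟩
  · omega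

end HNQ
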