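import Pool.Agent.Lib.MP_10e784_agQ.QB1
import Pool.Agent.Lib.MP_10e784_agF.BA
import Pool.Agent.Lib.MP_10e784_agF.RC
import Pool.Agent.Lib.MP_10e784_agF.LF
import Pool.Agent.Lib.MP_10e784_agF.LE

/-! An explicit formula for the resultant; the mean value of `RQ = 0`. -/

set_option autoImplicit false

open Classical

namespace HNQ

open Finset Polynomial FGO FQQ HNF

/-- the resultant of a quartic form and a quadratic form, explicitly -/
def R4 {F : Type} [CommRing F] (f : Fin 5 → F) (v : F × F × F) : F :=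
  f 0 ^ 2 * v.1 ^ 4 + f 1 ^ 2 * v.1 ^ 3 * v.2.2 + f 2 ^ 2 * v.1 ^ 2 * v.2.2 ^ 2 + f 3 ^ 2 * v.1 * v.2.2 ^ 3 + f 4 ^ 2 * v.2.2 ^ 4 +
  (f 0 * f 1 * v.1 ^ 3 + f 1 * f 2 * v.1 ^ 2 * v.2.2 + f 2 * f 3 * v.1 * v.2.2 ^ 2 + f 3 * f 4 * v.2.2 ^ 3) * (-v.2.1) +
  (f 0 * f 2 * v.1 ^ 2 + f 1 * f 3 * v.1 * v.2.2 + f 2 * f 4 * v.2.2 ^ 2) * (v.2.1 ^ 2 - 2 * v.1 * v.2.2) +
  (f 0 * f 3 * v.1 + f 1 * f 4 * v.2.2) * (-v.2.1 ^ 3 + 3 * v.1 * v.2.1 * v.2.2) +
  f 0 * f 4 * (v.2.1 ^ 4 - 4 * v.1 * v.2.1 ^ 2 * v.2.2 + 2 * v.1 ^ 2 * v.2.2 ^ 2)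

theorem QX1_aux1 {K : Type} [Field K] [IsAlgClosed K] (h2 : (2 : K) ≠ 0) (f : Fin 5 → K) (v : K × K × K)
    (hv1 : v.1 ≠ 0) : Rs (m := 4) f v = R4 f v := by
  have hsq : IsSquare (ds v) := by
    obtain ⟨z, hz⟩ := IsAlgClosed.exists_pow_nat_eq (ds v) (n := 2) (by norm_num)
    exact ⟨z, by rw [← hz, sq]⟩
  obtain ⟨r, s, hrs⟩ := split_of_sq h2 v hv1 hsq
  obtain ⟨a, rfl⟩ : ∃ a, v = (a, -(a * (r + s)), a * r * s) := ⟨v.1, hrs⟩
  rw [Rs_split]
  have e : ∀ x : K, hv (m := 4) f x 1 = f 0 + f 1 * x + f 2 * x ^ 2 + f 3 * x ^ 3 + f 4 * x ^ 4 := by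
    intro x
    unfold hv
    rw [Fin.sum_univ_five]
    simp
  rw [e, e]
  unfold R4
  simp only
  ring

theorem QX1_map {F F' : Type} [CommRing F] [CommRing F'] (φ : F →+* F') (f : Fin 5 → F) (v : F × F × F) :
    φ (R4 f v) = R4 (fun i => φ (f i)) (φ v.1, φ v.2.1, φ v.2.2) := by
  unfold R4
  simp only [map_add, map_mul, map_pow, map_sub, map_neg, map_ofNat]

theorem QX1_univ : Rs (m := 4) (fun i : Fin 5 => (MvPolynomial.X (Fin.castLE (by norm_num : 5 ≤ 8) i) : MvPolynomial (Fin 8) ℤ))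
    (MvPolynomial.X 5, MvPolynomial.X 6, MvPolynomial.X 7) =
    R4 (fun i : Fin 5 => (MvPolynomial.X (Fin.castLE (by norm_num : 5 ≤ 8) i) : MvPolynomial (Fin 8) ℤ))
    (MvPolynomial.X 5, MvPolynomial.X 6, MvPolynomial.X 7) := by
  let R := MvPolynomial (Fin 8) ℤ
  let K := AlgebraicClosure (FractionRing R)
  let φ : R →+* K := (algebraMap (FractionRing R) K).comp (algebraMap R (FractionRing R))
  have hφ : Function.Injective φ :=
    (algebraMap (FractionRing R) K).injective.comp (IsFractionRing.injective R (FractionRing R))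
  have h2 : (2 : K) ≠ 0 := by
    have h : φ 2 ≠ 0 := by
      intro h0
      have h1 : (2 : R) = 0 := hφ (by rw [h0, map_zero])
      exact two_ne_zero h1
    rwa [map_ofNat] at h
  apply hφ
  rw [Rs_map, QX1_map]
  refine QX1_aux1 h2 _ _ ?_
  show φ (MvPolynomial.X 5) ≠ 0
  intro h0
  have h1 : (MvPolynomial.X 5 : R) = 0 := hφ (by rw [h0, map_zero])
  exact MvPolynomial.X_ne_zero 5 h1

/-- Proof. Both sides commute with ring homomorphisms (`HNF.Rs_map` in HA1.lean: for every `φ`), so it is enough to prove it for the universal case: `F = MvPolynomial (Fin 8) ℤ`, `f i = X i`, `v = (X 5, X 6, X 7)` (the general case is the image under `MvPolynomial.eval₂Hom (Int.castRingHom F) ..`; `F : Type` is fine). This ring is a domain and embeds in an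
algebraic closure `K` of its fraction field, of characteristic zero; over `K`: `a = X 5 ≠ 0` and `a x² + b x + c` splits, `v = (a, -(a (r + s)), a r s)` (`HNF.split_of_sq` as every element is a square in `K`), where `Rs_split` (file RC) and `ring` (after `unfold hv`, `Fin.sum_univ_five`) give the claim.
(Alternative: direct computation of the 6 × 6 Sylvester determinant; not recommended.) -/
theorem Rs_eq_R4 {F : Type} [CommRing F] (f : Fin 5 → F) (v : F × F × F) : Rs f v = R4 f v := by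
  let ψ : MvPolynomial (Fin 8) ℤ →+* F :=
    MvPolynomial.eval₂Hom (Int.castRingHom F) ![f 0, f 1, f 2, f 3, f 4, v.1, v.2.1, v.2.2]
  have h := congrArg ψ QX1_univ
  rw [Rs_map, QX1_map] at h
  have e1 : (fun i : Fin 5 => ψ (MvPolynomial.X (Fin.castLE (by norm_num : 5 ≤ 8) i))) = f := by
    funext i
    fin_cases i <;> simp [ψ]
  have e2 : ψ (MvPolynomial.X 5) = v.1 := by simp [ψ]
  have e3 : ψ (MvPolynomial.X 6) = v.2.1 := by simp [ψ]
  have e4 : ψ (MvPolynomial.X 7) = v.2.2 := by simp [ψ]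
  rw [e1] at h
  simp only [e2, e3, e4] at h
  exact h

theorem QX1_dir_w {F : Type} [CommRing F] (k : F) (v w : F × F × F) :
    RQ ![k, 0, 0, 0, 1, 0] v w = w.1 ^ 4 * ((v.2.2 - k * v.1) ^ 2 + k * v.2.1 ^ 2) ^ 2 := by
  have h : Bq ![k, 0, 0, 0, 1, 0] w = ![k ^ 2 * w.1 ^ 2, 0, 2 * k * w.1 ^ 2, 0, w.1 ^ 2] := by
    funext i
    fin_cases i <;> simp [Bq] <;> ring
  unfold RQ
  rw [h]
  have h2 := Rs_eq_R4 ![k ^ 2 * w.1 ^ 2, 0, 2 * k * w.1 ^ 2, 0, w.1 ^ 2] v
  rw [h2]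
  simp [R4]
  ring

theorem QX1_dir_v {F : Type} [CommRing F] (k : F) (v w : F × F × F) (hw : w.1 = 0) :
    RQ ![k, 0, 0, 0, 0, 1] v w = v.1 ^ 4 * (w.2.2 ^ 2 + k * w.2.1 ^ 2) ^ 2 := by
  have h : Bq ![k, 0, 0, 0, 0, 1] w = ![w.2.2 ^ 2 + k * w.2.1 ^ 2, 0, 0, 0, 0] := by
    funext i
    fin_cases i <;> simp [Bq, hw]
    ring
  unfold RQ
  rw [h]
  have h2 := Rs_eq_R4 ![w.2.2 ^ 2 + k * w.2.1 ^ 2, 0, 0, 0, 0] v
  rw [h2]
  simp [R4]
  ring

theorem QX1_kap {F : Type} [Field F] (h2 : (2 : F) ≠ 0) (a b c : F) (h : ¬ (a = 0 ∧ b = 0 ∧ c = 0)) :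
    ∃ k : F, (c - k * a) ^ 2 + k * b ^ 2 ≠ 0 := by
  by_contra hk
  push Not at hk
  have h0 := hk 0
  have h1 := hk 1
  have h3 := hk (-1)
  have hc : c = 0 := by
    have : c ^ 2 = 0 := by linear_combination h0
    exact pow_eq_zero_iff (two_ne_zero) |>.1 this
  subst hc
  have ha : a = 0 := by
    have h4 : 2 * a ^ 2 = 0 := by linear_combination h1 + h3
    rcases mul_eq_zero.1 h4 with h5 | h5
    · exact absurd h5 h2
    · exact pow_eq_zero_iff (two_ne_zero) |>.1 h5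
  subst ha
  have hb : b = 0 := by
    have : b ^ 2 = 0 := by linear_combination h1
    exact pow_eq_zero_iff (two_ne_zero) |>.1 this
  exact h ⟨rfl, hb, rfl⟩

/-- Proof. Let `w.1 ≠ 0` (and `v ≠ 0`). There is `κ` with `(v.2.2 - κ v.1)² + κ v.2.1² ≠ 0` (a nonzero polynomial in `κ` of degree at most 2, and `p ≥ 3`); `d = (κ, 0, 0, 0, 1, 0)` (the form `x² + κ z²`) has `RQ d v w = w.1 ^ 4 * ((v.2.2 - κ v.1)² + κ v.2.1²) ^ 2 ≠ 0` (`Rs_eq_R4`, `ring`). If `w.1 = 0`, `v.1 ≠ 0`, `w ≠ 0`: there is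
`κ` with `w.2.2² + κ w.2.1² ≠ 0` and `d = (κ, 0, 0, 0, 0, 1)` has `RQ d v w = v.1 ^ 4 (w.2.2² + κ w.2.1²)² ≠ 0`. -/
theorem exists_dir (p : ℕ) [Fact p.Prime] (h2 : p ≠ 2) (v w : ZMod p × ZMod p × ZMod p) (hv0 : v ≠ 0) (hw0 : w ≠ 0)
    (h1 : ¬ (v.1 = 0 ∧ w.1 = 0)) : ∃ d : Fin 6 → ZMod p, RQ d v w ≠ 0 := by
  have h22 : (2 : ZMod p) ≠ 0 := by
    intro h
    have h3 : ((2 : ℕ) : ZMod p) = 0 := by exact_mod_cast h
    rw [ZMod.natCast_eq_zero_iff] at h3
    exact h2 ((Nat.prime_dvd_prime_iff_eq (Fact.out : p.Prime) Nat.prime_two).1 h3)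
  by_cases hw1 : w.1 = 0
  · have hv1 : v.1 ≠ 0 := fun h => h1 ⟨h, hw1⟩
    obtain ⟨k, hk⟩ := QX1_kap h22 0 w.2.1 w.2.2 (by
      rintro ⟨_, hb, hc⟩
      exact hw0 (Prod.ext hw1 (Prod.ext hb hc)))
    refine ⟨![k, 0, 0, 0, 0, 1], ?_⟩
    rw [QX1_dir_v k v w hw1]
    refine mul_ne_zero (pow_ne_zero _ hv1) (pow_ne_zero _ ?_)
    intro h
    exact hk (by linear_combination h)
  · obtain ⟨k, hk⟩ := QX1_kap h22 v.1 v.2.1 v.2.2 (by
      rintro ⟨ha, hb, hc⟩
      exact hv0 (Prod.ext ha (Prod.ext hb hc)))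
    refine ⟨![k, 0, 0, 0, 1, 0], ?_⟩
    rw [QX1_dir_w k v w]
    exact mul_ne_zero (pow_ne_zero _ hw1) (pow_ne_zero _ hk)

theorem QX1_homB {F : Type} [CommRing F] (t : F) (c : Fin 6 → F) (w : F × F × F) (i : Fin 5) :
    Bq (fun j => t * c j) w i = t ^ 2 * Bq c w i := by
  fin_cases i <;> simp [Bq] <;> ring

theorem QX1_homR {F : Type} [CommRing F] (t : F) (f : Fin 5 → F) (v : F × F × F) :
    R4 (fun i => t * f i) v = t ^ 2 * R4 f v := by
  unfold R4
  ring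

theorem QX1_hom {F : Type} [CommRing F] (t : F) (c : Fin 6 → F) (v w : F × F × F) :
    RQ (fun j => t * c j) v w = t ^ 4 * RQ c v w := by
  have h1 : RQ (fun j => t * c j) v w = R4 (Bq (fun j => t * c j) w) v := Rs_eq_R4 _ _
  have h2 : RQ c v w = R4 (Bq c w) v := Rs_eq_R4 _ _
  have h3 : Bq (fun j => t * c j) w = fun i => t ^ 2 * Bq c w i := funext fun i => QX1_homB t c w i
  rw [h1, h2, h3, QX1_homR]
  ring

theorem QX1_degR {F : Type} [Field F] (f : Fin 5 → F[X]) (v : F × F × F) (hf : ∀ i, (f i).natDegree ≤ 2) :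
    (R4 f (C v.1, C v.2.1, C v.2.2)).natDegree ≤ 8 := by
  have h0 := hf 0
  have h1 := hf 1
  have h2 := hf 2
  have h3 := hf 3
  have h4 := hf 4
  unfold R4
  simp only
  compute_degree
  all_goals omega

theorem QX1_degB {F : Type} [Field F] (c d : Fin 6 → F) (w : F × F × F) (i : Fin 5) :
    (Bq (fun i => X * C (c i) + C (d i)) (C w.1, C w.2.1, C w.2.2) i).natDegree ≤ 2 := by
  fin_cases i <;> simp only [Bq] <;> (try simp) <;> compute_degree

theorem QX1_sum_ind {α : Type} [Fintype α] (P : α → Prop) :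
    ∑ t, ind (P t) = ((Finset.univ.filter fun t => P t).card : ℝ) := by
  rw [Finset.card_filter]
  push_cast
  refine Finset.sum_congr rfl fun t _ => ?_
  by_cases h : P t
  · rw [if_pos h]
    unfold ind
    rw [if_pos h]
  · rw [if_neg h]
    unfold ind
    rw [if_neg h]

theorem QX1_line {p : ℕ} [Fact p.Prime] (v w : ZMod p × ZMod p × ZMod p) (d : Fin 6 → ZMod p) (hd : RQ d v w ≠ 0)
    (c : Fin 6 → ZMod p) :
    (Finset.univ.filter fun t : ZMod p => RQ (fun j => c j + t * d j) v w = 0).card ≤ 9 := by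
  set Q : (ZMod p)[X] := RQ (fun i => X * C (c i) + C (d i)) (C v.1, C v.2.1, C v.2.2) (C w.1, C w.2.1, C w.2.2) with hQ
  have hev : ∀ s : ZMod p, Q.eval s = RQ (fun j => s * c j + d j) v w := by
    intro s
    have h := RQ_map (Polynomial.evalRingHom s) (fun i => X * C (c i) + C (d i)) (C v.1, C v.2.1, C v.2.2)
      (C w.1, C w.2.1, C w.2.2)
    simp only [coe_evalRingHom, eval_add, eval_mul, eval_X, eval_C] at h
    exact h
  have hQ0 : Q ≠ 0 := by
    intro h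
    have h1 := hev 0
    rw [h, eval_zero] at h1
    have h2 : (fun j => (0 : ZMod p) * c j + d j) = d := by
      funext j
      ring
    rw [h2] at h1
    exact hd h1.symm
  have hdeg : Q.natDegree ≤ 8 := by
    have h := Rs_eq_R4 (Bq (fun i => X * C (c i) + C (d i)) (C w.1, C w.2.1, C w.2.2)) (C v.1, C v.2.1, C v.2.2)
    rw [hQ]
    unfold RQ
    rw [h]
    exact QX1_degR _ _ fun i => QX1_degB c d w i
  have hsub : (Finset.univ.filter fun t : ZMod p => RQ (fun j => c j + t * d j) v w = 0) ⊆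
      insert 0 ((Q.roots.toFinset).image fun s => s⁻¹) := by
    intro t ht
    rw [Finset.mem_filter] at ht
    rw [Finset.mem_insert]
    by_cases ht0 : t = 0
    · exact Or.inl ht0
    · refine Or.inr (Finset.mem_image.2 ⟨t⁻¹, ?_, inv_inv t⟩)
      rw [Multiset.mem_toFinset, mem_roots hQ0, IsRoot.def, hev]
      have h1 := QX1_hom t⁻¹ (fun j => c j + t * d j) v w
      rw [ht.2, mul_zero] at h1
      rw [← h1]
      congr 1
      funext j
      field_simp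
  calc _ ≤ (insert 0 ((Q.roots.toFinset).image fun s => s⁻¹)).card := Finset.card_le_card hsub
    _ ≤ ((Q.roots.toFinset).image fun s => s⁻¹).card + 1 := Finset.card_insert_le _ _
    _ ≤ Q.roots.toFinset.card + 1 := by
        have := Finset.card_image_le (s := Q.roots.toFinset) (f := fun s => s⁻¹)
        omega
    _ ≤ Q.roots.card + 1 := by
        have := Multiset.toFinset_card_le Q.roots
        omega
    _ ≤ Q.natDegree + 1 := by
        have := Q.card_roots'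
        omega
    _ ≤ 9 := by omega

/-- Proof. Take `d` of `exists_dir`. For each `c` the number of `s : ZMod p` with `RQ (s • c + d) v w = 0` is at most 8: it is the value at `s` of the polynomial `RQ (fun i => X * C (c i) + C (d i)) (C ..) (C ..)` (`RQ_map` for the evaluation), which is not zero (value `RQ d v w ≠ 0` at `0`) of `natDegree ≤ 8` (`Rs_eq_R4`; the entries of `Bq` have
degree at most 2). For `t ≠ 0`: `RQ (c + t • d) v w = t ^ 4 * RQ (t⁻¹ • c + d) v w` (homogeneity: first `Bq (t c) w i = t ^ 2 * Bq c w i` by `fin_cases i <;> simp [Bq] <;> ring`, then `R4 (t f) v = t ^ 2 * R4 f v` by `unfold R4; ring`, twice; do NOT try one big `ring`). So on every line `{c + t d}` at most 9 values of `t` give zero. The lines have the same length: `∑_c ind (RQ c = 0) = (1/p) ∑_c ∑_t ind (RQ (c + t d) = 0) ≤ (1/p) p^6 · 9`. -/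
theorem mF_RQ (p : ℕ) [Fact p.Prime] (h2 : p ≠ 2) (v w : ZMod p × ZMod p × ZMod p) (hv0 : v ≠ 0) (hw0 : w ≠ 0)
    (h1 : ¬ (v.1 = 0 ∧ w.1 = 0)) : mF 5 p (fun c => ind (RQ c v w = 0)) ≤ 9 / (p : ℝ) := by
  obtain ⟨d, hd⟩ := exists_dir p h2 v w hv0 hw0 h1
  have hp : (0 : ℝ) < p := by
    have := (Fact.out : p.Prime).pos
    exact_mod_cast this
  have hline : ∀ c : Fin 6 → ZMod p, ∑ t : ZMod p, ind (RQ (fun j => c j + t * d j) v w = 0) ≤ 9 := by
    intro c
    have h := QX1_line v w d hd c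
    rw [QX1_sum_ind]
    exact_mod_cast h
  have hshift : ∀ t : ZMod p, ∑ c : Fin 6 → ZMod p, ind (RQ (fun j => c j + t * d j) v w = 0) =
      ∑ c : Fin 6 → ZMod p, ind (RQ c v w = 0) := by
    intro t
    exact Equiv.sum_comp (Equiv.addRight (fun j => t * d j)) (fun c : Fin 6 → ZMod p => ind (RQ c v w = 0))
  have hcard : (Fintype.card (Fin 6 → ZMod p) : ℝ) = (p : ℝ) ^ 6 := by
    rw [Fintype.card_fun, ZMod.card, Fintype.card_fin]
    push_cast
    ring
  have key : (p : ℝ) * ∑ c : Fin 6 → ZMod p, ind (RQ c v w = 0) ≤ 9 * (p : ℝ) ^ 6 := by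
    calc (p : ℝ) * ∑ c : Fin 6 → ZMod p, ind (RQ c v w = 0)
        = ∑ t : ZMod p, ∑ c : Fin 6 → ZMod p, ind (RQ (fun j => c j + t * d j) v w = 0) := by
          rw [Finset.sum_congr rfl fun t _ => hshift t, Finset.sum_const, Finset.card_univ, ZMod.card, nsmul_eq_mul]
      _ = ∑ c : Fin 6 → ZMod p, ∑ t : ZMod p, ind (RQ (fun j => c j + t * d j) v w = 0) := Finset.sum_comm
      _ ≤ ∑ c : Fin 6 → ZMod p, (9 : ℝ) := Finset.sum_le_sum fun c _ => hline c
      _ = 9 * (p : ℝ) ^ 6 := by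
          rw [Finset.sum_const, Finset.card_univ, nsmul_eq_mul, hcard]
          ring
  unfold mF
  rw [div_le_div_iff₀ (pow_pos hp _) hp]
  have e : (p : ℝ) ^ (5 + 1) = (p : ℝ) ^ 6 := by norm_num
  rw [e]
  calc _ = (p : ℝ) * ∑ c : Fin 6 → ZMod p, ind (RQ c v w = 0) := mul_comm _ _
    _ ≤ _ := key

end HNQ
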